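import Mathlib

set_option autoImplicit false

open MeasureTheory Set Filter Topology

namespace Volt919

/-- Lebesgue measure on `[0,1]`. -/
noncomputable def mI : Measure ℝ := volume.restrict (Icc (0:ℝ) 1)

instance : IsFiniteMeasure mI := by
  unfold mI; infer_instance

/-- The Banach space `L¹[0,1]` of (classes of) integrable complex functions on `[0,1]`. -/
abbrev V : Type := Lp ℂ 1 mI

/-- Truncated convolution of two functions. -/
noncomputable def cv (f g : ℝ → ℂ) (t : ℝ) : ℂ := ∫ s in (0:ℝ)..t, f s * g (t - s)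


/-- extension by zero -/
noncomputable def g01_ext (f : ℝ → ℂ) : ℝ → ℂ := (Icc (0:ℝ) 1).indicator f

theorem g01_int (f : V) : Integrable (g01_ext f) volume := by
  unfold g01_ext
  rw [integrable_indicator_iff measurableSet_Icc]
  exact L1.integrable_coeFn f

/-- the convolution on the line -/
noncomputable def g01_H (f g : ℝ → ℂ) (t : ℝ) : ℂ :=
  ∫ s, g01_ext f s * g01_ext g (t - s)

theorem g01_H_int (f g : V) : Integrable (g01_H f g) volume :=
  (g01_int f).integrable_convolution (ContinuousLinearMap.mul ℝ ℂ) (g01_int g)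

theorem g01_eq (f g : ℝ → ℂ) {t : ℝ} (ht : t ∈ Icc (0:ℝ) 1) : cv f g t = g01_H f g t := by
  unfold cv g01_H
  rw [intervalIntegral.integral_of_le ht.1, ← integral_Icc_eq_integral_Ioc,
    ← integral_indicator measurableSet_Icc]
  congr 1
  funext s
  unfold g01_ext
  by_cases hs : s ∈ Icc (0:ℝ) t
  · have h1 : s ∈ Icc (0:ℝ) 1 := ⟨hs.1, hs.2.trans ht.2⟩
    have h2 : t - s ∈ Icc (0:ℝ) 1 := ⟨by linarith [hs.2], by linarith [hs.1, ht.2]⟩
    rw [indicator_of_mem hs, indicator_of_mem h1, indicator_of_mem h2]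
  · rw [indicator_of_notMem hs]
    by_cases h1 : s ∈ Icc (0:ℝ) 1
    · have h2 : t - s ∉ Icc (0:ℝ) 1 := by
        intro h2
        exact hs ⟨h1.1, by linarith [h2.1]⟩
      rw [indicator_of_notMem h2, mul_zero]
    · rw [indicator_of_notMem h1, zero_mul]

theorem g01_ae (f g : ℝ → ℂ) : g01_H f g =ᵐ[mI] cv f g := by
  unfold mI
  rw [Filter.EventuallyEq, ae_restrict_iff' measurableSet_Icc]
  exact Filter.Eventually.of_forall fun t ht => (g01_eq f g ht).symm

theorem cv_integrable (f g : V) : Integrable (cv f g) mI := by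
  have h1 : Integrable (g01_H f g) mI := (g01_H_int f g).mono_measure Measure.restrict_le_self
  exact h1.congr (g01_ae f g)

/-- The product of `L¹[0,1]`. -/
noncomputable def conv (f g : V) : V := (cv_integrable f g).toL1 _

/-- The constant function one. -/
noncomputable def u : V := (integrable_const (μ := mI) (1:ℂ)).toL1 _

/-- convolution powers: `cpow f n = f^{n+1}` -/
noncomputable def cpow (f : V) : ℕ → V
  | 0 => f
  | n + 1 => conv f (cpow f n)

/-- `T` (a bijective linear map) is an automorphism of the algebra `L¹[0,1]`. -/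
def IsAut (T : V ≃ₗ[ℂ] V) : Prop := ∀ f g : V, T (conv f g) = conv (T f) (T g)

/-- The class of functions `G` on `[0,1)` with `|G(0)| + Var(G;[0,a]) ≤ C/(1-a)` for all
`a < 1` and some constant `C`. -/
def InG (G : ℝ → ℂ) : Prop :=
  ∃ C : ℝ, ∀ a ∈ Ico (0:ℝ) 1,
    ENNReal.ofReal ‖G 0‖ + eVariationOn G (Icc 0 a) ≤ ENNReal.ofReal (C / (1 - a))

/-- `α(f) = 0`: `f` does not vanish almost everywhere on any interval `[0,δ)`. -/
def Alpha0 (f : V) : Prop := ∀ δ > 0, ¬ ∀ᵐ t ∂mI, t < δ → f t = 0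

/-- `k` is the convolution of `h` with the measure `dG` whose distribution function is `G`:
for almost all `t` in `[0,1]`, `∫₀ᵗ k(s) ds = ∫₀ᵗ G(t-s) h(s) ds`. -/
def IsDConv (G h k : ℝ → ℂ) : Prop :=
  ∀ᵐ t ∂mI, ∫ s in (0:ℝ)..t, k s = ∫ s in (0:ℝ)..t, G (t - s) * h s

/-- On `[0,a)` the bounded operator `D` is convolution with the measure `dG`. -/
def IsDOp (a : ℝ) (G : ℝ → ℂ) (D : V →L[ℂ] V) : Prop :=
  ∀ h : V, ∀ᵐ t ∂mI, t < a → ∫ s in (0:ℝ)..t, (D h) s = ∫ s in (0:ℝ)..t, G (t - s) * h s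

/-- `g = ∑ₙ (1/n!) (dG)^{*n} * (tⁿ f)`, with convergence in `L¹[0,a]` for every `a < 1`: here `D`
is convolution with `dG` on `[0,a)` and `v n` is the function `tⁿ f(t)`. -/
def Expo (G : ℝ → ℂ) (f g : V) : Prop :=
  ∀ a ∈ Ioo (0:ℝ) 1, ∃ (D : V →L[ℂ] V) (v : ℕ → V), IsDOp a G D ∧
    (∀ n, (v n : ℝ → ℂ) =ᵐ[mI] fun t => (t:ℂ) ^ n * f t) ∧
    Tendsto (fun N => ∫ t in (0:ℝ)..a, ‖(∑ n ∈ Finset.range N,
      ((n.factorial : ℂ)⁻¹) • (D ^ n) (v n) : V) t - g t‖) atTop (𝓝 0)

end Volt919
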