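import Mathlib
import Pool.Agent.Helper919.Volt.Defs

set_option autoImplicit false

open MeasureTheory Set Filter Topology

namespace Volt919

/-! ### L0: algebra -/

theorem norm_eq (f : V) : ‖f‖ = ∫ t in (0:ℝ)..1, ‖f t‖ := by
  rw [L1.norm_eq_integral_norm, intervalIntegral.integral_of_le zero_le_one,
    ← integral_Icc_eq_integral_Ioc]
  rfl

theorem g01_norm (f : V) : ∫ t, ‖g01_ext f t‖ = ‖f‖ := by
  rw [L1.norm_eq_integral_norm]
  unfold g01_ext mI
  rw [← integral_indicator measurableSet_Icc]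
  congr 1
  funext t
  rw [norm_indicator_eq_indicator_norm]

theorem norm_conv_le (f g : V) : ‖conv f g‖ ≤ ‖f‖ * ‖g‖ := by
  have hF := g01_int f
  have hG := g01_int g
  have hK : Integrable (fun t => ∫ s, ‖g01_ext f s‖ * ‖g01_ext g (t - s)‖) volume :=
    hF.norm.integrable_convolution (ContinuousLinearMap.mul ℝ ℝ) hG.norm
  have hKv : ∫ t, ∫ s, ‖g01_ext f s‖ * ‖g01_ext g (t - s)‖ = ‖f‖ * ‖g‖ := by
    have h := integral_convolution (ContinuousLinearMap.mul ℝ ℝ) hF.norm hG.norm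
      (ν := volume) (μ := volume)
    rw [ContinuousLinearMap.mul_apply', g01_norm, g01_norm] at h
    exact h
  have hle : ∀ t, ‖g01_H f g t‖ ≤ ∫ s, ‖g01_ext f s‖ * ‖g01_ext g (t - s)‖ := by
    intro t
    unfold g01_H
    refine (norm_integral_le_integral_norm _).trans (le_of_eq ?_)
    congr 1
    funext s
    rw [norm_mul]
  calc ‖conv f g‖ = ∫ t, ‖cv f g t‖ ∂mI := by
        unfold conv
        rw [L1.norm_eq_integral_norm]
        apply integral_congr_ae
        filter_upwards [(cv_integrable f g).coeFn_toL1] with t ht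
        rw [ht]
    _ = ∫ t, ‖g01_H f g t‖ ∂mI := by
        apply integral_congr_ae
        filter_upwards [g01_ae f g] with t ht
        rw [ht]
    _ ≤ ∫ t, ‖g01_H f g t‖ := by
        unfold mI
        exact setIntegral_le_integral (g01_H_int f g).norm
          (Filter.Eventually.of_forall fun t => norm_nonneg _)
    _ ≤ ∫ t, ∫ s, ‖g01_ext f s‖ * ‖g01_ext g (t - s)‖ :=
        integral_mono (g01_H_int f g).norm hK hle
    _ = ‖f‖ * ‖g‖ := hKv

/-- indicator extension -/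
noncomputable def g02_ex (f : ℝ → ℂ) : ℝ → ℂ := (Icc (0:ℝ) 1).indicator f

theorem g02_ex_of_mem {f : ℝ → ℂ} {t : ℝ} (h : t ∈ Icc (0:ℝ) 1) : g02_ex f t = f t :=
  Set.indicator_of_mem h f

theorem g02_ex_of_notMem {f : ℝ → ℂ} {t : ℝ} (h : t ∉ Icc (0:ℝ) 1) : g02_ex f t = 0 :=
  Set.indicator_of_notMem h f

/-- convolution on the line -/
noncomputable def g02_cr (f g : ℝ → ℂ) (t : ℝ) : ℂ := ∫ s, f s * g (t - s)

theorem g02_cv_comm (f g : ℝ → ℂ) (t : ℝ) : cv f g t = cv g f t := by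
  unfold cv
  have h := intervalIntegral.integral_comp_sub_left (a := 0) (b := t)
    (fun s => f s * g (t - s)) t
  simp only [sub_self, sub_zero] at h
  rw [← h]
  refine intervalIntegral.integral_congr (fun s _ => ?_)
  show f (t - s) * g (t - (t - s)) = g s * f (t - s)
  rw [sub_sub_cancel, mul_comm]

theorem g02_cv_congr {f f' : ℝ → ℂ} (g : ℝ → ℂ) (h : f =ᵐ[mI] f') {t : ℝ}
    (ht : t ∈ Icc (0:ℝ) 1) : cv f g t = cv f' g t := by
  unfold cv
  have h' : ∀ᵐ s ∂(volume : Measure ℝ), s ∈ Icc (0:ℝ) 1 → f s = f' s :=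
    (ae_restrict_iff' measurableSet_Icc).1 h
  refine intervalIntegral.integral_congr_ae ?_
  filter_upwards [h'] with s hs hst
  rw [uIoc_of_le ht.1] at hst
  rw [hs ⟨hst.1.le, hst.2.trans ht.2⟩]

theorem g02_cv_congr' (f : ℝ → ℂ) {g g' : ℝ → ℂ} (h : g =ᵐ[mI] g') {t : ℝ}
    (ht : t ∈ Icc (0:ℝ) 1) : cv f g t = cv f g' t := by
  rw [g02_cv_comm f g, g02_cv_comm f g', g02_cv_congr f h ht]

theorem g02_ae {f g : ℝ → ℂ} (h : ∀ᵐ t ∂(volume : Measure ℝ), t ∈ Icc (0:ℝ) 1 → f t = g t) :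
    f =ᵐ[mI] g :=
  (ae_restrict_iff' measurableSet_Icc).2 h

theorem g02_conv_ae (f g : V) : (conv f g : ℝ → ℂ) =ᵐ[mI] cv f g :=
  Integrable.coeFn_toL1 (cv_integrable f g)

theorem g02_conv_eq {f g f' g' : V} (h : (cv f g) =ᵐ[mI] (cv f' g')) :
    conv f g = conv f' g' :=
  (Integrable.toL1_eq_toL1_iff _ _ _ _).2 h

/-- the truncated convolution is the convolution on the line -/
theorem g02_cv_eq (f g : ℝ → ℂ) {t : ℝ} (ht : t ∈ Icc (0:ℝ) 1) :
    cv f g t = g02_cr (g02_ex f) (g02_ex g) t := by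
  unfold cv g02_cr
  rw [intervalIntegral.integral_of_le ht.1, ← integral_Icc_eq_integral_Ioc,
    ← integral_indicator measurableSet_Icc]
  congr 1
  funext s
  by_cases hs : s ∈ Icc (0:ℝ) t
  · rw [Set.indicator_of_mem hs, g02_ex_of_mem ⟨hs.1, hs.2.trans ht.2⟩,
      g02_ex_of_mem ⟨by linarith [hs.2], by linarith [hs.1, ht.2]⟩]
  · rw [Set.indicator_of_notMem hs]
    by_cases h0 : 0 ≤ s
    · have h1 : t < s := by
        by_contra h1; exact hs ⟨h0, not_lt.1 h1⟩
      rw [g02_ex_of_notMem (f := g) (t := t - s) (fun h => by linarith [h.1]), mul_zero]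
    · rw [g02_ex_of_notMem (f := f) (t := s) (fun h => h0 h.1), zero_mul]

theorem g02_cr_neg (f g : ℝ → ℂ) {t : ℝ} (ht : t < 0) :
    g02_cr (g02_ex f) (g02_ex g) t = 0 := by
  unfold g02_cr
  have : (fun s => g02_ex f s * g02_ex g (t - s)) = fun _ => 0 := by
    funext s
    by_cases h0 : 0 ≤ s
    · rw [g02_ex_of_notMem (f := g) (t := t - s) (fun h => by linarith [h.1]), mul_zero]
    · rw [g02_ex_of_notMem (f := f) (t := s) (fun h => h0 h.1), zero_mul]
  rw [this, integral_zero]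

theorem g02_left (f g h : ℝ → ℂ) {t : ℝ} (ht : t ∈ Icc (0:ℝ) 1) :
    cv (cv f g) h t = g02_cr (g02_cr (g02_ex f) (g02_ex g)) (g02_ex h) t := by
  rw [g02_cv_eq _ _ ht]
  unfold g02_cr
  congr 1
  funext s
  show g02_ex (cv f g) s * g02_ex h (t - s) =
    g02_cr (g02_ex f) (g02_ex g) s * g02_ex h (t - s)
  by_cases hs : s ∈ Icc (0:ℝ) 1
  · rw [g02_ex_of_mem hs, g02_cv_eq _ _ hs]
  · by_cases h0 : 0 ≤ s
    · have h1 : 1 < s := by
        by_contra h1; exact hs ⟨h0, not_lt.1 h1⟩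
      rw [g02_ex_of_notMem (f := h) (t := t - s) (fun h => by linarith [h.1, ht.2]), mul_zero,
        mul_zero]
    · rw [g02_ex_of_notMem hs, g02_cr_neg _ _ (not_le.1 h0)]

theorem g02_right (f g h : ℝ → ℂ) {t : ℝ} (ht : t ∈ Icc (0:ℝ) 1) :
    cv f (cv g h) t = g02_cr (g02_ex f) (g02_cr (g02_ex g) (g02_ex h)) t := by
  rw [g02_cv_eq _ _ ht]
  unfold g02_cr
  congr 1
  funext s
  show g02_ex f s * g02_ex (cv g h) (t - s) =
    g02_ex f s * g02_cr (g02_ex g) (g02_ex h) (t - s)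
  by_cases hs : s ∈ Icc (0:ℝ) 1
  · by_cases hts : 0 ≤ t - s
    · have h1 : t - s ∈ Icc (0:ℝ) 1 := ⟨hts, by linarith [hs.1, ht.2]⟩
      rw [g02_ex_of_mem h1, g02_cv_eq _ _ h1]
    · rw [g02_cr_neg _ _ (not_le.1 hts),
        g02_ex_of_notMem (f := cv g h) (t := t - s) (fun h => hts h.1)]
  · rw [g02_ex_of_notMem hs, zero_mul, zero_mul]

theorem g02_ex_integrable (f : V) : Integrable (g02_ex f) := by
  unfold g02_ex
  rw [integrable_indicator_iff measurableSet_Icc]
  exact L1.integrable_coeFn f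

theorem g02_assoc (f g h : ℝ → ℂ) (hf : Integrable f) (hg : Integrable g) (hh : Integrable h) :
    ∀ᵐ t : ℝ, g02_cr (g02_cr f g) h t = g02_cr f (g02_cr g h) t := by
  let L : ℂ →L[ℂ] ℂ →L[ℂ] ℂ := ContinuousLinearMap.mul ℂ ℂ
  have h1 : ∀ᵐ y : ℝ, ConvolutionExistsAt f g y L volume :=
    hf.ae_convolution_exists L hg
  have h2 : ∀ᵐ y : ℝ, ConvolutionExistsAt (fun x => ‖g x‖) (fun x => ‖h x‖) y
      (ContinuousLinearMap.mul ℝ ℝ) volume :=
    hg.norm.ae_convolution_exists _ hh.norm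
  have h3 : Integrable (convolution (fun x => ‖g x‖) (fun x => ‖h x‖)
      (ContinuousLinearMap.mul ℝ ℝ) volume) :=
    hg.norm.integrable_convolution _ hh.norm
  have h4 : ∀ᵐ y : ℝ, ConvolutionExistsAt (fun x => ‖f x‖)
      (convolution (fun x => ‖g x‖) (fun x => ‖h x‖) (ContinuousLinearMap.mul ℝ ℝ) volume) y
      (ContinuousLinearMap.mul ℝ ℝ) volume :=
    hf.norm.ae_convolution_exists _ h3
  filter_upwards [h4] with t ht
  have := convolution_assoc (f := f) (g := g) (k := h) (x₀ := t) (μ := volume) (ν := volume)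
    L L L L (fun x y z => by simp [L, mul_assoc])
    hf.aestronglyMeasurable hg.aestronglyMeasurable hh.aestronglyMeasurable h1 h2 ht
  exact this

theorem conv_comm (f g : V) : conv f g = conv g f :=
  g02_conv_eq (Filter.Eventually.of_forall (fun t => g02_cv_comm f g t))

theorem conv_assoc (f g h : V) : conv (conv f g) h = conv f (conv g h) := by
  apply g02_conv_eq
  apply g02_ae
  filter_upwards [g02_assoc _ _ _ (g02_ex_integrable f) (g02_ex_integrable g)
    (g02_ex_integrable h)] with t ht ht'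
  rw [g02_cv_congr h (g02_conv_ae f g) ht', g02_cv_congr' f (g02_conv_ae g h) ht',
    g02_left _ _ _ ht', g02_right _ _ _ ht', ht]

/-- integrability of the integrand -/
theorem g02_int (f g : V) : ∀ᵐ t : ℝ, t ∈ Icc (0:ℝ) 1 →
    IntervalIntegrable (fun s => f s * g (t - s)) volume 0 t := by
  have h1 : ∀ᵐ y : ℝ, ConvolutionExistsAt (g02_ex f) (g02_ex g) y
      (ContinuousLinearMap.mul ℂ ℂ) volume :=
    (g02_ex_integrable f).ae_convolution_exists _ (g02_ex_integrable g)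
  filter_upwards [h1] with t ht ht'
  rw [intervalIntegrable_iff_integrableOn_Icc_of_le ht'.1]
  have h2 : IntegrableOn (fun s => g02_ex f s * g02_ex g (t - s)) (Icc 0 t) volume :=
    Integrable.integrableOn ht
  refine h2.congr_fun (fun s hs => ?_) measurableSet_Icc
  show g02_ex f s * g02_ex g (t - s) = f s * g (t - s)
  rw [g02_ex_of_mem ⟨hs.1, hs.2.trans ht'.2⟩,
      g02_ex_of_mem ⟨by linarith [hs.2], by linarith [hs.1, ht'.2]⟩]

theorem conv_add_right (f g h : V) : conv f (g + h) = conv f g + conv f h := by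
  rw [conv_comm f (g + h), conv_comm f g, conv_comm f h]
  have h0 : cv ((g + h : V) : ℝ → ℂ) f =ᵐ[mI] (cv g f) + (cv h f) := by
    apply g02_ae
    filter_upwards [g02_int g f, g02_int h f] with t h1 h2 ht
    rw [g02_cv_congr f (Lp.coeFn_add g h) ht]
    show (∫ s in (0:ℝ)..t, ((g : ℝ → ℂ) s + (h : ℝ → ℂ) s) * f (t - s)) = _
    simp only [add_mul]
    rw [intervalIntegral.integral_add (h1 ht) (h2 ht)]
    rfl
  have h3 : conv (g + h) f = ((cv_integrable g f).add (cv_integrable h f)).toL1 _ :=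
    (Integrable.toL1_eq_toL1_iff _ _ _ _).2 h0
  rw [h3, Integrable.toL1_add]
  rfl

theorem conv_smul_right (c : ℂ) (f g : V) : conv f (c • g) = c • conv f g := by
  rw [conv_comm f (c • g), conv_comm f g]
  have h0 : cv ((c • g : V) : ℝ → ℂ) f =ᵐ[mI] c • (cv g f) := by
    apply g02_ae
    refine Filter.Eventually.of_forall (fun t ht => ?_)
    rw [g02_cv_congr f (Lp.coeFn_smul c g) ht]
    show (∫ s in (0:ℝ)..t, (c * (g : ℝ → ℂ) s) * f (t - s)) = c * ∫ s in (0:ℝ)..t, g s * f (t - s)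
    simp only [mul_assoc]
    rw [intervalIntegral.integral_const_mul]
  have h3 : conv (c • g) f = ((cv_integrable g f).smul c).toL1 _ :=
    (Integrable.toL1_eq_toL1_iff _ _ _ _).2 h0
  rw [h3]
  exact Integrable.toL1_smul _ (cv_integrable g f) c

theorem conv_add_left (f g h : V) : conv (f + g) h = conv f h + conv g h := by
  rw [conv_comm, conv_add_right, conv_comm h f, conv_comm h g]

theorem conv_smul_left (c : ℂ) (f g : V) : conv (c • f) g = c • conv f g := by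
  rw [conv_comm, conv_smul_right, conv_comm g f]

/-- convolution as a continuous bilinear map -/
noncomputable def cL : V →L[ℂ] V →L[ℂ] V :=
  LinearMap.mkContinuous₂ (LinearMap.mk₂ ℂ conv conv_add_left conv_smul_left conv_add_right
    (fun c f g => conv_smul_right c f g)) 1 (fun f g => by
      simpa using norm_conv_le f g)

theorem cL_apply (f g : V) : cL f g = conv f g := rfl

/-! ### L0: operators -/

theorem g03_mk (T : V → ℝ → ℂ) (C : ℝ) (hint : ∀ f : V, Integrable (T f) mI)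
    (hadd : ∀ f g : V, T (f + g) =ᵐ[mI] fun t => T f t + T g t)
    (hsmul : ∀ (c : ℂ) (f : V), T (c • f) =ᵐ[mI] fun t => c * T f t)
    (hnorm : ∀ f : V, ∫ t, ‖T f t‖ ∂mI ≤ C * ‖f‖) :
    ∃ A : V →L[ℂ] V, ∀ f : V, (A f : ℝ → ℂ) =ᵐ[mI] T f := by
  refine ⟨LinearMap.mkContinuous
    { toFun := fun f => (hint f).toL1 (T f)
      map_add' := ?_
      map_smul' := ?_ } C ?_, ?_⟩
  · intro f g
    rw [← Integrable.toL1_add]
    rw [Integrable.toL1_eq_toL1_iff]
    exact hadd f g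
  · intro c f
    rw [RingHom.id_apply, ← Integrable.toL1_smul]
    rw [Integrable.toL1_eq_toL1_iff]
    exact hsmul c f
  · intro f
    rw [LinearMap.coe_mk, AddHom.coe_mk, L1.norm_of_fun_eq_integral_norm]
    exact hnorm f
  · intro f
    exact Integrable.coeFn_toL1 (hint f)

theorem g03_norm (f : V) : ‖f‖ = ∫ t, ‖f t‖ ∂mI := L1.norm_eq_integral_norm f

theorem mulOp_exists (φ : ℝ → ℂ) (hφ : Measurable φ) (c : ℝ)
    (hb : ∀ t ∈ Icc (0:ℝ) 1, ‖φ t‖ ≤ c) :
    ∃ A : V →L[ℂ] V, ∀ f : V, (A f : ℝ → ℂ) =ᵐ[mI] fun t => φ t * f t := by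
  have hmem : ∀ᵐ t ∂mI, t ∈ Icc (0:ℝ) 1 := by
    unfold mI
    exact ae_restrict_mem measurableSet_Icc
  have hbd : ∀ f : V, ∀ᵐ t ∂mI, ‖φ t * f t‖ ≤ c * ‖f t‖ := by
    intro f
    filter_upwards [hmem] with t ht
    rw [norm_mul]
    exact mul_le_mul_of_nonneg_right (hb t ht) (norm_nonneg _)
  have hint : ∀ f : V, Integrable (fun t => φ t * f t) mI := by
    intro f
    refine Integrable.mono' ((L1.integrable_coeFn f).norm.const_mul c) ?_ (hbd f)
    exact hφ.aestronglyMeasurable.mul (Lp.aestronglyMeasurable f)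
  refine g03_mk (fun f t => φ t * f t) c hint ?_ ?_ ?_
  · intro f g
    filter_upwards [Lp.coeFn_add f g] with t ht
    rw [ht, Pi.add_apply]; ring
  · intro a f
    filter_upwards [Lp.coeFn_smul a f] with t ht
    rw [ht, Pi.smul_apply, smul_eq_mul]; ring
  · intro f
    rw [g03_norm, ← integral_const_mul]
    exact integral_mono_ae (hint f).norm ((L1.integrable_coeFn f).norm.const_mul c) (hbd f)

theorem g03_comp (e : ℝ → ℝ) (he : MeasurePreserving e volume volume) :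
    ∃ A : V →L[ℂ] V, ∀ f : V, (A f : ℝ → ℂ) =ᵐ[mI] fun t => (Icc (0:ℝ) 1).indicator f (e t) := by
  have hI : ∀ f : V, Integrable ((Icc (0:ℝ) 1).indicator (f : ℝ → ℂ)) volume := by
    intro f
    rw [integrable_indicator_iff measurableSet_Icc]
    exact L1.integrable_coeFn f
  have hIe : ∀ f : V, Integrable (fun t => (Icc (0:ℝ) 1).indicator (f : ℝ → ℂ) (e t)) volume := by
    intro f
    exact (he.integrable_comp (hI f).aestronglyMeasurable).2 (hI f)
  have key : ∀ p : ℝ → Prop, (∀ᵐ t ∂(volume.restrict (Icc (0:ℝ) 1)), p t) →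
      ∀ᵐ t ∂mI, (e t ∈ Icc (0:ℝ) 1 → p (e t)) := by
    intro p hp
    rw [ae_restrict_iff' measurableSet_Icc] at hp
    have := he.quasiMeasurePreserving.ae hp
    exact ae_restrict_of_ae this
  refine g03_mk (fun f t => (Icc (0:ℝ) 1).indicator f (e t)) 1 ?_ ?_ ?_ ?_
  · intro f
    exact (hIe f).mono_measure Measure.restrict_le_self
  · intro f g
    filter_upwards [key _ (Lp.coeFn_add f g)] with t ht
    by_cases h : e t ∈ Icc (0:ℝ) 1
    · rw [indicator_of_mem h, indicator_of_mem h, indicator_of_mem h, ht h, Pi.add_apply]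
    · rw [indicator_of_notMem h, indicator_of_notMem h, indicator_of_notMem h, add_zero]
  · intro a f
    filter_upwards [key _ (Lp.coeFn_smul a f)] with t ht
    by_cases h : e t ∈ Icc (0:ℝ) 1
    · rw [indicator_of_mem h, indicator_of_mem h, ht h, Pi.smul_apply, smul_eq_mul]
    · rw [indicator_of_notMem h, indicator_of_notMem h, mul_zero]
  · intro f
    rw [one_mul, g03_norm]
    calc ∫ t, ‖(Icc (0:ℝ) 1).indicator (f : ℝ → ℂ) (e t)‖ ∂mI
        ≤ ∫ t, ‖(Icc (0:ℝ) 1).indicator (f : ℝ → ℂ) (e t)‖ := by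
          refine integral_mono_measure Measure.restrict_le_self ?_ (hIe f).norm
          exact Eventually.of_forall fun t => norm_nonneg _
      _ = ∫ t, ‖(Icc (0:ℝ) 1).indicator (f : ℝ → ℂ) t‖ ∂(Measure.map e volume) := by
          rw [integral_map he.measurable.aemeasurable]
          rw [he.map_eq]
          exact (hI f).norm.aestronglyMeasurable
      _ = ∫ t, ‖(Icc (0:ℝ) 1).indicator (f : ℝ → ℂ) t‖ := by rw [he.map_eq]
      _ = ∫ t, (Icc (0:ℝ) 1).indicator (fun s => ‖f s‖) t := by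
          congr 1
          funext t
          rw [norm_indicator_eq_indicator_norm]
      _ = ∫ t, ‖f t‖ ∂mI := by
          rw [integral_indicator measurableSet_Icc]
          rfl

theorem tau_ex (x : ℝ) : ∃ A : V →L[ℂ] V, 0 ≤ x → ∀ f : V,
    (A f : ℝ → ℂ) =ᵐ[mI] fun t => if x ≤ t then f (t - x) else 0 := by
  obtain ⟨A, hA⟩ := g03_comp (fun t => t - x) (measurePreserving_sub_right volume x)
  refine ⟨A, fun hx f => ?_⟩
  have hmem : ∀ᵐ t ∂mI, t ∈ Icc (0:ℝ) 1 := by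
    unfold mI
    exact ae_restrict_mem measurableSet_Icc
  filter_upwards [hA f, hmem] with t ht h1
  rw [ht]
  by_cases h : x ≤ t
  · rw [if_pos h, indicator_of_mem]
    exact ⟨by linarith, by linarith [h1.2]⟩
  · rw [if_neg h, indicator_of_notMem]
    intro h2
    exact h (by linarith [h2.1])

theorem lam_ex (x : ℝ) : ∃ A : V →L[ℂ] V, 0 ≤ x → ∀ f : V,
    (A f : ℝ → ℂ) =ᵐ[mI] fun t => if t + x ≤ 1 then f (t + x) else 0 := by
  obtain ⟨A, hA⟩ := g03_comp (fun t => t + x) (measurePreserving_add_right volume x)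
  refine ⟨A, fun hx f => ?_⟩
  have hmem : ∀ᵐ t ∂mI, t ∈ Icc (0:ℝ) 1 := by
    unfold mI
    exact ae_restrict_mem measurableSet_Icc
  filter_upwards [hA f, hmem] with t ht h1
  rw [ht]
  by_cases h : t + x ≤ 1
  · rw [if_pos h, indicator_of_mem]
    exact ⟨by linarith [h1.1], h⟩
  · rw [if_neg h, indicator_of_notMem]
    intro h2
    exact h h2.2

theorem P_ex (a : ℝ) : ∃ A : V →L[ℂ] V, ∀ f : V,
    (A f : ℝ → ℂ) =ᵐ[mI] fun t => (if t < a then (1:ℂ) else 0) * f t := by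
  refine mulOp_exists (fun t => if t < a then (1:ℂ) else 0) ?_ 1 ?_
  · exact Measurable.ite measurableSet_Iio measurable_const measurable_const
  · intro t _; split_ifs <;> simp

/-- truncation to `[0,a)` -/
noncomputable def P (a : ℝ) : V →L[ℂ] V := Classical.choose (P_ex a)

theorem P_ae (a : ℝ) (f : V) : (P a f : ℝ → ℂ) =ᵐ[mI] fun t => (if t < a then (1:ℂ) else 0) * f t :=
  Classical.choose_spec (P_ex a) f

theorem M_ex : ∃ A : V →L[ℂ] V, ∀ f : V, (A f : ℝ → ℂ) =ᵐ[mI] fun t => (t:ℂ) * f t := by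
  refine mulOp_exists (fun t => (t:ℂ)) Complex.measurable_ofReal 1 ?_
  intro t ht
  rw [Complex.norm_real, Real.norm_eq_abs, abs_of_nonneg ht.1]; exact ht.2

/-- multiplication by the variable -/
noncomputable def M : V →L[ℂ] V := Classical.choose M_ex

theorem M_ae (f : V) : (M f : ℝ → ℂ) =ᵐ[mI] fun t => (t:ℂ) * f t := Classical.choose_spec M_ex f

theorem E_ex (k : ℝ) : ∃ A : V →L[ℂ] V, ∀ f : V,
    (A f : ℝ → ℂ) =ᵐ[mI] fun t => (Real.exp (-(k * t)) : ℂ) * f t := by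
  refine mulOp_exists (fun t => (Real.exp (-(k * t)) : ℂ)) ?_ (Real.exp |k|) ?_
  · exact Complex.measurable_ofReal.comp (by fun_prop)
  · intro t ht
    rw [Complex.norm_real, Real.norm_eq_abs, abs_of_pos (Real.exp_pos _)]
    apply Real.exp_le_exp.mpr
    have h1 : -(k * t) ≤ |k * t| := neg_le_abs _
    have h2 : |k * t| ≤ |k| := by
      rw [abs_mul, abs_of_nonneg ht.1]
      exact mul_le_of_le_one_right (abs_nonneg _) ht.2
    linarith

/-- multiplication by `exp (-k t)` -/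
noncomputable def E (k : ℝ) : V →L[ℂ] V := Classical.choose (E_ex k)

theorem E_ae (k : ℝ) (f : V) :
    (E k f : ℝ → ℂ) =ᵐ[mI] fun t => (Real.exp (-(k * t)) : ℂ) * f t :=
  Classical.choose_spec (E_ex k) f

/-- right shift by `x` (truncated) -/
noncomputable def tau (x : ℝ) : V →L[ℂ] V := Classical.choose (tau_ex x)

theorem tau_ae {x : ℝ} (hx : 0 ≤ x) (f : V) :
    (tau x f : ℝ → ℂ) =ᵐ[mI] fun t => if x ≤ t then f (t - x) else 0 :=
  Classical.choose_spec (tau_ex x) hx f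

/-- left shift by `x` -/
noncomputable def lam (x : ℝ) : V →L[ℂ] V := Classical.choose (lam_ex x)

theorem lam_ae {x : ℝ} (hx : 0 ≤ x) (f : V) :
    (lam x f : ℝ → ℂ) =ᵐ[mI] fun t => if t + x ≤ 1 then f (t + x) else 0 :=
  Classical.choose_spec (lam_ex x) hx f

/-! ### L0: truncation facts -/

theorem g04_norm (f : V) : ‖f‖ = ∫ t, ‖f t‖ ∂mI := L1.norm_eq_integral_norm f

theorem g04_int (f : V) : Integrable (fun t => ‖f t‖) mI := (L1.integrable_coeFn f).norm

theorem g04_mem : ∀ᵐ t ∂mI, t ∈ Icc (0:ℝ) 1 := ae_restrict_mem measurableSet_Icc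

theorem g04_lt : ∀ᵐ t ∂mI, t < 1 := by
  have h1 : ∀ᵐ t : ℝ ∂volume, t ≠ 1 := by
    rw [ae_iff]
    simp
  filter_upwards [g04_mem, ae_restrict_of_ae h1] with t ht h2
  exact lt_of_le_of_ne ht.2 h2

theorem g04_normP (a : ℝ) (f : V) : ‖P a f‖ = ∫ t, ‖(if t < a then (1:ℂ) else 0) * f t‖ ∂mI := by
  rw [g04_norm]
  refine integral_congr_ae ?_
  filter_upwards [P_ae a f] with t ht
  rw [ht]

theorem g04_intP (a : ℝ) (f : V) :
    Integrable (fun t => ‖(if t < a then (1:ℂ) else 0) * f t‖) mI := by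
  refine (g04_int (P a f)).congr ?_
  filter_upwards [P_ae a f] with t ht
  rw [ht]

theorem norm_P (a : ℝ) (ha : 0 ≤ a) (ha1 : a ≤ 1) (f : V) : ‖P a f‖ = ∫ t in (0:ℝ)..a, ‖f t‖ := by
  rw [g04_normP]
  have h1 : (fun t => ‖(if t < a then (1:ℂ) else 0) * f t‖) = (Iio a).indicator (fun t => ‖f t‖) := by
    funext t
    by_cases h : t < a
    · rw [indicator_of_mem (show t ∈ Iio a from h), if_pos h, one_mul]
    · rw [indicator_of_notMem (show t ∉ Iio a from h), if_neg h, zero_mul, norm_zero]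
  have h0 : mI.restrict (Iio a) = volume.restrict (Iio a ∩ Icc (0:ℝ) 1) := by
    unfold mI
    exact Measure.restrict_restrict measurableSet_Iio
  rw [h1, integral_indicator measurableSet_Iio, intervalIntegral.integral_of_le ha, h0]
  have h5 : Iio a ∩ Icc (0:ℝ) 1 = Ico 0 a := by
    ext t
    simp only [mem_inter_iff, mem_Iio, mem_Icc, mem_Ico]
    constructor
    · rintro ⟨h3, h4, h5⟩
      exact ⟨h4, h3⟩
    · rintro ⟨h3, h4⟩
      exact ⟨h4, h3, by linarith⟩
  rw [h5]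
  exact setIntegral_congr_set Ico_ae_eq_Ioc

theorem P_P (a b : ℝ) (f : V) : P a (P b f) = P (min a b) f := by
  apply Lp.ext
  filter_upwards [P_ae a (P b f), P_ae b f, P_ae (min a b) f] with t h1 h2 h3
  rw [h1, h2, h3]
  by_cases ha : t < a <;> by_cases hb : t < b <;> simp [ha, hb]

theorem P_of_one_le {a : ℝ} (h : 1 ≤ a) (f : V) : P a f = f := by
  apply Lp.ext
  filter_upwards [P_ae a f, g04_lt] with t h1 h2
  rw [h1, if_pos (by linarith), one_mul]

theorem P_of_nonpos {a : ℝ} (h : a ≤ 0) (f : V) : P a f = 0 := by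
  apply Lp.ext
  filter_upwards [P_ae a f, g04_mem, Lp.coeFn_zero ℂ 1 mI] with t h1 h2 h3
  rw [h1, h3, if_neg (by have := h2.1; linarith), zero_mul]
  rfl

theorem norm_split (a : ℝ) (f : V) : ‖f‖ = ‖P a f‖ + ‖f - P a f‖ := by
  have h1 : ‖f - P a f‖ = ∫ t, ‖f t - (if t < a then (1:ℂ) else 0) * f t‖ ∂mI := by
    rw [g04_norm]
    refine integral_congr_ae ?_
    filter_upwards [P_ae a f, Lp.coeFn_sub f (P a f)] with t ht h2
    rw [h2, Pi.sub_apply, ht]
  have h2 : Integrable (fun t => ‖f t - (if t < a then (1:ℂ) else 0) * f t‖) mI := by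
    refine (g04_int (f - P a f)).congr ?_
    filter_upwards [P_ae a f, Lp.coeFn_sub f (P a f)] with t ht h2
    rw [h2, Pi.sub_apply, ht]
  rw [h1, g04_normP, g04_norm, ← integral_add (g04_intP a f) h2]
  refine integral_congr_ae ?_
  filter_upwards with t
  by_cases h : t < a
  · simp [h]
  · simp [h]

theorem norm_P_le (a : ℝ) (f : V) : ‖P a f‖ ≤ ‖f‖ := by
  rw [norm_split a f]
  linarith [norm_nonneg (f - P a f)]

theorem P_conv (a : ℝ) (f g : V) : P a (conv f g) = P a (conv (P a f) g) := by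
  apply Lp.ext
  filter_upwards [P_ae a (conv f g), P_ae a (conv (P a f) g),
    (cv_integrable f g).coeFn_toL1, (cv_integrable (P a f) g).coeFn_toL1, g04_mem]
    with t h1 h2 h3 h4 h5
  rw [h1, h2]
  by_cases h : t < a
  · rw [if_pos h, one_mul, one_mul]
    have e1 : (conv f g : ℝ → ℂ) t = cv f g t := h3
    have e2 : (conv (P a f) g : ℝ → ℂ) t = cv (P a f) g t := h4
    rw [e1, e2, cv, cv]
    refine intervalIntegral.integral_congr_ae ?_
    have h6 : ∀ᵐ t ∂(volume.restrict (Icc (0:ℝ) 1)),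
      (P a f : ℝ → ℂ) t = (if t < a then (1:ℂ) else 0) * f t := P_ae a f
    rw [ae_restrict_iff' measurableSet_Icc] at h6
    filter_upwards [h6] with s hs hs2
    rw [uIoc_of_le h5.1] at hs2
    rw [hs ⟨hs2.1.le, hs2.2.trans h5.2⟩, if_pos (lt_of_le_of_lt hs2.2 h), one_mul]
  · rw [if_neg h, zero_mul, zero_mul]

theorem g04_cont (f : V) : ContinuousOn (fun x => ∫ t in (0:ℝ)..x, ‖f t‖) (Icc 0 1) := by
  have h : IntegrableOn (fun t => ‖f t‖) (uIcc (0:ℝ) 1) := by
    rw [uIcc_of_le zero_le_one]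
    exact g04_int f
  have := intervalIntegral.continuousOn_primitive_interval h
  rwa [uIcc_of_le zero_le_one] at this

theorem P_tendsto_one (f : V) : Tendsto (fun a => P a f) (𝓝[<] 1) (𝓝 f) := by
  rw [tendsto_iff_norm_sub_tendsto_zero]
  have h1 : Tendsto (fun x => ∫ t in (0:ℝ)..x, ‖f t‖) (𝓝[<] 1) (𝓝 (∫ t in (0:ℝ)..1, ‖f t‖)) := by
    have h2 := g04_cont f 1 ⟨zero_le_one, le_rfl⟩
    rw [← nhdsWithin_Ico_eq_nhdsLT (zero_lt_one (α := ℝ))]
    exact h2.mono_left (nhdsWithin_mono _ Ico_subset_Icc_self)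
  rw [← norm_eq f] at h1
  have h3 : Tendsto (fun x => ‖f‖ - ∫ t in (0:ℝ)..x, ‖f t‖) (𝓝[<] 1) (𝓝 (‖f‖ - ‖f‖)) :=
    tendsto_const_nhds.sub h1
  rw [sub_self] at h3
  refine h3.congr' ?_
  have h4 : ∀ᶠ x : ℝ in 𝓝[<] 1, x ∈ Ico (0:ℝ) 1 := Ico_mem_nhdsLT zero_lt_one
  filter_upwards [h4] with x hx
  rw [← norm_P x hx.1 hx.2.le, norm_sub_rev]
  linarith [norm_split x f]

theorem P_tendsto_zero (f : V) : Tendsto (fun a => P a f) (𝓝[>] 0) (𝓝 0) := by
  rw [tendsto_zero_iff_norm_tendsto_zero]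
  have h1 : Tendsto (fun x => ∫ t in (0:ℝ)..x, ‖f t‖) (𝓝[>] 0) (𝓝 (∫ t in (0:ℝ)..0, ‖f t‖)) := by
    have h2 := g04_cont f 0 ⟨le_rfl, zero_le_one⟩
    rw [← nhdsWithin_Ioc_eq_nhdsGT (zero_lt_one (α := ℝ))]
    exact h2.mono_left (nhdsWithin_mono _ Ioc_subset_Icc_self)
  rw [intervalIntegral.integral_same] at h1
  refine h1.congr' ?_
  have h4 : ∀ᶠ x : ℝ in 𝓝[>] 0, x ∈ Ioc (0:ℝ) 1 := Ioc_mem_nhdsGT zero_lt_one
  filter_upwards [h4] with x hx
  rw [norm_P x hx.1.le hx.2]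

theorem P_ext {f g : V} (h : ∀ a ∈ Ioo (0:ℝ) 1, P a f = P a g) : f = g := by
  have h1 := P_tendsto_one f
  have h2 := P_tendsto_one g
  refine tendsto_nhds_unique (h1.congr' ?_) h2
  filter_upwards [Ioo_mem_nhdsLT (zero_lt_one (α := ℝ))] with a ha
  exact h a ha

/-! ### L0: shifts -/

theorem g05_ae_iff (p : ℝ → Prop) :
    (∀ᵐ t ∂mI, p t) ↔ ∀ᵐ t ∂(volume : Measure ℝ), t ∈ Icc (0:ℝ) 1 → p t := by
  unfold mI
  exact ae_restrict_iff' measurableSet_Icc

theorem g05_mem : ∀ᵐ t ∂mI, t ∈ Icc (0:ℝ) 1 :=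
  (g05_ae_iff _).2 (Eventually.of_forall fun _ h => h)

theorem g05_ne (c : ℝ) : ∀ᵐ t ∂mI, t ≠ c := by
  rw [g05_ae_iff]
  have h : ∀ᵐ t ∂(volume : Measure ℝ), t ≠ c := by
    rw [ae_iff]
    simp
  filter_upwards [h] with t ht _
  exact ht

theorem g05_shift {x : ℝ} (hx : 0 ≤ x) {p : ℝ → Prop} (h : ∀ᵐ t ∂mI, p t) :
    ∀ᵐ t ∂mI, x ≤ t → p (t - x) := by
  rw [g05_ae_iff] at h ⊢
  have hq : Measure.QuasiMeasurePreserving (fun t : ℝ => t - x) volume volume :=
    (measurePreserving_sub_right volume x).quasiMeasurePreserving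
  have h2 := hq.ae h
  filter_upwards [h2] with t ht h1 hxt
  exact ht ⟨by linarith, by linarith [h1.2]⟩

theorem g05_conv_ae (f g : V) : (conv f g : ℝ → ℂ) =ᵐ[mI] cv f g :=
  Integrable.coeFn_toL1 (cv_integrable f g)

theorem tau_zero (f : V) : tau 0 f = f := by
  apply Lp.ext
  filter_upwards [tau_ae le_rfl f, g05_mem] with t h1 h2
  rw [h1, if_pos h2.1, sub_zero]

theorem tau_tau {x y : ℝ} (hx : 0 ≤ x) (hy : 0 ≤ y) (f : V) :
    tau x (tau y f) = tau (x + y) f := by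
  apply Lp.ext
  filter_upwards [tau_ae hx (tau y f), tau_ae (add_nonneg hx hy) f,
    g05_shift hx (tau_ae hy f)] with t h1 h2 h3
  rw [h1, h2]
  by_cases h : x ≤ t
  · rw [if_pos h, h3 h]
    by_cases h' : y ≤ t - x
    · rw [if_pos h', if_pos (by linarith), sub_sub]
    · rw [if_neg h', if_neg (fun h4 => h' (by linarith))]
  · rw [if_neg h, if_neg (fun h4 => h (by linarith))]

theorem tau_eq_zero {x : ℝ} (hx : 1 ≤ x) (f : V) : tau x f = 0 := by
  apply Lp.ext
  filter_upwards [tau_ae (zero_le_one.trans hx) f, g05_mem, g05_ne 1,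
    Lp.coeFn_zero ℂ 1 mI] with t h1 h2 h3 h4
  rw [h1, h4, if_neg, Pi.zero_apply]
  intro h5
  exact h3 (le_antisymm h2.2 (hx.trans h5))

theorem g05_tau_ae' {x : ℝ} (hx : 0 ≤ x) (f : V) :
    (tau x f : ℝ → ℂ) =ᵐ[mI] (Ioi x).indicator (fun t => f (t - x)) := by
  filter_upwards [tau_ae hx f, g05_ne x] with t h1 h2
  rw [h1]
  by_cases h : x < t
  · rw [if_pos h.le, indicator_of_mem (by exact h)]
  · rw [if_neg (fun h3 => h (lt_of_le_of_ne h3 h2.symm)), indicator_of_notMem (by exact h)]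

theorem g05_norm_tau {x : ℝ} (hx : 0 ≤ x) (hx1 : x ≤ 1) (f : V) :
    ‖tau x f‖ = ‖P (1 - x) f‖ := by
  rw [norm_eq, norm_P (1 - x) (by linarith) (by linarith)]
  rw [intervalIntegral.integral_of_le zero_le_one]
  have h1 : ∫ t in Ioc (0:ℝ) 1, ‖(tau x f : ℝ → ℂ) t‖ =
      ∫ t in Ioc (0:ℝ) 1, (Ioi x).indicator (fun t => ‖f (t - x)‖) t := by
    apply setIntegral_congr_ae measurableSet_Ioc
    have h2 := g05_tau_ae' hx f
    rw [EventuallyEq, g05_ae_iff] at h2
    filter_upwards [h2] with t ht h3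
    rw [ht ⟨h3.1.le, h3.2⟩]
    by_cases h : t ∈ Ioi x
    · rw [indicator_of_mem h, indicator_of_mem h]
    · rw [indicator_of_notMem h, indicator_of_notMem h, norm_zero]
  rw [h1, setIntegral_indicator measurableSet_Ioi]
  have h4 : Ioc (0:ℝ) 1 ∩ Ioi x = Ioc x 1 := by
    ext t
    simp only [mem_inter_iff, mem_Ioc, mem_Ioi]
    constructor
    · rintro ⟨⟨_, h5⟩, h6⟩
      exact ⟨h6, h5⟩
    · rintro ⟨h5, h6⟩
      exact ⟨⟨by linarith, h6⟩, h5⟩
  rw [h4, ← intervalIntegral.integral_of_le hx1,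
    intervalIntegral.integral_comp_sub_right (fun t => ‖f t‖) x, sub_self]

theorem norm_tau_le {x : ℝ} (hx : 0 ≤ x) (f : V) : ‖tau x f‖ ≤ ‖f‖ := by
  rcases le_total x 1 with h | h
  · rw [g05_norm_tau hx h]
    exact norm_P_le _ _
  · rw [tau_eq_zero h, norm_zero]
    exact norm_nonneg _

theorem tau_conv {x : ℝ} (hx : 0 ≤ x) (f g : V) : tau x (conv f g) = conv (tau x f) g := by
  apply Lp.ext
  have h0 := g05_tau_ae' hx f
  rw [EventuallyEq, g05_ae_iff] at h0
  filter_upwards [tau_ae hx (conv f g), g05_conv_ae (tau x f) g, g05_mem,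
    g05_shift hx (g05_conv_ae f g)] with t h1 h2 h3 h4
  rw [h1, h2]
  have h5 : cv (tau x f) g t = ∫ s in Ioc (0:ℝ) t ∩ Ioi x, f (s - x) * g (t - s) := by
    unfold cv
    rw [intervalIntegral.integral_of_le h3.1, ← setIntegral_indicator measurableSet_Ioi]
    apply setIntegral_congr_ae measurableSet_Ioc
    filter_upwards [h0] with s hs h6
    rw [hs ⟨h6.1.le, h6.2.trans h3.2⟩]
    by_cases h : s ∈ Ioi x
    · rw [indicator_of_mem h, indicator_of_mem h]
    · rw [indicator_of_notMem h, indicator_of_notMem h, zero_mul]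
  rw [h5]
  by_cases h : x ≤ t
  · rw [if_pos h, h4 h]
    have h6 : Ioc (0:ℝ) t ∩ Ioi x = Ioc x t := by
      ext s
      simp only [mem_inter_iff, mem_Ioc, mem_Ioi]
      constructor
      · rintro ⟨⟨_, h5⟩, h6⟩
        exact ⟨h6, h5⟩
      · rintro ⟨h5, h6⟩
        exact ⟨⟨by linarith, h6⟩, h5⟩
    rw [h6, ← intervalIntegral.integral_of_le h]
    have h7 : ∀ s : ℝ, f (s - x) * g (t - s) = (fun r => f r * g (t - x - r)) (s - x) := by
      intro s
      simp only
      rw [show t - x - (s - x) = t - s by ring]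
    simp only [h7]
    rw [intervalIntegral.integral_comp_sub_right (fun r => f r * g (t - x - r)) x, sub_self]
    rfl
  · rw [if_neg h]
    have h6 : Ioc (0:ℝ) t ∩ Ioi x = ∅ := by
      ext s
      simp only [mem_inter_iff, mem_Ioc, mem_Ioi, mem_empty_iff_false, iff_false]
      rintro ⟨⟨_, h5⟩, h6⟩
      exact h (by linarith)
    rw [h6, Measure.restrict_empty, integral_zero_measure]

theorem P_tau {x : ℝ} (hx : 0 ≤ x) (a : ℝ) (f : V) : P a (tau x f) = tau x (P (a - x) f) := by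
  apply Lp.ext
  filter_upwards [P_ae a (tau x f), tau_ae hx f, tau_ae hx (P (a - x) f),
    g05_shift hx (P_ae (a - x) f)] with t h1 h2 h3 h4
  rw [h1, h2, h3]
  by_cases h : x ≤ t
  · rw [if_pos h, if_pos h, h4 h]
    simp only [sub_lt_sub_iff_right]
  · rw [if_neg h, if_neg h, mul_zero]

theorem norm_tau_P {x a : ℝ} (hx : 0 ≤ x) (ha : a + x ≤ 1) (f : V) :
    ‖tau x (P a f)‖ = ‖P a f‖ := by
  rcases le_total x 1 with h | h
  · rw [g05_norm_tau hx h, P_P, min_eq_right (by linarith)]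
  · rw [P_of_nonpos (by linarith : a ≤ 0), map_zero]

theorem g07_cont (f : V) (σ : ℝ) (hσ : |σ| = 1) (T : ℝ → V)
    (hT : ∀ x, 0 ≤ x → (T x : ℝ → ℂ) =ᵐ[mI] fun t => (Icc (0:ℝ) 1).indicator f (t + σ * x)) :
    ContinuousOn T (Ici 0) := by
  have hF : Integrable ((Icc (0:ℝ) 1).indicator f) volume := by
    have h1 : Integrable f mI := L1.integrable_coeFn f
    exact IntegrableOn.integrable_indicator h1 measurableSet_Icc
  set F : ℝ → ℂ := (Icc (0:ℝ) 1).indicator f with hFdef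
  have hmI : mI.real univ = 1 := by
    unfold mI
    simp
  rw [Metric.continuousOn_iff]
  intro b hb ε hε
  obtain ⟨g, hgs, hgF, hgc, hgi⟩ := hF.exists_hasCompactSupport_integral_sub_le
    (show (0:ℝ) < ε / 4 by positivity)
  have huc : UniformContinuous g := hgs.uniformContinuous_of_continuous hgc
  obtain ⟨δ, hδ, hδ'⟩ := Metric.uniformContinuous_iff.1 huc (ε / 4) (by positivity)
  refine ⟨δ, hδ, fun a ha hab => ?_⟩
  have hh : Integrable (fun t => F t - g t) volume := hF.sub hgi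
  have hshift : ∀ c : ℝ, ∫ t, ‖F (t + c) - g (t + c)‖ ∂mI ≤ ε / 4 := by
    intro c
    have h1 : Integrable (fun t => ‖F (t + c) - g (t + c)‖) volume :=
      (hh.comp_add_right c).norm
    have h2 : ∫ t, ‖F (t + c) - g (t + c)‖ ∂mI ≤ ∫ t, ‖F (t + c) - g (t + c)‖ :=
      setIntegral_le_integral h1 (Eventually.of_forall fun t => norm_nonneg _)
    have h3 : ∫ t, ‖F (t + c) - g (t + c)‖ = ∫ t, ‖F t - g t‖ :=
      integral_add_right_eq_self (fun t => ‖F t - g t‖) c
    rw [h3] at h2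
    exact h2.trans hgF
  have hi : ∀ c : ℝ, Integrable (fun t => ‖F (t + c) - g (t + c)‖) mI := fun c =>
    ((hh.comp_add_right c).norm).restrict
  have hgi' : ∀ c c' : ℝ, Integrable (fun t => ‖g (t + c) - g (t + c')‖) mI := fun c c' =>
    (((hgi.comp_add_right c).sub (hgi.comp_add_right c')).norm).restrict
  have hmid : ∫ t, ‖g (t + σ * a) - g (t + σ * b)‖ ∂mI ≤ ε / 4 := by
    have h1 : ∫ t, ‖g (t + σ * a) - g (t + σ * b)‖ ∂mI ≤ ∫ _t, ε / 4 ∂mI := by
      refine integral_mono (hgi' _ _) (integrable_const _) (fun t => ?_)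
      have h2 : dist (t + σ * a) (t + σ * b) < δ := by
        rw [Real.dist_eq] at hab ⊢
        have : t + σ * a - (t + σ * b) = σ * (a - b) := by ring
        rw [this, abs_mul, hσ, one_mul]
        exact hab
      have h3 := hδ' h2
      rw [dist_eq_norm] at h3
      exact h3.le
    rw [integral_const, hmI, one_smul] at h1
    exact h1
  have hnorm : dist (T a) (T b) = ∫ t, ‖(T a : ℝ → ℂ) t - (T b : ℝ → ℂ) t‖ ∂mI := by
    rw [dist_eq_norm, L1.norm_eq_integral_norm]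
    refine integral_congr_ae ?_
    filter_upwards [Lp.coeFn_sub (T a) (T b)] with t ht
    rw [ht]
    rfl
  have hbound : dist (T a) (T b) ≤ ε / 4 + ε / 4 + ε / 4 := by
    rw [hnorm]
    calc ∫ t, ‖(T a : ℝ → ℂ) t - (T b : ℝ → ℂ) t‖ ∂mI
        ≤ ∫ t, (‖F (t + σ * a) - g (t + σ * a)‖ + ‖g (t + σ * a) - g (t + σ * b)‖ +
            ‖F (t + σ * b) - g (t + σ * b)‖) ∂mI := by
          refine integral_mono_of_nonneg (Eventually.of_forall fun t => norm_nonneg _)
            (((hi _).add (hgi' _ _)).add (hi _)) ?_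
          filter_upwards [hT a ha, hT b hb] with t h1 h2
          rw [h1, h2]
          have e : F (t + σ * a) - F (t + σ * b) = (F (t + σ * a) - g (t + σ * a)) +
            (g (t + σ * a) - g (t + σ * b)) - (F (t + σ * b) - g (t + σ * b)) := by ring
          rw [e]
          exact (norm_sub_le _ _).trans (add_le_add (norm_add_le _ _) le_rfl)
      _ = ∫ t, ‖F (t + σ * a) - g (t + σ * a)‖ ∂mI + ∫ t, ‖g (t + σ * a) - g (t + σ * b)‖ ∂mI +
            ∫ t, ‖F (t + σ * b) - g (t + σ * b)‖ ∂mI := by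
          have h12 : Integrable (fun t => ‖F (t + σ * a) - g (t + σ * a)‖ +
            ‖g (t + σ * a) - g (t + σ * b)‖) mI := (hi (σ * a)).add (hgi' (σ * a) (σ * b))
          rw [integral_add h12 (hi _), integral_add (hi _) (hgi' _ _)]
      _ ≤ _ := add_le_add (add_le_add (hshift _) hmid) (hshift _)
  linarith

theorem tau_cont (f : V) : ContinuousOn (fun x => tau x f) (Ici 0) := by
  refine g07_cont f (-1) (by simp) _ (fun x hx => ?_)
  have hmem : ∀ᵐ t ∂mI, t ∈ Icc (0:ℝ) 1 := ae_restrict_mem measurableSet_Icc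
  filter_upwards [tau_ae hx f, hmem] with t ht ht1
  rw [ht]
  have e : t + -1 * x = t - x := by ring
  rw [e]
  by_cases h : x ≤ t
  · rw [if_pos h, indicator_of_mem]
    exact ⟨sub_nonneg.2 h, by linarith [ht1.2]⟩
  · rw [if_neg h, indicator_of_notMem]
    intro h'
    exact h (sub_nonneg.1 h'.1)

theorem lam_cont (f : V) : ContinuousOn (fun x => lam x f) (Ici 0) := by
  refine g07_cont f 1 (by simp) _ (fun x hx => ?_)
  have hmem : ∀ᵐ t ∂mI, t ∈ Icc (0:ℝ) 1 := ae_restrict_mem measurableSet_Icc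
  filter_upwards [lam_ae hx f, hmem] with t ht ht1
  rw [ht, one_mul]
  by_cases h : t + x ≤ 1
  · rw [if_pos h, indicator_of_mem]
    exact ⟨add_nonneg ht1.1 hx, h⟩
  · rw [if_neg h, indicator_of_notMem]
    intro h'
    exact h h'.2

theorem g06_ae_iff (p : ℝ → Prop) : (∀ᵐ t ∂mI, p t) ↔ ∀ᵐ t ∂volume, t ∈ Icc (0:ℝ) 1 → p t := by
  unfold mI
  exact ae_restrict_iff' measurableSet_Icc

theorem g06_shift (c : ℝ) (p : ℝ → Prop) (h : ∀ᵐ t ∂mI, p t) :
    ∀ᵐ t ∂mI, t + c ∈ Icc (0:ℝ) 1 → p (t + c) := by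
  rw [g06_ae_iff] at h
  have h2 := (measurePreserving_add_right (volume : Measure ℝ) c).quasiMeasurePreserving.ae h
  rw [g06_ae_iff]
  filter_upwards [h2] with t ht _
  exact ht

theorem g06_mem : ∀ᵐ t ∂mI, t ∈ Icc (0:ℝ) 1 := by
  rw [g06_ae_iff]
  exact Filter.Eventually.of_forall fun t ht => ht

theorem g06_ne (c : ℝ) : ∀ᵐ t ∂mI, t ≠ c := by
  rw [g06_ae_iff]
  have : ∀ᵐ t ∂(volume : Measure ℝ), t ≠ c := by
    rw [ae_iff]
    simp
  filter_upwards [this] with t ht _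
  exact ht

theorem lam_zero (f : V) : lam 0 f = f := by
  apply Lp.ext
  filter_upwards [lam_ae le_rfl f, g06_mem] with t h1 h2
  rw [h1, add_zero, if_pos h2.2]

theorem lam_tau {x : ℝ} (hx : 0 ≤ x) (f : V) : lam x (tau x f) = P (1 - x) f := by
  apply Lp.ext
  filter_upwards [lam_ae hx (tau x f), g06_mem, g06_shift x _ (tau_ae hx f), g06_ne (1 - x),
    P_ae (1 - x) f] with t h1 h2 h3 h4 h5
  rw [h1, h5]
  by_cases h : t + x ≤ 1
  · have h6 : t < 1 - x := lt_of_le_of_ne (by linarith) h4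
    rw [if_pos h, if_pos h6, h3 ⟨by linarith [h2.1], h⟩, if_pos (by linarith [h2.1]), one_mul,
      add_sub_cancel_right]
  · have h6 : ¬ t < 1 - x := by intro h7; apply h; linarith
    rw [if_neg h, if_neg h6, zero_mul]

theorem tau_lam {x : ℝ} (hx : 0 ≤ x) {f : V} (h : P x f = 0) : tau x (lam x f) = f := by
  apply Lp.ext
  have h0 : (P x f : ℝ → ℂ) =ᵐ[mI] 0 := by
    rw [h]; exact Lp.coeFn_zero _ _ _
  filter_upwards [tau_ae hx (lam x f), g06_mem, g06_shift (-x) _ (lam_ae hx f), h0,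
    P_ae x f] with t h1 h2 h3 h4 h5
  rw [h1]
  by_cases hh : x ≤ t
  · have h6 : t + -x ∈ Icc (0:ℝ) 1 := ⟨by linarith, by linarith [h2.2]⟩
    have h7 := h3 h6
    rw [if_pos hh, sub_eq_add_neg, h7]
    have h8 : t + -x + x = t := by ring
    rw [h8, if_pos h2.2]
  · rw [if_neg hh]
    push Not at hh
    rw [h4] at h5
    rw [if_pos hh, one_mul] at h5
    exact h5

theorem P_lam {x : ℝ} (hx : 0 ≤ x) (a : ℝ) (f : V) : P a (lam x f) = lam x (P (a + x) f) := by
  apply Lp.ext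
  filter_upwards [lam_ae hx f, g06_mem, g06_shift x _ (P_ae (a + x) f), P_ae a (lam x f),
    lam_ae hx (P (a + x) f)] with t h1 h2 h3 h4 h5
  rw [h4, h5, h1]
  by_cases h : t + x ≤ 1
  · rw [if_pos h, if_pos h, h3 ⟨by linarith [h2.1], h⟩]
    by_cases h6 : t < a
    · rw [if_pos h6, if_pos (by linarith)]
    · rw [if_neg h6, if_neg (by intro h7; apply h6; linarith)]
  · rw [if_neg h, if_neg h, mul_zero]

theorem g06_lam_P {x : ℝ} (hx : 0 ≤ x) (f : V) : lam x (P x f) = 0 := by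
  apply Lp.ext
  filter_upwards [lam_ae hx (P x f), g06_mem, g06_shift x _ (P_ae x f),
    Lp.coeFn_zero ℂ 1 mI] with t h1 h2 h3 h4
  rw [h1, h4]
  by_cases h : t + x ≤ 1
  · rw [if_pos h, h3 ⟨by linarith [h2.1], h⟩, if_neg (by linarith [h2.1]), zero_mul]
    rfl
  · rw [if_neg h]
    rfl

theorem norm_lam_le {x : ℝ} (hx : 0 ≤ x) (f : V) : ‖lam x f‖ ≤ ‖f‖ := by
  have h1 : P x (f - P x f) = 0 := by
    rw [map_sub, P_P, min_self, sub_self]
  have h2 : lam x (f - P x f) = lam x f := by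
    rw [map_sub, g06_lam_P hx, sub_zero]
  have h3 := tau_lam hx h1
  rw [h2] at h3
  have h4 : P (1 - x) (lam x f) = lam x f := by
    rw [P_lam hx, P_of_one_le (by linarith)]
  have h5 := norm_tau_P (x := x) (a := 1 - x) hx (by linarith) (lam x f)
  rw [h4, h3] at h5
  rw [← h5]
  have h6 := norm_split x f
  have h7 := norm_nonneg (P x f)
  linarith



/-! ### L0: the derivation M and the weights E -/

theorem g08_mem : ∀ᵐ t ∂mI, t ∈ Icc (0:ℝ) 1 := by
  unfold mI
  exact ae_restrict_mem measurableSet_Icc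

theorem g08_vol {p : ℝ → Prop} (h : ∀ᵐ t ∂mI, p t) : ∀ᵐ t ∂(volume : Measure ℝ), t ∈ Icc (0:ℝ) 1 → p t := by
  unfold mI at h
  exact (ae_restrict_iff' measurableSet_Icc).1 h

theorem g08_of_vol {p : ℝ → Prop} (h : ∀ᵐ t ∂(volume : Measure ℝ), t ∈ Icc (0:ℝ) 1 → p t) :
    ∀ᵐ t ∂mI, p t := by
  unfold mI
  exact (ae_restrict_iff' measurableSet_Icc).2 h

theorem g08_cv_congr {f f' g g' : ℝ → ℂ} (hf : f =ᵐ[mI] f') (hg : g =ᵐ[mI] g') {t : ℝ}
    (ht : t ∈ Icc (0:ℝ) 1) : cv f g t = cv f' g' t := by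
  unfold cv
  apply intervalIntegral.integral_congr_ae
  have h1 := g08_vol hf
  have h2 := g08_vol hg
  have h3 : ∀ᵐ s ∂(volume : Measure ℝ), (t - s) ∈ Icc (0:ℝ) 1 → g (t - s) = g' (t - s) :=
    (Measure.measurePreserving_sub_left volume t).quasiMeasurePreserving.ae h2
  filter_upwards [h1, h3] with s hs1 hs3 hs
  rw [uIoc_of_le ht.1] at hs
  rw [hs1 ⟨hs.1.le, hs.2.trans ht.2⟩, hs3 ⟨by linarith [hs.2], by linarith [hs.1, ht.2]⟩]

theorem g08_conv_ae (f g : V) : (conv f g : ℝ → ℂ) =ᵐ[mI] cv f g :=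
  Integrable.coeFn_toL1 _

theorem g08_int (f g : V) : ∀ᵐ t ∂mI, IntervalIntegrable (fun s => f s * g (t - s)) volume 0 t := by
  have hf : Integrable ((Icc (0:ℝ) 1).indicator (f : ℝ → ℂ)) volume := by
    rw [integrable_indicator_iff measurableSet_Icc]
    exact L1.integrable_coeFn f
  have hg : Integrable ((Icc (0:ℝ) 1).indicator (g : ℝ → ℂ)) volume := by
    rw [integrable_indicator_iff measurableSet_Icc]
    exact L1.integrable_coeFn g
  have h := hf.ae_convolution_exists (ContinuousLinearMap.mul ℂ ℂ) hg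
  apply g08_of_vol
  filter_upwards [h] with t ht htm
  rw [intervalIntegrable_iff_integrableOn_Ioc_of_le htm.1]
  have h1 : IntegrableOn (fun s => (Icc (0:ℝ) 1).indicator (f : ℝ → ℂ) s *
      (Icc (0:ℝ) 1).indicator (g : ℝ → ℂ) (t - s)) (Ioc 0 t) volume := by
    have := ht.integrable
    exact this.integrableOn
  refine h1.congr_fun ?_ measurableSet_Ioc
  intro s hs
  have hs1 : s ∈ Icc (0:ℝ) 1 := ⟨hs.1.le, hs.2.trans htm.2⟩
  have hs2 : t - s ∈ Icc (0:ℝ) 1 := ⟨by linarith [hs.2], by linarith [hs.1, htm.2]⟩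
  simp only [indicator_of_mem hs1, indicator_of_mem hs2]

theorem M_conv (f g : V) : M (conv f g) = conv (M f) g + conv f (M g) := by
  apply Lp.ext
  filter_upwards [M_ae (conv f g), g08_conv_ae f g, Lp.coeFn_add (conv (M f) g) (conv f (M g)),
    g08_conv_ae (M f) g, g08_conv_ae f (M g), g08_mem, g08_int f g] with t h1 h2 h3 h4 h5 h6 h7
  rw [h1, h2, h3, Pi.add_apply, h4, h5, g08_cv_congr (M_ae f) (ae_eq_refl _) h6,
    g08_cv_congr (ae_eq_refl _) (M_ae g) h6]
  unfold cv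
  rw [← intervalIntegral.integral_const_mul, ← intervalIntegral.integral_add]
  · apply intervalIntegral.integral_congr
    intro s _
    push_cast
    ring
  · have : (fun s : ℝ => (s:ℂ) * f s * g (t - s)) = fun s : ℝ => (s:ℂ) * (f s * g (t - s)) := by
      funext s; ring
    rw [this]
    exact h7.continuousOn_mul (Complex.continuous_ofReal.continuousOn)
  · have : (fun s : ℝ => f s * (((t - s : ℝ):ℂ) * g (t - s))) =
        fun s => ((t - s : ℝ):ℂ) * (f s * g (t - s)) := by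
      funext s; ring
    rw [this]
    exact h7.continuousOn_mul
      ((Complex.continuous_ofReal.comp (continuous_const.sub continuous_id)).continuousOn)

theorem M_tau {x : ℝ} (hx : 0 ≤ x) (f : V) : M (tau x f) = tau x (M f) + (x:ℂ) • tau x f := by
  apply Lp.ext
  have hM : ∀ᵐ t ∂(volume : Measure ℝ), (t - x) ∈ Icc (0:ℝ) 1 →
      (M f : ℝ → ℂ) (t - x) = ((t - x : ℝ):ℂ) * f (t - x) :=
    (measurePreserving_sub_right volume x).quasiMeasurePreserving.ae (g08_vol (M_ae f))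
  have hM' : ∀ᵐ t ∂mI, (t - x) ∈ Icc (0:ℝ) 1 →
      (M f : ℝ → ℂ) (t - x) = ((t - x : ℝ):ℂ) * f (t - x) :=
    g08_of_vol (by filter_upwards [hM] with t ht _ using ht)
  filter_upwards [M_ae (tau x f), tau_ae hx f, Lp.coeFn_add (tau x (M f)) ((x:ℂ) • tau x f),
    Lp.coeFn_smul (x:ℂ) (tau x f), tau_ae hx (M f), g08_mem, hM'] with t h1 h2 h3 h4 h5 h6 h7
  rw [h1, h2, h3, Pi.add_apply, h4, Pi.smul_apply, h5, h2]
  split_ifs with hxt
  · rw [h7 ⟨by linarith, by linarith [h6.2]⟩, smul_eq_mul]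
    push_cast
    ring
  · simp

theorem g08_norm_le {f g : V} {c : ℝ} (h : ∀ᵐ t ∂mI, ‖(f : ℝ → ℂ) t‖ ≤ c * ‖(g : ℝ → ℂ) t‖) :
    ‖f‖ ≤ c * ‖g‖ :=
  Lp.norm_le_mul_norm_of_ae_le_mul h

theorem norm_M_P {a : ℝ} (ha : 0 ≤ a) (f : V) : ‖M (P a f)‖ ≤ a * ‖P a f‖ := by
  apply g08_norm_le
  filter_upwards [M_ae (P a f), P_ae a f, g08_mem] with t h1 h2 h3
  rw [h1, h2]
  split_ifs with h
  · rw [norm_mul, Complex.norm_real, Real.norm_eq_abs, abs_of_nonneg h3.1]
    exact mul_le_mul_of_nonneg_right h.le (norm_nonneg _)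
  · simp

theorem norm_M_le (f : V) : ‖M f‖ ≤ ‖f‖ := by
  have : ‖M f‖ ≤ 1 * ‖f‖ := by
    apply g08_norm_le
    filter_upwards [M_ae f, g08_mem] with t h1 h3
    rw [h1, norm_mul, Complex.norm_real, Real.norm_eq_abs, abs_of_nonneg h3.1]
    exact mul_le_mul_of_nonneg_right h3.2 (norm_nonneg _)
  simpa using this

theorem P_M (a : ℝ) (f : V) : P a (M f) = M (P a f) := by
  apply Lp.ext
  filter_upwards [P_ae a (M f), M_ae f, M_ae (P a f), P_ae a f] with t h1 h2 h3 h4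
  rw [h1, h2, h3, h4]
  ring

theorem E_conv (k : ℝ) (f g : V) : E k (conv f g) = conv (E k f) (E k g) := by
  apply Lp.ext
  filter_upwards [E_ae k (conv f g), g08_conv_ae f g, g08_conv_ae (E k f) (E k g), g08_mem]
    with t h1 h2 h3 h6
  rw [h1, h2, h3, g08_cv_congr (E_ae k f) (E_ae k g) h6]
  unfold cv
  rw [← intervalIntegral.integral_const_mul]
  apply intervalIntegral.integral_congr
  intro s _
  have he : (Real.exp (-(k * t)) : ℂ) = (Real.exp (-(k * s)) : ℂ) * (Real.exp (-(k * (t - s))) : ℂ) := by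
    rw [← Complex.ofReal_mul, ← Real.exp_add]
    congr 2
    ring
  simp only
  rw [he]
  ring

theorem E_E (k l : ℝ) (f : V) : E k (E l f) = E (k + l) f := by
  apply Lp.ext
  filter_upwards [E_ae k (E l f), E_ae l f, E_ae (k + l) f] with t h1 h2 h3
  rw [h1, h2, h3, ← mul_assoc, ← Complex.ofReal_mul, ← Real.exp_add]
  congr 3
  ring

theorem E_zero (f : V) : E 0 f = f := by
  apply Lp.ext
  filter_upwards [E_ae 0 f] with t h1
  rw [h1]
  simp

theorem P_E (a k : ℝ) (f : V) : P a (E k f) = E k (P a f) := by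
  apply Lp.ext
  filter_upwards [P_ae a (E k f), E_ae k f, E_ae k (P a f), P_ae a f] with t h1 h2 h3 h4
  rw [h1, h2, h3, h4]
  ring

theorem M_E (k : ℝ) (f : V) : M (E k f) = E k (M f) := by
  apply Lp.ext
  filter_upwards [M_ae (E k f), E_ae k f, E_ae k (M f), M_ae f] with t h1 h2 h3 h4
  rw [h1, h2, h3, h4]
  ring

theorem g08_norm_exp (x : ℝ) : ‖(Real.exp x : ℂ)‖ = Real.exp x := by
  rw [Complex.norm_real, Real.norm_eq_abs, abs_of_pos (Real.exp_pos _)]

theorem norm_E_le {k : ℝ} (hk : 0 ≤ k) (f : V) : ‖E k f‖ ≤ ‖f‖ := by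
  have : ‖E k f‖ ≤ 1 * ‖f‖ := by
    apply g08_norm_le
    filter_upwards [E_ae k f, g08_mem] with t h1 h3
    rw [h1, norm_mul, g08_norm_exp]
    apply mul_le_mul_of_nonneg_right _ (norm_nonneg _)
    rw [Real.exp_le_one_iff]
    have := mul_nonneg hk h3.1
    linarith
  simpa using this

theorem norm_E_sub {k ε : ℝ} (hk : 0 ≤ k) (f : V) :
    ‖E k (f - P ε f)‖ ≤ Real.exp (-(k * ε)) * ‖f‖ := by
  apply g08_norm_le
  filter_upwards [E_ae k (f - P ε f), Lp.coeFn_sub f (P ε f), P_ae ε f, g08_mem]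
    with t h1 h2 h3 h4
  rw [h1, h2, Pi.sub_apply, h3]
  split_ifs with h
  · simp only [one_mul, sub_self, mul_zero, norm_zero]
    positivity
  · simp only [zero_mul, sub_zero]
    rw [norm_mul, g08_norm_exp]
    apply mul_le_mul_of_nonneg_right _ (norm_nonneg _)
    rw [Real.exp_le_exp]
    have := mul_le_mul_of_nonneg_left (not_lt.mp h) hk
    linarith

theorem norm_E_neg {k h : ℝ} (hk : 0 ≤ k) (f : V) :
    ‖E (-k) (P h f)‖ ≤ Real.exp (k * h) * ‖f‖ := by
  apply g08_norm_le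
  filter_upwards [E_ae (-k) (P h f), P_ae h f, g08_mem] with t h1 h3 h4
  rw [h1, h3]
  split_ifs with hh
  · rw [one_mul, norm_mul, g08_norm_exp]
    apply mul_le_mul_of_nonneg_right _ (norm_nonneg _)
    rw [Real.exp_le_exp]
    have := mul_le_mul_of_nonneg_left hh.le hk
    linarith
  · simp only [zero_mul, mul_zero, norm_zero]
    positivity

/-! ### L0: the element u and the approximate identity -/

theorem g09_mem (p : ℝ → Prop) : (∀ᵐ t ∂mI, p t) ↔ ∀ᵐ t ∂(volume : Measure ℝ), t ∈ Icc (0:ℝ) 1 → p t := by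
  unfold mI
  exact ae_restrict_iff' measurableSet_Icc

theorem g09_u_ae : (u : ℝ → ℂ) =ᵐ[mI] fun _ => (1:ℂ) := by
  unfold u
  exact Integrable.coeFn_toL1 _

theorem conv_u_ae (f : V) : (conv u f : ℝ → ℂ) =ᵐ[mI] fun t => ∫ s in (0:ℝ)..t, f s := by
  have h1 : (conv u f : ℝ → ℂ) =ᵐ[mI] cv u f := by
    unfold conv
    exact Integrable.coeFn_toL1 _
  have h2 := (g09_mem _).1 g09_u_ae
  refine h1.trans ((g09_mem _).2 (Eventually.of_forall fun t ht => ?_))
  unfold cv
  have h3 : ∫ s in (0:ℝ)..t, (u : ℝ → ℂ) s * f (t - s) = ∫ s in (0:ℝ)..t, f (t - s) := by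
    apply intervalIntegral.integral_congr_ae
    filter_upwards [h2] with s hs hst
    rw [uIoc_of_le ht.1] at hst
    rw [hs ⟨hst.1.le, hst.2.trans ht.2⟩, one_mul]
  rw [h3, intervalIntegral.integral_comp_sub_left (fun s => (f : ℝ → ℂ) s) t]
  simp

theorem g09_ii (f : V) : IntervalIntegrable (f : ℝ → ℂ) volume 0 1 := by
  have h := L1.integrable_coeFn f
  rw [intervalIntegrable_iff_integrableOn_Icc_of_le zero_le_one]
  exact h

theorem inj_u {a : ℝ} {f : V} (h : P a (conv u f) = 0) : P a f = 0 := by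
  have h1 := P_ae a (conv u f)
  rw [h] at h1
  have h2 := Lp.coeFn_zero ℂ 1 mI
  have h3 := (h2.symm.trans h1)
  have h4 : ∀ᵐ t ∂mI, t < a → ∫ s in (0:ℝ)..t, (f : ℝ → ℂ) s = 0 := by
    filter_upwards [h3, conv_u_ae f] with t ht ht2 hta
    rw [ht2, if_pos hta, one_mul] at ht
    exact ht.symm
  rw [g09_mem] at h4
  set b := min a 1 with hb
  have hF : ContinuousOn (fun t => ∫ s in (0:ℝ)..t, (f : ℝ → ℂ) s) (Icc 0 1) := by
    have := intervalIntegral.continuousOn_primitive_interval' (g09_ii f) (left_mem_uIcc)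
    rwa [uIcc_of_le zero_le_one] at this
  have hsub : Ioo 0 b ⊆ Icc (0:ℝ) 1 := fun x hx => ⟨hx.1.le, hx.2.le.trans (min_le_right _ _)⟩
  have h5 : EqOn (fun t => ∫ s in (0:ℝ)..t, (f : ℝ → ℂ) s) (fun _ => (0:ℂ)) (Ioo 0 b) := by
    apply Measure.eqOn_open_of_ae_eq (μ := volume) _ isOpen_Ioo (hF.mono hsub) continuousOn_const
    rw [Filter.EventuallyEq, ae_restrict_iff' measurableSet_Ioo]
    filter_upwards [h4] with t ht hmem
    exact ht (hsub hmem) (hmem.2.trans_le (min_le_left _ _))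
  have h6 : ∀ᵐ t ∂mI, t < a → (f : ℝ → ℂ) t = 0 := by
    rw [g09_mem]
    have h7 := (g09_ii f).ae_hasDerivAt_integral
    have h8 : ∀ᵐ x : ℝ, x ≠ 0 := by simp [ae_iff, measure_singleton]
    have h9 : ∀ᵐ x : ℝ, x ≠ 1 := by simp [ae_iff, measure_singleton]
    filter_upwards [h7, h8, h9] with x hx hx0 hx1 hmem hxa
    have hd := hx (by rwa [uIcc_of_le zero_le_one]) 0 left_mem_uIcc
    have hxI : x ∈ Ioo 0 b := ⟨lt_of_le_of_ne hmem.1 (Ne.symm hx0),
      lt_min hxa (lt_of_le_of_ne hmem.2 hx1)⟩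
    have hd0 : HasDerivAt (fun t => ∫ s in (0:ℝ)..t, (f : ℝ → ℂ) s) 0 x := by
      apply (hasDerivAt_const x (0:ℂ)).congr_of_eventuallyEq
      filter_upwards [isOpen_Ioo.mem_nhds hxI] with y hy
      exact h5 hy
    exact hd.unique hd0
  apply Lp.ext
  refine (P_ae a f).trans (EventuallyEq.trans ?_ h2.symm)
  filter_upwards [h6] with t ht
  split_ifs with hta
  · simp [ht hta]
  · simp

theorem g09_cpow_ae (n : ℕ) : (cpow u n : ℝ → ℂ) =ᵐ[mI] fun t => (t:ℂ) ^ n / (n.factorial : ℂ) := by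
  induction n with
  | zero =>
    simp only [cpow]
    filter_upwards [g09_u_ae] with t ht
    rw [ht]; simp
  | succ n ih =>
    simp only [cpow]
    refine (conv_u_ae _).trans ?_
    rw [Filter.EventuallyEq, g09_mem] at ih
    rw [Filter.EventuallyEq, g09_mem]
    refine Eventually.of_forall fun t ht => ?_
    have h3 : ∫ s in (0:ℝ)..t, (cpow u n : ℝ → ℂ) s =
        ∫ s in (0:ℝ)..t, (((s ^ n / (n.factorial : ℝ) : ℝ)) : ℂ) := by
      apply intervalIntegral.integral_congr_ae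
      filter_upwards [ih] with s hs hst
      rw [uIoc_of_le ht.1] at hst
      rw [hs ⟨hst.1.le, hst.2.trans ht.2⟩]
      push_cast
      rfl
    rw [h3, intervalIntegral.integral_ofReal, intervalIntegral.integral_div, integral_pow]
    rw [Nat.factorial_succ]
    push_cast
    have h1 : ((n:ℂ) + 1) ≠ 0 := Nat.cast_add_one_ne_zero n
    have h2 : (n.factorial : ℂ) ≠ 0 := Nat.cast_ne_zero.2 (Nat.factorial_ne_zero n)
    field_simp
    simp

theorem M_cpow_u (n : ℕ) : M (cpow u n) = ((n : ℂ) + 1) • cpow u (n + 1) := by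
  apply Lp.ext
  refine (M_ae _).trans (EventuallyEq.trans ?_ (Lp.coeFn_smul _ _).symm)
  filter_upwards [g09_cpow_ae n, g09_cpow_ae (n + 1)] with t h1 h2
  rw [Pi.smul_apply, h1, h2, smul_eq_mul, Nat.factorial_succ]
  push_cast
  have h3 : ((n:ℂ) + 1) ≠ 0 := Nat.cast_add_one_ne_zero n
  have h4 : (n.factorial : ℂ) ≠ 0 := Nat.cast_ne_zero.2 (Nat.factorial_ne_zero n)
  field_simp
  ring

/-- approximate identity `(1/h) 1_{[0,h)}` -/
noncomputable def e (h : ℝ) : V := ((h⁻¹ : ℝ) : ℂ) • (u - tau h u)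

theorem g10_u_ae : ∀ᵐ t ∂mI, (u : ℝ → ℂ) t = 1 := Integrable.coeFn_toL1 _

theorem g10_shift_ae {p : ℝ → Prop} (hp : ∀ᵐ t ∂mI, p t) (h : ℝ) :
    ∀ᵐ t ∂(volume : Measure ℝ), t - h ∈ Icc (0:ℝ) 1 → p (t - h) := by
  unfold mI at hp
  rw [ae_restrict_iff' measurableSet_Icc] at hp
  exact (measurePreserving_sub_right volume h).quasiMeasurePreserving.ae hp

theorem g10_refl_ae {p : ℝ → Prop} (hp : ∀ᵐ t ∂mI, p t) (t : ℝ) :
    ∀ᵐ s ∂(volume : Measure ℝ), t - s ∈ Icc (0:ℝ) 1 → p (t - s) := by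
  unfold mI at hp
  rw [ae_restrict_iff' measurableSet_Icc] at hp
  exact (Measure.measurePreserving_sub_left volume t).quasiMeasurePreserving.ae hp

theorem g10_vol_ae {p : ℝ → Prop} (hp : ∀ᵐ t ∂mI, p t) :
    ∀ᵐ t ∂(volume : Measure ℝ), t ∈ Icc (0:ℝ) 1 → p t := by
  unfold mI at hp
  rwa [ae_restrict_iff' measurableSet_Icc] at hp

theorem g10_tau_u {h : ℝ} (h0 : 0 ≤ h) : u - tau h u = P h u := by
  apply Lp.ext
  have h2 : ∀ᵐ t ∂mI, t - h ∈ Icc (0:ℝ) 1 → (u : ℝ → ℂ) (t - h) = 1 :=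
    ae_restrict_of_ae (g10_shift_ae g10_u_ae h)
  have h3 : ∀ᵐ t ∂mI, t ∈ Icc (0:ℝ) 1 := ae_restrict_mem measurableSet_Icc
  filter_upwards [Lp.coeFn_sub u (tau h u), tau_ae h0 u, P_ae h u, g10_u_ae, h2, h3]
    with t e1 e2 e3 e4 e5 e6
  rw [e1, Pi.sub_apply, e2, e3, e4]
  by_cases hc : h ≤ t
  · rw [if_pos hc, if_neg (not_lt.2 hc), e5 ⟨by linarith, by linarith [e6.2]⟩]; simp
  · rw [if_neg hc, if_pos (not_le.1 hc)]; simp

theorem g10_int_u {a : ℝ} (ha : 0 ≤ a) (ha1 : a ≤ 1) : ∫ t in (0:ℝ)..a, ‖(u : ℝ → ℂ) t‖ = a := by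
  have h : ∫ t in (0:ℝ)..a, ‖(u : ℝ → ℂ) t‖ = ∫ _t in (0:ℝ)..a, (1:ℝ) := by
    apply intervalIntegral.integral_congr_ae
    filter_upwards [g10_vol_ae g10_u_ae] with t ht hta
    rw [uIoc_of_le ha] at hta
    rw [ht ⟨hta.1.le, hta.2.trans ha1⟩]; simp
  rw [h]; simp

theorem g10_norm_P_u {h : ℝ} (h0 : 0 < h) : ‖P h u‖ ≤ h := by
  rcases le_total h 1 with h1 | h1
  · rw [norm_P h h0.le h1, g10_int_u h0.le h1]
  · rw [P_of_one_le h1, ← P_of_one_le (le_refl 1) u, norm_P 1 zero_le_one le_rfl,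
      g10_int_u zero_le_one le_rfl]
    exact h1

theorem g10_e_eq {h : ℝ} (h0 : 0 ≤ h) : e h = ((h⁻¹ : ℝ) : ℂ) • P h u := by
  unfold e
  rw [g10_tau_u h0]

theorem norm_e_le {h : ℝ} (h0 : 0 < h) : ‖e h‖ ≤ 1 := by
  rw [g10_e_eq h0.le, norm_smul, Complex.norm_real, Real.norm_eq_abs, abs_of_pos (inv_pos.2 h0)]
  calc h⁻¹ * ‖P h u‖ ≤ h⁻¹ * h := mul_le_mul_of_nonneg_left (g10_norm_P_u h0) (inv_pos.2 h0).le
    _ = 1 := inv_mul_cancel₀ h0.ne'

theorem P_e {h : ℝ} (h0 : 0 < h) : P h (e h) = e h := by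
  rw [g10_e_eq h0.le, map_smul, P_P, min_self]

theorem g10_e_ae {h : ℝ} (h0 : 0 ≤ h) :
    ∀ᵐ t ∂mI, (e h : ℝ → ℂ) t = if t < h then ((h⁻¹ : ℝ) : ℂ) else 0 := by
  rw [g10_e_eq h0]
  filter_upwards [Lp.coeFn_smul ((h⁻¹ : ℝ) : ℂ) (P h u), P_ae h u, g10_u_ae] with t e1 e2 e3
  rw [e1, Pi.smul_apply, e2, e3]
  split_ifs <;> simp

/-- the averages of a function -/
noncomputable def g10_A (φ : ℝ → ℂ) (h t : ℝ) : ℂ :=
  ((h⁻¹ : ℝ) : ℂ) * ∫ s in (0:ℝ)..(min t h), φ (t - s)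

theorem g10_cv {h : ℝ} (h0 : 0 < h) (F : V) (φ : ℝ → ℂ) (hφ : Continuous φ)
    (hF : ∀ᵐ t ∂mI, (F : ℝ → ℂ) t = φ t) (t : ℝ) (ht : t ∈ Icc (0:ℝ) 1) :
    cv (e h) F t = g10_A φ h t := by
  unfold cv g10_A
  have h1 : ∫ s in (0:ℝ)..t, (e h : ℝ → ℂ) s * (F : ℝ → ℂ) (t - s) =
      ∫ s in (0:ℝ)..t, (if s < h then ((h⁻¹ : ℝ) : ℂ) else 0) * φ (t - s) := by
    apply intervalIntegral.integral_congr_ae
    filter_upwards [g10_vol_ae (g10_e_ae h0.le), g10_refl_ae hF t] with s e1 e2 hs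
    rw [uIoc_of_le ht.1] at hs
    rw [e1 ⟨hs.1.le, hs.2.trans ht.2⟩, e2 ⟨by linarith [hs.2], by linarith [hs.1, ht.2]⟩]
  have hm0 : 0 ≤ min t h := le_min ht.1 h0.le
  have hmt : min t h ≤ t := min_le_left _ _
  have h2 : ∫ s in (0:ℝ)..(min t h), (if s < h then ((h⁻¹ : ℝ) : ℂ) else 0) * φ (t - s) =
      ∫ s in (0:ℝ)..(min t h), ((h⁻¹ : ℝ) : ℂ) * φ (t - s) := by
    apply intervalIntegral.integral_congr_ae
    have : ∀ᵐ s ∂(volume : Measure ℝ), s ≠ h := by
      rw [ae_iff]; simp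
    filter_upwards [this] with s hne hs
    rw [uIoc_of_le hm0] at hs
    rw [if_pos (lt_of_le_of_ne (hs.2.trans (min_le_right _ _)) hne)]
  have h3 : ∫ s in (min t h)..t, (if s < h then ((h⁻¹ : ℝ) : ℂ) else 0) * φ (t - s) = 0 := by
    have : ∫ s in (min t h)..t, (if s < h then ((h⁻¹ : ℝ) : ℂ) else 0) * φ (t - s) =
        ∫ s in (min t h)..t, (0:ℂ) := by
      apply intervalIntegral.integral_congr_ae
      refine Eventually.of_forall fun s hs => ?_
      rw [uIoc_of_le hmt] at hs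
      have h4 : ¬ s < h := by
        intro h5
        rcases min_lt_iff.1 hs.1 with h6 | h6
        · exact absurd hs.2 (not_le.2 h6)
        · exact absurd h5 (not_lt.2 h6.le)
      rw [if_neg h4, zero_mul]
    rw [this]; simp
  have hc : Continuous fun s : ℝ => φ (t - s) := hφ.comp (continuous_const.sub continuous_id)
  have hint : ∀ a b : ℝ, IntervalIntegrable
      (fun s => (if s < h then ((h⁻¹ : ℝ) : ℂ) else 0) * φ (t - s)) volume a b := by
    intro a b
    have hi : IntervalIntegrable (fun s => ‖φ (t - s)‖ * |h⁻¹|) volume a b :=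
      (hc.norm.mul continuous_const).intervalIntegrable a b
    refine hi.mono_fun ?_ ?_
    · apply AEStronglyMeasurable.mul
      · exact (Measurable.ite measurableSet_Iio measurable_const measurable_const).aestronglyMeasurable
      · exact hc.aestronglyMeasurable
    · refine Eventually.of_forall fun s => ?_
      simp only
      rw [norm_mul, norm_mul, norm_norm, mul_comm]
      apply mul_le_mul_of_nonneg_left _ (norm_nonneg _)
      split_ifs
      · rw [Complex.norm_real, Real.norm_eq_abs, Real.norm_eq_abs, abs_abs]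
      · simp
  rw [h1, ← intervalIntegral.integral_add_adjacent_intervals (hint 0 (min t h)) (hint (min t h) t),
    h2, h3, add_zero, intervalIntegral.integral_const_mul]

theorem g10_A_bound {h t B : ℝ} (h0 : 0 < h) (ht : 0 ≤ t) (φ : ℝ → ℂ) (hB : ∀ x, ‖φ x‖ ≤ B) :
    ‖g10_A φ h t‖ ≤ B := by
  unfold g10_A
  have hB0 : 0 ≤ B := (norm_nonneg _).trans (hB 0)
  have h1 : ‖∫ s in (0:ℝ)..(min t h), φ (t - s)‖ ≤ B * |min t h - 0| :=
    intervalIntegral.norm_integral_le_of_norm_le_const fun s _ => hB _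
  rw [sub_zero, abs_of_nonneg (le_min ht h0.le)] at h1
  rw [norm_mul, Complex.norm_real, Real.norm_eq_abs, abs_of_pos (inv_pos.2 h0)]
  calc h⁻¹ * ‖∫ s in (0:ℝ)..(min t h), φ (t - s)‖ ≤ h⁻¹ * (B * h) := by
        apply mul_le_mul_of_nonneg_left _ (inv_pos.2 h0).le
        exact h1.trans (mul_le_mul_of_nonneg_left (min_le_right _ _) hB0)
    _ = B := by field_simp

theorem g10_A_lim {t : ℝ} (ht : 0 < t) (φ : ℝ → ℂ) (hφ : Continuous φ) :
    Tendsto (fun h => g10_A φ h t) (𝓝[>] 0) (𝓝 (φ t)) := by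
  have hc : Continuous fun s : ℝ => φ (t - s) := hφ.comp (continuous_const.sub continuous_id)
  have hd : HasDerivAt (fun h => ∫ s in (0:ℝ)..h, φ (t - s)) (φ (t - 0)) 0 :=
    intervalIntegral.integral_hasDerivAt_right (hc.intervalIntegrable _ _)
      (hc.stronglyMeasurableAtFilter _ _) hc.continuousAt
  have hs := hd.tendsto_slope_zero_right
  rw [sub_zero] at hs
  refine hs.congr' ?_
  filter_upwards [Ioo_mem_nhdsGT ht] with h hh
  unfold g10_A
  rw [min_eq_right hh.2.le, zero_add, intervalIntegral.integral_same, sub_zero, Complex.real_smul]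

theorem g10_tendsto_bcf (φ : BoundedContinuousFunction ℝ ℂ) (F : V)
    (hF : ∀ᵐ t ∂mI, (F : ℝ → ℂ) t = φ t) :
    Tendsto (fun h => ‖conv (e h) F - F‖) (𝓝[>] 0) (𝓝 0) := by
  have hconv : ∀ h, 0 < h → ∀ᵐ t ∂mI, (conv (e h) F : ℝ → ℂ) t = g10_A φ h t := by
    intro h h0
    have h1 : ∀ᵐ t ∂mI, (conv (e h) F : ℝ → ℂ) t = cv (e h) F t := Integrable.coeFn_toL1 _
    have h3 : ∀ᵐ t ∂mI, t ∈ Icc (0:ℝ) 1 := ae_restrict_mem measurableSet_Icc
    filter_upwards [h1, h3] with t e1 e2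
    rw [e1, g10_cv h0 F φ φ.continuous hF t e2]
  have hnorm : ∀ h, 0 < h → ‖conv (e h) F - F‖ = ∫ t in (0:ℝ)..1, ‖g10_A φ h t - φ t‖ := by
    intro h h0
    rw [norm_eq]
    apply intervalIntegral.integral_congr_ae
    filter_upwards [g10_vol_ae (hconv h h0), g10_vol_ae hF,
      g10_vol_ae (Lp.coeFn_sub (conv (e h) F) F)] with t e1 e2 e3 ht
    rw [uIoc_of_le zero_le_one] at ht
    have ht' : t ∈ Icc (0:ℝ) 1 := ⟨ht.1.le, ht.2⟩
    rw [e3 ht', Pi.sub_apply, e1 ht', e2 ht']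
  have hlim : Tendsto (fun h => ∫ t in (0:ℝ)..1, ‖g10_A φ h t - φ t‖) (𝓝[>] 0)
      (𝓝 (∫ t in (0:ℝ)..1, (0:ℝ))) := by
    apply intervalIntegral.tendsto_integral_filter_of_dominated_convergence (fun _ => 2 * ‖φ‖)
    · filter_upwards [self_mem_nhdsWithin] with h h0
      rw [uIoc_of_le zero_le_one]
      have h1 : AEStronglyMeasurable (fun t => g10_A φ h t) mI :=
        (Lp.aestronglyMeasurable (conv (e h) F)).congr (hconv h h0)
      have h2 : AEStronglyMeasurable (fun t => ‖g10_A φ h t - φ t‖) mI :=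
        (h1.sub φ.continuous.aestronglyMeasurable).norm
      exact h2.mono_measure (Measure.restrict_mono Ioc_subset_Icc_self le_rfl)
    · filter_upwards [self_mem_nhdsWithin] with h h0
      refine Eventually.of_forall fun t ht => ?_
      rw [uIoc_of_le zero_le_one] at ht
      rw [norm_norm]
      calc ‖g10_A φ h t - φ t‖ ≤ ‖g10_A φ h t‖ + ‖φ t‖ := norm_sub_le _ _
        _ ≤ ‖φ‖ + ‖φ‖ := add_le_add (g10_A_bound h0 ht.1.le φ φ.norm_coe_le_norm)
            (φ.norm_coe_le_norm t)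
        _ = 2 * ‖φ‖ := by ring
    · exact intervalIntegrable_const
    · refine Eventually.of_forall fun t ht => ?_
      rw [uIoc_of_le zero_le_one] at ht
      have h1 := (g10_A_lim ht.1 φ φ.continuous).sub_const (φ t)
      have h2 := h1.norm
      simpa using h2
  rw [intervalIntegral.integral_zero] at hlim
  refine hlim.congr' ?_
  filter_upwards [self_mem_nhdsWithin] with h h0
  exact (hnorm h h0).symm

instance g10_wr : mI.WeaklyRegular := by
  unfold mI; infer_instance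

theorem conv_e_tendsto (f : V) : Tendsto (fun h => conv (e h) f) (𝓝[>] 0) (𝓝 f) := by
  rw [Metric.tendsto_nhds]
  intro ε hε
  obtain ⟨φ, hφ⟩ := (BoundedContinuousFunction.toLp_denseRange ℂ mI ℂ
    (p := 1) (by norm_num)).exists_dist_lt f (show (0:ℝ) < ε / 3 by linarith)
  obtain ⟨F, hFdef⟩ : ∃ F : V, F = BoundedContinuousFunction.toLp 1 mI ℂ φ := ⟨_, rfl⟩
  rw [← hFdef] at hφ
  have hF : ∀ᵐ t ∂mI, (F : ℝ → ℂ) t = φ t := by
    rw [hFdef]; exact BoundedContinuousFunction.coeFn_toLp 1 mI ℂ φ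
  have h1 := g10_tendsto_bcf φ F hF
  rw [Metric.tendsto_nhds] at h1
  filter_upwards [h1 (ε / 3) (by linarith), self_mem_nhdsWithin] with h h2 h0
  rw [Real.dist_0_eq_abs, abs_of_nonneg (norm_nonneg _)] at h2
  rw [dist_eq_norm] at hφ ⊢
  have h3 : conv (e h) f - f = conv (e h) (f - F) + (conv (e h) F - F) - (f - F) := by
    have h4 : conv (e h) f = conv (e h) (f - F) + conv (e h) F := by
      rw [← conv_add_right, sub_add_cancel]
    rw [h4]; abel
  rw [h3]
  have h5 : ‖conv (e h) (f - F)‖ ≤ ‖f - F‖ := by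
    refine (norm_conv_le _ _).trans ?_
    calc ‖e h‖ * ‖f - F‖ ≤ 1 * ‖f - F‖ := mul_le_mul_of_nonneg_right (norm_e_le h0) (norm_nonneg _)
      _ = ‖f - F‖ := one_mul _
  have h6 := norm_sub_le (conv (e h) (f - F) + (conv (e h) F - F)) (f - F)
  have h7 := norm_add_le (conv (e h) (f - F)) (conv (e h) F - F)
  linarith

theorem dense_conv_u : DenseRange (fun f : V => conv u f) := by
  intro f
  refine mem_closure_of_tendsto (conv_e_tendsto f) ?_
  filter_upwards [self_mem_nhdsWithin] with h hh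
  have h0 : (0 : ℝ) ≤ h := le_of_lt hh
  refine ⟨((h⁻¹ : ℝ) : ℂ) • (f - tau h f), ?_⟩
  have h1 : conv u (tau h f) = conv (tau h u) f := by
    rw [conv_comm u (tau h f), ← tau_conv h0, conv_comm f u, tau_conv h0]
  have h2 : ∀ x y z : V, conv x (y - z) = conv x y - conv x z := by
    intro x y z
    have e1 : y - z = y + (-1 : ℂ) • z := by
      rw [neg_one_smul, sub_eq_add_neg]
    rw [e1, conv_add_right, conv_smul_right, neg_one_smul, sub_eq_add_neg]
  have h3 : ∀ x y z : V, conv (y - z) x = conv y x - conv z x := by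
    intro x y z
    rw [conv_comm, h2, conv_comm x y, conv_comm x z]
  change conv u (((h⁻¹ : ℝ) : ℂ) • (f - tau h f)) = conv (e h) f
  rw [conv_smul_right, h2, h1]
  unfold e
  rw [conv_smul_left, h3]

theorem g11_ae_iff {p : ℝ → Prop} :
    (∀ᵐ t ∂mI, p t) ↔ ∀ᵐ t ∂(volume : Measure ℝ), t ∈ Icc (0:ℝ) 1 → p t := by
  unfold mI
  exact ae_restrict_iff' measurableSet_Icc

theorem g11_mem : ∀ᵐ t ∂mI, t ∈ Icc (0:ℝ) 1 :=
  g11_ae_iff.mpr (Eventually.of_forall fun _ ht => ht)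

theorem g11_cpow_ae (n : ℕ) :
    (cpow u n : ℝ → ℂ) =ᵐ[mI] fun t => (t:ℂ) ^ n / (n.factorial : ℂ) := by
  induction n with
  | zero =>
    have h : (u : ℝ → ℂ) =ᵐ[mI] fun _ => 1 := Integrable.coeFn_toL1 _
    filter_upwards [h] with t ht
    change (u : ℝ → ℂ) t = _
    rw [ht]
    simp
  | succ n ih =>
    have h1 := conv_u_ae (cpow u n)
    have h2 := g11_ae_iff.mp ih
    filter_upwards [h1, g11_mem] with t ht ht1
    change (conv u (cpow u n)) t = _
    rw [ht]
    have h4 : ∫ s in (0:ℝ)..t, (cpow u n) s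
        = ∫ s in (0:ℝ)..t, (s:ℂ) ^ n / (n.factorial : ℂ) := by
      apply intervalIntegral.integral_congr_ae
      filter_upwards [h2] with s hs hst
      rw [uIoc_of_le ht1.1] at hst
      exact hs ⟨hst.1.le, hst.2.trans ht1.2⟩
    rw [h4]
    have h5 : ∀ s : ℝ, HasDerivAt (fun s : ℝ => (s:ℂ) ^ (n + 1) / ((n + 1).factorial : ℂ))
        ((s:ℂ) ^ n / (n.factorial:ℂ)) s := by
      intro s
      have h6 := (((hasDerivAt_id s).ofReal_comp).pow (n + 1)).div_const
        ((n + 1).factorial : ℂ)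
      have hf : (n.factorial : ℂ) ≠ 0 := by exact_mod_cast n.factorial_ne_zero
      have hf2 : ((n : ℂ) + 1) ≠ 0 := by exact_mod_cast n.succ_ne_zero
      refine h6.congr_deriv ?_
      rw [Nat.factorial_succ]
      push_cast
      simp only [id, Nat.add_sub_cancel, mul_one]
      field_simp
    rw [intervalIntegral.integral_eq_sub_of_hasDerivAt (fun s _ => h5 s)]
    · simp
    · apply Continuous.intervalIntegrable
      fun_prop

theorem g11_poly (p : Polynomial ℂ) : ∃ b ∈ Submodule.span ℂ (Set.range (cpow u)),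
    (b : ℝ → ℂ) =ᵐ[mI] fun t => p.eval (t:ℂ) := by
  induction p using Polynomial.induction_on' with
  | add p q hp hq =>
    obtain ⟨b, hb, hb'⟩ := hp
    obtain ⟨c, hc, hc'⟩ := hq
    refine ⟨b + c, Submodule.add_mem _ hb hc, ?_⟩
    filter_upwards [hb', hc', Lp.coeFn_add b c] with t h1 h2 h3
    rw [h3, Pi.add_apply, h1, h2, Polynomial.eval_add]
  | monomial n a =>
    refine ⟨(a * (n.factorial : ℂ)) • cpow u n,
      Submodule.smul_mem _ _ (Submodule.subset_span ⟨n, rfl⟩), ?_⟩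
    filter_upwards [g11_cpow_ae n, Lp.coeFn_smul (a * (n.factorial : ℂ)) (cpow u n)] with t h1 h2
    have h3 : (n.factorial : ℂ) ≠ 0 := by exact_mod_cast n.factorial_ne_zero
    rw [h2, Pi.smul_apply, h1, Polynomial.eval_monomial, smul_eq_mul]
    field_simp

theorem dense_cpow : Dense (Submodule.span ℂ (Set.range (cpow u)) : Set V) := by
  intro f
  rw [Metric.mem_closure_iff]
  intro ε hε
  have hf : Integrable f mI := L1.integrable_coeFn f
  obtain ⟨g, hg1, hg2⟩ := hf.exists_boundedContinuous_integral_sub_le (ε := ε / 3)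
    (by positivity)
  have hgc : Continuous g := g.continuous
  obtain ⟨p, hp⟩ := exists_polynomial_near_of_continuousOn 0 1 (fun x => (g x).re)
    (Complex.continuous_re.comp hgc).continuousOn (ε / 6) (by positivity)
  obtain ⟨q, hq⟩ := exists_polynomial_near_of_continuousOn 0 1 (fun x => (g x).im)
    (Complex.continuous_im.comp hgc).continuousOn (ε / 6) (by positivity)
  obtain ⟨b, hb, hb'⟩ := g11_poly (p.map Complex.ofRealHom +
    Polynomial.C Complex.I * q.map Complex.ofRealHom)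
  refine ⟨b, hb, ?_⟩
  have hev : ∀ t : ℝ, (p.map Complex.ofRealHom +
      Polynomial.C Complex.I * q.map Complex.ofRealHom).eval (t : ℂ)
      = ((p.eval t : ℝ) : ℂ) + Complex.I * ((q.eval t : ℝ) : ℂ) := by
    intro t
    rw [Polynomial.eval_add, Polynomial.eval_mul, Polynomial.eval_C]
    have e1 : ∀ r : Polynomial ℝ, (r.map Complex.ofRealHom).eval (t : ℂ)
        = ((r.eval t : ℝ) : ℂ) := by
      intro r
      have := Polynomial.eval_map_apply (p := r) (f := Complex.ofRealHom) t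
      exact this
    rw [e1, e1]
  rw [dist_eq_norm, L1.norm_eq_integral_norm]
  have h1 : ∫ t, ‖(f - b : V) t‖ ∂mI ≤ ∫ t, (‖f t - g t‖ + ε / 3) ∂mI := by
    apply integral_mono_ae
    · exact (L1.integrable_coeFn _).norm
    · exact ((hf.sub hg2).norm).add (integrable_const _)
    · filter_upwards [g11_mem, hb', Lp.coeFn_sub f b] with t ht h2 h3
      rw [h3, Pi.sub_apply, h2, hev]
      have h4 : f t - (((p.eval t : ℝ) : ℂ) + Complex.I * ((q.eval t : ℝ) : ℂ))
          = (f t - g t) + (g t - (((p.eval t : ℝ) : ℂ) + Complex.I * ((q.eval t : ℝ) : ℂ))) := by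
        ring
      rw [h4]
      refine (norm_add_le _ _).trans (add_le_add le_rfl ?_)
      refine (Complex.norm_le_abs_re_add_abs_im _).trans ?_
      have h5 := hp t ht
      have h6 := hq t ht
      have h7 : (g t - (((p.eval t : ℝ) : ℂ) + Complex.I * ((q.eval t : ℝ) : ℂ))).re
          = (g t).re - p.eval t := by
        simp
      have h8 : (g t - (((p.eval t : ℝ) : ℂ) + Complex.I * ((q.eval t : ℝ) : ℂ))).im
          = (g t).im - q.eval t := by
        simp
      rw [h7, h8, abs_sub_comm, abs_sub_comm (g t).im]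
      linarith
  have h2 : ∫ t, (‖f t - g t‖ + ε / 3) ∂mI = (∫ t, ‖f t - g t‖ ∂mI) + ε / 3 := by
    have hi : Integrable (fun t => ‖f t - g t‖) mI := (hf.sub hg2).norm
    rw [integral_add hi (integrable_const _), integral_const]
    have h3 : mI.real univ = 1 := by
      unfold mI
      rw [measureReal_def]
      simp
    rw [h3, one_smul]
  linarith

end Volt919
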