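import Mathlib
import Pool.Agent.Helper919.Volt.L0

set_option autoImplicit false

open MeasureTheory Set Filter Topology

namespace Volt919

/-! ### L1: multipliers of `L¹[0,a]` -/

/-- `S` is a multiplier of `L¹[0,a)` (extended by truncation). -/
def IsMul (a : ℝ) (S : V →L[ℂ] V) : Prop := ∀ f g : V, S (conv f g) = P a (conv (S f) g)

theorem g12_zero_conv (g : V) : conv 0 g = 0 := by
  have h := conv_smul_left 0 0 g
  rwa [zero_smul, zero_smul] at h

theorem g12_PP (a : ℝ) (f : V) : P a (P a f) = P a f := by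
  rw [P_P, min_self]

theorem g12_Pcomm (a b : ℝ) (f : V) : P a (P b f) = P b (P a f) := by
  rw [P_P, P_P, min_comm]

theorem g12_lim {A B : V → V} (hA : Continuous A) (hB : Continuous B) (f : V)
    (h : ∀ t : ℝ, A (conv (e t) f) = B (conv (e t) f)) : A f = B f := by
  have h1 := (hA.tendsto f).comp (conv_e_tendsto f)
  have h2 := (hB.tendsto f).comp (conv_e_tendsto f)
  refine tendsto_nhds_unique (h1.congr fun t => ?_) h2
  exact h t

theorem mul_P_left {a : ℝ} {S : V →L[ℂ] V} (hS : IsMul a S) (f : V) : P a (S f) = S f := by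
  refine g12_lim (A := fun x => P a (S x)) (B := fun x => S x)
    ((P a).continuous.comp S.continuous) S.continuous f fun t => ?_
  show P a (S (conv (e t) f)) = S (conv (e t) f)
  rw [hS, g12_PP]

theorem g12_kill {a : ℝ} {S : V →L[ℂ] V} (hS : IsMul a S) (b : ℝ) (g : V) (hg : P b g = 0)  :
    P b (S g) = 0 := by
  refine g12_lim (A := fun x => P b (S x)) (B := fun _ => 0)
    ((P b).continuous.comp S.continuous) continuous_const g fun t => ?_
  show P b (S (conv (e t) g)) = 0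
  rw [hS, g12_Pcomm, conv_comm, P_conv, hg, g12_zero_conv, map_zero, map_zero]

theorem g12_Psub (b : ℝ) (f : V) : P b (f - P b f) = 0 := by
  rw [map_sub, g12_PP, sub_self]

theorem mul_P_right {a : ℝ} {S : V →L[ℂ] V} (hS : IsMul a S) (f : V) : S (P a f) = S f := by
  have h := g12_kill hS a (f - P a f) (g12_Psub a f)
  rw [mul_P_left hS, map_sub, sub_eq_zero] at h
  exact h.symm

theorem mul_causal {a : ℝ} {S : V →L[ℂ] V} (hS : IsMul a S) (b : ℝ) (f : V) :
    P b (S f) = P b (S (P b f)) := by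
  have h := g12_kill hS b (f - P b f) (g12_Psub b f)
  rw [map_sub, map_sub, sub_eq_zero] at h
  exact h

theorem mul_tau {a : ℝ} {S : V →L[ℂ] V} (hS : IsMul a S) {x : ℝ} (hx : 0 ≤ x) (f : V) :
    S (tau x f) = P a (tau x (S f)) := by
  have h1 := ((S.continuous.comp (tau x).continuous).tendsto f).comp (conv_e_tendsto f)
  have h2 := (((P a).continuous.comp (tau x).continuous).tendsto (S f)).comp
    (conv_e_tendsto (S f))
  refine tendsto_nhds_unique (h1.congr fun t => ?_) h2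
  show S (tau x (conv (e t) f)) = P a (tau x (conv (e t) (S f)))
  rw [tau_conv hx, conv_comm, hS, conv_comm (S f), tau_conv hx]

theorem mul_comm' {a : ℝ} {S S' : V →L[ℂ] V} (hS : IsMul a S) (hS' : IsMul a S') :
    S * S' = S' * S := by
  have key : ∀ {T T' : V →L[ℂ] V}, IsMul a T → IsMul a T' → ∀ f g : V,
      T (T' (conv f g)) = P a (conv (T g) (T' f)) := by
    intro T T' hT hT' f g
    rw [hT', mul_P_right hT, conv_comm, hT]
  refine ContinuousLinearMap.ext fun f => ?_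
  refine g12_lim (A := fun x => S (S' x)) (B := fun x => S' (S x))
    (S.continuous.comp S'.continuous) (S'.continuous.comp S.continuous) f fun t => ?_
  show S (S' (conv (e t) f)) = S' (S (conv (e t) f))
  rw [key hS hS' (e t) f, conv_comm (e t) f, key hS' hS f (e t), conv_comm]

theorem mul_ext {a : ℝ} {S S' : V →L[ℂ] V} (hS : IsMul a S) (hS' : IsMul a S')
    (h : S u = S' u) : S = S' := by
  have h1 := dense_conv_u.equalizer S.continuous S'.continuous (funext fun f => by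
    show S (conv u f) = S' (conv u f)
    rw [hS, hS', h])
  exact ContinuousLinearMap.ext fun f => congrFun h1 f

theorem mul_add {a : ℝ} {S S' : V →L[ℂ] V} (hS : IsMul a S) (hS' : IsMul a S') :
    IsMul a (S + S') := by
  intro f g
  simp only [ContinuousLinearMap.add_apply, hS f g, hS' f g, conv_add_left, map_add]

theorem mul_smul {a : ℝ} {S : V →L[ℂ] V} (hS : IsMul a S) (c : ℂ) : IsMul a (c • S) := by
  intro f g
  simp only [ContinuousLinearMap.smul_apply, hS f g, conv_smul_left, map_smul]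

theorem mul_mul {a : ℝ} {S S' : V →L[ℂ] V} (hS : IsMul a S) (hS' : IsMul a S') :
    IsMul a (S * S') := by
  intro f g
  simp only [ContinuousLinearMap.mul_apply, hS' f g]
  rw [mul_P_right hS, hS]

theorem mul_one' (a : ℝ) : IsMul a (P a) := by
  intro f g
  exact P_conv a f g

theorem mul_cL (a : ℝ) (f : V) : IsMul a (P a * cL f) := by
  intro g h
  simp only [ContinuousLinearMap.mul_apply, cL_apply]
  rw [← P_conv, conv_assoc]

theorem mul_restrict {a b : ℝ} (hab : a ≤ b) {S : V →L[ℂ] V} (hS : IsMul b S) :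
    IsMul a (P a * S) := by
  intro f g
  simp only [ContinuousLinearMap.mul_apply, hS f g]
  rw [P_P, min_eq_left hab, P_conv]

theorem mul_lim {a : ℝ} {ι : Type} {l : Filter ι} [l.NeBot] {S : ι → V →L[ℂ] V} {S' : V →L[ℂ] V}
    (hS : ∀ i, IsMul a (S i)) (hl : ∀ f, Tendsto (fun i => S i f) l (𝓝 (S' f))) : IsMul a S' := by
  intro f g
  have h1 := hl (conv f g)
  have h2 : Tendsto (fun i => P a (conv (S i f) g)) l (𝓝 (P a (conv (S' f) g))) := by
    have h3 : Continuous (fun v : V => P a (cL v g)) := by fun_prop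
    exact (h3.tendsto _).comp (hl f)
  exact tendsto_nhds_unique (h1.congr (fun i => hS i f g)) h2

/-! ### L1: multipliers and functions of bounded variation -/

/-- extension of a bounded operator along a dense range operator -/
theorem op_factor (A B : V →L[ℂ] V) (hA : DenseRange A) (c : ℝ) (hc : 0 ≤ c)
    (h : ∀ f, ‖B f‖ ≤ c * ‖A f‖) : ∃ S : V →L[ℂ] V, (∀ f, S (A f) = B f) ∧ ‖S‖ ≤ c := by
  have hd : DenseRange (A : V →ₗ[ℂ] V) := hA
  have hn : ∀ f, ‖(B : V →ₗ[ℂ] V) f‖ ≤ c * ‖(A : V →ₗ[ℂ] V) f‖ := h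
  refine ⟨LinearMap.extendOfNorm (B : V →ₗ[ℂ] V) (A : V →ₗ[ℂ] V), ?_, ?_⟩
  · intro f
    exact LinearMap.extendOfNorm_eq hd ⟨c, hn⟩ f
  · exact LinearMap.opNorm_extendOfNorm_le hd hc hn

theorem g14_sub_left (f g h : V) : conv (f - g) h = conv f h - conv g h := by
  have h1 : ∀ f : V, conv f h = cL.flip h f := fun f => rfl
  rw [h1, h1, h1, map_sub]

theorem g14_u_sub {h : ℝ} (h0 : 0 < h) : u - tau h u = (h : ℂ) • e h := by
  unfold e
  rw [smul_smul]
  have : (h : ℂ) * ((h⁻¹ : ℝ) : ℂ) = 1 := by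
    push_cast
    exact mul_inv_cancel₀ (by exact_mod_cast h0.ne')
  rw [this, one_smul]

theorem g14_key (F f : V) {h : ℝ} (h0 : 0 < h) :
    conv (e h) (conv F f) = ((h⁻¹ : ℝ) : ℂ) • conv (F - tau h F) (conv u f) := by
  unfold e
  rw [conv_smul_left, g14_sub_left, g14_sub_left]
  have e1 : conv u (conv F f) = conv F (conv u f) := by
    rw [← conv_assoc, conv_comm u F, conv_assoc]
  rw [← tau_conv h0.le, ← tau_conv h0.le, e1]

theorem mul_of_modulus (a : ℝ) (F : V) (hP : P a F = F) (c : ℝ) (hc : 0 ≤ c)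
    (hF : ∀ h ∈ Ioc (0:ℝ) 1, ‖P a (F - tau h F)‖ ≤ c * h) :
    ∃ S : V →L[ℂ] V, IsMul a S ∧ ‖S‖ ≤ c ∧ S u = F := by
  have hbd : ∀ f : V, ‖(P a * cL F) f‖ ≤ c * ‖cL u f‖ := by
    intro f
    show ‖P a (conv F f)‖ ≤ c * ‖conv u f‖
    have h1 : Tendsto (fun h => ‖P a (conv (e h) (conv F f))‖) (𝓝[>] 0) (𝓝 ‖P a (conv F f)‖) := by
      have h2 : Continuous (fun v : V => ‖P a v‖) := by fun_prop
      exact (h2.tendsto _).comp (conv_e_tendsto (conv F f))
    refine le_of_tendsto h1 ?_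
    filter_upwards [Ioc_mem_nhdsGT (zero_lt_one (α := ℝ))] with h hh
    rw [g14_key F f hh.1, map_smul, P_conv, norm_smul]
    have h3 : ‖((h⁻¹ : ℝ) : ℂ)‖ = h⁻¹ := by
      rw [Complex.norm_real, Real.norm_eq_abs, abs_of_pos (inv_pos.2 hh.1)]
    rw [h3]
    have h4 : ‖P a (conv (P a (F - tau h F)) (conv u f))‖ ≤ c * h * ‖conv u f‖ := by
      refine (norm_P_le _ _).trans ((norm_conv_le _ _).trans ?_)
      exact mul_le_mul_of_nonneg_right (hF h hh) (norm_nonneg _)
    calc h⁻¹ * ‖P a (conv (P a (F - tau h F)) (conv u f))‖ ≤ h⁻¹ * (c * h * ‖conv u f‖) :=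
          mul_le_mul_of_nonneg_left h4 (inv_pos.2 hh.1).le
      _ = (h⁻¹ * h) * (c * ‖conv u f‖) := by ring
      _ = c * ‖conv u f‖ := by rw [inv_mul_cancel₀ hh.1.ne', one_mul]
  obtain ⟨S, hS, hSn⟩ := op_factor (cL u) (P a * cL F) dense_conv_u c hc hbd
  have hS' : ∀ f, S (conv u f) = P a (conv F f) := fun f => hS f
  have hmul : IsMul a S := by
    intro f g
    have hc1 : Continuous (fun f : V => S (cL.flip g f)) := by fun_prop
    have hc2 : Continuous (fun f : V => P a (cL.flip g (S f))) := by fun_prop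
    have := dense_conv_u.equalizer hc1 hc2 (by
      funext f'
      show S (conv (conv u f') g) = P a (conv (S (conv u f')) g)
      rw [conv_assoc, hS', hS', ← conv_assoc, ← P_conv])
    exact congrFun this f
  refine ⟨S, hmul, hSn, ?_⟩
  have h1 : P a (conv (S u) u) = P a (conv F u) := by rw [← hmul, hS']
  have h2 : P a (conv u (S u - F)) = 0 := by
    rw [conv_comm, g14_sub_left, map_sub, h1, sub_self]
  have h3 := inj_u h2
  rw [map_sub, mul_P_left hmul, hP, sub_eq_zero] at h3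
  exact h3

theorem modulus_of_mul {a : ℝ} {S : V →L[ℂ] V} (hS : IsMul a S) {h : ℝ} (h0 : 0 < h) :
    ‖P a (S u - tau h (S u))‖ ≤ ‖S‖ * h := by
  rw [map_sub, mul_P_left hS, ← mul_tau hS h0.le, ← map_sub, g14_u_sub h0]
  refine (S.le_opNorm _).trans (mul_le_mul_of_nonneg_left ?_ (norm_nonneg _))
  rw [norm_smul, Complex.norm_real, Real.norm_eq_abs, abs_of_pos h0]
  have := norm_e_le h0
  nlinarith

/-- extension by zero -/
noncomputable def g15_F (a : ℝ) (F : ℝ → ℂ) : ℝ → ℂ := (Icc (0 : ℝ) a).indicator F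

/-- primitive -/
noncomputable def g15_P (a : ℝ) (F : ℝ → ℂ) (y : ℝ) : ℂ := ∫ s in (0 : ℝ)..y, g15_F a F s

/-- left averages -/
noncomputable def g15_A (a : ℝ) (F : ℝ → ℂ) (h t : ℝ) : ℂ :=
  (h⁻¹ : ℝ) • (g15_P a F t - g15_P a F (t - h))

theorem g15_int (a : ℝ) (F : ℝ → ℂ) (hF : IntegrableOn F (Icc 0 a)) : Integrable (g15_F a F) :=
  hF.integrable_indicator measurableSet_Icc

theorem g15_sub (a : ℝ) (F : ℝ → ℂ) (hF : IntegrableOn F (Icc 0 a)) (x y : ℝ) :
    g15_P a F y - g15_P a F x = ∫ s in x..y, g15_F a F s :=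
  intervalIntegral.integral_interval_sub_left (g15_int a F hF).intervalIntegrable
    (g15_int a F hF).intervalIntegrable

theorem g15_diff (a : ℝ) (F : ℝ → ℂ) (hF : IntegrableOn F (Icc 0 a)) {h : ℝ} (hh : 0 < h)
    {t t' : ℝ} (ht : t ≤ t') :
    ‖g15_A a F h t' - g15_A a F h t‖ ≤
      h⁻¹ * ∫ s in t..t', ‖g15_F a F s - g15_F a F (s - h)‖ := by
  have hint := g15_int a F hF
  have hint' : Integrable (fun s => g15_F a F (s - h)) := hint.comp_sub_right h
  have e1 : (g15_P a F t' - g15_P a F (t' - h)) - (g15_P a F t - g15_P a F (t - h)) =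
      ∫ s in t..t', (g15_F a F s - g15_F a F (s - h)) := by
    rw [intervalIntegral.integral_sub hint.intervalIntegrable hint'.intervalIntegrable,
      intervalIntegral.integral_comp_sub_right (fun s => g15_F a F s) h, ← g15_sub a F hF,
      ← g15_sub a F hF]
    ring
  unfold g15_A
  rw [← smul_sub, e1, norm_smul, Real.norm_eq_abs, abs_of_pos (inv_pos.mpr hh)]
  exact mul_le_mul_of_nonneg_left (intervalIntegral.norm_integral_le_integral_norm ht)
    (inv_pos.mpr hh).le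

theorem g15_total (a : ℝ) (ha : 0 < a) (F : ℝ → ℂ) (c h : ℝ)
    (hc : ∫ t in (0:ℝ)..a, ‖F t - (if h ≤ t then F (t - h) else 0)‖ ≤ c * h) (hh : 0 < h) :
    ∫ s in (0:ℝ)..a, ‖g15_F a F s - g15_F a F (s - h)‖ ≤ c * h := by
  refine le_trans (le_of_eq ?_) hc
  refine intervalIntegral.integral_congr fun s hs => ?_
  rw [uIcc_of_le ha.le] at hs
  have e1 : g15_F a F s = F s := indicator_of_mem hs F
  have e2 : g15_F a F (s - h) = if h ≤ s then F (s - h) else 0 := by
    unfold g15_F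
    split_ifs with h1
    · have hm : s - h ∈ Icc (0 : ℝ) a := ⟨by linarith, by linarith [hs.2]⟩
      exact indicator_of_mem hm F
    · exact indicator_of_notMem (fun h2 => h1 (by linarith [h2.1])) F
  change ‖g15_F a F s - g15_F a F (s - h)‖ = ‖F s - (if h ≤ s then F (s - h) else 0)‖
  rw [e1, e2]

theorem g15_zero (a : ℝ) (F : ℝ → ℂ) {h : ℝ} (hh : 0 < h) : g15_A a F h 0 = 0 := by
  have e : g15_P a F (0 - h) = 0 := by
    unfold g15_P
    rw [intervalIntegral.integral_symm, neg_eq_zero, zero_sub,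
      intervalIntegral.integral_of_le (by linarith), integral_Ioc_eq_integral_Ioo]
    refine setIntegral_eq_zero_of_forall_eq_zero fun s hs => ?_
    exact indicator_of_notMem (fun h2 => absurd h2.1 (not_le.mpr hs.2)) F
  unfold g15_A
  rw [e]
  unfold g15_P
  rw [intervalIntegral.integral_same, sub_zero, smul_zero]

/-- real variable lemma: `L¹`-modulus of continuity `O(h)` gives a representative of bounded
variation -/
theorem bv_rep (a : ℝ) (ha : 0 < a) (F : ℝ → ℂ) (hF : IntegrableOn F (Icc 0 a)) (c : ℝ)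
    (hc : 0 ≤ c)
    (h : ∀ h ∈ Ioo (0:ℝ) a, ∫ t in (0:ℝ)..a, ‖F t - (if h ≤ t then F (t - h) else 0)‖ ≤ c * h) :
    ∃ G : ℝ → ℂ, ENNReal.ofReal ‖G 0‖ + eVariationOn G (Icc 0 a) ≤ ENNReal.ofReal (40 * c) ∧
      ∀ᵐ t ∂(volume.restrict (Icc (0:ℝ) a)), F t = G t := by
  have hint := g15_int a F hF
  -- the steps
  let hs : ℕ → ℝ := fun n => a / ((n : ℝ) + 2)
  have hs0 : ∀ n, 0 < hs n := fun n => by
    change 0 < a / ((n : ℝ) + 2)
    positivity
  have hsa : ∀ n, hs n < a := fun n => by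
    change a / ((n : ℝ) + 2) < a
    rw [div_lt_iff₀ (by positivity)]
    have : (0 : ℝ) ≤ n := Nat.cast_nonneg n
    nlinarith
  have hslim : Tendsto hs atTop (𝓝 0) := by
    have h1 : Tendsto (fun n : ℕ => (n : ℝ) + 2) atTop atTop :=
      tendsto_atTop_add_const_right _ _ tendsto_natCast_atTop_atTop
    exact h1.const_div_atTop a
  let φ : ℕ → ℝ → ℝ := fun n s => ‖g15_F a F s - g15_F a F (s - hs n)‖
  have hφint : ∀ n, Integrable (φ n) := fun n => (hint.sub (hint.comp_sub_right (hs n))).norm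
  have hφ0 : ∀ n s, 0 ≤ φ n s := fun n s => norm_nonneg _
  have htot : ∀ n, (hs n)⁻¹ * ∫ s in (0:ℝ)..a, φ n s ≤ c := by
    intro n
    have h1 := g15_total a ha F c (hs n) (h (hs n) ⟨hs0 n, hsa n⟩) (hs0 n)
    have h2 := mul_le_mul_of_nonneg_left h1 (inv_pos.mpr (hs0 n)).le
    refine h2.trans (le_of_eq ?_)
    have := (hs0 n).ne'
    field_simp
  have hmonoint : ∀ n x y, 0 ≤ x → x ≤ y → y ≤ a →
      ∫ s in x..y, φ n s ≤ ∫ s in (0:ℝ)..a, φ n s := by
    intro n x y hx hxy hy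
    refine intervalIntegral.integral_mono_interval hx hxy hy ?_ (hφint n).intervalIntegrable
    exact Eventually.of_forall fun s => hφ0 n s
  -- uniform bound
  have hbd : ∀ n, ∀ t ∈ Icc (0:ℝ) a, ‖g15_A a F (hs n) t‖ ≤ c := by
    intro n t ht
    have h1 := g15_diff a F hF (hs0 n) ht.1
    rw [g15_zero a F (hs0 n), sub_zero] at h1
    refine h1.trans (le_trans ?_ (htot n))
    exact mul_le_mul_of_nonneg_left (hmonoint n 0 t le_rfl ht.1 ht.2) (inv_pos.mpr (hs0 n)).le
  -- the ultralimit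
  have hex : ∀ t, ∃ g : ℂ, t ∈ Icc (0:ℝ) a →
      Tendsto (fun n => g15_A a F (hs n) t) (hyperfilter ℕ : Filter ℕ) (𝓝 g) := by
    intro t
    by_cases ht : t ∈ Icc (0:ℝ) a
    · have hK : IsCompact (Metric.closedBall (0 : ℂ) c) := isCompact_closedBall 0 c
      have hle : (((hyperfilter ℕ).map (fun n => g15_A a F (hs n) t) : Ultrafilter ℂ) :
          Filter ℂ) ≤ 𝓟 (Metric.closedBall (0 : ℂ) c) := by
        rw [Ultrafilter.coe_map, le_principal_iff, Filter.mem_map]
        exact Filter.univ_mem' fun n => mem_closedBall_zero_iff.mpr (hbd n t ht)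
      obtain ⟨g, _, hg⟩ := hK.ultrafilter_le_nhds _ hle
      exact ⟨g, fun _ => hg⟩
    · exact ⟨0, fun ht' => absurd ht' ht⟩
  choose G hG using hex
  have hG0 : G 0 = 0 := by
    have h1 := hG 0 ⟨le_rfl, ha.le⟩
    simp_rw [fun n => g15_zero a F (hs0 n)] at h1
    exact tendsto_nhds_unique h1 tendsto_const_nhds
  refine ⟨G, ?_, ?_⟩
  · rw [hG0, norm_zero, ENNReal.ofReal_zero, zero_add]
    have hvar : eVariationOn G (Icc 0 a) ≤ ENNReal.ofReal c := by
      unfold eVariationOn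
      refine iSup_le fun p => ?_
      obtain ⟨N, u, hu, hus⟩ := p
      change ∑ i ∈ Finset.range N, edist (G (u (i + 1))) (G (u i)) ≤ ENNReal.ofReal c
      have hlim : Tendsto (fun n => ∑ i ∈ Finset.range N,
          edist (g15_A a F (hs n) (u (i + 1))) (g15_A a F (hs n) (u i)))
          (hyperfilter ℕ : Filter ℕ)
          (𝓝 (∑ i ∈ Finset.range N, edist (G (u (i + 1))) (G (u i)))) :=
        tendsto_finsetSum _ fun i _ => (hG _ (hus (i + 1))).edist (hG _ (hus i))
      refine le_of_tendsto hlim (Eventually.of_forall fun n => ?_)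
      have hterm : ∀ i ∈ Finset.range N,
          edist (g15_A a F (hs n) (u (i + 1))) (g15_A a F (hs n) (u i)) ≤
          ENNReal.ofReal ((hs n)⁻¹ * ∫ s in (u i)..(u (i + 1)), φ n s) := by
        intro i _
        rw [edist_dist, dist_eq_norm]
        exact ENNReal.ofReal_le_ofReal (g15_diff a F hF (hs0 n) (hu (Nat.le_succ i)))
      refine (Finset.sum_le_sum hterm).trans ?_
      rw [← ENNReal.ofReal_sum_of_nonneg]
      · apply ENNReal.ofReal_le_ofReal
        rw [← Finset.mul_sum, intervalIntegral.sum_integral_adjacent_intervals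
          (fun i _ => (hφint n).intervalIntegrable)]
        refine le_trans ?_ (htot n)
        exact mul_le_mul_of_nonneg_left
          (hmonoint n (u 0) (u N) (hus 0).1 (hu (Nat.zero_le N)) (hus N).2)
          (inv_pos.mpr (hs0 n)).le
      · intro i _
        exact mul_nonneg (inv_pos.mpr (hs0 n)).le
          (intervalIntegral.integral_nonneg (hu (Nat.le_succ i)) fun s _ => hφ0 n s)
    refine hvar.trans (ENNReal.ofReal_le_ofReal ?_)
    linarith
  · have hae := _root_.LocallyIntegrable.ae_hasDerivAt_integral hint.locallyIntegrable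
    have hae' := ae_restrict_of_ae (s := Icc (0:ℝ) a) hae
    filter_upwards [hae', ae_restrict_mem measurableSet_Icc] with t ht htI
    have hder : HasDerivAt (g15_P a F) (g15_F a F t) t := ht 0
    have hFt : g15_F a F t = F t := indicator_of_mem htI F
    rw [hFt] at hder
    have hlim : Tendsto (fun n => g15_A a F (hs n) t) atTop (𝓝 (F t)) := by
      have h1 := hder.tendsto_slope
      have h2 : Tendsto (fun n => t - hs n) atTop (𝓝[≠] t) := by
        rw [tendsto_nhdsWithin_iff]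
        constructor
        · have := hslim.const_sub t
          rwa [sub_zero] at this
        · exact Eventually.of_forall fun n => by
            have := hs0 n
            intro h3
            have h4 : t - hs n = t := h3
            linarith
      have h3 := h1.comp h2
      refine h3.congr fun n => ?_
      change slope (g15_P a F) t (t - hs n) = g15_A a F (hs n) t
      unfold g15_A
      rw [slope_def_module]
      have e : (t - hs n - t)⁻¹ = -(hs n)⁻¹ := by
        rw [sub_sub_cancel_left, inv_neg]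
      rw [e, neg_smul, ← smul_neg, neg_sub]
    exact tendsto_nhds_unique (hlim.mono_left Nat.hyperfilter_le_atTop) (hG t htI)

theorem g16_meas (a : ℝ) (f : ℝ → ℝ) (h : BoundedVariationOn f (Icc 0 a)) :
    AEStronglyMeasurable f (volume.restrict (Icc 0 a)) := by
  obtain ⟨p, q, hp, hq, hf⟩ := h.locallyBoundedVariationOn.exists_monotoneOn_sub_monotoneOn
  rw [hf]
  exact ((aemeasurable_restrict_of_monotoneOn measurableSet_Icc hp).sub
    (aemeasurable_restrict_of_monotoneOn measurableSet_Icc hq)).aestronglyMeasurable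

/-- real variable lemma: bounded variation gives modulus `O(h)` -/
theorem bv_mod (a : ℝ) (ha : 0 < a) (G : ℝ → ℂ) (c : ℝ) (hc : 0 ≤ c)
    (hG : ENNReal.ofReal ‖G 0‖ + eVariationOn G (Icc 0 a) ≤ ENNReal.ofReal c) :
    IntegrableOn G (Icc 0 a) ∧ (∀ t ∈ Icc 0 a, ‖G t‖ ≤ c) ∧
    ∀ h ∈ Ioc (0:ℝ) 1, ∫ t in (0:ℝ)..a, ‖G t - (if h ≤ t then G (t - h) else 0)‖ ≤ c * h := by
  have hvar : eVariationOn G (Icc 0 a) ≠ ⊤ := ne_top_of_le_ne_top ENNReal.ofReal_ne_top
    (le_trans (le_add_self) hG)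
  have hfin : ∀ s t : ℝ, 0 ≤ s → t ≤ a → eVariationOn G (Icc s t) ≠ ⊤ := fun s t hs ht =>
    ne_top_of_le_ne_top hvar (eVariationOn.mono G (Icc_subset_Icc hs ht))
  -- the real variation function
  set U : ℝ → ℝ := fun t => (eVariationOn G (Icc 0 t)).toReal with hU
  have hU0 : ∀ t, 0 ≤ U t := fun t => ENNReal.toReal_nonneg
  have hUadd : ∀ s t, 0 ≤ s → s ≤ t → t ≤ a → U s + ‖G t - G s‖ ≤ U t := by
    intro s t hs hst hta
    have h1 : eVariationOn G (Icc 0 s) + eVariationOn G (Icc s t) = eVariationOn G (Icc 0 t) := by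
      have := eVariationOn.Icc_add_Icc G (s := Set.univ) hs hst (mem_univ _)
      simpa using this
    have h2 : edist (G t) (G s) ≤ eVariationOn G (Icc s t) :=
      eVariationOn.edist_le G (right_mem_Icc.mpr hst) (left_mem_Icc.mpr hst)
    simp only [hU]
    rw [← h1, ENNReal.toReal_add (hfin 0 s le_rfl (hst.trans hta)) (hfin s t hs hta)]
    have h3 := ENNReal.toReal_mono (hfin s t hs hta) h2
    rw [edist_dist, ENNReal.toReal_ofReal dist_nonneg, dist_eq_norm] at h3
    linarith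
  have hUa : ‖G 0‖ + U a ≤ c := by
    have h1 := ENNReal.toReal_mono ENNReal.ofReal_ne_top hG
    rw [ENNReal.toReal_ofReal hc, ENNReal.toReal_add ENNReal.ofReal_ne_top hvar,
      ENNReal.toReal_ofReal (norm_nonneg _)] at h1
    exact h1
  have hUle : ∀ t, 0 ≤ t → t ≤ a → U t ≤ U a := fun t h0 h1 => by
    have := hUadd t a h0 h1 le_rfl
    linarith [norm_nonneg (G a - G t)]
  have hGt : ∀ t, 0 ≤ t → t ≤ a → ‖G t‖ ≤ ‖G 0‖ + U t := by
    intro t h0 h1
    have h2 := hUadd 0 t le_rfl h0 h1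
    have h3 : ‖G t‖ ≤ ‖G 0‖ + ‖G t - G 0‖ := by
      have : G t = G 0 + (G t - G 0) := by ring
      conv_lhs => rw [this]
      exact norm_add_le _ _
    linarith [hU0 0]
  have hbound : ∀ t ∈ Icc 0 a, ‖G t‖ ≤ c := fun t ht => by
    linarith [hGt t ht.1 ht.2, hUle t ht.1 ht.2]
  have hmeas : AEStronglyMeasurable G (volume.restrict (Icc 0 a)) := by
    have h1 : BoundedVariationOn (fun t => (G t).re) (Icc 0 a) :=
      (Complex.reCLM.lipschitz.comp_boundedVariationOn (s := Icc 0 a) (g := G) hvar)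
    have h2 : BoundedVariationOn (fun t => (G t).im) (Icc 0 a) :=
      (Complex.imCLM.lipschitz.comp_boundedVariationOn (s := Icc 0 a) (g := G) hvar)
    have m1 := g16_meas a _ h1
    have m2 := g16_meas a _ h2
    have e : G = fun t => ((G t).re : ℂ) + ((G t).im : ℂ) * Complex.I := by
      funext t
      exact (Complex.re_add_im (G t)).symm
    rw [e]
    exact (Complex.continuous_ofReal.comp_aestronglyMeasurable m1).add
      ((Complex.continuous_ofReal.comp_aestronglyMeasurable m2).mul_const _)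
  have hint : IntegrableOn G (Icc 0 a) := by
    refine Integrable.mono' (integrable_const c) hmeas ?_
    filter_upwards [ae_restrict_mem measurableSet_Icc] with t ht using hbound t ht
  refine ⟨hint, hbound, fun h hh => ?_⟩
  -- the monotone majorant
  set V : ℝ → ℝ := fun t => if t < 0 then 0 else ‖G 0‖ + U (min t a) with hV
  have hV0 : ∀ t, 0 ≤ V t := by
    intro t
    simp only [hV]
    split_ifs
    · exact le_rfl
    · exact add_nonneg (norm_nonneg _) (hU0 _)
  have hVc : ∀ t, V t ≤ c := by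
    intro t
    simp only [hV]
    split_ifs with h1
    · exact hc
    · have h2 : 0 ≤ min t a := le_min (not_lt.mp h1) ha.le
      linarith [hUle _ h2 (min_le_right _ _)]
  have hVmono : Monotone V := by
    intro s t hst
    by_cases hs : s < 0
    · have : V s = 0 := by simp only [hV, if_pos hs]
      rw [this]
      exact hV0 t
    · have ht : ¬ t < 0 := fun h => hs (hst.trans_lt h)
      simp only [hV, if_neg hs, if_neg ht]
      have h2 : 0 ≤ min s a := le_min (not_lt.mp hs) ha.le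
      have := hUadd (min s a) (min t a) h2 (min_le_min hst le_rfl) (min_le_right _ _)
      linarith [norm_nonneg (G (min t a) - G (min s a))]
  have hpt : ∀ t ∈ Icc (0:ℝ) a, ‖G t - (if h ≤ t then G (t - h) else 0)‖ ≤ V t - V (t - h) := by
    intro t ht
    have e1 : V t = ‖G 0‖ + U t := by
      simp only [hV, if_neg (not_lt.mpr ht.1), min_eq_left ht.2]
    split_ifs with hht
    · have h3 : 0 ≤ t - h := by linarith
      have h4 : t - h ≤ a := by linarith [ht.2, hh.1]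
      have e2 : V (t - h) = ‖G 0‖ + U (t - h) := by
        simp only [hV, if_neg (not_lt.mpr h3), min_eq_left h4]
      rw [e1, e2]
      have := hUadd (t - h) t h3 (by linarith [hh.1]) ht.2
      linarith
    · have h3 : t - h < 0 := by linarith
      have e2 : V (t - h) = 0 := by simp only [hV, if_pos h3]
      rw [e1, e2, sub_zero, sub_zero]
      exact hGt t ht.1 ht.2
  have hVi : ∀ x y, IntervalIntegrable V volume x y := fun x y => hVmono.intervalIntegrable
  have hVsi : ∀ x y, IntervalIntegrable (fun t => V (t - h)) volume x y := fun x y =>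
    (hVmono.comp (fun s t hst => sub_le_sub_right hst h)).intervalIntegrable
  have hlhs : IntervalIntegrable (fun t => ‖G t - (if h ≤ t then G (t - h) else 0)‖) volume 0 a := by
    rw [intervalIntegrable_iff_integrableOn_Icc_of_le ha.le]
    refine Integrable.norm ?_
    refine Integrable.sub hint ?_
    have h5 : IntegrableOn (fun t => G (t - h)) (Icc h a) := by
      have h6 : IntegrableOn G (Icc 0 (a - h)) := hint.mono_set (Icc_subset_Icc le_rfl (by linarith [hh.1]))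
      have h7 := (measurePreserving_sub_right (volume : Measure ℝ) h).integrableOn_comp_preimage
        (measurableEmbedding_subRight h) (f := G) (s := Icc 0 (a - h))
      rw [← h7] at h6
      have : (fun x => x - h) ⁻¹' Icc 0 (a - h) = Icc h a := by
        ext x
        simp
      rw [this] at h6
      exact h6
    have h8 : (fun t => if h ≤ t then G (t - h) else 0) = (Ici h).indicator (fun t => G (t - h)) := by
      funext t
      simp only [indicator, mem_Ici]
    rw [h8, ← IntegrableOn, integrableOn_indicator_iff measurableSet_Ici]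
    refine h5.mono_set ?_
    intro x hx
    exact ⟨hx.1, hx.2.2⟩
  calc ∫ t in (0:ℝ)..a, ‖G t - (if h ≤ t then G (t - h) else 0)‖
      ≤ ∫ t in (0:ℝ)..a, (V t - V (t - h)) :=
        intervalIntegral.integral_mono_on ha.le hlhs ((hVi 0 a).sub (hVsi 0 a)) hpt
    _ = (∫ t in (0:ℝ)..a, V t) - ∫ t in (0:ℝ)..a, V (t - h) :=
        intervalIntegral.integral_sub (hVi 0 a) (hVsi 0 a)
    _ = (∫ t in (0:ℝ)..a, V t) - ∫ t in (-h)..(a - h), V t := by
        rw [intervalIntegral.integral_comp_sub_right V h, zero_sub]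
    _ = (∫ t in (a - h)..a, V t) - ∫ t in (-h)..0, V t := by
        have e1 := intervalIntegral.integral_add_adjacent_intervals (hVi (-h) 0) (hVi 0 a)
        have e2 := intervalIntegral.integral_add_adjacent_intervals (hVi (-h) (a - h)) (hVi (a - h) a)
        linarith
    _ ≤ (∫ t in (a - h)..a, V t) := by
        have : 0 ≤ ∫ t in (-h)..0, V t :=
          intervalIntegral.integral_nonneg (by linarith [hh.1]) fun t _ => hV0 t
        linarith
    _ ≤ ∫ t in (a - h)..a, c :=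
        intervalIntegral.integral_mono_on (by linarith [hh.1]) (hVi _ _)
          intervalIntegrable_const fun t _ => hVc t
    _ = c * h := by
        rw [intervalIntegral.integral_const, smul_eq_mul]
        ring

theorem g17_ae {p : ℝ → Prop} (h : ∀ᵐ t ∂mI, p t) {a : ℝ} (ha1 : a ≤ 1) :
    ∀ᵐ t ∂volume, t ∈ uIoc (0:ℝ) a → 0 ≤ a → p t := by
  unfold mI at h
  rw [ae_restrict_iff' measurableSet_Icc] at h
  filter_upwards [h] with t ht h1 h2
  rw [uIoc_of_le h2] at h1
  exact ht ⟨h1.1.le, h1.2.trans ha1⟩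

theorem g17_mod {a : ℝ} (ha : 0 < a) (ha1 : a ≤ 1) (G : V) {h : ℝ} (h0 : 0 < h) :
    ‖P a (G - tau h G)‖ = ∫ t in (0:ℝ)..a, ‖G t - (if h ≤ t then G (t - h) else 0)‖ := by
  rw [norm_P a ha.le ha1]
  apply intervalIntegral.integral_congr_ae
  filter_upwards [g17_ae (tau_ae h0.le G) ha1, g17_ae (Lp.coeFn_sub G (tau h G)) ha1] with t h1 h2 h3
  rw [h2 h3 ha.le, Pi.sub_apply, h1 h3 ha.le]

theorem g17_int {a : ℝ} (ha1 : a ≤ 1) (G : V) : IntegrableOn (G : ℝ → ℂ) (Icc 0 a) := by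
  have h := L1.integrable_coeFn G
  unfold mI at h
  exact IntegrableOn.mono_set (show IntegrableOn (G : ℝ → ℂ) (Icc 0 1) volume from h) (Icc_subset_Icc le_rfl ha1)

theorem bv_of_mul {a : ℝ} (ha : 0 < a) (ha1 : a ≤ 1) {S : V →L[ℂ] V} (hS : IsMul a S) :
    ∃ F : ℝ → ℂ, ENNReal.ofReal ‖F 0‖ + eVariationOn F (Icc 0 a) ≤ ENNReal.ofReal (40 * ‖S‖) ∧
      ∀ᵐ t ∂mI, t < a → (S u : ℝ → ℂ) t = F t := by
  obtain ⟨G, hG1, hG2⟩ := bv_rep a ha (S u : ℝ → ℂ) (g17_int ha1 (S u)) ‖S‖ (norm_nonneg _) (by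
    intro h hh
    rw [← g17_mod ha ha1 (S u) hh.1]
    exact modulus_of_mul hS hh.1)
  refine ⟨G, hG1, ?_⟩
  unfold mI
  rw [ae_restrict_iff' measurableSet_Icc] at hG2 ⊢
  filter_upwards [hG2] with t ht h1 h2
  exact ht ⟨h1.1, h2.le⟩

theorem mul_of_bv {a : ℝ} (ha : 0 < a) (ha1 : a ≤ 1) (F : ℝ → ℂ) (c : ℝ) (hc : 0 ≤ c)
    (hF : ENNReal.ofReal ‖F 0‖ + eVariationOn F (Icc 0 a) ≤ ENNReal.ofReal c) :
    ∃ S : V →L[ℂ] V, IsMul a S ∧ ‖S‖ ≤ c ∧
      ∀ᵐ t ∂mI, (S u : ℝ → ℂ) t = if t < a then F t else 0 := by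
  obtain ⟨h1, -, h3⟩ := bv_mod a ha F c hc hF
  have hI : Integrable (fun t => if t < a then F t else 0) mI := by
    have h4 : Integrable (indicator (Ico 0 a) F) volume :=
      (integrable_indicator_iff measurableSet_Ico).2 (h1.mono_set Ico_subset_Icc_self)
    have h5 : Integrable (indicator (Ico 0 a) F) mI := h4.restrict
    refine h5.congr ?_
    unfold mI
    rw [Filter.EventuallyEq, ae_restrict_iff' measurableSet_Icc]
    refine Filter.Eventually.of_forall ?_
    intro t ht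
    by_cases hta : t < a
    · rw [if_pos hta, indicator_of_mem (show t ∈ Ico 0 a from ⟨ht.1, hta⟩)]
    · rw [if_neg hta, indicator_of_notMem (show t ∉ Ico 0 a from fun h => hta h.2)]
  let G : V := hI.toL1 _
  have hG : (G : ℝ → ℂ) =ᵐ[mI] fun t => if t < a then F t else 0 := hI.coeFn_toL1
  have hPG : P a G = G := by
    apply Lp.ext
    filter_upwards [P_ae a G, hG] with t h4 h5
    rw [h4, h5]
    split_ifs <;> simp
  -- shifted version of hG
  have hmod : ∀ h ∈ Ioc (0:ℝ) 1, ‖P a (G - tau h G)‖ ≤ c * h := by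
    intro h hh
    rw [g17_mod ha ha1 G hh.1]
    refine le_trans (le_of_eq ?_) (h3 h hh)
    apply intervalIntegral.integral_congr_ae
    have hG' : ∀ᵐ t ∂volume, t ∈ Icc (0:ℝ) 1 → (G : ℝ → ℂ) t = if t < a then F t else 0 := by
      have := hG
      unfold mI at this
      rwa [Filter.EventuallyEq, ae_restrict_iff' measurableSet_Icc] at this
    have hG'' : ∀ᵐ t ∂volume, t - h ∈ Icc (0:ℝ) 1 →
        (G : ℝ → ℂ) (t - h) = if t - h < a then F (t - h) else 0 := by
      have hq : Tendsto (fun t : ℝ => t - h) (ae volume) (ae volume) :=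
        (measurePreserving_sub_right volume h).quasiMeasurePreserving.tendsto_ae
      exact hq.eventually hG'
    have hne : ∀ᵐ t ∂(volume : Measure ℝ), t ≠ a := by
      have : ({a} : Set ℝ)ᶜ ∈ ae (volume : Measure ℝ) := by
        rw [mem_ae_iff, compl_compl]; exact Real.volume_singleton
      filter_upwards [this] with t ht
      simpa using ht
    filter_upwards [hG', hG'', hne] with t h4 h5 h6 h7
    rw [uIoc_of_le ha.le] at h7
    have h8 : t < a := lt_of_le_of_ne h7.2 h6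
    rw [h4 ⟨h7.1.le, h7.2.trans ha1⟩, if_pos h8]
    by_cases h9 : h ≤ t
    · rw [if_pos h9, if_pos h9, h5 ⟨by linarith, by linarith [hh.1]⟩, if_pos (by linarith [hh.1])]
    · rw [if_neg h9, if_neg h9]
  obtain ⟨S, hS1, hS2, hS3⟩ := mul_of_modulus a G hPG c hc hmod
  refine ⟨S, hS1, hS2, ?_⟩
  rw [hS3]
  exact hG

/-- the atom at `0` of a multiplier is `l` -/
def Atom (S : V →L[ℂ] V) (l : ℂ) : Prop :=
  ∀ δ > 0, ∃ ε ∈ Ioc (0:ℝ) 1, ∀ f : V, ‖P ε (S f - l • f)‖ ≤ δ * ‖P ε f‖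

/-- a function of bounded variation, continuous from the right at `0`, has small variation near
`0` -/
theorem small_var (a : ℝ) (ha : 0 < a) (F : ℝ → ℂ) (hF : eVariationOn F (Icc 0 a) ≠ ⊤) :
    ∃ l : ℂ, ∀ δ > 0, ∃ ε ∈ Ioc (0:ℝ) a,
      eVariationOn (fun t => if t ≤ 0 then (0:ℂ) else F t - l) (Icc 0 ε) ≤ ENNReal.ofReal δ := by
  have hbv : BoundedVariationOn F (Icc 0 a) := hF
  obtain ⟨l, hl⟩ := hbv.exists_tendsto_right 0
  refine ⟨l, ?_⟩
  intro δ hδ
  have hne : (𝓝[Ioc 0 a] (0:ℝ)).NeBot := by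
    rw [nhdsWithin_Ioc_eq_nhdsGT ha]
    infer_instance
  have hset : Icc (0:ℝ) a ∩ Ioi 0 = Ioc 0 a := by
    ext x
    simp only [mem_inter_iff, mem_Icc, mem_Ioi, mem_Ioc]
    constructor
    · rintro ⟨⟨_, h2⟩, h3⟩
      exact ⟨h3, h2⟩
    · rintro ⟨h1, h2⟩
      exact ⟨⟨h1.le, h2⟩, h1⟩
  rw [hset] at hl
  have hcont : ContinuousWithinAt (fun t => if t ≤ 0 then (0:ℂ) else F t - l) (Ici 0) 0 := by
    have h1 : ContinuousWithinAt (fun t => if t ≤ 0 then (0:ℂ) else F t - l) (Ioi 0) 0 := by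
      unfold ContinuousWithinAt
      simp only [le_refl, if_true]
      have h2 : Tendsto (fun t => F t - l) (𝓝[>] (0:ℝ)) (𝓝 0) := by
        rw [nhdsWithin_Ioc_eq_nhdsGT ha] at hl
        have := hl.sub_const l
        rwa [sub_self] at this
      refine h2.congr' ?_
      filter_upwards [self_mem_nhdsWithin] with t ht
      rw [if_neg (not_le.2 ht)]
    rw [← Ioi_insert, continuousWithinAt_insert_self]
    exact h1
  have htend := hbv.tendsto_eVariationOn_Ioc_zero 0
  have hle : 𝓝[Ioc 0 a] (0:ℝ) ≤ 𝓝[Icc 0 a] 0 := nhdsWithin_mono _ Ioc_subset_Icc_self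
  have hev := (htend.mono_left hle).eventually_lt_const (u := ENNReal.ofReal δ)
    (by simpa using hδ)
  obtain ⟨ε, hε, hεa⟩ := (hev.and self_mem_nhdsWithin).exists
  refine ⟨ε, hεa, ?_⟩
  rw [← eVariationOn.eVariationOn_Ioc_eq_Icc_of_continuousWithinAt hcont]
  have h3 : eVariationOn (fun t => if t ≤ 0 then (0:ℂ) else F t - l) (Ioc 0 ε) =
      eVariationOn F (Ioc 0 ε) := by
    unfold eVariationOn
    refine iSup_congr fun p => ?_
    refine Finset.sum_congr rfl fun i _ => ?_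
    have h4 := p.2.2.2 i
    have h5 := p.2.2.2 (i + 1)
    simp only
    rw [if_neg (not_le.2 h4.1), if_neg (not_le.2 h5.1)]
    simp
  rw [h3]
  refine le_trans (eVariationOn.mono _ ?_) hε.le
  intro x hx
  exact ⟨⟨hx.1.le, hx.2.trans hεa.2⟩, hx⟩

theorem g19_u_ae : (u : ℝ → ℂ) =ᵐ[mI] fun _ => (1:ℂ) := by
  unfold u
  exact (integrable_const (μ := mI) (1:ℂ)).coeFn_toL1

theorem g19_pos : ∀ᵐ t ∂mI, 0 < t := by
  have h1 : ∀ᵐ t ∂mI, t ∈ Icc (0:ℝ) 1 := by
    unfold mI
    exact ae_restrict_mem measurableSet_Icc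
  have h2 : ∀ᵐ t ∂mI, t ≠ 0 := by
    unfold mI
    apply ae_restrict_of_ae
    have : ({0} : Set ℝ)ᶜ ∈ ae (volume : Measure ℝ) := compl_mem_ae_iff.2 (by simp)
    filter_upwards [this] with t ht
    exact ht
  filter_upwards [h1, h2] with t ht1 ht2
  exact lt_of_le_of_ne ht1.1 (Ne.symm ht2)

theorem atom_exists {a : ℝ} (ha : 0 < a) (ha1 : a ≤ 1) {S : V →L[ℂ] V} (hS : IsMul a S) :
    ∃ l, Atom S l := by
  obtain ⟨F, hF1, hF2⟩ := bv_of_mul ha ha1 hS
  have hF3 : eVariationOn F (Icc 0 a) ≠ ⊤ :=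
    ne_top_of_le_ne_top ENNReal.ofReal_ne_top (le_trans le_add_self hF1)
  obtain ⟨l, hl⟩ := small_var a ha F hF3
  refine ⟨l, fun δ hδ => ?_⟩
  obtain ⟨ε, ⟨hε0, hεa⟩, hvar⟩ := hl δ hδ
  obtain ⟨S', hS', hn, hu⟩ := mul_of_bv hε0 (hεa.trans ha1)
    (fun t => if t ≤ 0 then (0:ℂ) else F t - l) δ hδ.le (by
      simp only [le_refl, if_true, norm_zero, ENNReal.ofReal_zero, zero_add]
      exact hvar)
  refine ⟨ε, ⟨hε0, hεa.trans ha1⟩, fun f => ?_⟩
  have hm : IsMul ε (P ε * S + (-l) • P ε) :=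
    mul_add (mul_restrict hεa hS) (mul_smul (mul_one' ε) (-l))
  have happ : ∀ g : V, (P ε * S + (-l) • P ε) g = P ε (S g - l • g) := by
    intro g
    rw [map_sub, map_smul]
    show P ε (S g) + (-l) • P ε g = P ε (S g) - l • P ε g
    rw [neg_smul, sub_eq_add_neg]
  have hSu : S' u = (P ε * S + (-l) • P ε) u := by
    rw [happ]
    apply Lp.ext
    filter_upwards [hu, P_ae ε (S u - l • u), hF2, g19_u_ae, g19_pos,
      Lp.coeFn_sub (S u) (l • u), Lp.coeFn_smul l u] with t h1 h2 h3 h4 h5 h6 h7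
    rw [h1, h2, h6, Pi.sub_apply, h7, Pi.smul_apply, h4]
    by_cases ht : t < ε
    · rw [if_pos ht, if_pos ht, if_neg (not_le.2 h5), h3 (lt_of_lt_of_le ht hεa), one_mul,
        smul_eq_mul, mul_one]
    · rw [if_neg ht, if_neg ht, zero_mul]
  have hS'' : S' = P ε * S + (-l) • P ε := mul_ext hS' hm hSu
  rw [← happ, ← hS'', ← mul_P_right hS']
  exact (S'.le_opNorm _).trans (mul_le_mul_of_nonneg_right hn (norm_nonneg _))

theorem atom_mono {a : ℝ} {S : V →L[ℂ] V} (hS : IsMul a S) {l : ℂ} (h : Atom S l)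
    {δ : ℝ} (hδ : 0 < δ) : ∃ ε ∈ Ioc (0:ℝ) 1, ∀ ε' ∈ Ioc (0:ℝ) ε, ∀ f : V,
      ‖P ε' (S f - l • f)‖ ≤ δ * ‖P ε' f‖ := by
  obtain ⟨ε, hε, hbound⟩ := h δ hδ
  refine ⟨ε, hε, fun ε' hε' f => ?_⟩
  have e1 : P ε' (S f - l • f) = P ε' (P ε (S (P ε' f) - l • P ε' f)) := by
    rw [P_P, min_eq_left hε'.2, map_sub, map_sub, map_smul, map_smul, P_P, min_self,
      ← mul_causal hS]
  have e2 : P ε (P ε' f) = P ε' f := by
    rw [P_P, min_eq_right hε'.2]
  rw [e1]
  refine (norm_P_le _ _).trans ((hbound _).trans ?_)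
  rw [e2]

theorem atom_add {a : ℝ} {S S' : V →L[ℂ] V} (hS : IsMul a S) (hS' : IsMul a S') {l l' : ℂ}
    (h : Atom S l) (h' : Atom S' l') : Atom (S + S') (l + l') := by
  intro δ hδ
  obtain ⟨e1, he1, H1⟩ := atom_mono hS h (half_pos hδ)
  obtain ⟨e2, he2, H2⟩ := atom_mono hS' h' (half_pos hδ)
  refine ⟨min e1 e2, ⟨lt_min he1.1 he2.1, (min_le_left _ _).trans he1.2⟩, fun f => ?_⟩
  have a1 := H1 (min e1 e2) ⟨lt_min he1.1 he2.1, min_le_left _ _⟩ f
  have a2 := H2 (min e1 e2) ⟨lt_min he1.1 he2.1, min_le_right _ _⟩ f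
  have e : (S + S') f - (l + l') • f = (S f - l • f) + (S' f - l' • f) := by
    simp only [ContinuousLinearMap.add_apply, add_smul]; abel
  rw [e, map_add]
  refine (norm_add_le _ _).trans ?_
  linarith

theorem atom_smul {S : V →L[ℂ] V} {l : ℂ} (h : Atom S l) (c : ℂ) : Atom (c • S) (c * l) := by
  intro δ hδ
  have hc : 0 < ‖c‖ + 1 := by positivity
  obtain ⟨ε, he, H⟩ := h (δ / (‖c‖ + 1)) (div_pos hδ hc)
  refine ⟨ε, he, fun f => ?_⟩
  have e : (c • S) f - (c * l) • f = c • (S f - l • f) := by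
    simp only [ContinuousLinearMap.smul_apply, SemigroupAction.mul_smul, smul_sub]
  rw [e, map_smul, norm_smul]
  have h1 := H f
  have h2 : ‖c‖ * (δ / (‖c‖ + 1)) ≤ δ := by
    rw [← mul_div_assoc, div_le_iff₀ hc]
    nlinarith [norm_nonneg c]
  calc ‖c‖ * ‖P ε (S f - l • f)‖ ≤ ‖c‖ * (δ / (‖c‖ + 1) * ‖P ε f‖) :=
        mul_le_mul_of_nonneg_left h1 (norm_nonneg _)
    _ = (‖c‖ * (δ / (‖c‖ + 1))) * ‖P ε f‖ := by ring
    _ ≤ δ * ‖P ε f‖ := mul_le_mul_of_nonneg_right h2 (norm_nonneg _)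

theorem atom_mul {a : ℝ} {S S' : V →L[ℂ] V} (hS : IsMul a S) (hS' : IsMul a S') {l l' : ℂ}
    (h : Atom S l) (h' : Atom S' l') : Atom (S * S') (l * l') := by
  intro δ hδ
  have hl : 0 < ‖l‖ + 1 := by positivity
  have hl' : 0 < ‖l'‖ + 1 := by positivity
  -- choose d1 for S with d1 (‖l'‖+1) ≤ δ/2, d2 for S' with ‖l‖ d2 ≤ δ/2, d2 ≤ 1
  obtain ⟨e1, he1, H1⟩ := atom_mono hS h (div_pos (half_pos hδ) hl')
  obtain ⟨e2, he2, H2⟩ := atom_mono hS' h' (lt_min one_pos (div_pos (half_pos hδ) hl))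
  set ε := min e1 e2 with hε
  refine ⟨ε, ⟨lt_min he1.1 he2.1, (min_le_left _ _).trans he1.2⟩, fun f => ?_⟩
  have a1 := H1 ε ⟨lt_min he1.1 he2.1, min_le_left _ _⟩ (S' f)
  have a2 := H2 ε ⟨lt_min he1.1 he2.1, min_le_right _ _⟩ f
  have e : (S * S') f - (l * l') • f = (S (S' f) - l • (S' f)) + l • (S' f - l' • f) := by
    simp only [ContinuousLinearMap.mul_apply, SemigroupAction.mul_smul, smul_sub]; abel
  have b1 : ‖P ε (S' f)‖ ≤ (‖l'‖ + 1) * ‖P ε f‖ := by
    have : P ε (S' f) = P ε (S' f - l' • f) + l' • P ε f := by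
      rw [map_sub, map_smul]; abel
    rw [this]
    refine (norm_add_le _ _).trans ?_
    rw [norm_smul]
    have := mul_le_mul_of_nonneg_right (min_le_left 1 (δ / 2 / (‖l‖ + 1))) (norm_nonneg (P ε f))
    linarith
  have b2 : ‖l‖ * ‖P ε (S' f - l' • f)‖ ≤ δ / 2 * ‖P ε f‖ := by
    have q1 : ‖P ε (S' f - l' • f)‖ ≤ δ / 2 / (‖l‖ + 1) * ‖P ε f‖ :=
      a2.trans (mul_le_mul_of_nonneg_right (min_le_right _ _) (norm_nonneg _))
    have q2 : ‖l‖ * (δ / 2 / (‖l‖ + 1)) ≤ δ / 2 := by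
      rw [← mul_div_assoc, div_le_iff₀ hl]
      nlinarith [norm_nonneg l]
    calc ‖l‖ * ‖P ε (S' f - l' • f)‖ ≤ ‖l‖ * (δ / 2 / (‖l‖ + 1) * ‖P ε f‖) :=
          mul_le_mul_of_nonneg_left q1 (norm_nonneg _)
      _ = (‖l‖ * (δ / 2 / (‖l‖ + 1))) * ‖P ε f‖ := by ring
      _ ≤ δ / 2 * ‖P ε f‖ := mul_le_mul_of_nonneg_right q2 (norm_nonneg _)
  have b3 : δ / 2 / (‖l'‖ + 1) * ‖P ε (S' f)‖ ≤ δ / 2 * ‖P ε f‖ := by
    calc δ / 2 / (‖l'‖ + 1) * ‖P ε (S' f)‖ ≤ δ / 2 / (‖l'‖ + 1) * ((‖l'‖ + 1) * ‖P ε f‖) :=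
          mul_le_mul_of_nonneg_left b1 (by positivity)
      _ = δ / 2 * ‖P ε f‖ := by field_simp
  rw [e, map_add, map_smul]
  refine (norm_add_le _ _).trans ?_
  rw [norm_smul]
  linarith

theorem atom_P {a : ℝ} (ha : 0 < a) : Atom (P a) 1 := by
  intro δ hδ
  refine ⟨min a 1, ⟨lt_min ha one_pos, min_le_right _ _⟩, fun f => ?_⟩
  have : P (min a 1) (P a f - (1:ℂ) • f) = 0 := by
    rw [one_smul, map_sub, P_P, min_eq_left (min_le_left a 1), sub_self]
  rw [this, norm_zero]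
  positivity

theorem g20_conv (ε : ℝ) (f g : V) : ‖P ε (conv f g)‖ ≤ ‖P ε f‖ * ‖P ε g‖ := by
  rw [P_conv, conv_comm, P_conv]
  refine (norm_P_le _ _).trans ?_
  refine (norm_conv_le _ _).trans ?_
  rw [mul_comm]

theorem atom_cL {a : ℝ} (ha : 0 < a) (f : V) : Atom (P a * cL f) 0 := by
  intro δ hδ
  have h0 := P_tendsto_zero f
  have h1 : ∀ᶠ x in 𝓝[>] (0:ℝ), ‖P x f‖ < δ := by
    have := h0.norm
    rw [norm_zero] at this
    exact this.eventually_lt_const hδ
  have h2 : ∀ᶠ x in 𝓝[>] (0:ℝ), x ∈ Ioo (0:ℝ) (min a 1) := Ioo_mem_nhdsGT (lt_min ha one_pos)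
  obtain ⟨ε, hε1, hε2⟩ := (h1.and h2).exists
  refine ⟨ε, ⟨hε2.1, (hε2.2.le).trans (min_le_right _ _)⟩, fun g => ?_⟩
  have : P ε ((P a * cL f) g - (0:ℂ) • g) = P ε (conv f g) := by
    rw [zero_smul, sub_zero, ContinuousLinearMap.mul_apply, cL_apply, P_P,
      min_eq_left ((hε2.2.le).trans (min_le_left _ _))]
  rw [this]
  refine (g20_conv _ _ _).trans ?_
  exact mul_le_mul_of_nonneg_right hε1.le (norm_nonneg _)

theorem atom_restrict {a b : ℝ} (ha : 0 < a) {S : V →L[ℂ] V} {l : ℂ} (hS : IsMul b S)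
    (h : Atom S l) : Atom (P a * S) l := by
  intro δ hδ
  obtain ⟨e1, he1, H1⟩ := atom_mono hS h hδ
  refine ⟨min e1 a, ⟨lt_min he1.1 ha, (min_le_left _ _).trans he1.2⟩, fun f => ?_⟩
  have a1 := H1 (min e1 a) ⟨lt_min he1.1 ha, min_le_left _ _⟩ f
  have : P (min e1 a) ((P a * S) f - l • f) = P (min e1 a) (S f - l • f) := by
    rw [map_sub, map_sub, ContinuousLinearMap.mul_apply, P_P, min_eq_left (min_le_right e1 a)]
  rw [this]
  exact a1

theorem g21_mul {a : ℝ} {N : V →L[ℂ] V} (hN : IsMul a N) (k : ℝ) :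
    IsMul a (E k * N * E (-k)) := by
  intro f g
  simp only [ContinuousLinearMap.mul_apply]
  rw [E_conv (-k), hN, ← P_E, E_conv k, E_E, add_neg_cancel, E_zero]

theorem g21_e {N : V →L[ℂ] V} {k ε δ' : ℝ} (hk : 0 ≤ k) (hδ' : 0 ≤ δ')
    (hA : ∀ f : V, ‖P ε (N f - (0 : ℂ) • f)‖ ≤ δ' * ‖P ε f‖) {h : ℝ} (h0 : 0 < h) :
    ‖(E k * N * E (-k)) (e h)‖ ≤ (δ' + Real.exp (-(k * ε)) * ‖N‖) * Real.exp (k * h) := by
  simp only [ContinuousLinearMap.mul_apply]
  set g : V := E (-k) (e h) with hg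
  have hgn : ‖g‖ ≤ Real.exp (k * h) := by
    rw [hg]
    conv_lhs => rw [← P_e h0]
    refine (norm_E_neg hk (e h)).trans ?_
    calc Real.exp (k * h) * ‖e h‖ ≤ Real.exp (k * h) * 1 :=
          mul_le_mul_of_nonneg_left (norm_e_le h0) (Real.exp_pos _).le
      _ = Real.exp (k * h) := mul_one _
  have h1 : E k (N g) = E k (P ε (N g)) + E k (N g - P ε (N g)) := by
    rw [← map_add, add_sub_cancel]
  have h2 : ‖E k (P ε (N g))‖ ≤ δ' * Real.exp (k * h) := by
    refine (norm_E_le hk _).trans ?_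
    have h3 := hA g
    rw [zero_smul, sub_zero] at h3
    refine h3.trans ?_
    exact mul_le_mul_of_nonneg_left ((norm_P_le ε g).trans hgn) hδ'
  have h4 : ‖E k (N g - P ε (N g))‖ ≤ Real.exp (-(k * ε)) * ‖N‖ * Real.exp (k * h) := by
    refine (norm_E_sub hk _).trans ?_
    rw [mul_assoc]
    apply mul_le_mul_of_nonneg_left _ (Real.exp_pos _).le
    refine (N.le_opNorm g).trans ?_
    exact mul_le_mul_of_nonneg_left hgn (norm_nonneg _)
  rw [h1]
  refine (norm_add_le _ _).trans ?_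
  rw [add_mul]
  exact add_le_add h2 h4

/-- weighted norm of a multiplier without atom -/
theorem weight {a : ℝ} {N : V →L[ℂ] V} (hN : IsMul a N) (h0 : Atom N 0) {δ : ℝ} (hδ : 0 < δ) :
    ∃ k : ℝ, 0 ≤ k ∧ ‖E k * N * E (-k)‖ ≤ δ := by
  obtain ⟨ε, hε, hA⟩ := h0 (δ / 3) (by positivity)
  have hε0 : 0 < ε := hε.1
  set k : ℝ := 3 * (‖N‖ + 1) / (δ * ε) with hk
  have hk0 : 0 < k := by positivity
  have hkε : k * ε = 3 * (‖N‖ + 1) / δ := by
    rw [hk]; field_simp
  have hexp : Real.exp (-(k * ε)) * ‖N‖ ≤ δ / 3 := by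
    have h1 : k * ε ≤ Real.exp (k * ε) := by
      have := Real.add_one_le_exp (k * ε)
      linarith
    have h2 : 0 < k * ε := by positivity
    rw [Real.exp_neg, inv_mul_le_iff₀ (Real.exp_pos _)]
    have h3 : k * ε * (δ / 3) = ‖N‖ + 1 := by
      rw [hkε]; field_simp
    have h4 : k * ε * (δ / 3) ≤ Real.exp (k * ε) * (δ / 3) :=
      mul_le_mul_of_nonneg_right h1 (by positivity)
    linarith
  refine ⟨k, hk0.le, ?_⟩
  have hmul := g21_mul hN k
  set N' := E k * N * E (-k) with hN'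
  refine ContinuousLinearMap.opNorm_le_bound _ hδ.le fun f => ?_
  have hlim1 : Tendsto (fun h => ‖N' (conv (e h) f)‖) (𝓝[>] 0) (𝓝 ‖N' f‖) :=
    ((N'.continuous.tendsto _).comp (conv_e_tendsto f)).norm
  have hlim2 : Tendsto (fun h : ℝ => (2 * δ / 3) * Real.exp (k * h) * ‖f‖) (𝓝[>] 0)
      (𝓝 ((2 * δ / 3) * Real.exp (k * 0) * ‖f‖)) := by
    have hc : Continuous (fun h : ℝ => (2 * δ / 3) * Real.exp (k * h) * ‖f‖) := by fun_prop
    exact (hc.tendsto 0).mono_left nhdsWithin_le_nhds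
  have hle : ∀ᶠ h in 𝓝[>] (0 : ℝ), ‖N' (conv (e h) f)‖ ≤ (2 * δ / 3) * Real.exp (k * h) * ‖f‖ := by
    filter_upwards [self_mem_nhdsWithin] with h hh
    have hh0 : 0 < h := hh
    rw [hmul]
    refine (norm_P_le _ _).trans ((norm_conv_le _ _).trans ?_)
    apply mul_le_mul_of_nonneg_right _ (norm_nonneg _)
    refine (g21_e hk0.le (by positivity) hA hh0).trans ?_
    apply mul_le_mul_of_nonneg_right _ (Real.exp_pos _).le
    linarith
  have hfin := le_of_tendsto_of_tendsto hlim1 hlim2 hle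
  rw [mul_zero, Real.exp_zero, mul_one] at hfin
  refine hfin.trans ?_
  apply mul_le_mul_of_nonneg_right _ (norm_nonneg _)
  linarith

theorem mul_inv {a : ℝ} (ha : 0 < a) {S : V →L[ℂ] V} (hS : IsMul a S) {l : ℂ} (hl : l ≠ 0)
    (h : Atom S l) : ∃ S' : V →L[ℂ] V, IsMul a S' ∧ S * S' = P a ∧ S' * S = P a := by
  set N : V →L[ℂ] V := S + (-l) • P a with hNdef
  have hN : IsMul a N := mul_add hS (mul_smul (mul_one' a) (-l))
  have h0 : Atom N 0 := by
    have h1 := atom_add hS (mul_smul (mul_one' a) (-l)) h (atom_smul (atom_P ha) (-l))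
    have h2 : l + -l * 1 = 0 := by ring
    rwa [h2] at h1
  have hlpos : 0 < ‖l‖ := norm_pos_iff.2 hl
  obtain ⟨k, hk, hkN⟩ := weight hN h0 (δ := ‖l‖ / 2) (by positivity)
  have hEE : E k * E (-k) = 1 := by
    ext1 f
    show E k (E (-k) f) = f
    rw [E_E, add_neg_cancel, E_zero]
  have hEE' : E (-k) * E k = 1 := by
    ext1 f
    show E (-k) (E k f) = f
    rw [E_E, neg_add_cancel, E_zero]
  have hPP : P a * P a = P a := by
    ext1 f
    show P a (P a f) = P a f
    rw [P_P, min_self]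
  have hPN : P a * N = N := by
    ext1 f
    exact mul_P_left hN f
  have hNP : N * P a = N := by
    ext1 f
    exact mul_P_right hN f
  set T : V →L[ℂ] V := l⁻¹ • (E k * N * E (-k)) with hT
  have hTn : ‖-T‖ < 1 := by
    rw [norm_neg, hT, norm_smul, norm_inv]
    calc ‖l‖⁻¹ * ‖E k * N * E (-k)‖ ≤ ‖l‖⁻¹ * (‖l‖ / 2) := by gcongr
      _ = 1 / 2 := by field_simp
      _ < 1 := by norm_num
  have hU : IsUnit (1 + T) := by
    have h1 := (Units.oneSub (-T) hTn).isUnit
    have h2 : ((Units.oneSub (-T) hTn : (V →L[ℂ] V)ˣ) : V →L[ℂ] V) = 1 + T := by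
      rw [Units.val_oneSub, sub_neg_eq_add]
    rwa [h2] at h1
  set Z : V →L[ℂ] V := 1 + l⁻¹ • N with hZdef
  have hZE : Z = E (-k) * (1 + T) * E k := by
    rw [_root_.mul_add, _root_.add_mul, mul_one, hEE', hT, mul_smul_comm, smul_mul_assoc]
    show 1 + l⁻¹ • N = _
    congr 2
    calc N = 1 * N * 1 := by rw [one_mul, mul_one]
      _ = (E (-k) * E k) * N * (E (-k) * E k) := by rw [hEE']
      _ = E (-k) * (E k * N * E (-k)) * E k := by simp only [mul_assoc]
  have hZ : IsUnit Z := by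
    rw [hZE]
    have hu1 : IsUnit (E (-k)) := ⟨⟨E (-k), E k, hEE', hEE⟩, rfl⟩
    have hu2 : IsUnit (E k) := ⟨⟨E k, E (-k), hEE, hEE'⟩, rfl⟩
    exact (hu1.mul hU).mul hu2
  obtain ⟨z, hz⟩ := hZ
  have hzi : (z : V →L[ℂ] V) * ((z⁻¹ : (V →L[ℂ] V)ˣ) : V →L[ℂ] V) = 1 := z.mul_inv
  have hiz : ((z⁻¹ : (V →L[ℂ] V)ˣ) : V →L[ℂ] V) * (z : V →L[ℂ] V) = 1 := z.inv_mul
  rw [hz] at hzi hiz
  set Y : V →L[ℂ] V := ((z⁻¹ : (V →L[ℂ] V)ˣ) : V →L[ℂ] V) with hY
  have hPZ : P a * Z = P a + l⁻¹ • N := by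
    rw [hZdef, _root_.mul_add, mul_one, mul_smul_comm, hPN]
  have hZP : Z * P a = P a + l⁻¹ • N := by
    rw [hZdef, _root_.add_mul, one_mul, smul_mul_assoc, hNP]
  have hSZ : S = l • (P a * Z) := by
    rw [hPZ, smul_add, smul_smul, mul_inv_cancel₀ hl, one_smul, hNdef]
    rw [neg_smul]
    abel
  have hYP : Y * P a = P a * Y := by
    calc Y * P a = Y * (P a * Z) * Y := by
          rw [mul_assoc, mul_assoc, hzi, mul_one]
      _ = Y * (Z * P a) * Y := by rw [hPZ, hZP]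
      _ = P a * Y := by rw [← mul_assoc Y Z, hiz, one_mul]
  refine ⟨l⁻¹ • (P a * Y), ?_, ?_, ?_⟩
  · have hS'S : (l⁻¹ • (P a * Y)) * S = P a := by
      rw [hSZ, smul_mul_smul_comm, inv_mul_cancel₀ hl, one_smul]
      calc P a * Y * (P a * Z) = P a * (Y * P a) * Z := by simp only [mul_assoc]
        _ = (P a * P a) * (Y * Z) := by rw [hYP]; simp only [mul_assoc]
        _ = P a := by rw [hPP, hiz, mul_one]
    have hSS' : S * (l⁻¹ • (P a * Y)) = P a := by
      rw [hSZ, smul_mul_smul_comm, mul_inv_cancel₀ hl, one_smul]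
      calc P a * Z * (P a * Y) = P a * (Z * P a) * Y := by simp only [mul_assoc]
        _ = (P a * P a) * (Z * Y) := by rw [hZP, ← hPZ]; simp only [mul_assoc]
        _ = P a := by rw [hPP, hzi, mul_one]
    have hS'P : (l⁻¹ • (P a * Y)) * P a = l⁻¹ • (P a * Y) := by
      rw [smul_mul_assoc, mul_assoc, hYP, ← mul_assoc, hPP]
    intro f g
    have h1 : S (conv ((l⁻¹ • (P a * Y)) f) g) = P a (conv f g) := by
      rw [hS]
      have h2 : S ((l⁻¹ • (P a * Y)) f) = P a f := congrArg (fun A : V →L[ℂ] V => A f) hSS'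
      rw [h2, ← P_conv]
    have h3 : (l⁻¹ • (P a * Y)) (S (conv ((l⁻¹ • (P a * Y)) f) g)) =
        (l⁻¹ • (P a * Y)) (P a (conv f g)) := congrArg (fun v => (l⁻¹ • (P a * Y)) v) h1
    have h4 : (l⁻¹ • (P a * Y)) (S (conv ((l⁻¹ • (P a * Y)) f) g)) =
        P a (conv ((l⁻¹ • (P a * Y)) f) g) :=
      congrArg (fun A : V →L[ℂ] V => A (conv ((l⁻¹ • (P a * Y)) f) g)) hS'S
    have h5 : (l⁻¹ • (P a * Y)) (P a (conv f g)) = (l⁻¹ • (P a * Y)) (conv f g) :=
      congrArg (fun A : V →L[ℂ] V => A (conv f g)) hS'P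
    rw [h4, h5] at h3
    exact h3.symm
  · rw [hSZ, smul_mul_smul_comm, mul_inv_cancel₀ hl, one_smul]
    calc P a * Z * (P a * Y) = P a * (Z * P a) * Y := by simp only [mul_assoc]
      _ = (P a * P a) * (Z * Y) := by rw [hZP, ← hPZ]; simp only [mul_assoc]
      _ = P a := by rw [hPP, hzi, mul_one]
  · rw [hSZ, smul_mul_smul_comm, inv_mul_cancel₀ hl, one_smul]
    calc P a * Y * (P a * Z) = P a * (Y * P a) * Z := by simp only [mul_assoc]
      _ = (P a * P a) * (Y * Z) := by rw [hYP]; simp only [mul_assoc]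
      _ = P a := by rw [hPP, hiz, mul_one]

theorem g23_var {c : ℝ} (hc : 0 < c) (hc1 : c ≤ 1) (F : ℝ → ℂ) :
    eVariationOn (fun t => if t < c then F t else F c) (Icc 0 1) = eVariationOn F (Icc 0 c) := by
  have h1 := eVariationOn.Icc_add_Icc (fun t => if t < c then F t else F c) (s := univ)
    hc.le hc1 (mem_univ c)
  simp only [univ_inter] at h1
  rw [← h1]
  have h2 : eVariationOn (fun t => if t < c then F t else F c) (Icc c 1) = 0 := by
    apply eVariationOn.constant_on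
    rintro _ ⟨x, hx, rfl⟩ _ ⟨y, hy, rfl⟩
    simp only
    rw [if_neg (not_lt.2 hx.1), if_neg (not_lt.2 hy.1)]
  have h3 : eVariationOn (fun t => if t < c then F t else F c) (Icc 0 c) =
      eVariationOn F (Icc 0 c) := by
    apply eVariationOn.eq_of_eqOn
    intro t ht
    simp only
    split_ifs with h
    · rfl
    · rw [le_antisymm ht.2 (not_lt.1 h)]
  rw [h2, h3, add_zero]

theorem mul_ext_one {c : ℝ} (hc : 0 < c) (hc1 : c ≤ 1) {S : V →L[ℂ] V} (hS : IsMul c S) :
    ∃ S1 : V →L[ℂ] V, IsMul 1 S1 ∧ P c * S1 = S := by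
  obtain ⟨F, hF, hFae⟩ := bv_of_mul hc hc1 hS
  obtain ⟨S1, hS1, -, hS1ae⟩ := mul_of_bv zero_lt_one le_rfl
    (fun t => if t < c then F t else F c) (40 * ‖S‖) (by positivity) (by
      rw [g23_var hc hc1 F]
      simp only [if_pos hc]
      exact hF)
  refine ⟨S1, hS1, mul_ext (mul_restrict hc1 hS1) hS ?_⟩
  have h1 := P_ae c (S1 u)
  have h2 := P_ae c (S u)
  rw [mul_P_left hS] at h2
  apply Lp.ext
  change (P c (S1 u) : ℝ → ℂ) =ᵐ[mI] (S u : ℝ → ℂ)
  filter_upwards [h1, h2, hS1ae, hFae] with t e1 e2 e3 e4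
  rw [e1, e3]
  by_cases ht : t < c
  · rw [if_pos ht, if_pos (lt_of_lt_of_le ht hc1), if_pos ht, one_mul, e4 ht]
  · rw [if_neg ht, zero_mul]
    rw [if_neg ht, zero_mul] at e2
    exact e2.symm

/-- multipliers vanishing on `L¹[0,1/2)` have product zero -/
theorem half_sq {a : ℝ} (ha1 : a ≤ 1) {S S' : V →L[ℂ] V} (hS : IsMul a S) (hS' : IsMul a S')
    (h : P (1/2) * S = 0) (h' : P (1/2) * S' = 0) : S * S' = 0 := by
  have hh : (0:ℝ) ≤ 1/2 := by norm_num
  have h1 : ∀ v, P (1/2) (S v) = 0 := fun v => by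
    have := congrArg (fun A : V →L[ℂ] V => A v) h
    simpa using this
  have h2 : ∀ v, P (1/2) (S' v) = 0 := fun v => by
    have := congrArg (fun A : V →L[ℂ] V => A v) h'
    simpa using this
  ext1 f
  have e1 : (S * S') f = S (S' f) := rfl
  rw [e1, ← tau_lam hh (h2 f), mul_tau hS hh, ← tau_lam hh (h1 (lam (1/2) (S' f))),
    tau_tau hh hh, tau_eq_zero (by norm_num), map_zero]
  rfl

end Volt919
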