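import Mathlib
import Pool.Agent.Helper919.Volt.L1

set_option autoImplicit false

open MeasureTheory Set Filter Topology

namespace Volt919

/-! ### L2: families with growth -/

/-- compatible family of multipliers of `L¹[0,a)`, `a<1`, with norm `≤ C/(1-a)` -/
def Fam (A : ℝ → (V →L[ℂ] V)) (C : ℝ) : Prop :=
  ∀ a ∈ Ioo (0:ℝ) 1, IsMul a (A a) ∧ ‖A a‖ ≤ C / (1 - a) ∧
    ∀ b ∈ Ioo (0:ℝ) 1, a ≤ b → P a * A b = A a

theorem g25_PP {a b : ℝ} (h : a ≤ b) : P a * P b = P a := by
  apply ContinuousLinearMap.ext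
  intro f
  rw [ContinuousLinearMap.mul_apply, P_P, min_eq_left h]

theorem g25_left {a : ℝ} {S : V →L[ℂ] V} (hS : IsMul a S) : P a * S = S := by
  apply ContinuousLinearMap.ext
  intro f
  rw [ContinuousLinearMap.mul_apply, mul_P_left hS]

theorem g25_right {a : ℝ} {S : V →L[ℂ] V} (hS : IsMul a S) : S * P a = S := by
  apply ContinuousLinearMap.ext
  intro f
  rw [ContinuousLinearMap.mul_apply, mul_P_right hS]

theorem g25_caus {a b : ℝ} {S : V →L[ℂ] V} (hS : IsMul b S) : P a * S * P a = P a * S := by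
  apply ContinuousLinearMap.ext
  intro f
  rw [ContinuousLinearMap.mul_apply, ContinuousLinearMap.mul_apply,
    ContinuousLinearMap.mul_apply, ← mul_causal hS a f]

theorem g25_U (a : ℝ) : P a * cL u * P a = P a * cL u := by
  apply ContinuousLinearMap.ext
  intro f
  rw [ContinuousLinearMap.mul_apply, ContinuousLinearMap.mul_apply,
    ContinuousLinearMap.mul_apply, cL_apply, cL_apply, conv_comm u (P a f), ← P_conv,
    conv_comm f u]

theorem g25_inv {a : ℝ} (ha : 0 < a) (ha1 : a ≤ 1) {S : V →L[ℂ] V} (hS : IsMul a S) (z : ℂ) :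
    ∃ R : V →L[ℂ] V, IsMul a R ∧ (P a + z • (P a * cL u * S)) * R = P a ∧
      R * (P a + z • (P a * cL u * S)) = P a := by
  obtain ⟨l, hl⟩ := atom_exists ha ha1 hS
  have h1 := atom_mul (mul_cL a u) hS (atom_cL ha u) hl
  have h2 := atom_smul h1 z
  have h3 := atom_add (mul_one' a) (mul_smul (mul_mul (mul_cL a u) hS) z) (atom_P ha) h2
  exact mul_inv ha (mul_add (mul_one' a) (mul_smul (mul_mul (mul_cL a u) hS) z)) (by simp) h3

theorem g25_normP (a : ℝ) : ‖P a‖ ≤ 1 := by
  apply ContinuousLinearMap.opNorm_le_bound _ zero_le_one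
  intro f
  rw [one_mul]
  exact norm_P_le a f

theorem g25_normu : ‖u‖ ≤ 1 := by
  rw [norm_eq]
  have h : ∫ t in (0:ℝ)..1, ‖(u : ℝ → ℂ) t‖ = ∫ t in (0:ℝ)..1, (1:ℝ) := by
    rw [intervalIntegral.integral_of_le zero_le_one, intervalIntegral.integral_of_le zero_le_one]
    apply integral_congr_ae
    have h1 : (u : ℝ → ℂ) =ᵐ[mI] fun _ => (1:ℂ) := Integrable.coeFn_toL1 _
    have h2 : (u : ℝ → ℂ) =ᵐ[volume.restrict (Ioc (0:ℝ) 1)] fun _ => (1:ℂ) :=
      ae_restrict_of_ae_restrict_of_subset Ioc_subset_Icc_self h1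
    filter_upwards [h2] with t ht
    rw [ht]; simp
  rw [h]; simp

theorem g25_normU : ‖cL u‖ ≤ 1 := by
  apply ContinuousLinearMap.opNorm_le_bound _ zero_le_one
  intro f
  rw [one_mul, cL_apply]
  refine (norm_conv_le u f).trans ?_
  calc ‖u‖ * ‖f‖ ≤ 1 * ‖f‖ := by gcongr; exact g25_normu
    _ = ‖f‖ := one_mul _

/-- the algebraic core of the growth estimate -/
theorem g25_core {a : ℝ} (ha : 0 < a) (ha1 : a ≤ 1) {Aa S1 R1 R : V →L[ℂ] V} (z : ℂ)
    (hA : IsMul a Aa) (hS1 : IsMul 1 S1) (hR1 : IsMul 1 R1)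
    (hD : P (1/2) * (Aa - P a * S1) = 0)
    (h1 : (P 1 + z • (P 1 * cL u * S1)) * R1 = P 1)
    (hR : IsMul a R) (hR2 : R * (P a + z • (P a * cL u * Aa)) = P a) :
    Aa * R = (P a * S1) * (P a * R1 - z • ((P a * R1) * (P a * R1) * (P a * cL u) *
      (Aa - P a * S1))) + (Aa - P a * S1) * (P a * R1) := by
  set D : V →L[ℂ] V := Aa - P a * S1 with hDdef
  set s : V →L[ℂ] V := P a * S1 with hs
  set r : V →L[ℂ] V := P a * R1 with hr
  set v : V →L[ℂ] V := P a * cL u with hv
  have ms : IsMul a s := mul_restrict ha1 hS1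
  have mr : IsMul a r := mul_restrict ha1 hR1
  have mv : IsMul a v := mul_cL a u
  have mD : IsMul a D := by
    have h := mul_add hA (mul_smul ms (-1))
    have e : Aa + (-1:ℂ) • s = D := by rw [hDdef, neg_one_smul, sub_eq_add_neg]
    rwa [e] at h
  have hAe : Aa = s + D := by rw [hDdef]; abel
  -- restricted identity: (P a + z v s) r = P a
  have hw : (P a + z • (v * s)) * r = P a := by
    have e1 : P a * ((P 1 + z • (P 1 * cL u * S1)) * R1) = P a := by
      rw [h1]; exact g25_PP ha1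
    have e2 : P a * (P 1 + z • (P 1 * cL u * S1)) = P a + z • (v * s) := by
      rw [_root_.mul_add, mul_smul_comm, ← mul_assoc, ← mul_assoc, g25_PP ha1]
      rw [hv, hs, ← mul_assoc, g25_U]
    have e3 : IsMul 1 (P 1 + z • (P 1 * cL u * S1)) :=
      mul_add (mul_one' 1) (mul_smul (mul_mul (mul_cL 1 u) hS1) z)
    rw [← mul_assoc] at e1
    rw [← g25_caus e3, mul_assoc] at e1
    rw [e2] at e1
    exact e1
  have hwr : ∀ X : V →L[ℂ] V, IsMul a X → (P a + z • (v * s)) * (r * X) = X := by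
    intro X hX
    rw [← mul_assoc, hw, g25_left hX]
  have hq : P a + z • (v * Aa) = (P a + z • (v * s)) + z • (v * D) := by
    rw [hAe, _root_.mul_add, _root_.smul_add, add_assoc]
  -- D X D = 0
  have hDD : (D * (r * r * v)) * D = 0 := by
    apply half_sq ha1 (mul_mul mD (mul_mul (mul_mul mr mr) mv)) mD ?_ hD
    rw [← mul_assoc, hD, zero_mul]
  clear_value D s r v
  set R' : V →L[ℂ] V := r - z • (r * r * v * D) with hR'
  have hqR : (P a + z • (v * Aa)) * R' = P a := by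
    rw [hq, add_mul, hR', mul_sub, mul_sub, hw, mul_smul_comm, mul_smul_comm]
    have e1 : (P a + z • (v * s)) * (r * r * v * D) = r * v * D := by
      have : r * r * v * D = r * (r * v * D) := by simp only [mul_assoc]
      rw [this, hwr _ (mul_mul (mul_mul mr mv) mD)]
    have e2 : (z • (v * D)) * (r * r * v * D) = 0 := by
      have : (z • (v * D)) * (r * r * v * D) = z • (v * ((D * (r * r * v)) * D)) := by
        simp only [mul_assoc, smul_mul_assoc]
      rw [this, hDD, mul_zero, smul_zero]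
    have e3 : (z • (v * D)) * r = z • (r * v * D) := by
      rw [smul_mul_assoc, mul_comm' (mul_mul mv mD) mr, mul_assoc]
    rw [e1, e2, e3, smul_zero, sub_zero, sub_add_cancel]
  have hRR : R = R' := by
    have mR' : IsMul a R' := by
      have h := mul_add mr (mul_smul (mul_mul (mul_mul (mul_mul mr mr) mv) mD) (-z))
      have e : r + (-z) • (r * r * v * D) = R' := by rw [hR', neg_smul, sub_eq_add_neg]
      rwa [e] at h
    have e4 : R * ((P a + z • (v * Aa)) * R') = R' := by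
      rw [← mul_assoc, hR2, g25_left mR']
    rw [hqR, g25_right hR] at e4
    exact e4
  rw [hRR]
  have e5 : D * R' = D * r := by
    rw [hR', mul_sub, mul_smul_comm]
    have : D * (r * r * v * D) = (D * (r * r * v)) * D := by simp only [mul_assoc]
    rw [this, hDD, smul_zero, sub_zero]
  calc Aa * R' = (s + D) * R' := by rw [← hAe]
    _ = s * R' + D * R' := add_mul _ _ _
    _ = s * R' + D * r := by rw [e5]

theorem g25_nm (X Y : V →L[ℂ] V) {x y : ℝ} (hX : ‖X‖ ≤ x) (hY : ‖Y‖ ≤ y) : ‖X * Y‖ ≤ x * y :=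
  (norm_mul_le X Y).trans (mul_le_mul hX hY (norm_nonneg _) ((norm_nonneg _).trans hX))

theorem fam_conv {A : ℝ → (V →L[ℂ] V)} {C : ℝ} (hA : Fam A C) (z : ℂ) :
    ∃ (B : ℝ → (V →L[ℂ] V)) (C' : ℝ), Fam B C' ∧
      ∀ a ∈ Ioo (0:ℝ) 1, ∀ f, B a f + z • B a (conv u (A a f)) = A a f := by
  have key : ∀ a : ℝ, ∃ R : V →L[ℂ] V, a ∈ Ioo (0:ℝ) 1 → (IsMul a R ∧
      (P a + z • (P a * cL u * A a)) * R = P a ∧ R * (P a + z • (P a * cL u * A a)) = P a) := by
    intro a
    by_cases ha : a ∈ Ioo (0:ℝ) 1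
    · obtain ⟨R, h⟩ := g25_inv ha.1 ha.2.le (hA a ha).1 z
      exact ⟨R, fun _ => h⟩
    · exact ⟨0, fun h => absurd h ha⟩
  choose R hR using key
  have hhalf : (1/2 : ℝ) ∈ Ioo (0:ℝ) 1 := by constructor <;> norm_num
  obtain ⟨S1, mS1, hS1⟩ := mul_ext_one hhalf.1 hhalf.2.le (hA (1/2) hhalf).1
  obtain ⟨R1, mR1, hR1, -⟩ := g25_inv zero_lt_one le_rfl mS1 z
  have hC : 0 ≤ C := by
    have h := (norm_nonneg _).trans (hA (1/2) hhalf).2.1
    have h2 : C / (1 - 1/2) = 2 * C := by ring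
    rw [h2] at h; linarith
  set s := ‖S1‖ with hs
  set r := ‖R1‖ with hr
  have hs0 : 0 ≤ s := norm_nonneg _
  have hr0 : 0 ≤ r := norm_nonneg _
  have hz0 : 0 ≤ ‖z‖ := norm_nonneg _
  refine ⟨fun a => A a * R a, s * (r + ‖z‖ * (r * r * (C + s))) + (C + s) * r, ?_, ?_⟩
  · intro a ha
    obtain ⟨mA, nA, cA⟩ := hA a ha
    obtain ⟨mR, hR1a, hR2a⟩ := hR a ha
    have h1a : 0 < 1 - a := by linarith [ha.2]
    refine ⟨mul_mul mA mR, ?_, ?_⟩
    · have hD : P (1/2) * (A a - P a * S1) = 0 := by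
        rcases le_total (1/2) a with h | h
        · rw [mul_sub, ← mul_assoc, g25_PP h, hS1, (hA (1/2) hhalf).2.2 a ha h, sub_self]
        · have : P a * S1 = A a := by
            rw [← g25_PP h, mul_assoc, hS1, cA (1/2) hhalf h]
          rw [this, sub_self, mul_zero]
      have hcore := g25_core ha.1 ha.2.le z mA mS1 mR1 hD hR1 mR hR2a
      have nP := g25_normP a
      have nU := g25_normU
      have nS : ‖P a * S1‖ ≤ s := by
        have := g25_nm (P a) S1 nP le_rfl
        rwa [one_mul] at this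
      have nR : ‖P a * R1‖ ≤ r := by
        have := g25_nm (P a) R1 nP le_rfl
        rwa [one_mul] at this
      have nv : ‖P a * cL u‖ ≤ 1 := by
        have := g25_nm (P a) (cL u) nP nU
        rwa [one_mul] at this
      have nD : ‖A a - P a * S1‖ ≤ (C + s) / (1 - a) := by
        calc ‖A a - P a * S1‖ ≤ ‖A a‖ + ‖P a * S1‖ := norm_sub_le _ _
          _ ≤ C / (1 - a) + s := add_le_add nA nS
          _ ≤ C / (1 - a) + s / (1 - a) := by
              gcongr
              rw [le_div_iff₀ h1a]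
              nlinarith [ha.1]
          _ = (C + s) / (1 - a) := by rw [add_div]
      have hd0 : 0 ≤ (C + s) / (1 - a) := div_nonneg (by linarith) h1a.le
      show ‖A a * R a‖ ≤ _
      rw [hcore]
      have n1 : ‖(P a * R1) * (P a * R1) * (P a * cL u) * (A a - P a * S1)‖ ≤
          r * r * 1 * ((C + s) / (1 - a)) :=
        g25_nm _ _ (g25_nm _ _ (g25_nm _ _ nR nR) nv) nD
      have n2 : ‖P a * R1 - z • ((P a * R1) * (P a * R1) * (P a * cL u) *
          (A a - P a * S1))‖ ≤ r + ‖z‖ * (r * r * 1 * ((C + s) / (1 - a))) := by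
        refine (norm_sub_le _ _).trans (add_le_add nR ?_)
        rw [norm_smul]
        gcongr
      have n3 := g25_nm _ _ nS n2
      have n4 := g25_nm _ _ nD nR
      refine ((norm_add_le _ _).trans (add_le_add n3 n4)).trans ?_
      have h5 : s * r ≤ s * r / (1 - a) := by
        rw [le_div_iff₀ h1a]
        nlinarith [ha.1, mul_nonneg hs0 hr0]
      have h6 : (s * (r + ‖z‖ * (r * r * (C + s))) + (C + s) * r) / (1 - a) =
          s * r / (1 - a) + s * (‖z‖ * (r * r * 1 * ((C + s) / (1 - a)))) +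
            (C + s) / (1 - a) * r := by
        field_simp
      rw [h6, _root_.mul_add]
      linarith
    · intro b hb hab
      obtain ⟨mB, nB, cB⟩ := hA b hb
      obtain ⟨mRb, hR1b, hR2b⟩ := hR b hb
      show P a * (A b * R b) = A a * R a
      have e1 : P a * (P b + z • (P b * cL u * A b)) = P a + z • (P a * cL u * A a) := by
        rw [_root_.mul_add, mul_smul_comm, ← mul_assoc, ← mul_assoc, g25_PP hab]
        rw [← cA b hb hab]
        rw [← mul_assoc (P a * cL u) (P a) (A b), g25_U]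
      have e2 : P a * R b = R a := by
        have e3 : (P a * R b) * (P a + z • (P a * cL u * A a)) = P a := by
          rw [← e1, ← mul_assoc, g25_caus mRb, mul_assoc, hR2b, g25_PP hab]
        have e4 : (P a * R b) * ((P a + z • (P a * cL u * A a)) * R a) = R a := by
          rw [← mul_assoc, e3, g25_left mR]
        rw [hR1a, g25_right (mul_restrict hab mRb)] at e4
        exact e4
      rw [← mul_assoc, ← g25_caus mB, mul_assoc, e2, cA b hb hab]
  · intro a ha f
    obtain ⟨mA, nA, cA⟩ := hA a ha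
    obtain ⟨mR, hR1a, hR2a⟩ := hR a ha
    show (A a * R a) f + z • (A a * R a) (conv u (A a f)) = A a f
    have e1 : R a (f + z • conv u (A a f)) = P a f := by
      rw [← mul_P_right mR]
      have e2 : P a (f + z • conv u (A a f)) = (P a + z • (P a * cL u * A a)) f := by
        simp only [map_add, map_smul, ContinuousLinearMap.add_apply,
          ContinuousLinearMap.smul_apply, ContinuousLinearMap.mul_apply, cL_apply]
      rw [e2, ← ContinuousLinearMap.mul_apply, hR2a]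
    rw [← map_smul, ← map_add, ContinuousLinearMap.mul_apply, e1, mul_P_right mA]

theorem g26_endpoint {f g : ℝ → ℂ} {p q : ℝ} (h : ∀ t ∈ Ico p q, g t = f t) :
    eVariationOn g (Icc p q) ≤ eVariationOn f (Icc p q) + edist (f q) (g q) := by
  unfold eVariationOn
  apply iSup_le
  rintro ⟨n, ⟨w, hw, hws⟩⟩
  have key : ∀ m : ℕ, ∑ i ∈ Finset.range m, edist (g (w (i + 1))) (g (w i)) ≤
      ∑ i ∈ Finset.range m, edist (f (w (i + 1))) (f (w i)) +
        (if w m = q then edist (f q) (g q) else 0) := by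
    intro m
    induction m with
    | zero => simp
    | succ m ih =>
      rw [Finset.sum_range_succ, Finset.sum_range_succ]
      have hle : w m ≤ w (m+1) := hw (Nat.le_succ m)
      by_cases h1 : w (m+1) = q
      · rw [if_pos h1]
        by_cases h2 : w m = q
        · rw [if_pos h2] at ih
          rw [h1, h2, edist_self, edist_self, add_zero, add_zero]
          exact ih
        · rw [if_neg h2, add_zero] at ih
          have h3 : w m ∈ Ico p q := ⟨(hws m).1, lt_of_le_of_ne (hws m).2 h2⟩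
          rw [h1, h _ h3]
          calc ∑ i ∈ Finset.range m, edist (g (w (i + 1))) (g (w i)) + edist (g q) (f (w m))
              ≤ ∑ i ∈ Finset.range m, edist (f (w (i + 1))) (f (w i)) +
                (edist (f q) (f (w m)) + edist (f q) (g q)) := by
                  refine add_le_add ih ?_
                  rw [add_comm, edist_comm (f q) (g q)]
                  exact edist_triangle _ _ _
            _ = _ := by rw [add_assoc]
      · rw [if_neg h1, add_zero]
        have h3 : w (m+1) ∈ Ico p q := ⟨(hws _).1, lt_of_le_of_ne (hws _).2 h1⟩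
        have h4 : w m ∈ Ico p q := ⟨(hws m).1, lt_of_le_of_lt hle h3.2⟩
        rw [if_neg h4.2.ne, add_zero] at ih
        rw [h _ h3, h _ h4]
        gcongr
  refine (key n).trans ?_
  refine add_le_add ?_ ?_
  · exact le_iSup (fun p : ℕ × { u : ℕ → ℝ // Monotone u ∧ ∀ i, u i ∈ Icc p q } =>
      ∑ i ∈ Finset.range p.1, edist (f ((p.2 : ℕ → ℝ) (i + 1))) (f ((p.2 : ℕ → ℝ) i)))
      (n, ⟨w, hw, hws⟩)
  · split_ifs
    · exact le_rfl
    · exact bot_le

/-- the partition points -/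
noncomputable def g26_a (n : ℕ) : ℝ := 1 - (1/2)^(n+1)

theorem g26_a_mem (n : ℕ) : g26_a n ∈ Ioo (0:ℝ) 1 := by
  unfold g26_a
  have h1 : (0:ℝ) < (1/2)^(n+1) := by positivity
  have h2 : ((1:ℝ)/2)^(n+1) < 1 := pow_lt_one₀ (by norm_num) (by norm_num) (Nat.succ_ne_zero n)
  constructor <;> linarith

theorem g26_a_mono : Monotone g26_a := by
  intro m n h
  unfold g26_a
  have : ((1:ℝ)/2)^(n+1) ≤ (1/2)^(m+1) :=
    pow_le_pow_of_le_one (by norm_num) (by norm_num) (by omega)
  linarith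

theorem g26_ex (t : ℝ) (ht : t < 1) : ∃ n, t < g26_a n := by
  obtain ⟨n, hn⟩ := exists_pow_lt_of_lt_one (show (0:ℝ) < 1 - t by linarith)
    (show (1/2 : ℝ) < 1 by norm_num)
  refine ⟨n, ?_⟩
  unfold g26_a
  have : ((1:ℝ)/2)^(n+1) ≤ (1/2)^n :=
    pow_le_pow_of_le_one (by norm_num) (by norm_num) (by omega)
  linarith

open Classical in
/-- index of the block containing `t` -/
noncomputable def g26_N (t : ℝ) : ℕ := if h : ∃ n, t < g26_a n then Nat.find h else 0

theorem g26_N_lt {t : ℝ} (ht : t < 1) : t < g26_a (g26_N t) := by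
  classical
  have h := g26_ex t ht
  unfold g26_N
  rw [dif_pos h]
  convert Nat.find_spec h

theorem g26_N_le {t : ℝ} {n : ℕ} (h : t < g26_a n) : g26_N t ≤ n := by
  classical
  have hh : ∃ n, t < g26_a n := ⟨n, h⟩
  have h2 : g26_N t = Nat.find hh := by
    unfold g26_N
    rw [dif_pos hh]
  rw [h2]
  exact Nat.find_min' hh h

theorem g26_N_eq {t : ℝ} {n : ℕ} (h : t < g26_a (n+1)) (h2 : g26_a n ≤ t) : g26_N t = n + 1 := by
  refine le_antisymm (g26_N_le h) ?_
  by_contra hc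
  have h3 : g26_N t ≤ n := by omega
  have h4 := g26_N_lt (h.trans (g26_a_mem _).2)
  exact absurd (h4.trans_le ((g26_a_mono h3).trans h2)) (lt_irrefl _)

theorem g26_N_zero {t : ℝ} (h : t < g26_a 0) : g26_N t = 0 := Nat.le_zero.mp (g26_N_le h)

theorem g26_pow {t : ℝ} (h0 : 0 ≤ t) (ht : t < 1) : (2:ℝ)^(g26_N t) ≤ 1 / (1 - t) := by
  have h1 : 0 < 1 - t := by linarith
  rw [le_div_iff₀ h1]
  rcases Nat.eq_zero_or_pos (g26_N t) with h | h
  · rw [h]; simp; exact h0
  · obtain ⟨m, hm⟩ := Nat.exists_eq_succ_of_ne_zero h.ne'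
    have h2 : ¬ (t < g26_a m) := by
      intro hlt
      have := g26_N_le hlt
      omega
    push Not at h2
    unfold g26_a at h2
    rw [hm, Nat.succ_eq_add_one]
    have h3 : 1 - t ≤ (1/2)^(m+1) := by linarith
    calc (2:ℝ)^(m+1) * (1 - t) ≤ 2^(m+1) * (1/2)^(m+1) := by gcongr
      _ = 1 := by rw [← mul_pow]; norm_num

theorem g26_bound {F : ℝ → ℂ} {a b : ℝ} (hb : 0 ≤ b)
    (h : ENNReal.ofReal ‖F 0‖ + eVariationOn F (Icc 0 a) ≤ ENNReal.ofReal b)
    {t : ℝ} (ht : t ∈ Icc 0 a) : ‖F t‖ ≤ b := by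
  have h0 : (0:ℝ) ∈ Icc 0 a := ⟨le_rfl, ht.1.trans ht.2⟩
  have h1 : edist (F t) (F 0) ≤ eVariationOn F (Icc 0 a) := eVariationOn.edist_le F ht h0
  have h2 : ENNReal.ofReal ‖F t‖ ≤ ENNReal.ofReal b := by
    calc ENNReal.ofReal ‖F t‖ ≤ ENNReal.ofReal (‖F 0‖ + ‖F t - F 0‖) := by
          apply ENNReal.ofReal_le_ofReal
          calc ‖F t‖ = ‖F 0 + (F t - F 0)‖ := by rw [add_sub_cancel]
            _ ≤ _ := norm_add_le _ _
      _ = ENNReal.ofReal ‖F 0‖ + edist (F t) (F 0) := by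
          rw [ENNReal.ofReal_add (norm_nonneg _) (norm_nonneg _), edist_dist, dist_eq_norm]
      _ ≤ ENNReal.ofReal ‖F 0‖ + eVariationOn F (Icc 0 a) := by gcongr
      _ ≤ _ := h
  exact (ENNReal.ofReal_le_ofReal_iff hb).mp h2

theorem fun_of_fam {A : ℝ → (V →L[ℂ] V)} {C : ℝ} (hA : Fam A C) :
    ∃ (G : ℝ → ℂ) (C' : ℝ), (∀ a ∈ Ico (0:ℝ) 1, ENNReal.ofReal ‖G 0‖ + eVariationOn G (Icc 0 a) ≤
      ENNReal.ofReal (C' / (1 - a))) ∧
      ∀ a ∈ Ioo (0:ℝ) 1, ∀ᵐ t ∂mI, t < a → (A a u : ℝ → ℂ) t = G t := by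
  have hC : 0 ≤ C := by
    have h := (norm_nonneg _).trans (hA (g26_a 0) (g26_a_mem 0)).2.1
    have h2 : C / (1 - g26_a 0) = 2 * C := by unfold g26_a; ring
    rw [h2] at h; linarith
  have key : ∀ n : ℕ, ∃ F : ℝ → ℂ, ENNReal.ofReal ‖F 0‖ + eVariationOn F (Icc 0 (g26_a n)) ≤
      ENNReal.ofReal (40 * (C * 2^(n+1))) ∧
      ∀ᵐ t ∂mI, t < g26_a n → (A (g26_a n) u : ℝ → ℂ) t = F t := by
    intro n
    obtain ⟨F, h1, h2⟩ := bv_of_mul (g26_a_mem n).1 (g26_a_mem n).2.le
      (hA (g26_a n) (g26_a_mem n)).1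
    refine ⟨F, h1.trans (ENNReal.ofReal_le_ofReal ?_), h2⟩
    have h3 := (hA (g26_a n) (g26_a_mem n)).2.1
    have h4 : C / (1 - g26_a n) = C * 2^(n+1) := by
      unfold g26_a
      rw [sub_sub_cancel, one_div, inv_pow, div_inv_eq_mul]
    rw [h4] at h3
    linarith
  choose F hF hFu using key
  have hb0 : ∀ n : ℕ, 0 ≤ 40 * (C * 2^(n+1)) := fun n => by positivity
  have hFb : ∀ n : ℕ, ∀ t ∈ Icc 0 (g26_a n), ‖F n t‖ ≤ 40 * (C * 2^(n+1)) :=
    fun n t ht => g26_bound (hb0 n) (hF n) ht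
  set G : ℝ → ℂ := fun t => F (g26_N t) t with hG
  have hed : ∀ n : ℕ, edist (F n (g26_a n)) (G (g26_a n)) ≤
      ENNReal.ofReal (40 * (C * 2^(n+1)) + 40 * (C * 2^(n+2))) := by
    intro n
    have e : g26_N (g26_a n) = n + 1 := by
      apply g26_N_eq _ le_rfl
      unfold g26_a
      have : ((1:ℝ)/2)^(n+1+1) < (1/2)^(n+1) :=
        pow_lt_pow_right_of_lt_one₀ (by norm_num) (by norm_num) (by omega)
      linarith
    have e2 : G (g26_a n) = F (n+1) (g26_a n) := by
      rw [hG]; simp only; rw [e]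
    rw [e2, edist_dist, dist_eq_norm]
    apply ENNReal.ofReal_le_ofReal
    refine (norm_sub_le _ _).trans (add_le_add ?_ ?_)
    · exact hFb n _ ⟨(g26_a_mem n).1.le, le_rfl⟩
    · exact hFb (n+1) _ ⟨(g26_a_mem n).1.le, g26_a_mono (Nat.le_succ n)⟩
  have hV : ∀ n : ℕ, eVariationOn G (Icc 0 (g26_a n)) ≤ ENNReal.ofReal (40 * (C * 2^(n+4))) := by
    intro n
    induction n with
    | zero =>
      have h1 : ∀ t ∈ Ico 0 (g26_a 0), G t = F 0 t := by
        intro t ht
        rw [hG]; simp only; rw [g26_N_zero ht.2]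
      refine (g26_endpoint h1).trans ?_
      refine (add_le_add (le_trans le_add_self (hF 0)) (hed 0)).trans ?_
      rw [← ENNReal.ofReal_add (hb0 0) (by positivity)]
      apply ENNReal.ofReal_le_ofReal
      norm_num
      nlinarith
    | succ n ih =>
      have h1 : ∀ t ∈ Ico (g26_a n) (g26_a (n+1)), G t = F (n+1) t := by
        intro t ht
        rw [hG]; simp only; rw [g26_N_eq ht.2 ht.1]
      have h2 := (g26_endpoint h1)
      have h3 : eVariationOn (F (n+1)) (Icc (g26_a n) (g26_a (n+1))) ≤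
          ENNReal.ofReal (40 * (C * 2^(n+1+1))) := by
        refine le_trans ?_ (le_trans le_add_self (hF (n+1)))
        apply eVariationOn.mono
        exact Icc_subset_Icc_left (g26_a_mem n).1.le
      have h4 := h2.trans (add_le_add h3 (hed (n+1)))
      have h5 : eVariationOn G (Icc 0 (g26_a (n+1))) =
          eVariationOn G (Icc 0 (g26_a n)) + eVariationOn G (Icc (g26_a n) (g26_a (n+1))) := by
        have := eVariationOn.Icc_add_Icc G (s := univ) (g26_a_mem n).1.le
          (g26_a_mono (Nat.le_succ n)) (mem_univ _)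
        simpa using this.symm
      rw [h5]
      refine (add_le_add ih h4).trans ?_
      rw [← ENNReal.ofReal_add (by positivity) (by positivity),
        ← ENNReal.ofReal_add (by positivity) (by positivity)]
      apply ENNReal.ofReal_le_ofReal
      have e1 : (2:ℝ)^(n+4) = 16 * 2^n := by ring
      have e2 : (2:ℝ)^(n+1+1) = 4 * 2^n := by ring
      have e3 : (2:ℝ)^(n+1+2) = 8 * 2^n := by ring
      have e4 : (2:ℝ)^(n+1+4) = 32 * 2^n := by ring
      rw [e1, e2, e3, e4]
      linarith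
  refine ⟨G, 720 * C, ?_, ?_⟩
  · intro a ha
    have h1 := g26_N_lt ha.2
    have h2 : eVariationOn G (Icc 0 a) ≤ ENNReal.ofReal (40 * (C * 2^(g26_N a+4))) :=
      (eVariationOn.mono G (Icc_subset_Icc_right h1.le)).trans (hV _)
    have h3 : ‖G 0‖ ≤ 40 * (C * 2^(0+1)) := by
      have : G 0 = F 0 0 := by
        rw [hG]; simp only; rw [g26_N_zero (g26_a_mem 0).1]
      rw [this]
      exact hFb 0 0 ⟨le_rfl, (g26_a_mem 0).1.le⟩
    refine (add_le_add (ENNReal.ofReal_le_ofReal h3) h2).trans ?_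
    rw [← ENNReal.ofReal_add (hb0 0) (by positivity)]
    apply ENNReal.ofReal_le_ofReal
    have h4 := g26_pow ha.1 ha.2
    have h5 : (1:ℝ) ≤ 2^(g26_N a) := one_le_pow₀ (by norm_num)
    have e1 : (2:ℝ)^(g26_N a+4) = 16 * 2^(g26_N a) := by ring
    rw [e1]
    have h6 : 720 * C / (1 - a) = 720 * C * (1 / (1 - a)) := by ring
    rw [h6]
    have h7 : 720 * C * 2^(g26_N a) ≤ 720 * C * (1 / (1 - a)) := by gcongr
    refine le_trans ?_ h7
    have h8 : C * 1 ≤ C * 2^(g26_N a) := by gcongr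
    norm_num
    linarith
  · intro a ha
    have h1 : ∀ n : ℕ, ∀ᵐ t ∂mI, t < a → t < g26_a n →
        (A a u : ℝ → ℂ) t = (A (g26_a n) u : ℝ → ℂ) t := by
      intro n
      rcases le_total a (g26_a n) with h | h
      · have e := (hA a ha).2.2 (g26_a n) (g26_a_mem n) h
        filter_upwards [P_ae a (A (g26_a n) u)] with t ht h1 h2
        rw [← e, ContinuousLinearMap.mul_apply, ht, if_pos h1, one_mul]
      · have e := (hA (g26_a n) (g26_a_mem n)).2.2 a ha h
        filter_upwards [P_ae (g26_a n) (A a u)] with t ht h1 h2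
        rw [← e, ContinuousLinearMap.mul_apply, ht, if_pos h2, one_mul]
    filter_upwards [ae_all_iff.mpr h1, ae_all_iff.mpr hFu] with t ht1 ht2 hta
    have h2 := g26_N_lt (hta.trans ha.2)
    rw [ht1 (g26_N t) hta h2, ht2 (g26_N t) h2]

theorem fam_of_fun (G : ℝ → ℂ) (C : ℝ) (hG : ∀ a ∈ Ico (0:ℝ) 1,
      ENNReal.ofReal ‖G 0‖ + eVariationOn G (Icc 0 a) ≤ ENNReal.ofReal (C / (1 - a))) :
    ∃ (A : ℝ → (V →L[ℂ] V)) (C' : ℝ), Fam A C' ∧
      ∀ a ∈ Ioo (0:ℝ) 1, ∀ᵐ t ∂mI, t < a → (A a u : ℝ → ℂ) t = G t := by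
  have key : ∀ a : ℝ, ∃ S : V →L[ℂ] V, a ∈ Ioo (0:ℝ) 1 →
      (IsMul a S ∧ ‖S‖ ≤ max C 0 / (1 - a) ∧
        ∀ᵐ t ∂mI, (S u : ℝ → ℂ) t = if t < a then G t else 0) := by
    intro a
    by_cases ha : a ∈ Ioo (0:ℝ) 1
    · have h1 : 0 < 1 - a := by linarith [ha.2]
      have h2 : C / (1 - a) ≤ max C 0 / (1 - a) :=
        div_le_div_of_nonneg_right (le_max_left _ _) h1.le
      obtain ⟨S, h⟩ := mul_of_bv ha.1 ha.2.le G (max C 0 / (1 - a))
        (div_nonneg (le_max_right _ _) h1.le)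
        ((hG a ⟨ha.1.le, ha.2⟩).trans (ENNReal.ofReal_le_ofReal h2))
      exact ⟨S, fun _ => h⟩
    · exact ⟨0, fun h => absurd h ha⟩
  choose A hA using key
  refine ⟨A, max C 0, ?_, ?_⟩
  · intro a ha
    obtain ⟨h1, h2, h3⟩ := hA a ha
    refine ⟨h1, h2, ?_⟩
    intro b hb hab
    obtain ⟨h1', h2', h3'⟩ := hA b hb
    apply mul_ext (mul_restrict hab h1') h1
    apply Lp.ext
    filter_upwards [P_ae a (A b u), h3, h3'] with t ht1 ht2 ht3
    rw [ContinuousLinearMap.mul_apply, ht1, ht2, ht3]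
    by_cases hta : t < a
    · rw [if_pos hta, if_pos (lt_of_lt_of_le hta hab), if_pos hta, one_mul]
    · rw [if_neg hta, if_neg hta, zero_mul]
  · intro a ha
    filter_upwards [(hA a ha).2.2] with t ht hta
    rw [ht, if_pos hta]

end Volt919
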