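import Mathlib
import Pool.Agent.Helper919.Volt.L2

set_option autoImplicit false

open MeasureTheory Set Filter Topology

namespace Volt919

/-! ### L3: automorphisms, forward direction -/

/-- algebra homomorphism property -/
def Hom (T : V → V) : Prop := ∀ f g, T (conv f g) = conv (T f) (T g)

/-- the separating space -/
def g28_Z {X Y : Type} [NormedAddCommGroup X] [NormedSpace ℂ X] [NormedAddCommGroup Y]
    [NormedSpace ℂ Y] (T : X →ₗ[ℂ] Y) : Submodule ℂ Y where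
  carrier := {y | ∀ ε : ℝ, 0 < ε → ∃ x : X, ‖x‖ < ε ∧ ‖T x - y‖ < ε}
  zero_mem' := by
    intro ε hε
    exact ⟨0, by simpa using hε, by simpa using hε⟩
  add_mem' := by
    intro y y' hy hy' ε hε
    obtain ⟨x, h1, h2⟩ := hy (ε / 2) (by positivity)
    obtain ⟨x', h1', h2'⟩ := hy' (ε / 2) (by positivity)
    refine ⟨x + x', ?_, ?_⟩
    · exact lt_of_le_of_lt (norm_add_le _ _) (by linarith)
    · have e : T (x + x') - (y + y') = (T x - y) + (T x' - y') := by
        rw [map_add]; abel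
      rw [e]
      exact lt_of_le_of_lt (norm_add_le _ _) (by linarith)
  smul_mem' := by
    intro c y hy ε hε
    have hc : 0 < ‖c‖ + 1 := by positivity
    obtain ⟨x, h1, h2⟩ := hy (ε / (‖c‖ + 1)) (by positivity)
    have key : ∀ t : ℝ, 0 ≤ t → t < ε / (‖c‖ + 1) → ‖c‖ * t < ε := by
      intro t ht0 ht
      rw [lt_div_iff₀ hc] at ht
      nlinarith [norm_nonneg c]
    refine ⟨c • x, ?_, ?_⟩
    · rw [norm_smul]
      exact key _ (norm_nonneg _) h1
    · rw [map_smul, ← smul_sub, norm_smul]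
      exact key _ (norm_nonneg _) h2

theorem g28_Z_closed {X Y : Type} [NormedAddCommGroup X] [NormedSpace ℂ X] [NormedAddCommGroup Y]
    [NormedSpace ℂ Y] (T : X →ₗ[ℂ] Y) : IsClosed (g28_Z T : Set Y) := by
  apply isClosed_of_closure_subset
  intro y hy ε hε
  obtain ⟨z, hz, hyz⟩ := Metric.mem_closure_iff.1 hy (ε / 2) (by positivity)
  obtain ⟨x, h1, h2⟩ := hz (ε / 2) (by positivity)
  refine ⟨x, by linarith, ?_⟩
  rw [dist_comm, dist_eq_norm] at hyz
  have e : T x - y = (T x - z) + (z - y) := by abel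
  rw [e]
  exact lt_of_le_of_lt (norm_add_le _ _) (by linarith)

theorem g28_general {X Y W : Type} [NormedAddCommGroup X] [NormedSpace ℂ X] [CompleteSpace X]
    [NormedAddCommGroup Y] [NormedSpace ℂ Y] [CompleteSpace Y]
    [NormedAddCommGroup W] [NormedSpace ℂ W] (T : X →ₗ[ℂ] Y) (A : Y →L[ℂ] W)
    (h : ∀ y : Y, (∃ x : ℕ → X, Tendsto x atTop (𝓝 0) ∧ Tendsto (fun n => T (x n)) atTop (𝓝 y)) →
      A y = 0) : Continuous (fun f => A (T f)) := by
  set Z := g28_Z T with hZ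
  haveI hZc : IsClosed (Z : Set Y) := g28_Z_closed T
  -- `A` vanishes on `Z`
  have hAZ : Z ≤ LinearMap.ker (A : Y →ₗ[ℂ] W) := by
    intro y hy
    rw [LinearMap.mem_ker]
    apply h
    have h1 : ∀ n : ℕ, ∃ x : X, ‖x‖ < 1 / ((n : ℝ) + 1) ∧ ‖T x - y‖ < 1 / ((n : ℝ) + 1) :=
      fun n => hy _ (by positivity)
    choose x hx1 hx2 using h1
    refine ⟨x, ?_, ?_⟩
    · rw [tendsto_zero_iff_norm_tendsto_zero]
      exact squeeze_zero (fun n => norm_nonneg _) (fun n => (hx1 n).le)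
        tendsto_one_div_add_atTop_nhds_zero_nat
    · rw [tendsto_iff_norm_sub_tendsto_zero]
      exact squeeze_zero (fun n => norm_nonneg _) (fun n => (hx2 n).le)
        tendsto_one_div_add_atTop_nhds_zero_nat
  let Q : Y →ₗ[ℂ] Y ⧸ Z := Z.mkQ
  let QT : X →ₗ[ℂ] Y ⧸ Z := Q.comp T
  have hQT : Continuous QT := by
    apply LinearMap.continuous_of_seq_closed_graph
    intro s x q hs hq
    obtain ⟨y, hy⟩ := Z.mkQ_surjective (q - QT x)
    have hyZ : y ∈ Z := by
      intro ε hε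
      have e1 : ∀ᶠ n in atTop, ‖s n - x‖ < ε / 2 := by
        have := (tendsto_iff_norm_sub_tendsto_zero.1 hs)
        exact this.eventually (gt_mem_nhds (by positivity))
      have e2 : ∀ᶠ n in atTop, ‖QT (s n) - q‖ < ε / 4 := by
        have := (tendsto_iff_norm_sub_tendsto_zero.1 hq)
        exact this.eventually (gt_mem_nhds (by positivity))
      obtain ⟨n, hn1, hn2⟩ := (e1.and e2).exists
      have e3 : QT (s n) - q = Z.mkQ (T (s n - x) - y) := by
        rw [map_sub Z.mkQ, hy, map_sub T, map_sub Z.mkQ]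
        show QT (s n) - q = QT (s n) - QT x - (q - QT x)
        abel
      rw [e3] at hn2
      obtain ⟨m, hm1, hm2⟩ := Submodule.Quotient.norm_mk_lt (Z.mkQ (T (s n - x) - y))
        (show 0 < ε / 4 by positivity)
      have hm3 : ‖m‖ < ε / 2 := by linarith
      have hzZ : (T (s n - x) - y) - m ∈ Z := by
        rw [← Submodule.Quotient.mk_eq_zero, Submodule.Quotient.mk_sub, hm1]
        exact sub_self _
      obtain ⟨w, hw1, hw2⟩ := hzZ (ε / 2) (by positivity)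
      refine ⟨(s n - x) - w, ?_, ?_⟩
      · exact lt_of_le_of_lt (norm_sub_le _ _) (by linarith)
      · have e4 : T ((s n - x) - w) - y = m - (T w - ((T (s n - x) - y) - m)) := by
          rw [map_sub T (s n - x) w]; abel
        rw [e4]
        exact lt_of_le_of_lt (norm_sub_le _ _) (by linarith)
    have h0 : Z.mkQ y = 0 := by
      rw [Submodule.mkQ_apply, Submodule.Quotient.mk_eq_zero]
      exact hyZ
    rw [h0] at hy
    exact (sub_eq_zero.1 hy.symm)
  let A' : Y ⧸ Z →ₗ[ℂ] W := Z.liftQ (A : Y →ₗ[ℂ] W) hAZ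
  have hA' : Continuous A' := by
    rw [Z.isOpenQuotientMap_mkQ.isQuotientMap.continuous_iff]
    exact A.continuous
  exact hA'.comp hQT


theorem sep_lemma (T : V →ₗ[ℂ] V) (A : V →L[ℂ] V)
    (h : ∀ y : V, (∃ x : ℕ → V, Tendsto x atTop (𝓝 0) ∧ Tendsto (fun n => T (x n)) atTop (𝓝 y)) →
      A y = 0) : Continuous (fun f => A (T f)) := by 
  exact g28_general T A h

theorem g29_unb (L : V →ₗ[ℂ] V) (hL : ¬ Continuous L) (δ : ℝ) (hδ : 0 < δ) (C : ℝ) :
    ∃ x : V, ‖x‖ ≤ δ ∧ C ≤ ‖L x‖ := by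
  by_contra hcon
  push_neg at hcon
  apply hL
  obtain ⟨K, hK⟩ := LinearMap.bound_of_ball_bound hδ C L (fun z hz => by
    have h1 : ‖z‖ < δ := by simpa [Metric.mem_ball, dist_zero_right] using hz
    exact (hcon z h1.le).le)
  exact AddMonoidHomClass.continuous_of_bound L K hK

/-- products `R m * R (m+1) * ... * R (m+k-1)` -/
noncomputable def g29_PR (R : ℕ → (V →L[ℂ] V)) (m : ℕ) : ℕ → (V →L[ℂ] V)
  | 0 => 1
  | k + 1 => g29_PR R m k * R (m + k)

theorem g29_PR_add (R : ℕ → (V →L[ℂ] V)) (m : ℕ) : ∀ k : ℕ,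
    g29_PR R 0 (m + k) = g29_PR R 0 m * g29_PR R m k
  | 0 => by simp [g29_PR]
  | k + 1 => by
    have h1 : g29_PR R 0 (m + (k + 1)) = g29_PR R 0 (m + k) * R (0 + (m + k)) := rfl
    have h2 : g29_PR R m (k + 1) = g29_PR R m k * R (m + k) := rfl
    rw [h1, h2, g29_PR_add R m k, mul_assoc, Nat.zero_add]

theorem g29_T_PR (T : V →ₗ[ℂ] V) (R S SS : ℕ → (V →L[ℂ] V))
    (hTR : ∀ n f, T (R n f) = S n (T f)) (h0 : SS 0 = 1)
    (hS : ∀ n, SS (n + 1) = SS n * S n) : ∀ (n : ℕ) (f : V), T (g29_PR R 0 n f) = SS n (T f)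
  | 0, f => by simp [g29_PR, h0]
  | n + 1, f => by
    have h1 : g29_PR R 0 (n + 1) = g29_PR R 0 n * R (0 + n) := rfl
    rw [h1, hS, Nat.zero_add]
    have h2 : (g29_PR R 0 n * R n) f = g29_PR R 0 n (R n f) := rfl
    have h3 : (SS n * S n) (T f) = SS n (S n (T f)) := rfl
    rw [h2, h3, g29_T_PR T R S SS hTR h0 hS n, hTR]

theorem hump (T : V →ₗ[ℂ] V) (Q S R : ℕ → (V →L[ℂ] V)) (hQ : ∀ n f, ‖Q n f‖ ≤ ‖f‖)
    (hTR : ∀ n f, T (R n f) = S n (T f)) (SS : ℕ → (V →L[ℂ] V)) (h0 : SS 0 = 1)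
    (hS : ∀ n, SS (n + 1) = SS n * S n)
    (hc : ∀ n, Continuous (fun f => Q n (SS (n + 1) (T f))))
    (hd : ∀ n, ¬ Continuous (fun f => Q n (SS n (T f)))) : False := by
  classical
  -- constants
  have hc' : ∀ n, ∃ c : ℝ, 0 ≤ c ∧ ∀ f, ‖Q n (SS (n + 1) (T f))‖ ≤ c * ‖f‖ := by
    intro n
    let L : V →L[ℂ] V := ⟨((Q n : V →L[ℂ] V) : V →ₗ[ℂ] V) ∘ₗ
      ((SS (n + 1) : V →L[ℂ] V) : V →ₗ[ℂ] V) ∘ₗ T, hc n⟩
    exact ⟨‖L‖, norm_nonneg _, fun f => L.le_opNorm f⟩
  choose c hc0 hcb using hc'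
  have hunb : ∀ (n : ℕ) (δ : ℝ), 0 < δ → ∀ C : ℝ, ∃ x : V, ‖x‖ ≤ δ ∧
      C ≤ ‖Q n (SS n (T x))‖ := by
    intro n δ hδ C
    exact g29_unb (((Q n : V →L[ℂ] V) : V →ₗ[ℂ] V) ∘ₗ
      ((SS n : V →L[ℂ] V) : V →ₗ[ℂ] V) ∘ₗ T) (hd n) δ hδ C
  -- weights
  let c' : ℕ → ℝ := fun m => Nat.casesOn m 0 c
  have hc'0 : ∀ m, 0 ≤ c' m := by
    intro m
    cases m with
    | zero => exact le_rfl
    | succ m => exact hc0 m
  let D : ℕ → ℝ := fun n => ∑ m ∈ Finset.range (n + 1), (1 + c' m) * (1 + ‖g29_PR R m (n - m)‖)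
  have hterm : ∀ n m, 0 < (1 + c' m) * (1 + ‖g29_PR R m (n - m)‖) := by
    intro n m
    have := hc'0 m
    have := norm_nonneg (g29_PR R m (n - m))
    positivity
  have hDle : ∀ n m, m ≤ n → (1 + c' m) * (1 + ‖g29_PR R m (n - m)‖) ≤ D n := by
    intro n m hmn
    exact Finset.single_le_sum (f := fun m => (1 + c' m) * (1 + ‖g29_PR R m (n - m)‖))
      (fun i _ => (hterm n i).le) (Finset.mem_range.2 (Nat.lt_succ_of_le hmn))
  have hDpos : ∀ n, 0 < D n := fun n => lt_of_lt_of_le (hterm n 0) (hDle n 0 (Nat.zero_le n))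
  let δ : ℕ → ℝ := fun n => (1 / 2 : ℝ) ^ n / D n
  have hδ : ∀ n, 0 < δ n := fun n => div_pos (by positivity) (hDpos n)
  have hsmall : ∀ (m k : ℕ) (x : V), ‖x‖ ≤ δ (m + k) →
      ‖g29_PR R m k x‖ ≤ (1 / 2 : ℝ) ^ (m + k) / (1 + c' m) := by
    intro m k x hx
    have h1 : ‖g29_PR R m k x‖ ≤ ‖g29_PR R m k‖ * ‖x‖ := (g29_PR R m k).le_opNorm x
    have h2 := hDle (m + k) m (Nat.le_add_right m k)
    rw [Nat.add_sub_cancel_left] at h2
    have h3 : 0 < 1 + c' m := by linarith [hc'0 m]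
    have h4 := norm_nonneg (g29_PR R m k)
    have h5 : ‖g29_PR R m k‖ * (1 + c' m) ≤ D (m + k) := by nlinarith
    rw [le_div_iff₀ h3]
    calc ‖g29_PR R m k x‖ * (1 + c' m) ≤ (‖g29_PR R m k‖ * ‖x‖) * (1 + c' m) :=
          mul_le_mul_of_nonneg_right h1 h3.le
      _ = (‖g29_PR R m k‖ * (1 + c' m)) * ‖x‖ := by ring
      _ ≤ D (m + k) * ‖x‖ := mul_le_mul_of_nonneg_right h5 (norm_nonneg _)
      _ ≤ D (m + k) * δ (m + k) := mul_le_mul_of_nonneg_left hx (hDpos _).le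
      _ = (1 / 2 : ℝ) ^ (m + k) := by
          show D (m + k) * ((1 / 2 : ℝ) ^ (m + k) / D (m + k)) = _
          rw [mul_div_assoc', mul_comm, mul_div_assoc, div_self (hDpos _).ne', mul_one]
  -- choice
  choose ch hch1 hch2 using fun (n : ℕ) (p : V) => hunb n (δ n) (hδ n) ((n : ℝ) + 1 + ‖T p‖)
  let p : ℕ → V := fun n => Nat.rec (0 : V) (fun n p => p + g29_PR R 0 n (ch n p)) n
  have hp0 : p 0 = 0 := rfl
  have hp1 : ∀ n, p (n + 1) = p n + g29_PR R 0 n (ch n (p n)) := fun n => rfl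
  let x : ℕ → V := fun n => ch n (p n)
  have hx1 : ∀ n, ‖x n‖ ≤ δ n := fun n => hch1 n (p n)
  have hx2 : ∀ n : ℕ, (n : ℝ) + 1 + ‖T (p n)‖ ≤ ‖Q n (SS n (T (x n)))‖ := fun n => hch2 n (p n)
  have hpsum : ∀ n, p n = ∑ j ∈ Finset.range n, g29_PR R 0 j (x j) := by
    intro n
    induction n with
    | zero => simp [hp0]
    | succ n ih => rw [Finset.sum_range_succ, ← ih, hp1]
  -- tails
  have htail : ∀ m k, ‖g29_PR R m k (x (m + k))‖ ≤ (1 / 2 : ℝ) ^ (m + k) / (1 + c' m) :=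
    fun m k => hsmall m k _ (hx1 _)
  have hsumm : ∀ m, Summable (fun k => g29_PR R m k (x (m + k))) := by
    intro m
    refine Summable.of_norm_bounded (g := fun k => (1 / 2 : ℝ) ^ k) 
      (summable_geometric_of_lt_one (by norm_num) (by norm_num)) (fun k => ?_)
    refine (htail m k).trans ?_
    have h3 : (1:ℝ) ≤ 1 + c' m := by linarith [hc'0 m]
    calc (1 / 2 : ℝ) ^ (m + k) / (1 + c' m) ≤ (1 / 2 : ℝ) ^ (m + k) :=
          div_le_self (by positivity) h3
      _ ≤ (1 / 2 : ℝ) ^ k := pow_le_pow_of_le_one (by norm_num) (by norm_num) (Nat.le_add_left k m)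
  let w : ℕ → V := fun m => ∑' k, g29_PR R m k (x (m + k))
  have hw : ∀ m, ‖w (m + 1)‖ ≤ 1 / (1 + c m) := by
    intro m
    have h3 : 0 < 1 + c m := by linarith [hc0 m]
    have hs : Summable (fun k : ℕ => (1 / 2 : ℝ) ^ (k + 1) / (1 + c m)) := by
      apply Summable.div_const
      exact (summable_nat_add_iff 1).2
        (summable_geometric_of_lt_one (by norm_num) (by norm_num : (1/2:ℝ) < 1))
    have h4 : ‖w (m + 1)‖ ≤ ∑' k : ℕ, (1 / 2 : ℝ) ^ (k + 1) / (1 + c m) := by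
      refine tsum_of_norm_bounded hs.hasSum (fun k => ?_)
      refine (htail (m + 1) k).trans ?_
      show (1 / 2 : ℝ) ^ (m + 1 + k) / (1 + c m) ≤ (1 / 2 : ℝ) ^ (k + 1) / (1 + c m)
      apply div_le_div_of_nonneg_right _ h3.le
      exact pow_le_pow_of_le_one (by norm_num) (by norm_num) (by omega)
    have h5 : ∑' k : ℕ, (1 / 2 : ℝ) ^ (k + 1) / (1 + c m) = 1 / (1 + c m) := by
      rw [tsum_div_const]
      congr 1
      have : ∑' k : ℕ, (1 / 2 : ℝ) ^ (k + 1) = (∑' k : ℕ, (1 / 2 : ℝ) ^ k) * (1/2) := by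
        rw [← tsum_mul_right]
        exact tsum_congr (fun k => pow_succ _ _)
      rw [this, tsum_geometric_two]
      norm_num
    rw [h5] at h4
    exact h4
  -- decomposition
  have hz : ∀ n, w 0 = p (n + 1) + g29_PR R 0 (n + 1) (w (n + 1)) := by
    intro n
    have e0 : w 0 = ∑' k, g29_PR R 0 k (x k) := by
      show ∑' k, g29_PR R 0 k (x (0 + k)) = _
      exact tsum_congr (fun k => by rw [Nat.zero_add])
    have hs0 : Summable (fun k => g29_PR R 0 k (x k)) := by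
      have := hsumm 0
      simpa only [Nat.zero_add] using this
    rw [e0, ← hs0.sum_add_tsum_nat_add (n + 1), ← hpsum (n + 1)]
    congr 1
    show _ = g29_PR R 0 (n + 1) (∑' k, g29_PR R (n + 1) k (x (n + 1 + k)))
    rw [ContinuousLinearMap.map_tsum _ (hsumm (n + 1))]
    refine tsum_congr (fun k => ?_)
    rw [show k + (n + 1) = (n + 1) + k from Nat.add_comm _ _, g29_PR_add R (n + 1) k]
    rfl
  have hT : ∀ n : ℕ, (n : ℝ) ≤ ‖T (w 0)‖ := by
    intro n
    have e1 : T (w 0) = T (p n) + SS n (T (x n)) + SS (n + 1) (T (w (n + 1))) := by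
      rw [hz n, map_add, g29_T_PR T R S SS hTR h0 hS (n + 1), hp1, map_add,
        g29_T_PR T R S SS hTR h0 hS n]
    have e2 : Q n (SS n (T (x n))) = Q n (T (w 0)) - Q n (T (p n)) -
        Q n (SS (n + 1) (T (w (n + 1)))) := by
      rw [e1, map_add, map_add]
      abel
    have h1 := hx2 n
    have h2 : ‖Q n (SS n (T (x n)))‖ ≤ ‖Q n (T (w 0))‖ + ‖Q n (T (p n))‖ +
        ‖Q n (SS (n + 1) (T (w (n + 1))))‖ := by
      rw [e2]
      refine (norm_sub_le _ _).trans ?_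
      have := norm_sub_le (Q n (T (w 0))) (Q n (T (p n)))
      linarith
    have h3 := hQ n (T (w 0))
    have h4 := hQ n (T (p n))
    have h5 := hcb n (w (n + 1))
    have h6 : c n * ‖w (n + 1)‖ ≤ 1 := by
      have h7 : 0 < 1 + c n := by linarith [hc0 n]
      calc c n * ‖w (n + 1)‖ ≤ c n * (1 / (1 + c n)) := mul_le_mul_of_nonneg_left (hw n) (hc0 n)
        _ = c n / (1 + c n) := by ring
        _ ≤ 1 := by rw [div_le_one h7]; linarith
    linarith
  obtain ⟨n, hn⟩ := exists_nat_gt ‖T (w 0)‖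
  exact absurd (hT n) (not_le.2 hn)

/-- the separating space -/
def g30_Z (T : V ≃ₗ[ℂ] V) : Set V :=
  {y | ∃ x : ℕ → V, Tendsto x atTop (𝓝 0) ∧ Tendsto (fun n => T (x n)) atTop (𝓝 y)}

theorem g30_tau_conv' {x : ℝ} (hx : 0 ≤ x) (f : V) : tau x (conv u f) = conv u (tau x f) := by
  rw [conv_comm u f, tau_conv hx, conv_comm]

theorem g30_pow_tau {x : ℝ} (hx : 0 ≤ x) (n : ℕ) (f : V) :
    ((cL u) ^ n) (tau x f) = tau x (((cL u) ^ n) f) := by
  induction n with
  | zero => simp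
  | succ n ih =>
    rw [pow_succ', ContinuousLinearMap.mul_apply, ContinuousLinearMap.mul_apply, ih, cL_apply,
      cL_apply, g30_tau_conv' hx]

theorem g30_pow_P (a : ℝ) (n : ℕ) (y : V) : P a (((cL u) ^ n) y) = 0 ↔ P a y = 0 := by
  induction n with
  | zero => simp
  | succ n ih =>
    rw [pow_succ', ContinuousLinearMap.mul_apply, cL_apply]
    constructor
    · intro h
      exact ih.1 (inj_u h)
    · intro h
      have h1 := ih.2 h
      rw [conv_comm, P_conv, h1]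
      have : conv 0 u = 0 := by
        rw [← cL_apply, map_zero]
        rfl
      rw [this, map_zero]

theorem g30_limit {b : ℝ} (hb0 : 0 ≤ b) (hb1 : b ≤ 1) (y : V) (h : ∀ b' < b, P b' y = 0) :
    P b y = 0 := by
  rcases hb0.eq_or_lt with h0 | h0
  · exact P_of_nonpos (le_of_eq h0.symm) y
  rw [← norm_eq_zero, norm_P b hb0 hb1]
  have hint : IntegrableOn (fun t => ‖y t‖) (uIcc 0 1) volume := by
    rw [uIcc_of_le zero_le_one]
    have : Integrable (fun t => ‖y t‖) mI := (L1.integrable_coeFn y).norm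
    exact this
  have hc := intervalIntegral.continuousOn_primitive_interval hint
  rw [uIcc_of_le zero_le_one] at hc
  have h1 : Tendsto (fun x => ∫ t in (0:ℝ)..x, ‖y t‖) (𝓝[Ico 0 b] b)
      (𝓝 (∫ t in (0:ℝ)..b, ‖y t‖)) :=
    (hc b ⟨hb0, hb1⟩).mono (fun x hx => ⟨hx.1, hx.2.le.trans hb1⟩)
  have h2 : Tendsto (fun x => ∫ t in (0:ℝ)..x, ‖y t‖) (𝓝[Ico 0 b] b) (𝓝 0) := by
    refine tendsto_const_nhds.congr' ?_
    filter_upwards [self_mem_nhdsWithin] with x hx
    rw [← norm_P x hx.1 (hx.2.le.trans hb1), h x hx.2, norm_zero]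
  haveI : (𝓝[Ico 0 b] b).NeBot := by
    rw [← mem_closure_iff_nhdsWithin_neBot, closure_Ico h0.ne]
    exact ⟨hb0, le_rfl⟩
  exact tendsto_nhds_unique h1 h2

/-- products -/
noncomputable def g30_SS (S : ℕ → (V →L[ℂ] V)) : ℕ → (V →L[ℂ] V)
  | 0 => 1
  | n + 1 => g30_SS S n * S n

theorem g30_SS_apply (d s : ℕ → ℝ) (hd : ∀ n, 0 ≤ d n) (hs : ∀ n, 0 ≤ s n) (h0 : s 0 = 0)
    (h1 : ∀ n, s (n + 1) = s n + d n) (n : ℕ) : ∀ y : V,
    g30_SS (fun n => cL (tau (d n) u)) n y = tau (s n) (((cL u) ^ n) y) := by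
  induction n with
  | zero =>
    intro y
    rw [h0, tau_zero]
    rfl
  | succ n ih =>
    intro y
    show g30_SS (fun n => cL (tau (d n) u)) n (cL (tau (d n) u) y) = _
    rw [ih, cL_apply, ← tau_conv (hd n), g30_pow_tau (hd n), tau_tau (hs n) (hd n), ← h1,
      pow_succ]
    rfl

theorem aut_continuous (T : V ≃ₗ[ℂ] V) (hT : Hom T) : Continuous T := by
  by_contra hcon
  have hZ : ∃ y0 ∈ g30_Z T, y0 ≠ 0 := by
    by_contra h
    push Not at h
    apply hcon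
    have := sep_lemma (T : V →ₗ[ℂ] V) 1 (fun y hy => by
      rw [h y hy, map_zero])
    exact this
  obtain ⟨y0, hy0, hy0ne⟩ := hZ
  let B : Set ℝ := {b | b ∈ Icc (0:ℝ) 1 ∧ ∀ y ∈ g30_Z T, P b y = 0}
  have hB0 : (0:ℝ) ∈ B := ⟨⟨le_rfl, zero_le_one⟩, fun y _ => P_of_nonpos le_rfl y⟩
  have hBb : BddAbove B := ⟨1, fun x hx => hx.1.2⟩
  obtain ⟨b, hbdef⟩ : ∃ b, b = sSup B := ⟨_, rfl⟩
  have hb0 : 0 ≤ b := by rw [hbdef]; exact le_csSup hBb hB0
  have hb1 : b ≤ 1 := by rw [hbdef]; exact csSup_le ⟨0, hB0⟩ (fun x hx => hx.1.2)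
  have hlt : ∀ y ∈ g30_Z T, ∀ b' < b, P b' y = 0 := by
    intro y hy b' hb'
    rw [hbdef] at hb'
    obtain ⟨b2, hb2, h2⟩ := exists_lt_of_lt_csSup ⟨0, hB0⟩ hb'
    have h3 : P b' (P b2 y) = P (min b' b2) y := P_P b' b2 y
    rw [hb2.2 y hy, map_zero, min_eq_left h2.le] at h3
    exact h3.symm
  have hbB : ∀ y ∈ g30_Z T, P b y = 0 := fun y hy => g30_limit hb0 hb1 y (hlt y hy)
  have hblt : b < 1 := by
    rcases hb1.lt_or_eq with h | h
    · exact h
    · exfalso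
      apply hy0ne
      have h3 := hbB y0 hy0
      rw [h, P_of_one_le le_rfl] at h3
      exact h3
  let d : ℕ → ℝ := fun n => (1 - b) / 2 * (1 / 2) ^ (n + 1)
  let s : ℕ → ℝ := fun n => (1 - b) / 2 * (1 - (1 / 2) ^ n)
  have hdpos : ∀ n, 0 < d n := by
    intro n
    have : 0 < 1 - b := by linarith
    show 0 < (1 - b) / 2 * (1 / 2) ^ (n + 1)
    positivity
  have hpow : ∀ n : ℕ, ((1:ℝ) / 2) ^ n ≤ 1 := fun n => pow_le_one₀ (by norm_num) (by norm_num)
  have hpow0 : ∀ n : ℕ, 0 < ((1:ℝ) / 2) ^ n := fun n => by positivity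
  have hs : ∀ n, 0 ≤ s n := by
    intro n
    have h3 : 0 < 1 - b := by linarith
    have h4 := hpow n
    show 0 ≤ (1 - b) / 2 * (1 - (1 / 2) ^ n)
    apply mul_nonneg
    · linarith
    · linarith
  have hs1 : ∀ n, s n ≤ 1 - b := by
    intro n
    have h3 : 0 < 1 - b := by linarith
    have h4 := hpow0 n
    show (1 - b) / 2 * (1 - (1 / 2) ^ n) ≤ 1 - b
    nlinarith
  have hs0 : s 0 = 0 := by
    show (1 - b) / 2 * (1 - (1 / 2) ^ 0) = 0
    simp
  have hss : ∀ n, s (n + 1) = s n + d n := by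
    intro n
    show (1 - b) / 2 * (1 - (1 / 2) ^ (n + 1)) = (1 - b) / 2 * (1 - (1 / 2) ^ n) +
      (1 - b) / 2 * (1 / 2) ^ (n + 1)
    rw [pow_succ]
    ring
  let S : ℕ → (V →L[ℂ] V) := fun n => cL (tau (d n) u)
  let R : ℕ → (V →L[ℂ] V) := fun n => cL (T.symm (tau (d n) u))
  let Q : ℕ → (V →L[ℂ] V) := fun n => P (b + s (n + 1))
  have hSS : ∀ n y, g30_SS S n y = tau (s n) (((cL u) ^ n) y) :=
    fun n y => g30_SS_apply d s (fun n => (hdpos n).le) hs hs0 hss n y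
  refine hump (T : V →ₗ[ℂ] V) Q S R (fun n f => norm_P_le _ f) ?_ (g30_SS S) rfl (fun n => rfl) ?_ ?_
  · intro n f
    show T (conv (T.symm (tau (d n) u)) f) = conv (tau (d n) u) (T f)
    rw [hT, LinearEquiv.apply_symm_apply]
  · intro n
    have h := sep_lemma (T : V →ₗ[ℂ] V) (Q n * g30_SS S (n + 1)) (fun y hy => by
      rw [ContinuousLinearMap.mul_apply, hSS]
      show P (b + s (n + 1)) (tau (s (n + 1)) (((cL u) ^ (n + 1)) y)) = 0
      rw [P_tau (hs (n + 1)), add_sub_cancel_right, (g30_pow_P b (n + 1) y).2 (hbB y hy), map_zero])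
    exact h
  · intro n hcont
    have hmem : b + d n ∈ B := by
      refine ⟨⟨by linarith [hdpos n], ?_⟩, ?_⟩
      · have h3 := hs1 (n + 1)
        have h4 := hss n
        have h5 := hs n
        linarith
      · intro y hy
        obtain ⟨x, hx, hTx⟩ := id hy
        have h3 : Tendsto (fun m => Q n (g30_SS S n (T (x m)))) atTop (𝓝 (Q n (g30_SS S n (T 0)))) :=
          (hcont.tendsto 0).comp hx
        have h4 : Tendsto (fun m => Q n (g30_SS S n (T (x m)))) atTop (𝓝 (Q n (g30_SS S n y))) :=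
          ((Q n * g30_SS S n).continuous.tendsto y).comp hTx
        have h5 := tendsto_nhds_unique h4 h3
        rw [map_zero, map_zero, map_zero, hSS] at h5
        have h6 : P (b + s (n + 1)) (tau (s n) (((cL u) ^ n) y)) = 0 := h5
        rw [P_tau (hs n)] at h6
        have h7 : b + s (n + 1) - s n = b + d n := by rw [hss n]; ring
        rw [h7] at h6
        have h8 := norm_tau_P (hs n) (a := b + d n) (by
          have h9 := hs1 (n + 1)
          have h10 := hss n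
          linarith) (((cL u) ^ n) y)
        rw [h6, norm_zero] at h8
        exact (g30_pow_P (b + d n) n y).1 (norm_eq_zero.1 h8.symm)
    have := le_csSup hBb hmem
    rw [← hbdef] at this
    linarith [hdpos n]

theorem g31_lim1 (a s : ℝ) (h : s < a) :
    Tendsto (fun n : ℕ => Real.exp (-Real.exp ((n:ℝ) * (s - a)))) atTop (𝓝 1) := by
  have h1 : Tendsto (fun n : ℕ => (n:ℝ) * (s - a)) atTop atBot :=
    Tendsto.atTop_mul_const_of_neg (by linarith) tendsto_natCast_atTop_atTop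
  have h2 := Real.tendsto_exp_atBot.comp h1
  have h3 := (Real.continuous_exp.tendsto _).comp h2.neg
  rw [neg_zero, Real.exp_zero] at h3
  exact h3

theorem g31_lim2 (a s : ℝ) (h : a < s) :
    Tendsto (fun n : ℕ => Real.exp (-Real.exp ((n:ℝ) * (s - a)))) atTop (𝓝 0) := by
  have h1 : Tendsto (fun n : ℕ => (n:ℝ) * (s - a)) atTop atTop :=
    Tendsto.atTop_mul_const (by linarith) tendsto_natCast_atTop_atTop
  have h2 := Real.tendsto_exp_atTop.comp h1
  exact Real.tendsto_exp_atBot.comp (tendsto_neg_atTop_atBot.comp h2)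

theorem g31_hasSum (x : ℝ) (w : ℂ) :
    HasSum (fun k : ℕ => (((-x) ^ k / (k.factorial : ℝ) : ℝ) : ℂ) * w) ((Real.exp (-x) : ℂ) * w) := by
  have h1 : HasSum (fun k : ℕ => (-x) ^ k / (k.factorial : ℝ)) (Real.exp (-x)) := by
    rw [Real.exp_eq_exp_ℝ]
    exact NormedSpace.expSeries_div_hasSum_exp (-x)
  exact (Complex.hasSum_ofReal.2 h1).mul_right w

theorem g31_est (T : ℝ) (hT : 0 < T) (g : ℝ → ℂ) (hg : Continuous g) (Q : ℝ)
    (h : ∀ n : ℕ, ‖∫ s in (0:ℝ)..T, (Real.exp (n * s) : ℂ) * g s‖ ≤ Q) (a : ℝ) (n : ℕ) :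
    ‖(∫ s in (0:ℝ)..T, (Real.exp (-Real.exp ((n:ℝ) * (s - a))) : ℂ) * g s) -
      ∫ s in (0:ℝ)..T, g s‖ ≤ Q * (Real.exp (-(n * a)) * Real.exp (Real.exp (-(n * a)))) := by
  set y : ℝ := Real.exp (-(n * a)) with hy
  have hy0 : 0 < y := Real.exp_pos _
  have hQ : 0 ≤ Q := le_trans (norm_nonneg _) (h 0)
  have hx : ∀ s : ℝ, Real.exp ((n:ℝ) * (s - a)) = y * Real.exp (n * s) := by
    intro s
    rw [hy, ← Real.exp_add]; congr 1; ring
  set F : ℕ → ℝ → ℂ := fun k s =>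
    (((-Real.exp ((n:ℝ) * (s - a))) ^ k / (k.factorial : ℝ) : ℝ) : ℂ) * g s with hF
  obtain ⟨C, hC⟩ := (isCompact_Icc (a := (0:ℝ)) (b := T)).exists_bound_of_continuousOn
    hg.continuousOn
  have hC0 : 0 ≤ C := le_trans (norm_nonneg _) (hC 0 ⟨le_rfl, hT.le⟩)
  set X : ℝ := y * Real.exp (n * T) with hX
  have hsum : HasSum (fun k => ∫ s in (0:ℝ)..T, F k s)
      (∫ s in (0:ℝ)..T, (Real.exp (-Real.exp ((n:ℝ) * (s - a))) : ℂ) * g s) := by
    apply intervalIntegral.hasSum_integral_of_dominated_convergence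
      (fun k _ => X ^ k / (k.factorial : ℝ) * C)
    · intro k
      have : Continuous (F k) := by
        simp only [hF]
        fun_prop
      exact this.aestronglyMeasurable
    · intro k
      refine Eventually.of_forall (fun s hs => ?_)
      rw [uIoc_of_le hT.le] at hs
      simp only [hF]
      rw [norm_mul]
      have h1 : ‖(((-Real.exp ((n:ℝ) * (s - a))) ^ k / (k.factorial : ℝ) : ℝ) : ℂ)‖ =
          Real.exp ((n:ℝ) * (s - a)) ^ k / (k.factorial : ℝ) := by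
        rw [Complex.norm_real, norm_div, norm_pow, norm_neg, Real.norm_eq_abs, Real.norm_eq_abs,
          abs_of_pos (Real.exp_pos _), abs_of_nonneg (Nat.cast_nonneg _)]
      rw [h1]
      have h2 : Real.exp ((n:ℝ) * (s - a)) ≤ X := by
        rw [hx, hX]
        apply mul_le_mul_of_nonneg_left _ hy0.le
        apply Real.exp_le_exp.2
        exact mul_le_mul_of_nonneg_left hs.2 (Nat.cast_nonneg _)
      have h3 := hC s ⟨hs.1.le, hs.2⟩
      gcongr
    · refine Eventually.of_forall (fun s _ => ?_)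
      exact (Real.summable_pow_div_factorial X).mul_right C
    · exact intervalIntegrable_const
    · refine Eventually.of_forall (fun s _ => ?_)
      exact g31_hasSum _ _
  have hc : ∀ k, ∫ s in (0:ℝ)..T, F k s = (((-y) ^ k / (k.factorial : ℝ) : ℝ) : ℂ) *
      ∫ s in (0:ℝ)..T, (Real.exp (((k * n : ℕ) : ℝ) * s) : ℂ) * g s := by
    intro k
    rw [← intervalIntegral.integral_const_mul]
    congr 1
    funext s
    simp only [hF]
    rw [← mul_assoc, ← Complex.ofReal_mul]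
    congr 2
    rw [hx, show -(y * Real.exp (n * s)) = (-y) * Real.exp (n * s) by ring, mul_pow,
      ← Real.exp_nat_mul]
    push_cast
    rw [show (k : ℝ) * n * s = k * (n * s) by ring]
    ring
  have hs1 := (hasSum_nat_add_iff' 1).2 hsum
  rw [Finset.sum_range_one] at hs1
  have h0 : ∫ s in (0:ℝ)..T, F 0 s = ∫ s in (0:ℝ)..T, g s := by
    congr 1
    funext s
    simp [hF]
  rw [h0] at hs1
  have hb : HasSum (fun k : ℕ => Q * (y * (y ^ k / (k.factorial : ℝ)))) (Q * (y * Real.exp y)) := by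
    have h1 : HasSum (fun k : ℕ => y ^ k / (k.factorial : ℝ)) (Real.exp y) := by
      rw [Real.exp_eq_exp_ℝ]
      exact NormedSpace.expSeries_div_hasSum_exp y
    exact (h1.mul_left y).mul_left Q
  refine hs1.norm_le_of_bounded hb ?_
  intro k
  rw [hc (k + 1), norm_mul, Complex.norm_real, norm_div, norm_pow, norm_neg, Real.norm_eq_abs,
    Real.norm_eq_abs, abs_of_pos hy0, abs_of_nonneg (Nat.cast_nonneg _)]
  have h1 := h ((k + 1) * n)
  have h2 : y ^ (k + 1) / ((k + 1).factorial : ℝ) ≤ y * (y ^ k / (k.factorial : ℝ)) := by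
    rw [pow_succ', mul_div_assoc]
    apply mul_le_mul_of_nonneg_left _ hy0.le
    apply div_le_div_of_nonneg_left (by positivity) (by positivity)
    exact_mod_cast Nat.factorial_le (Nat.le_succ k)
  calc y ^ (k + 1) / ((k + 1).factorial : ℝ) *
        ‖∫ s in (0:ℝ)..T, (Real.exp ((((k + 1) * n : ℕ) : ℝ) * s) : ℂ) * g s‖
      ≤ (y * (y ^ k / (k.factorial : ℝ))) * Q :=
        mul_le_mul h2 h1 (norm_nonneg _) (by positivity)
    _ = _ := by ring

theorem g31_main (T : ℝ) (hT : 0 < T) (g : ℝ → ℂ) (hg : Continuous g) (Q : ℝ)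
    (h : ∀ n : ℕ, ‖∫ s in (0:ℝ)..T, (Real.exp (n * s) : ℂ) * g s‖ ≤ Q) (a : ℝ)
    (ha : a ∈ Ioo 0 T) : ∫ s in (0:ℝ)..a, g s = ∫ s in (0:ℝ)..T, g s := by
  have hy : Tendsto (fun n : ℕ => Real.exp (-((n:ℝ) * a))) atTop (𝓝 0) := by
    have h1 : Tendsto (fun n : ℕ => (n:ℝ) * a) atTop atTop :=
      Tendsto.atTop_mul_const ha.1 tendsto_natCast_atTop_atTop
    exact Real.tendsto_exp_atBot.comp (tendsto_neg_atTop_atBot.comp h1)
  have hA : Tendsto (fun n : ℕ => ∫ s in (0:ℝ)..T,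
      (Real.exp (-Real.exp ((n:ℝ) * (s - a))) : ℂ) * g s) atTop (𝓝 (∫ s in (0:ℝ)..T, g s)) := by
    rw [tendsto_iff_norm_sub_tendsto_zero]
    refine squeeze_zero (fun _ => norm_nonneg _) (fun n => g31_est T hT g hg Q h a n) ?_
    have h1 := (hy.mul ((Real.continuous_exp.tendsto _).comp hy)).const_mul Q
    simpa using h1
  have hbd : ∀ (n : ℕ) (s : ℝ), ‖(Real.exp (-Real.exp ((n:ℝ) * (s - a))) : ℂ) * g s‖ ≤ ‖g s‖ := by
    intro n s
    rw [norm_mul, Complex.norm_real, Real.norm_eq_abs, abs_of_pos (Real.exp_pos _)]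
    have : Real.exp (-Real.exp ((n:ℝ) * (s - a))) ≤ 1 := by
      rw [Real.exp_le_one_iff]
      linarith [Real.exp_pos ((n:ℝ) * (s - a))]
    exact mul_le_of_le_one_left (norm_nonneg _) this
  have hcont : ∀ n : ℕ, Continuous (fun s : ℝ =>
      (Real.exp (-Real.exp ((n:ℝ) * (s - a))) : ℂ) * g s) := by
    intro n; fun_prop
  have hB1 : Tendsto (fun n : ℕ => ∫ s in (0:ℝ)..a,
      (Real.exp (-Real.exp ((n:ℝ) * (s - a))) : ℂ) * g s) atTop (𝓝 (∫ s in (0:ℝ)..a, g s)) := by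
    apply intervalIntegral.tendsto_integral_filter_of_dominated_convergence (fun s => ‖g s‖)
    · exact Eventually.of_forall (fun n => (hcont n).aestronglyMeasurable)
    · exact Eventually.of_forall (fun n => Eventually.of_forall (fun s _ => hbd n s))
    · exact hg.norm.intervalIntegrable _ _
    · have hae : ∀ᵐ s : ℝ, s ≠ a := by
        rw [ae_iff]; simp
      filter_upwards [hae] with s hs hs2
      rw [uIoc_of_le ha.1.le] at hs2
      have hlt : s < a := lt_of_le_of_ne hs2.2 hs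
      have h1 := (Complex.continuous_ofReal.tendsto _).comp (g31_lim1 a s hlt)
      have h2 := h1.mul_const (g s)
      simpa using h2
  have hB2 : Tendsto (fun n : ℕ => ∫ s in a..T,
      (Real.exp (-Real.exp ((n:ℝ) * (s - a))) : ℂ) * g s) atTop (𝓝 (∫ s in a..T, (0:ℂ))) := by
    apply intervalIntegral.tendsto_integral_filter_of_dominated_convergence (fun s => ‖g s‖)
    · exact Eventually.of_forall (fun n => (hcont n).aestronglyMeasurable)
    · exact Eventually.of_forall (fun n => Eventually.of_forall (fun s _ => hbd n s))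
    · exact hg.norm.intervalIntegrable _ _
    · refine Eventually.of_forall (fun s hs2 => ?_)
      rw [uIoc_of_le ha.2.le] at hs2
      have h1 := (Complex.continuous_ofReal.tendsto _).comp (g31_lim2 a s hs2.1)
      have h2 := h1.mul_const (g s)
      simpa using h2
  have hB := hB1.add hB2
  rw [intervalIntegral.integral_zero, add_zero] at hB
  refine tendsto_nhds_unique hB (hA.congr (fun n => ?_))
  exact (intervalIntegral.integral_add_adjacent_intervals ((hcont n).intervalIntegrable _ _)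
    ((hcont n).intervalIntegrable _ _)).symm

/-- Phragmen type moment lemma -/
theorem moment_lemma (T : ℝ) (hT : 0 < T) (f : ℝ → ℂ) (hf : ContinuousOn f (Icc 0 T)) (Q : ℝ)
    (h : ∀ n : ℕ, ‖∫ s in (0:ℝ)..T, (Real.exp (n * s) : ℂ) * f s‖ ≤ Q) :
    ∀ s ∈ Icc 0 T, f s = 0 := by
  set g : ℝ → ℂ := IccExtend hT.le (fun x : Icc (0:ℝ) T => f x) with hg
  have hgc : Continuous g := by
    have : Continuous (fun x : Icc (0:ℝ) T => f x) := continuousOn_iff_continuous_restrict.1 hf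
    exact this.Icc_extend'
  have hgf : ∀ s ∈ Icc (0:ℝ) T, g s = f s := by
    intro s hs
    rw [hg, IccExtend_of_mem _ _ hs]
  have h' : ∀ n : ℕ, ‖∫ s in (0:ℝ)..T, (Real.exp (n * s) : ℂ) * g s‖ ≤ Q := by
    intro n
    have : ∫ s in (0:ℝ)..T, (Real.exp (n * s) : ℂ) * g s =
        ∫ s in (0:ℝ)..T, (Real.exp (n * s) : ℂ) * f s := by
      apply intervalIntegral.integral_congr
      intro s hs
      rw [uIcc_of_le hT.le] at hs
      simp only [hgf s hs]
    rw [this]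
    exact h n
  have hz : ∀ s ∈ Ioo (0:ℝ) T, g s = 0 := by
    intro a ha
    have h1 : HasDerivAt (fun x => ∫ s in (0:ℝ)..x, g s) (g a) a :=
      intervalIntegral.integral_hasDerivAt_right (hgc.intervalIntegrable _ _)
        (hgc.stronglyMeasurableAtFilter _ _) hgc.continuousAt
    have h2 : (fun x => ∫ s in (0:ℝ)..x, g s) =ᶠ[𝓝 a] fun _ => ∫ s in (0:ℝ)..T, g s := by
      filter_upwards [isOpen_Ioo.mem_nhds ha] with x hx using g31_main T hT g hgc Q h' x hx
    have h3 : HasDerivAt (fun x => ∫ s in (0:ℝ)..x, g s) 0 a :=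
      (hasDerivAt_const a _).congr_of_eventuallyEq h2
    exact h1.unique h3
  have hz2 : ∀ s ∈ Icc (0:ℝ) T, g s = 0 := by
    have h1 : EqOn g (fun _ => 0) (closure (Ioo (0:ℝ) T)) :=
      Set.EqOn.closure hz hgc continuous_const
    rw [closure_Ioo hT.ne] at h1
    exact h1
  intro s hs
  rw [← hgf s hs]
  exact hz2 s hs

theorem g32_swap (L : ℝ) (hL : 0 ≤ L) (n : ℕ) (F : ℝ → ℂ) (hF : Continuous F)
    (h : ∀ t ∈ Icc 0 L, ∫ s in (0:ℝ)..t, F s * F (t - s) = 0) :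
    ∫ s in (0:ℝ)..L, ∫ t in (0:ℝ)..(L - s), (Real.exp (n * t) : ℂ) * (F s * F (L - s - t)) = 0 := by
  set H : ℝ → ℝ → ℂ := fun s t =>
    ({p : ℝ × ℝ | p.1 + p.2 ≤ L}.indicator
      (fun p : ℝ × ℝ => (Real.exp (n * p.2) : ℂ) * (F p.1 * F (L - p.1 - p.2)))) (s, t) with hH
  have h1 : ∀ s ∈ Icc (0:ℝ) L, ∫ t in (0:ℝ)..(L - s), (Real.exp (n * t) : ℂ) * (F s * F (L - s - t))
      = ∫ t in (0:ℝ)..L, H s t := by
    intro s hs
    have := intervalIntegral.integral_indicator (μ := volume)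
      (f := fun t => (Real.exp (n * t) : ℂ) * (F s * F (L - s - t)))
      (show L - s ∈ Icc (0:ℝ) L from ⟨by linarith [hs.2], by linarith [hs.1]⟩)
    rw [← this]
    apply intervalIntegral.integral_congr
    intro t _
    simp only [hH, Set.indicator, Set.mem_ofPred_eq]
    by_cases ht : t ≤ L - s
    · rw [if_pos ht, if_pos (by linarith)]
    · rw [if_neg ht, if_neg (by intro h'; apply ht; linarith)]
  have h2 : ∀ t ∈ Icc (0:ℝ) L, ∫ s in (0:ℝ)..L, H s t = 0 := by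
    intro t ht
    have := intervalIntegral.integral_indicator (μ := volume)
      (f := fun s => (Real.exp (n * t) : ℂ) * (F s * F (L - s - t)))
      (show L - t ∈ Icc (0:ℝ) L from ⟨by linarith [ht.2], by linarith [ht.1]⟩)
    have h3 : ∫ s in (0:ℝ)..L, H s t =
        ∫ s in (0:ℝ)..(L - t), (Real.exp (n * t) : ℂ) * (F s * F (L - s - t)) := by
      rw [← this]
      apply intervalIntegral.integral_congr
      intro s _
      simp only [hH, Set.indicator, Set.mem_ofPred_eq]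
      by_cases hs : s ≤ L - t
      · rw [if_pos hs, if_pos (by linarith)]
      · rw [if_neg hs, if_neg (by intro h'; apply hs; linarith)]
    rw [h3, intervalIntegral.integral_const_mul]
    have h4 : ∫ s in (0:ℝ)..(L - t), F s * F (L - s - t) = 0 := by
      have h5 := h (L - t) ⟨by linarith [ht.2], by linarith [ht.1]⟩
      rw [← h5]
      apply intervalIntegral.integral_congr
      intro s _
      show F s * F (L - s - t) = F s * F (L - t - s)
      rw [sub_right_comm]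
    rw [h4, mul_zero]
  have hint : IntegrableOn (Function.uncurry H) (Set.uIoc 0 L ×ˢ Set.uIoc 0 L) := by
    have hcont : Continuous (fun p : ℝ × ℝ =>
        (Real.exp (n * p.2) : ℂ) * (F p.1 * F (L - p.1 - p.2))) := by
      have : Continuous (fun p : ℝ × ℝ => (Real.exp (n * p.2) : ℂ)) :=
        Complex.continuous_ofReal.comp (by fun_prop)
      fun_prop
    have hI : IntegrableOn (fun p : ℝ × ℝ =>
        (Real.exp (n * p.2) : ℂ) * (F p.1 * F (L - p.1 - p.2)))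
        (Set.uIoc 0 L ×ˢ Set.uIoc 0 L) := by
      apply IntegrableOn.mono_set (hcont.continuousOn.integrableOn_compact
        (isCompact_uIcc.prod isCompact_uIcc) (K := Set.uIcc 0 L ×ˢ Set.uIcc 0 L))
      exact Set.prod_mono Set.uIoc_subset_uIcc Set.uIoc_subset_uIcc
    have hms : MeasurableSet {p : ℝ × ℝ | p.1 + p.2 ≤ L} :=
      measurableSet_le (by fun_prop) (by fun_prop)
    exact hI.indicator hms
  calc ∫ s in (0:ℝ)..L, ∫ t in (0:ℝ)..(L - s), (Real.exp (n * t) : ℂ) * (F s * F (L - s - t))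
      = ∫ s in (0:ℝ)..L, ∫ t in (0:ℝ)..L, H s t := by
        apply intervalIntegral.integral_congr
        intro s hs
        rw [Set.uIcc_of_le hL] at hs
        exact h1 s hs
    _ = ∫ t in (0:ℝ)..L, ∫ s in (0:ℝ)..L, H s t := intervalIntegral_intervalIntegral_swap hint
    _ = ∫ t in (0:ℝ)..L, (0:ℂ) := by
        apply intervalIntegral.integral_congr
        intro t ht
        rw [Set.uIcc_of_le hL] at ht
        exact h2 t ht
    _ = 0 := by simp

theorem g32_bound (c : ℝ) (hc : 0 < c) (n : ℕ) (F : ℝ → ℂ) (hF : Continuous F) (M : ℝ)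
    (hM : ∀ t, ‖F t‖ ≤ M)
    (h : ∀ t ∈ Icc 0 (2 * c), ∫ s in (0:ℝ)..t, F s * F (t - s) = 0) :
    ‖(Real.exp (n * c) : ℂ) * ∫ r in (0:ℝ)..(2 * c), (Real.exp (-(n * r)) : ℂ) * F r‖ ≤
      2 * c * M := by
  set L := 2 * c with hL
  have hL0 : 0 < L := by positivity
  have hM0 : 0 ≤ M := (norm_nonneg _).trans (hM 0)
  have hn0 : (0:ℝ) ≤ n := Nat.cast_nonneg n
  have hce : Continuous (fun r : ℝ => (Real.exp (-(n * r)) : ℂ)) :=
    Complex.continuous_ofReal.comp (by fun_prop)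
  have hcE : Continuous (fun r : ℝ => (Real.exp (-(n * r)) : ℂ) * F r) := hce.mul hF
  have hcl : Continuous (fun s : ℝ => (Real.exp (n * (L - s)) : ℂ)) :=
    Complex.continuous_ofReal.comp (by fun_prop)
  set Pr : ℝ → ℂ := fun x => ∫ r in (0:ℝ)..x, (Real.exp (-(n * r)) : ℂ) * F r with hPr
  have hPrc : Continuous Pr := intervalIntegral.continuous_primitive
    (fun a b => hcE.intervalIntegrable a b) 0
  set I := Pr L with hI
  -- the triangle part
  have h1 : ∫ s in (0:ℝ)..L, F s * ((Real.exp (n * (L - s)) : ℂ) * Pr (L - s)) = 0 := by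
    rw [← g32_swap L hL0.le n F hF h]
    apply intervalIntegral.integral_congr
    intro s _
    simp only [hPr]
    have e1 : ∫ t in (0:ℝ)..(L - s), (Real.exp (n * t) : ℂ) * (F s * F (L - s - t)) =
        ∫ t in (0:ℝ)..(L - s), (fun r => (Real.exp (n * (L - s - r)) : ℂ) * (F s * F r))
          (L - s - t) := by
      apply intervalIntegral.integral_congr
      intro t _
      simp only []
      rw [sub_sub_cancel]
    rw [e1, intervalIntegral.integral_comp_sub_left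
      (fun r => (Real.exp (n * (L - s - r)) : ℂ) * (F s * F r)), sub_self, sub_zero,
      ← intervalIntegral.integral_const_mul, ← intervalIntegral.integral_const_mul]
    apply intervalIntegral.integral_congr
    intro r _
    simp only []
    have e2 : (Real.exp (n * (L - s - r)) : ℂ) =
        (Real.exp (n * (L - s)) : ℂ) * (Real.exp (-(n * r)) : ℂ) := by
      rw [← Complex.ofReal_mul, ← Real.exp_add]
      congr 2
      ring
    rw [e2]; ring
  have h2 : ∫ s in (0:ℝ)..L, F s * ((Real.exp (n * (L - s)) : ℂ) * I) =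
      (Real.exp (n * L) : ℂ) * I * I := by
    have e3 : ∀ s : ℝ, F s * ((Real.exp (n * (L - s)) : ℂ) * I) =
        ((Real.exp (n * L) : ℂ) * I) * ((Real.exp (-(n * s)) : ℂ) * F s) := by
      intro s
      have e2 : (Real.exp (n * (L - s)) : ℂ) =
        (Real.exp (n * L) : ℂ) * (Real.exp (-(n * s)) : ℂ) := by
        rw [← Complex.ofReal_mul, ← Real.exp_add]
        congr 2
        ring
      rw [e2]; ring
    simp_rw [e3]
    rw [intervalIntegral.integral_const_mul]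
  have h3 : ‖∫ s in (0:ℝ)..L, (F s * ((Real.exp (n * (L - s)) : ℂ) * I) -
      F s * ((Real.exp (n * (L - s)) : ℂ) * Pr (L - s)))‖ ≤ (M * (M * L)) * |L - 0| := by
    apply intervalIntegral.norm_integral_le_of_norm_le_const
    intro s hs
    rw [Set.uIoc_of_le hL0.le] at hs
    have e4 : F s * ((Real.exp (n * (L - s)) : ℂ) * I) -
      F s * ((Real.exp (n * (L - s)) : ℂ) * Pr (L - s)) =
      F s * ∫ r in (L - s)..L, (Real.exp (n * (L - s)) : ℂ) * ((Real.exp (-(n * r)) : ℂ) * F r) := by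
      rw [intervalIntegral.integral_const_mul]
      have e5 : ∫ r in (L - s)..L, (Real.exp (-(n * r)) : ℂ) * F r = I - Pr (L - s) := by
        simp only [hI, hPr]
        rw [intervalIntegral.integral_interval_sub_left (hcE.intervalIntegrable _ _)
          (hcE.intervalIntegrable _ _)]
      rw [e5]; ring
    rw [e4, norm_mul]
    apply mul_le_mul (hM s) _ (norm_nonneg _) hM0
    have e6 : ‖∫ r in (L - s)..L, (Real.exp (n * (L - s)) : ℂ) *
        ((Real.exp (-(n * r)) : ℂ) * F r)‖ ≤ M * |L - (L - s)| := by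
      apply intervalIntegral.norm_integral_le_of_norm_le_const
      intro r hr
      rw [Set.uIoc_of_le (by linarith [hs.1])] at hr
      rw [← mul_assoc, ← Complex.ofReal_mul, ← Real.exp_add, norm_mul, Complex.norm_real,
        Real.norm_eq_abs, abs_of_pos (Real.exp_pos _)]
      have e7 : Real.exp (n * (L - s) + -(n * r)) ≤ 1 := by
        rw [Real.exp_le_one_iff]
        have : (n:ℝ) * (L - s) ≤ n * r := mul_le_mul_of_nonneg_left hr.1.le hn0
        linarith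
      calc _ ≤ 1 * M := mul_le_mul e7 (hM r) (norm_nonneg _) zero_le_one
        _ = M := one_mul _
    refine e6.trans ?_
    rw [sub_sub_cancel, abs_of_pos hs.1]
    exact mul_le_mul_of_nonneg_left hs.2 hM0
  have hc1 : Continuous (fun s => F s * ((Real.exp (n * (L - s)) : ℂ) * I)) :=
    hF.mul (hcl.mul continuous_const)
  have hc2 : Continuous (fun s => F s * ((Real.exp (n * (L - s)) : ℂ) * Pr (L - s))) :=
    hF.mul (hcl.mul (hPrc.comp (by fun_prop)))
  rw [intervalIntegral.integral_sub (hc1.intervalIntegrable _ _) (hc2.intervalIntegrable _ _), h1,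
    h2, sub_zero, sub_zero, abs_of_pos hL0] at h3
  have h4 : (Real.exp (n * L) : ℂ) * I * I = ((Real.exp (n * c) : ℂ) * I) ^ 2 := by
    have : (Real.exp (n * L) : ℂ) = (Real.exp (n * c) : ℂ) * (Real.exp (n * c) : ℂ) := by
      rw [← Complex.ofReal_mul, ← Real.exp_add]
      congr 2
      rw [hL]; ring
    rw [this]; ring
  rw [h4, norm_pow] at h3
  have h5 : ‖(Real.exp (n * c) : ℂ) * I‖ ^ 2 ≤ (L * M) ^ 2 := by
    calc _ ≤ M * (M * L) * L := h3
      _ = _ := by ring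
  exact abs_le_of_sq_le_sq' h5 (by positivity) |>.2

theorem titch_sq (c : ℝ) (hc : 0 < c) (f : ℝ → ℂ) (hf : ContinuousOn f (Icc 0 (2 * c)))
    (h : ∀ t ∈ Icc 0 (2 * c), ∫ s in (0:ℝ)..t, f s * f (t - s) = 0) :
    ∀ s ∈ Icc 0 c, f s = 0 := by
  have hL : (0:ℝ) ≤ 2 * c := by positivity
  set F : ℝ → ℂ := Set.IccExtend hL (Set.domRestrict (Icc 0 (2 * c)) f) with hF
  have hFc : Continuous F := (continuousOn_iff_continuous_domRestrict.1 hf).Icc_extend'
  have hFf : ∀ t ∈ Icc (0:ℝ) (2 * c), F t = f t := by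
    intro t ht
    rw [hF, Set.IccExtend_of_mem hL _ ht]; rfl
  obtain ⟨M, hM⟩ : ∃ M, ∀ t, ‖F t‖ ≤ M := by
    obtain ⟨M, hM⟩ := (isCompact_Icc (a := (0:ℝ)) (b := 2 * c)).exists_bound_of_continuousOn hf
    refine ⟨M, fun t => ?_⟩
    rw [hF]
    unfold Set.IccExtend
    exact hM _ (Set.projIcc 0 (2 * c) hL t).2
  have hFh : ∀ t ∈ Icc 0 (2 * c), ∫ s in (0:ℝ)..t, F s * F (t - s) = 0 := by
    intro t ht
    rw [← h t ht]
    apply intervalIntegral.integral_congr
    intro s hs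
    rw [Set.uIcc_of_le ht.1] at hs
    show F s * F (t - s) = f s * f (t - s)
    rw [hFf s ⟨hs.1, hs.2.trans ht.2⟩, hFf (t - s) ⟨by linarith [hs.2], by linarith [hs.1, ht.2]⟩]
  have hM0 : 0 ≤ M := (norm_nonneg _).trans (hM 0)
  have key : ∀ n : ℕ, ‖∫ p in (0:ℝ)..c, (Real.exp (n * p) : ℂ) * f (c - p)‖ ≤ 3 * c * M := by
    intro n
    have hb := g32_bound c hc n F hFc M hM hFh
    have hn0 : (0:ℝ) ≤ n := Nat.cast_nonneg n
    have hcE : Continuous (fun r : ℝ => (Real.exp (n * (c - r)) : ℂ) * F r) := by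
      have : Continuous (fun r : ℝ => (Real.exp (n * (c - r)) : ℂ)) :=
        Complex.continuous_ofReal.comp (by fun_prop)
      exact this.mul hFc
    have e1 : (Real.exp (n * c) : ℂ) * ∫ r in (0:ℝ)..(2 * c), (Real.exp (-(n * r)) : ℂ) * F r =
        ∫ r in (0:ℝ)..(2 * c), (Real.exp (n * (c - r)) : ℂ) * F r := by
      rw [← intervalIntegral.integral_const_mul]
      apply intervalIntegral.integral_congr
      intro r _
      simp only []
      rw [← mul_assoc, ← Complex.ofReal_mul, ← Real.exp_add]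
      congr 3
      ring
    rw [e1] at hb
    have e2 : ∫ r in (0:ℝ)..(2 * c), (Real.exp (n * (c - r)) : ℂ) * F r =
        (∫ r in (0:ℝ)..c, (Real.exp (n * (c - r)) : ℂ) * F r) +
        ∫ r in c..(2 * c), (Real.exp (n * (c - r)) : ℂ) * F r :=
      (intervalIntegral.integral_add_adjacent_intervals (hcE.intervalIntegrable _ _)
        (hcE.intervalIntegrable _ _)).symm
    have e3 : ‖∫ r in c..(2 * c), (Real.exp (n * (c - r)) : ℂ) * F r‖ ≤ M * |2 * c - c| := by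
      apply intervalIntegral.norm_integral_le_of_norm_le_const
      intro r hr
      rw [Set.uIoc_of_le (by linarith)] at hr
      rw [norm_mul, Complex.norm_real, Real.norm_eq_abs, abs_of_pos (Real.exp_pos _)]
      have e7 : Real.exp (n * (c - r)) ≤ 1 := by
        rw [Real.exp_le_one_iff]
        exact mul_nonpos_of_nonneg_of_nonpos hn0 (by linarith [hr.1])
      calc _ ≤ 1 * M := mul_le_mul e7 (hM r) (norm_nonneg _) zero_le_one
        _ = M := one_mul _
    have e4 : ∫ p in (0:ℝ)..c, (Real.exp (n * p) : ℂ) * f (c - p) =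
        ∫ r in (0:ℝ)..c, (Real.exp (n * (c - r)) : ℂ) * F r := by
      have e5 : ∫ p in (0:ℝ)..c, (Real.exp (n * p) : ℂ) * f (c - p) =
          ∫ p in (0:ℝ)..c, (fun r => (Real.exp (n * (c - r)) : ℂ) * F r) (c - p) := by
        apply intervalIntegral.integral_congr
        intro p hp
        rw [Set.uIcc_of_le hc.le] at hp
        simp only []
        rw [sub_sub_cancel, hFf (c - p) ⟨by linarith [hp.2], by linarith [hp.1]⟩]
      rw [e5, intervalIntegral.integral_comp_sub_left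
        (fun r => (Real.exp (n * (c - r)) : ℂ) * F r), sub_self, sub_zero]
    rw [e4]
    have e6 : ∫ r in (0:ℝ)..c, (Real.exp (n * (c - r)) : ℂ) * F r =
        (∫ r in (0:ℝ)..(2 * c), (Real.exp (n * (c - r)) : ℂ) * F r) -
        ∫ r in c..(2 * c), (Real.exp (n * (c - r)) : ℂ) * F r := by rw [e2]; ring
    rw [e6]
    refine (norm_sub_le _ _).trans ?_
    have e8 : |2 * c - c| = c := by rw [abs_of_pos] <;> linarith
    rw [e8] at e3
    linarith
  have hmom := moment_lemma c hc (fun p => f (c - p)) ?_ (3 * c * M) key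
  · intro s hs
    have := hmom (c - s) ⟨by linarith [hs.2], by linarith [hs.1]⟩
    simpa using this
  · apply hf.comp (by fun_prop)
    intro p hp
    exact ⟨by linarith [hp.2], by linarith [hp.1]⟩

/-- the primitive -/
noncomputable def g33_F (f : V) (t : ℝ) : ℂ := ∫ s in (0:ℝ)..t, (Icc (0:ℝ) 1).indicator (f : ℝ → ℂ) s

theorem g33_int (f : V) : Integrable ((Icc (0:ℝ) 1).indicator (f : ℝ → ℂ)) volume := by
  rw [integrable_indicator_iff measurableSet_Icc]
  exact L1.integrable_coeFn f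

theorem g33_cont (f : V) : Continuous (g33_F f) :=
  intervalIntegral.continuous_primitive (fun a b => (g33_int f).intervalIntegrable) 0

theorem g33_eq (f : V) {t : ℝ} (ht : t ∈ Icc (0:ℝ) 1) : ∫ s in (0:ℝ)..t, f s = g33_F f t := by
  unfold g33_F
  apply intervalIntegral.integral_congr
  intro s hs
  rw [uIcc_of_le ht.1] at hs
  rw [indicator_of_mem]
  exact ⟨hs.1, hs.2.trans ht.2⟩

theorem g33_ae (f : V) : ∀ᵐ s ∂(volume : Measure ℝ), s ∈ Icc (0:ℝ) 1 →
    (conv u f : ℝ → ℂ) s = g33_F f s := by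
  have h := conv_u_ae f
  have h2 := (ae_restrict_iff' (μ := volume) (s := Icc (0:ℝ) 1) measurableSet_Icc).1 h
  filter_upwards [h2] with s hs hs1
  rw [hs hs1, g33_eq f hs1]

theorem g33_cv (f : V) {t : ℝ} (ht : t ∈ Icc (0:ℝ) 1) :
    cv (conv u f : V) (conv u f : V) t = ∫ s in (0:ℝ)..t, g33_F f s * g33_F f (t - s) := by
  unfold cv
  apply intervalIntegral.integral_congr_ae
  have h1 := g33_ae f
  have h2 := (Measure.measurePreserving_sub_left (volume : Measure ℝ) t).quasiMeasurePreserving.ae h1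
  filter_upwards [h1, h2] with s hs1 hs2 hs
  rw [uIoc_of_le ht.1] at hs
  rw [hs1 ⟨hs.1.le, hs.2.trans ht.2⟩, hs2 ⟨by linarith [hs.2], by linarith [hs.1, ht.2]⟩]

theorem g33_conv (f g : V) : conv (conv u f) (conv u g) = conv (conv f g) (conv u u) := by
  rw [conv_assoc u f, ← conv_assoc f u g, conv_comm f u, conv_assoc u f g, ← conv_assoc u u,
    conv_comm (conv u u)]

theorem sq_zero {c : ℝ} (hc : 0 < c) (hc1 : 2 * c ≤ 1) {f : V}
    (h : P (2 * c) (conv f f) = 0) : P c f = 0 := by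
  apply inj_u
  have h1 : P (2 * c) (conv (conv u f) (conv u f)) = 0 := by
    rw [g33_conv, P_conv, h]
    have : conv (0 : V) (conv u u) = 0 := by
      have := conv_smul_left 0 u (conv u u)
      simpa using this
    rw [this, map_zero]
  have h2 : (P (2 * c) (conv (conv u f) (conv u f)) : ℝ → ℂ) =ᵐ[mI] 0 := by
    rw [h1]; exact Lp.coeFn_zero _ _ _
  have h3 := P_ae (2 * c) (conv (conv u f) (conv u f))
  have h4 : (conv (conv u f) (conv u f) : ℝ → ℂ) =ᵐ[mI] cv (conv u f : V) (conv u f : V) :=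
    (cv_integrable (conv u f) (conv u f)).coeFn_toL1
  have h5 : ∀ᵐ t ∂mI, t < 2 * c → cv (conv u f : V) (conv u f : V) t = 0 := by
    filter_upwards [h2, h3, h4] with t a b d ht
    rw [← d]
    rw [b, if_pos ht, one_mul] at a
    exact a
  have h6 := (ae_restrict_iff' (μ := volume) (s := Icc (0:ℝ) 1) measurableSet_Icc).1 h5
  have hH : Continuous (fun t : ℝ => ∫ s in (0:ℝ)..t, g33_F f s * g33_F f (t - s)) := by
    apply intervalIntegral.continuous_parametric_intervalIntegral_of_continuous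
    · have := g33_cont f
      unfold Function.uncurry
      fun_prop
    · exact continuous_id
  have h7 : EqOn (fun t : ℝ => ∫ s in (0:ℝ)..t, g33_F f s * g33_F f (t - s)) (fun _ => (0:ℂ))
      (Icc 0 (2 * c)) := by
    apply MeasureTheory.Measure.eqOn_Icc_of_ae_eq (μ := volume) (by linarith : (0:ℝ) ≠ 2 * c) ?_
      hH.continuousOn continuousOn_const
    have h8 : ∀ᵐ t ∂(volume : Measure ℝ), t ≠ 2 * c := by
      have : (volume : Measure ℝ) {2 * c} = 0 := by simp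
      exact compl_mem_ae_iff.2 this
    apply (ae_restrict_iff' measurableSet_Icc).2
    filter_upwards [h6, h8] with t a b ht
    have ht1 : t ∈ Icc (0:ℝ) 1 := ⟨ht.1, ht.2.trans hc1⟩
    rw [← g33_cv f ht1]
    exact a ht1 (lt_of_le_of_ne ht.2 b)
  have h9 := titch_sq c hc (g33_F f) (g33_cont f).continuousOn h7
  apply (Lp.eq_zero_iff_ae_eq_zero).2
  have h10 := P_ae c (conv u f)
  have h11 : ∀ᵐ t ∂mI, (conv u f : ℝ → ℂ) t = g33_F f t :=
    (ae_restrict_iff' (μ := volume) (s := Icc (0:ℝ) 1) measurableSet_Icc).2 (g33_ae f)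
  have h12 : ∀ᵐ t ∂mI, t ∈ Icc (0:ℝ) 1 := ae_restrict_mem measurableSet_Icc
  filter_upwards [h10, h11, h12] with t a b d
  rw [a]
  split_ifs with ht
  · rw [b, h9 t ⟨d.1, ht.le⟩]; simp
  · simp

/-- conjugated shift -/
noncomputable def g34_k (T : V ≃L[ℂ] V) (x : ℝ) (f : V) : V := T (tau x (T.symm f))

theorem g34_symm (T : V ≃L[ℂ] V) (hT : Hom T) (f g : V) :
    T.symm (conv f g) = conv (T.symm f) (T.symm g) := by
  apply T.injective
  rw [T.apply_symm_apply]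
  have := hT (T.symm f) (T.symm g)
  rw [T.apply_symm_apply, T.apply_symm_apply] at this
  exact this.symm

theorem g34_conv (T : V ≃L[ℂ] V) (hT : Hom T) {x : ℝ} (hx : 0 ≤ x) (f g : V) :
    g34_k T x (conv f g) = conv (g34_k T x f) g := by
  unfold g34_k
  rw [g34_symm T hT, tau_conv hx]
  have := hT (tau x (T.symm f)) (T.symm g)
  rw [T.apply_symm_apply] at this
  exact this

theorem g34_conv' (T : V ≃L[ℂ] V) (hT : Hom T) {x : ℝ} (hx : 0 ≤ x) (f g : V) :
    g34_k T x (conv f g) = conv f (g34_k T x g) := by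
  rw [conv_comm f g, g34_conv T hT hx, conv_comm]

theorem g34_kk (T : V ≃L[ℂ] V) {x y : ℝ} (hx : 0 ≤ x) (hy : 0 ≤ y) (f : V) :
    g34_k T x (g34_k T y f) = g34_k T (x + y) f := by
  unfold g34_k
  rw [T.symm_apply_apply, tau_tau hx hy]

theorem g34_one (T : V ≃L[ℂ] V) {x : ℝ} (hx : 1 ≤ x) (f : V) : g34_k T x f = 0 := by
  unfold g34_k
  rw [tau_eq_zero hx, map_zero]

noncomputable def g34_sqn (f : V) : ℕ → V
  | 0 => f
  | j + 1 => conv (g34_sqn f j) (g34_sqn f j)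

theorem g34_sqn_k (T : V ≃L[ℂ] V) (hT : Hom T) {x : ℝ} (hx : 0 ≤ x) (h : V) (j : ℕ) :
    g34_sqn (g34_k T x h) j = g34_k T (2 ^ j * x) (g34_sqn h j) := by
  induction j with
  | zero => simp [g34_sqn]
  | succ j ih =>
    have h0 : 0 ≤ 2 ^ j * x := by positivity
    show conv (g34_sqn (g34_k T x h) j) (g34_sqn (g34_k T x h) j) = _
    rw [ih, ← g34_conv T hT h0, ← g34_conv' T hT h0, g34_kk T h0 h0]
    have : 2 ^ j * x + 2 ^ j * x = 2 ^ (j + 1) * x := by rw [pow_succ]; ring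
    rw [this]
    rfl

theorem g34_iter (g : V) (j : ℕ) (h : g34_sqn g j = 0) (i : ℕ) (hi : i ≤ j) :
    P ((1 / 2 : ℝ) ^ i) (g34_sqn g (j - i)) = 0 := by
  induction i with
  | zero => simp [h]
  | succ i ih =>
    have h1 := ih (by omega)
    have h2 : j - i = (j - (i + 1)) + 1 := by omega
    rw [h2] at h1
    have hc : 0 < (1 / 2 : ℝ) ^ (i + 1) := by positivity
    have h3 : 2 * (1 / 2 : ℝ) ^ (i + 1) = (1 / 2 : ℝ) ^ i := by rw [pow_succ]; ring
    apply sq_zero hc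
    · rw [h3]
      exact pow_le_one₀ (by norm_num) (by norm_num)
    · rw [h3]
      exact h1

theorem g34_base (T : V ≃L[ℂ] V) (hT : Hom T) (j : ℕ) (h : V) :
    P ((1 / 2 : ℝ) ^ j) (g34_k T ((1 / 2 : ℝ) ^ j) h) = 0 := by
  have h1 : g34_sqn (g34_k T ((1 / 2 : ℝ) ^ j) h) j = 0 := by
    rw [g34_sqn_k T hT (by positivity)]
    apply g34_one
    rw [← mul_pow]
    norm_num
  have h2 := g34_iter _ j h1 j le_rfl
  rw [Nat.sub_self] at h2
  exact h2

theorem g34_comm (T : V ≃L[ℂ] V) (hT : Hom T) {x y : ℝ} (hx : 0 ≤ x) (hy : 0 ≤ y) (g : V) :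
    g34_k T x (tau y g) = tau y (g34_k T x g) := by
  have h1 := conv_e_tendsto g
  have h2 := conv_e_tendsto (g34_k T x g)
  have hk : Continuous (fun f : V => g34_k T x (tau y f)) := by
    unfold g34_k
    fun_prop
  have h3 : Tendsto (fun h => g34_k T x (tau y (conv (e h) g))) (𝓝[>] 0)
      (𝓝 (g34_k T x (tau y g))) := (hk.tendsto _).comp h1
  have h4 : Tendsto (fun h => tau y (conv (e h) (g34_k T x g))) (𝓝[>] 0)
      (𝓝 (tau y (g34_k T x g))) := ((tau y).continuous.tendsto _).comp h2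
  refine tendsto_nhds_unique h3 (h4.congr ?_)
  intro h
  rw [tau_conv hy, tau_conv hy, g34_conv' T hT hx]

theorem g34_dyadic (T : V ≃L[ℂ] V) (hT : Hom T) (j m : ℕ) (h : V) :
    P (m * (1 / 2 : ℝ) ^ j) (g34_k T (m * (1 / 2 : ℝ) ^ j) h) = 0 := by
  induction m with
  | zero => exact P_of_nonpos (by simp) _
  | succ m ih =>
    set δ := (1 / 2 : ℝ) ^ j with hδ
    have hδ0 : 0 ≤ δ := by positivity
    have hm0 : 0 ≤ (m : ℝ) * δ := by positivity
    have h1 : ((m + 1 : ℕ) : ℝ) * δ = δ + m * δ := by push_cast; ring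
    rw [h1, ← g34_kk T hδ0 hm0]
    have h2 := tau_lam hm0 ih
    rw [← h2, g34_comm T hT hδ0 hm0, P_tau hm0, add_sub_cancel_right, g34_base T hT, map_zero]

theorem aut_causal (T : V ≃L[ℂ] V) (hT : Hom T) {a : ℝ} (ha : a ∈ Icc (0:ℝ) 1) {f : V}
    (hf : P a f = 0) : P a (T f) = 0 := by
  -- dyadic points below a
  have key : ∀ j : ℕ, P ((⌊a * 2 ^ j⌋₊ : ℝ) * (1 / 2 : ℝ) ^ j) (T f) = 0 := by
    intro j
    set m := ⌊a * 2 ^ j⌋₊ with hm
    set x := (m : ℝ) * (1 / 2 : ℝ) ^ j with hx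
    have hx0 : 0 ≤ x := by positivity
    have hxa : x ≤ a := by
      have h1 : (m : ℝ) ≤ a * 2 ^ j := Nat.floor_le (mul_nonneg ha.1 (by positivity))
      calc x ≤ (a * 2 ^ j) * (1 / 2 : ℝ) ^ j := by
            rw [hx]; exact mul_le_mul_of_nonneg_right h1 (by positivity)
        _ = a * (2 * (1 / 2)) ^ j := by rw [mul_pow]; ring
        _ = a := by norm_num
    have h2 : P x f = 0 := by
      have := P_P x a f
      rw [hf, map_zero, min_eq_left hxa] at this
      exact this.symm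
    have h3 := tau_lam hx0 h2
    have h4 : T f = g34_k T x (T (lam x f)) := by
      unfold g34_k
      rw [T.symm_apply_apply, h3]
    rw [h4]
    exact g34_dyadic T hT j m _
  have hae : ∀ᵐ t ∂mI, ∀ j : ℕ,
      (if t < (⌊a * 2 ^ j⌋₊ : ℝ) * (1 / 2 : ℝ) ^ j then (1:ℂ) else 0) * (T f : V) t = 0 := by
    rw [ae_all_iff]
    intro j
    have h1 := P_ae ((⌊a * 2 ^ j⌋₊ : ℝ) * (1 / 2 : ℝ) ^ j) (T f)
    rw [key j] at h1
    filter_upwards [h1, Lp.coeFn_zero ℂ 1 mI] with t e1 e2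
    rw [← e1, e2]; rfl
  apply Lp.ext
  filter_upwards [hae, P_ae a (T f), Lp.coeFn_zero ℂ 1 mI] with t e1 e2 e3
  rw [e2, e3]
  by_cases ht : t < a
  · obtain ⟨j, hj⟩ := exists_pow_lt_of_lt_one (sub_pos.2 ht) (by norm_num : (1 / 2 : ℝ) < 1)
    have h5 : t < (⌊a * 2 ^ j⌋₊ : ℝ) * (1 / 2 : ℝ) ^ j := by
      have h6 : a * 2 ^ j < ⌊a * 2 ^ j⌋₊ + 1 := Nat.lt_floor_add_one _
      have h7 : a < ((⌊a * 2 ^ j⌋₊ : ℝ) + 1) * (1 / 2 : ℝ) ^ j := by
        calc a = (a * 2 ^ j) * (1 / 2 : ℝ) ^ j := by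
              rw [mul_assoc, ← mul_pow]; norm_num
          _ < _ := mul_lt_mul_of_pos_right h6 (by positivity)
      rw [add_mul, one_mul] at h7
      linarith
    have h8 := e1 j
    rw [if_pos h5, one_mul] at h8
    rw [h8, mul_zero]; rfl
  · rw [if_neg ht, zero_mul]; rfl

theorem hom_symm (T : V ≃L[ℂ] V) (hT : Hom T) : Hom T.symm := by
  intro f g
  apply T.injective
  rw [hT]; simp

/-- `T` conjugate of the shift -/
noncomputable def kap (T : V ≃L[ℂ] V) (x : ℝ) : V →L[ℂ] V :=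
  (T : V →L[ℂ] V) * tau x * (T.symm : V →L[ℂ] V)

/-- unshifted conjugate of the shift -/
noncomputable def W (T : V ≃L[ℂ] V) (x : ℝ) : V →L[ℂ] V := lam x * kap T x

theorem g35_kap_apply (T : V ≃L[ℂ] V) (x : ℝ) (f : V) :
    kap T x f = T (tau x (T.symm f)) := rfl

theorem g35_W_apply (T : V ≃L[ℂ] V) (x : ℝ) (f : V) : W T x f = lam x (kap T x f) := rfl

theorem kap_eq (T : V ≃L[ℂ] V) (hT : Hom T) {x : ℝ} (hx : x ∈ Icc (0:ℝ) 1) (f : V) :
    kap T x f = tau x (W T x f) := by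
  have h1 : P x (tau x (T.symm f)) = 0 := by
    rw [P_tau hx.1, sub_self, P_of_nonpos le_rfl, map_zero]
  have h2 : P x (kap T x f) = 0 := aut_causal T hT hx h1
  rw [g35_W_apply, tau_lam hx.1 h2]

theorem W_zero (T : V ≃L[ℂ] V) (f : V) : W T 0 f = f := by
  rw [g35_W_apply, g35_kap_apply, lam_zero, tau_zero, T.apply_symm_apply]

theorem g35_kap_conv (T : V ≃L[ℂ] V) (hT : Hom T) {x : ℝ} (hx : 0 ≤ x) (f g : V) :
    kap T x (conv f g) = conv (kap T x f) g := by
  rw [g35_kap_apply, hom_symm T hT, tau_conv hx, hT, T.apply_symm_apply, g35_kap_apply]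

theorem W_mul (T : V ≃L[ℂ] V) (hT : Hom T) {a x : ℝ} (hx : x ∈ Icc (0:ℝ) (1 - a)) (ha : 0 ≤ a) :
    IsMul a (P a * W T x) := by
  intro f g
  have hx1 : x ∈ Icc (0:ℝ) 1 := ⟨hx.1, by linarith [hx.2]⟩
  change P a (W T x (conv f g)) = P a (conv (P a (W T x f)) g)
  rw [← P_conv, g35_W_apply, g35_kap_conv T hT hx.1, kap_eq T hT hx1, ← tau_conv hx.1,
    lam_tau hx.1, P_P, min_eq_left (by linarith [hx.2])]

theorem g35_kap_tau (T : V ≃L[ℂ] V) (hT : Hom T) {x y : ℝ} (hx : 0 ≤ x) (hy : 0 ≤ y) (g : V) :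
    kap T x (tau y g) = tau y (kap T x g) := by
  have h1 : Tendsto (fun h => kap T x (tau y (conv (e h) g))) (𝓝[>] 0) (𝓝 (kap T x (tau y g))) :=
    (((kap T x).continuous.comp (tau y).continuous).tendsto g).comp (conv_e_tendsto g)
  have h2 : Tendsto (fun h => tau y (conv (e h) (kap T x g))) (𝓝[>] 0)
      (𝓝 (tau y (kap T x g))) :=
    ((tau y).continuous.tendsto _).comp (conv_e_tendsto (kap T x g))
  have h3 : ∀ h : ℝ, kap T x (tau y (conv (e h) g)) = tau y (conv (e h) (kap T x g)) := by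
    intro h
    rw [tau_conv hy, conv_comm (tau y (e h)) g, g35_kap_conv T hT hx,
      conv_comm (kap T x g) (tau y (e h)), ← tau_conv hy]
  simp only [h3] at h1
  exact tendsto_nhds_unique h1 h2

theorem W_add (T : V ≃L[ℂ] V) (hT : Hom T) {a x y : ℝ} (ha : 0 ≤ a) (hx : 0 ≤ x) (hy : 0 ≤ y)
    (hxy : x + y ≤ 1 - a) : P a * W T (x + y) = (P a * W T x) * (P a * W T y) := by
  have hx1 : x ∈ Icc (0:ℝ) 1 := ⟨hx, by linarith⟩
  have hy1 : y ∈ Icc (0:ℝ) 1 := ⟨hy, by linarith⟩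
  ext1 f
  change P a (W T (x + y) f) = (P a * W T x) (P a (W T y f))
  rw [mul_P_right (W_mul T hT ⟨hx, by linarith⟩ ha)]
  change P a (W T (x + y) f) = P a (W T x (W T y f))
  have h1 : kap T (x + y) f = kap T x (kap T y f) := by
    rw [g35_kap_apply, g35_kap_apply, g35_kap_apply, T.symm_apply_apply, tau_tau hx hy]
  rw [g35_W_apply T (x + y), h1, kap_eq T hT hy1, g35_kap_tau T hT hx hy, kap_eq T hT hx1,
    tau_tau hy hx, add_comm y x, lam_tau (add_nonneg hx hy), P_P, min_eq_left (by linarith)]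

theorem W_norm (T : V ≃L[ℂ] V) {x : ℝ} (hx : 0 ≤ x) :
    ‖W T x‖ ≤ ‖(T : V →L[ℂ] V)‖ * ‖(T.symm : V →L[ℂ] V)‖ := by
  refine ContinuousLinearMap.opNorm_le_bound _ (by positivity) fun f => ?_
  rw [g35_W_apply, g35_kap_apply]
  have h1 := norm_lam_le hx (T (tau x (T.symm f)))
  have h2 : ‖T (tau x (T.symm f))‖ ≤ ‖(T : V →L[ℂ] V)‖ * ‖tau x (T.symm f)‖ :=
    (T : V →L[ℂ] V).le_opNorm _
  have h3 := norm_tau_le hx (T.symm f)
  have h4 : ‖T.symm f‖ ≤ ‖(T.symm : V →L[ℂ] V)‖ * ‖f‖ := (T.symm : V →L[ℂ] V).le_opNorm _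
  calc ‖lam x (T (tau x (T.symm f)))‖ ≤ ‖(T : V →L[ℂ] V)‖ * ‖tau x (T.symm f)‖ := h1.trans h2
    _ ≤ ‖(T : V →L[ℂ] V)‖ * (‖(T.symm : V →L[ℂ] V)‖ * ‖f‖) :=
        mul_le_mul_of_nonneg_left (h3.trans h4) (norm_nonneg _)
    _ = _ := by ring

theorem W_cont (T : V ≃L[ℂ] V) (f : V) : ContinuousOn (fun x => W T x f) (Ici 0) := by
  have hg : ContinuousOn (fun x => kap T x f) (Ici 0) :=
    T.continuous.comp_continuousOn (tau_cont (T.symm f))
  intro x0 hx0
  have h1 : Tendsto (fun x => ‖kap T x f - kap T x0 f‖) (𝓝[Ici 0] x0) (𝓝 0) :=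
    tendsto_iff_norm_sub_tendsto_zero.1 (hg x0 hx0)
  have h2 : Tendsto (fun x => ‖lam x (kap T x0 f) - lam x0 (kap T x0 f)‖) (𝓝[Ici 0] x0) (𝓝 0) :=
    tendsto_iff_norm_sub_tendsto_zero.1 (lam_cont (kap T x0 f) x0 hx0)
  have h3 := h1.add h2
  rw [add_zero] at h3
  refine tendsto_iff_norm_sub_tendsto_zero.2 (squeeze_zero' (Eventually.of_forall fun x =>
    norm_nonneg _) ?_ h3)
  filter_upwards [self_mem_nhdsWithin] with x hx
  have h4 : W T x f - W T x0 f = lam x (kap T x f - kap T x0 f) +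
      (lam x (kap T x0 f) - lam x0 (kap T x0 f)) := by
    rw [g35_W_apply, g35_W_apply, map_sub]
    abel
  rw [h4]
  exact (norm_add_le _ _).trans (add_le_add (norm_lam_le hx _) le_rfl)

theorem g36_u (ε : ℝ) (hε : 0 < ε) (hε1 : ε ≤ 1) : P ε u ≠ 0 := by
  intro h
  have h1 := norm_P ε hε.le hε1 u
  rw [h, norm_zero] at h1
  have hu : (u : ℝ → ℂ) =ᵐ[mI] fun _ => (1 : ℂ) :=
    Integrable.coeFn_toL1 (integrable_const (μ := mI) (1 : ℂ))
  have h2 : ∫ t in (0 : ℝ)..ε, ‖u t‖ = ∫ t in (0 : ℝ)..ε, (1 : ℝ) := by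
    rw [intervalIntegral.integral_of_le hε.le, intervalIntegral.integral_of_le hε.le]
    apply integral_congr_ae
    have h3 : ∀ᵐ t ∂(volume.restrict (Ioc 0 ε)), (u : ℝ → ℂ) t = 1 := by
      have h4 : Ioc (0 : ℝ) ε ⊆ Icc 0 1 := fun t ht => ⟨ht.1.le, ht.2.trans hε1⟩
      exact ae_restrict_of_ae_restrict_of_subset h4 hu
    filter_upwards [h3] with t ht
    rw [ht, norm_one]
  rw [h2, intervalIntegral.integral_const, smul_eq_mul, mul_one, sub_zero] at h1
  exact hε.ne h1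

theorem g36_causal (T : V ≃L[ℂ] V) (hT : Hom T) {b : ℝ} (hb : b ∈ Icc (0 : ℝ) 1) (g : V) :
    P b (T g) = P b (T (P b g)) := by
  have h1 : P b (g - P b g) = 0 := by
    rw [map_sub, P_P, min_self, sub_self]
  have h2 := aut_causal T hT hb h1
  rw [map_sub, map_sub, sub_eq_zero] at h2
  exact h2

theorem g36_main (T : V ≃L[ℂ] V) (hT : Hom T) {a x : ℝ} (ha : 0 < a) (hx : x ∈ Icc (0:ℝ) (1 - a))
    {l : ℂ} (hl : Atom (P a * W T x) l) {δ : ℝ} (hδ : 0 < δ) :
    1 ≤ ‖(T : V →L[ℂ] V)‖ * ‖(T.symm : V →L[ℂ] V)‖ * (‖l‖ + δ) := by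
  have hS : IsMul a (P a * W T x) := W_mul T hT hx ha.le
  obtain ⟨ε0, hε0, hmono⟩ := atom_mono hS hl hδ
  have hx0 : 0 ≤ x := hx.1
  have hxa : x ≤ 1 - a := hx.2
  set ε : ℝ := min ε0 a with hε
  have hεpos : 0 < ε := lt_min hε0.1 ha
  have hεa : ε ≤ a := min_le_right _ _
  have hε1 : ε ≤ 1 := by linarith
  have hat := hmono ε ⟨hεpos, min_le_left _ _⟩
  set f : V := P ε u with hf
  have hf0 : f ≠ 0 := g36_u ε hεpos hε1
  have hPf : P ε f = f := by rw [hf, P_P, min_self]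
  set b : ℝ := x + ε with hb
  have hb01 : b ∈ Icc (0 : ℝ) 1 := ⟨by positivity, by linarith⟩
  have hbx : b - x = ε := by rw [hb]; ring
  have hPg : P b (tau x f) = tau x f := by rw [P_tau hx0, hbx, hPf]
  have hng : ‖tau x f‖ = ‖f‖ := by
    have := norm_tau_P hx0 (a := ε) (by linarith) f
    rwa [hPf] at this
  have hTg : T (tau x f) = tau x (W T x (T f)) := by
    rw [← kap_eq T hT ⟨hx0, by linarith⟩]
    unfold kap
    simp
  have h1 : tau x f = P b (T.symm (P b (T (tau x f)))) := by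
    have h2 := g36_causal T.symm (hom_symm T hT) hb01 (T (tau x f))
    rw [ContinuousLinearEquiv.symm_apply_apply, hPg] at h2
    exact h2
  have h2 : ‖f‖ ≤ ‖(T.symm : V →L[ℂ] V)‖ * ‖P b (T (tau x f))‖ := by
    rw [← hng]
    nth_rewrite 1 [h1]
    exact (norm_P_le _ _).trans ((T.symm : V →L[ℂ] V).le_opNorm _)
  have h3 : ‖P b (T (tau x f))‖ ≤ ‖P ε (W T x (T f))‖ := by
    rw [hTg, P_tau hx0, hbx]
    exact norm_tau_le hx0 _
  have h4 : P ε (W T x (T f)) = P ε ((P a * W T x) (T f)) := by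
    rw [ContinuousLinearMap.mul_apply, P_P, min_eq_left hεa]
  have h5 : ‖P ε ((P a * W T x) (T f))‖ ≤ (‖l‖ + δ) * ‖P ε (T f)‖ := by
    have h6 : P ε ((P a * W T x) (T f)) =
        P ε ((P a * W T x) (T f) - l • T f) + l • P ε (T f) := by
      rw [map_sub, map_smul, sub_add_cancel]
    rw [h6]
    refine (norm_add_le _ _).trans ?_
    rw [norm_smul]
    have := hat (T f)
    linarith
  have h7 : ‖P ε (T f)‖ ≤ ‖(T : V →L[ℂ] V)‖ * ‖f‖ :=
    (norm_P_le _ _).trans ((T : V →L[ℂ] V).le_opNorm _)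
  have hfp : 0 < ‖f‖ := norm_pos_iff.2 hf0
  have h8 : ‖f‖ ≤ (‖(T : V →L[ℂ] V)‖ * ‖(T.symm : V →L[ℂ] V)‖ * (‖l‖ + δ)) * ‖f‖ := by
    calc ‖f‖ ≤ ‖(T.symm : V →L[ℂ] V)‖ * ‖P b (T (tau x f))‖ := h2
      _ ≤ ‖(T.symm : V →L[ℂ] V)‖ * ((‖l‖ + δ) * (‖(T : V →L[ℂ] V)‖ * ‖f‖)) := by
          apply mul_le_mul_of_nonneg_left _ (norm_nonneg _)
          refine h3.trans ?_
          rw [h4]
          refine h5.trans ?_
          exact mul_le_mul_of_nonneg_left h7 (by positivity)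
      _ = _ := by ring
  exact le_of_mul_le_mul_right (by rwa [one_mul]) hfp

theorem W_atom (T : V ≃L[ℂ] V) (hT : Hom T) {a x : ℝ} (ha : 0 < a) (hx : x ∈ Icc (0:ℝ) (1 - a))
    {l : ℂ} (hl : Atom (P a * W T x) l) :
    1 ≤ ‖(T : V →L[ℂ] V)‖ * ‖(T.symm : V →L[ℂ] V)‖ * ‖l‖ := by
  apply le_of_forall_pos_le_add
  intro ε hε
  set C : ℝ := ‖(T : V →L[ℂ] V)‖ * ‖(T.symm : V →L[ℂ] V)‖ with hC
  have hC0 : 0 ≤ C := by positivity
  have h1 := g36_main T hT ha hx hl (δ := ε / (C + 1)) (by positivity)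
  rw [← hC] at h1
  have h2 : C * (ε / (C + 1)) ≤ ε := by
    rw [mul_div_assoc', div_le_iff₀ (by positivity)]
    nlinarith
  rw [_root_.mul_add] at h1
  linarith

theorem g37_u_ae : (u : ℝ → ℂ) =ᵐ[mI] fun _ => (1 : ℂ) :=
  Integrable.coeFn_toL1 _

theorem g37_norm_Pu {h : ℝ} (h0 : 0 < h) (h1 : h ≤ 1) : ‖P h u‖ = h := by
  rw [norm_P h h0.le h1]
  have h2 : ∀ᵐ t ∂(volume : Measure ℝ), t ∈ Icc (0:ℝ) 1 → (u : ℝ → ℂ) t = 1 := by
    have := g37_u_ae
    unfold mI at this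
    exact (ae_restrict_iff' measurableSet_Icc).1 this
  have h3 : ∫ t in (0:ℝ)..h, ‖(u : ℝ → ℂ) t‖ = ∫ t in (0:ℝ)..h, (1 : ℝ) := by
    refine intervalIntegral.integral_congr_ae ?_
    filter_upwards [h2] with t ht hmem
    rw [uIoc_of_le h0.le] at hmem
    rw [ht ⟨hmem.1.le, hmem.2.trans h1⟩]
    simp
  rw [h3]
  simp

/-- mean over `[0,h)` -/
noncomputable def g37_J (h : ℝ) : V →L[ℂ] ℂ :=
  ((h⁻¹ : ℝ) : ℂ) • ((MeasureTheory.L1.integralCLM' ℂ : V →L[ℂ] ℂ).comp (P h))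

theorem g37_J_apply (h : ℝ) (f : V) :
    g37_J h f = ((h⁻¹ : ℝ) : ℂ) * MeasureTheory.L1.integral (P h f) := by
  rw [MeasureTheory.L1.integral_eq' ℂ]
  rfl

theorem g37_J_norm {h : ℝ} (h0 : 0 < h) (f : V) : ‖g37_J h f‖ ≤ h⁻¹ * ‖P h f‖ := by
  rw [g37_J_apply, norm_mul, Complex.norm_real, Real.norm_eq_abs, abs_of_pos (inv_pos.2 h0)]
  exact mul_le_mul_of_nonneg_left (MeasureTheory.L1.norm_integral_le _) (inv_pos.2 h0).le

theorem g37_J_u {h : ℝ} (h0 : 0 < h) (h1 : h ≤ 1) : g37_J h u = 1 := by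
  rw [g37_J_apply, MeasureTheory.L1.integral_eq_integral]
  have e1 : ∫ t, (P h u : ℝ → ℂ) t ∂mI = ∫ t, (Iio h).indicator (fun _ => (1 : ℂ)) t ∂mI := by
    refine integral_congr_ae ?_
    filter_upwards [P_ae h u, g37_u_ae] with t ht1 ht2
    rw [ht1, ht2, mul_one]
    unfold Set.indicator
    rfl
  rw [e1, integral_indicator measurableSet_Iio]
  unfold mI
  rw [Measure.restrict_restrict measurableSet_Iio]
  have e2 : Iio h ∩ Icc (0:ℝ) 1 = Ico 0 h := by
    ext t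
    constructor
    · rintro ⟨a, b, c⟩
      exact ⟨b, a⟩
    · rintro ⟨a, b⟩
      exact ⟨b, a, b.le.trans h1⟩
  rw [e2, integral_const]
  simp only [measureReal_restrict_apply_univ, Real.volume_real_Ico, sub_zero, max_eq_left h0.le,
    Complex.real_smul, mul_one]
  rw [← Complex.ofReal_mul, inv_mul_cancel₀ h0.ne', Complex.ofReal_one]

theorem g37_J_bound {a : ℝ} {S : V →L[ℂ] V} (hS : IsMul a S) {h : ℝ} (h0 : 0 < h) (h1 : h ≤ 1) :
    ‖g37_J h (S u)‖ ≤ ‖S‖ := by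
  refine (g37_J_norm h0 _).trans ?_
  rw [mul_causal hS h u]
  have h2 : ‖P h (S (P h u))‖ ≤ ‖S‖ * h := by
    refine (norm_P_le _ _).trans ((S.le_opNorm _).trans ?_)
    rw [g37_norm_Pu h0 h1]
  calc h⁻¹ * ‖P h (S (P h u))‖ ≤ h⁻¹ * (‖S‖ * h) :=
        mul_le_mul_of_nonneg_left h2 (inv_pos.2 h0).le
    _ = ‖S‖ := by field_simp

theorem g37_J_tendsto {a : ℝ} {S : V →L[ℂ] V} (hS : IsMul a S) {l : ℂ} (hl : Atom S l) :
    Tendsto (fun n : ℕ => g37_J (1 / ((n : ℝ) + 1)) (S u)) atTop (𝓝 l) := by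
  rw [Metric.tendsto_atTop]
  intro δ hδ
  obtain ⟨ε, hε, h⟩ := atom_mono hS hl (half_pos hδ)
  obtain ⟨N, hN⟩ := exists_nat_one_div_lt hε.1
  refine ⟨N, fun n hn => ?_⟩
  have hpos : (0 : ℝ) < 1 / ((n : ℝ) + 1) := by positivity
  have hle : 1 / ((n : ℝ) + 1) ≤ ε := by
    refine le_trans ?_ hN.le
    have : (N : ℝ) ≤ n := by exact_mod_cast hn
    apply one_div_le_one_div_of_le (by positivity)
    linarith
  have hle1 : 1 / ((n : ℝ) + 1) ≤ 1 := hle.trans hε.2
  have h2 := h _ ⟨hpos, hle⟩ u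
  rw [g37_norm_Pu hpos hle1] at h2
  have e : g37_J (1 / ((n : ℝ) + 1)) (S u) - l = g37_J (1 / ((n : ℝ) + 1)) (S u - l • u) := by
    rw [map_sub, map_smul, g37_J_u hpos hle1]
    simp
  rw [dist_eq_norm, e]
  calc ‖g37_J (1 / ((n : ℝ) + 1)) (S u - l • u)‖
      ≤ (1 / ((n : ℝ) + 1))⁻¹ * ‖P (1 / ((n : ℝ) + 1)) (S u - l • u)‖ := g37_J_norm hpos _
    _ ≤ (1 / ((n : ℝ) + 1))⁻¹ * (δ / 2 * (1 / ((n : ℝ) + 1))) :=
        mul_le_mul_of_nonneg_left h2 (inv_pos.2 hpos).le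
    _ = δ / 2 := by field_simp
    _ < δ := half_lt_self hδ

/-- atoms depend measurably on the parameter and integrate -/
theorem atom_integral {a d : ℝ} (ha : 0 < a) (ha1 : a ≤ 1) (U : ℝ → (V →L[ℂ] V)) (K : ℝ)
    (hU : ∀ x ∈ Icc (0:ℝ) d, IsMul a (U x)) (hK : ∀ x ∈ Icc (0:ℝ) d, ‖U x‖ ≤ K)
    (hc : ∀ f, ContinuousOn (fun x => U x f) (Icc 0 d)) (l : ℝ → ℂ)
    (hl : ∀ x ∈ Icc (0:ℝ) d, Atom (U x) (l x)) {p q : ℝ} (hp : 0 ≤ p) (hpq : p ≤ q) (hq : q ≤ d)
    (B : V →L[ℂ] V) (hB : ∀ f, B f = ∫ x in p..q, U x f) :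
    IsMul a B ∧ IntervalIntegrable l volume p q ∧ Atom B (∫ x in p..q, l x) := by
  have hsub : Icc p q ⊆ Icc 0 d := Icc_subset_Icc hp hq
  have hsub' : Ioc p q ⊆ Icc 0 d := Ioc_subset_Icc_self.trans hsub
  have hcpq : ∀ f, ContinuousOn (fun x => U x f) (Icc p q) := fun f => (hc f).mono hsub
  have hint : ∀ f, IntervalIntegrable (fun x => U x f) volume p q := by
    intro f
    apply ContinuousOn.intervalIntegrable
    rw [uIcc_of_le hpq]
    exact hcpq f
  have hMul : IsMul a B := by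
    intro f g
    rw [hB (conv f g), hB f]
    have e1 : ∫ x in p..q, U x (conv f g) =
        ∫ x in p..q, ((P a).comp (cL.flip g)) (U x f) := by
      refine intervalIntegral.integral_congr ?_
      intro x hx
      rw [uIcc_of_le hpq] at hx
      exact hU x (hsub hx) f g
    rw [e1, ContinuousLinearMap.intervalIntegral_comp_comm _ (hint f)]
    rfl
  obtain ⟨J, hJdef⟩ : ∃ J : ℕ → (V →L[ℂ] ℂ), J = fun n : ℕ => g37_J (1 / ((n : ℝ) + 1)) :=
    ⟨_, rfl⟩
  have hJt : ∀ x ∈ Icc (0:ℝ) d, Tendsto (fun n => J n (U x u)) atTop (𝓝 (l x)) := by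
    intro x hx
    rw [hJdef]
    exact g37_J_tendsto (hU x hx) (hl x hx)
  have hJb : ∀ n, ∀ x ∈ Icc (0:ℝ) d, ‖J n (U x u)‖ ≤ K := by
    intro n x hx
    rw [hJdef]
    refine (g37_J_bound (hU x hx) (by positivity) ?_).trans (hK x hx)
    rw [div_le_one (by positivity)]
    have : (0 : ℝ) ≤ n := Nat.cast_nonneg n
    linarith
  have hmeas : ∀ n, AEStronglyMeasurable (fun x => J n (U x u)) (volume.restrict (Ioc p q)) := by
    intro n
    have h1 : ContinuousOn (fun x => J n (U x u)) (Ioc p q) :=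
      (J n).continuous.comp_continuousOn ((hc u).mono hsub')
    exact h1.aestronglyMeasurable measurableSet_Ioc
  have hlmeas : AEStronglyMeasurable l (volume.restrict (Ioc p q)) := by
    refine aestronglyMeasurable_of_tendsto_ae atTop hmeas ?_
    filter_upwards [ae_restrict_mem measurableSet_Ioc] with x hx
    exact hJt x (hsub' hx)
  have hlb : ∀ x ∈ Icc (0:ℝ) d, ‖l x‖ ≤ K := by
    intro x hx
    exact le_of_tendsto (hJt x hx).norm (Eventually.of_forall fun n => hJb n x hx)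
  have hlint : IntervalIntegrable l volume p q := by
    rw [intervalIntegrable_iff_integrableOn_Ioc_of_le hpq]
    refine IntegrableOn.of_bound (by simp) hlmeas K ?_
    filter_upwards [ae_restrict_mem measurableSet_Ioc] with x hx
    exact hlb x (hsub' hx)
  refine ⟨hMul, hlint, ?_⟩
  have hlim : Tendsto (fun n => ∫ x in p..q, J n (U x u)) atTop (𝓝 (∫ x in p..q, l x)) := by
    refine intervalIntegral.tendsto_integral_filter_of_dominated_convergence (fun _ => K) ?_ ?_ ?_ ?_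
    · refine Eventually.of_forall fun n => ?_
      rw [uIoc_of_le hpq]
      exact hmeas n
    · refine Eventually.of_forall fun n => Eventually.of_forall fun x hx => ?_
      rw [uIoc_of_le hpq] at hx
      exact hJb n x (hsub' hx)
    · exact intervalIntegrable_const
    · refine Eventually.of_forall fun x hx => ?_
      rw [uIoc_of_le hpq] at hx
      exact hJt x (hsub' hx)
  have hlim2 : Tendsto (fun n => J n (B u)) atTop (𝓝 (∫ x in p..q, l x)) := by
    refine hlim.congr fun n => ?_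
    rw [ContinuousLinearMap.intervalIntegral_comp_comm _ (hint u), ← hB u]
  obtain ⟨b, hb⟩ := atom_exists ha ha1 hMul
  have hlim3 : Tendsto (fun n => J n (B u)) atTop (𝓝 b) := by
    rw [hJdef]
    exact g37_J_tendsto hMul hb
  rw [tendsto_nhds_unique hlim2 hlim3]
  exact hb

theorem int_ne_zero {d : ℝ} (hd : 0 < d) (l : ℝ → ℂ) (hi : IntervalIntegrable l volume 0 d)
    (hl : ∀ x ∈ Icc (0:ℝ) d, l x ≠ 0) :
    ∃ p q : ℝ, 0 ≤ p ∧ p < q ∧ q < d ∧ ∫ x in p..q, l x ≠ 0 := by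
  by_contra hcon
  push Not at hcon
  have h1 := hi.ae_hasDerivAt_integral
  rw [uIcc_of_le hd.le] at h1
  have h2 : ∀ᵐ x, x ∉ Ioo (0:ℝ) d := by
    filter_upwards [h1] with x hx hxm
    have h3 := hx (Ioo_subset_Icc_self hxm) 0 (left_mem_Icc.2 hd.le)
    have h4 : (fun y => ∫ t in (0:ℝ)..y, l t) =ᶠ[𝓝 x] fun _ => (0:ℂ) := by
      filter_upwards [Ioo_mem_nhds hxm.1 hxm.2] with y hy
      exact hcon 0 y le_rfl hy.1 hy.2
    have h5 := h3.congr_of_eventuallyEq h4.symm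
    have h6 := h5.unique (hasDerivAt_const x (0:ℂ))
    exact hl x (Ioo_subset_Icc_self hxm) h6
  have h3 : volume (Ioo (0:ℝ) d) = 0 := by
    have := ae_iff.1 h2
    have h4 : {a : ℝ | ¬ a ∉ Ioo (0:ℝ) d} = Ioo (0:ℝ) d := by
      ext x
      simp
    rwa [h4] at this
  rw [Real.volume_Ioo] at h3
  have : (0:ℝ) < d - 0 := by linarith
  exact (ENNReal.ofReal_pos.2 this).ne' h3

theorem op_integral {d : ℝ} (U : ℝ → (V →L[ℂ] V)) (K : ℝ)
    (hK : ∀ x ∈ Icc (0:ℝ) d, ‖U x‖ ≤ K)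
    (hc : ∀ f, ContinuousOn (fun x => U x f) (Icc 0 d)) {p q : ℝ} (hp : 0 ≤ p) (hpq : p ≤ q)
    (hq : q ≤ d) : ∃ B : V →L[ℂ] V, ∀ f, B f = ∫ x in p..q, U x f := by
  have hii : ∀ f, IntervalIntegrable (fun x => U x f) volume p q := fun f => by
    apply ContinuousOn.intervalIntegrable
    rw [uIcc_of_le hpq]
    exact (hc f).mono (Icc_subset_Icc hp hq)
  let L : V →ₗ[ℂ] V :=
    { toFun := fun f => ∫ x in p..q, U x f
      map_add' := fun f g => by
        simp only [map_add]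
        exact intervalIntegral.integral_add (hii f) (hii g)
      map_smul' := fun c f => by
        simp only [map_smul, RingHom.id_apply]
        exact intervalIntegral.integral_smul c _ }
  refine ⟨L.mkContinuous (K * (q - p)) ?_, fun f => rfl⟩
  intro f
  have h1 : ‖∫ x in p..q, U x f‖ ≤ K * ‖f‖ * |q - p| := by
    apply intervalIntegral.norm_integral_le_of_norm_le_const
    intro x hx
    rw [uIoc_of_le hpq] at hx
    have hx' : x ∈ Icc (0:ℝ) d := ⟨hp.trans hx.1.le, hx.2.trans hq⟩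
    exact ((U x).le_opNorm f).trans (mul_le_mul_of_nonneg_right (hK x hx') (norm_nonneg _))
  rw [abs_of_nonneg (by linarith)] at h1
  calc ‖L f‖ ≤ K * ‖f‖ * (q - p) := h1
    _ = K * (q - p) * ‖f‖ := by ring

theorem g39_avg (ψ : ℝ → V) (hψ : Continuous ψ) (q : ℝ) :
    Tendsto (fun y : ℝ => ((y⁻¹ : ℝ) : ℂ) • ∫ x in q..(q + y), ψ x) (𝓝[>] 0) (𝓝 (ψ q)) := by
  have h1 : HasDerivAt (fun t => ∫ x in q..t, ψ x) (ψ q) q :=
    intervalIntegral.integral_hasDerivAt_right (hψ.intervalIntegrable _ _)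
      (hψ.stronglyMeasurableAtFilter _ _) hψ.continuousAt
  rw [hasDerivAt_iff_tendsto_slope_zero] at h1
  have h2 : Tendsto (fun t : ℝ => t⁻¹ • ((∫ x in q..(q + t), ψ x) - ∫ x in q..q, ψ x)) (𝓝[>] 0)
      (𝓝 (ψ q)) := h1.mono_left (nhdsWithin_mono _ (fun x hx => ne_of_gt hx))
  refine h2.congr ?_
  intro t
  rw [intervalIntegral.integral_same, sub_zero]
  exact (Complex.coe_smul t⁻¹ _).symm

/-- a locally given semigroup of multipliers with non-vanishing atoms has a bounded generator -/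
theorem gen_exists {a d : ℝ} (ha : 0 < a) (ha1 : a ≤ 1) (hd : 0 < d) (U : ℝ → (V →L[ℂ] V)) (K : ℝ)
    (hU : ∀ x ∈ Icc (0:ℝ) d, IsMul a (U x)) (hK : ∀ x ∈ Icc (0:ℝ) d, ‖U x‖ ≤ K)
    (hc : ∀ f, ContinuousOn (fun x => U x f) (Icc 0 d)) (h0 : U 0 = P a)
    (hadd : ∀ x y, 0 ≤ x → 0 ≤ y → x + y ≤ d → U (x + y) = U x * U y)
    (hat : ∀ x ∈ Icc (0:ℝ) d, ∀ l, Atom (U x) l → l ≠ 0) :
    ∃ ρ : V →L[ℂ] V, IsMul a ρ ∧
      ∀ f, Tendsto (fun y : ℝ => ((y⁻¹ : ℝ) : ℂ) • (U y f - P a f)) (𝓝[>] 0) (𝓝 (ρ f)) := by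
  have hex : ∀ x, ∃ l, x ∈ Icc (0:ℝ) d → Atom (U x) l := by
    intro x
    by_cases hx : x ∈ Icc (0:ℝ) d
    · obtain ⟨l, hl⟩ := atom_exists ha ha1 (hU x hx)
      exact ⟨l, fun _ => hl⟩
    · exact ⟨0, fun h => absurd h hx⟩
  choose l hl using hex
  obtain ⟨B0, hB0⟩ := op_integral U K hK hc le_rfl hd.le le_rfl
  obtain ⟨-, hint, -⟩ := atom_integral ha ha1 U K hU hK hc l hl le_rfl hd.le le_rfl B0 hB0
  obtain ⟨p, q, hp, hpq, hqd, hne⟩ := int_ne_zero hd l hint (fun x hx => hat x hx (l x) (hl x hx))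
  obtain ⟨B, hB⟩ := op_integral U K hK hc hp hpq.le hqd.le
  obtain ⟨hBm, -, hBa⟩ := atom_integral ha ha1 U K hU hK hc l hl hp hpq.le hqd.le B hB
  obtain ⟨B', hB'm, hBB', -⟩ := mul_inv ha hBm hne hBa
  have hqm : q ∈ Icc (0:ℝ) d := ⟨hp.trans hpq.le, hqd.le⟩
  have hpm : p ∈ Icc (0:ℝ) d := ⟨hp, hpq.le.trans hqd.le⟩
  refine ⟨(U q + (-1 : ℂ) • U p) * B', mul_mul (mul_add (hU q hqm) (mul_smul (hU p hpm) _)) hB'm,
    fun f => ?_⟩
  obtain ⟨g, hg⟩ : ∃ g, g = B' f := ⟨_, rfl⟩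
  have hBg : B g = P a f := by
    rw [hg, ← hBB']
    rfl
  obtain ⟨ψ, hψdef⟩ : ∃ ψ : ℝ → V, ψ = fun x => U (max 0 (min x d)) g := ⟨_, rfl⟩
  have hψ : Continuous ψ := by
    rw [hψdef]
    have h1 : Continuous (fun x : ℝ => max 0 (min x d)) :=
      continuous_const.max (continuous_id.min continuous_const)
    exact (hc g).comp_continuous h1 (fun x => ⟨le_max_left _ _, max_le hd.le (min_le_right _ _)⟩)
  have hψe : ∀ x ∈ Icc (0:ℝ) d, ψ x = U x g := by
    intro x hx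
    rw [hψdef]
    show U (max 0 (min x d)) g = U x g
    rw [min_eq_left hx.2, max_eq_right hx.1]
  have hBψ : B g = ∫ x in p..q, ψ x := by
    rw [hB]
    apply intervalIntegral.integral_congr
    intro x hx
    rw [uIcc_of_le hpq.le] at hx
    exact (hψe x ⟨hp.trans hx.1, hx.2.trans hqd.le⟩).symm
  have hlim : Tendsto (fun y : ℝ => ((y⁻¹ : ℝ) : ℂ) • (∫ x in q..(q + y), ψ x) -
      ((y⁻¹ : ℝ) : ℂ) • (∫ x in p..(p + y), ψ x)) (𝓝[>] 0) (𝓝 (ψ q - ψ p)) :=
    (g39_avg ψ hψ q).sub (g39_avg ψ hψ p)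
  have hfin : ((U q + (-1 : ℂ) • U p) * B') f = ψ q - ψ p := by
    rw [hψe q hqm, hψe p hpm, hg]
    show U q (B' f) + (-1 : ℂ) • U p (B' f) = _
    rw [neg_smul, one_smul, sub_eq_add_neg]
  rw [hfin]
  refine hlim.congr' ?_
  have hpos : 0 < d - q := by linarith
  filter_upwards [Ioo_mem_nhdsGT hpos] with y hy
  have hy0 : 0 < y := hy.1
  have hyd : y < d - q := hy.2
  have hym : y ∈ Icc (0:ℝ) d := ⟨hy0.le, by linarith [hqm.1]⟩
  have h1 : U y f = U y (P a f) := (mul_P_right (hU y hym) f).symm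
  have h2 : U y (P a f) = ∫ x in (p + y)..(q + y), ψ x := by
    rw [← hBg, hBψ, ← ContinuousLinearMap.intervalIntegral_comp_comm (U y)
      (hψ.intervalIntegrable _ _), ← intervalIntegral.integral_comp_add_right ψ y]
    apply intervalIntegral.integral_congr
    intro x hx
    rw [uIcc_of_le hpq.le] at hx
    have hx0 : 0 ≤ x := hp.trans hx.1
    have hxd : x ≤ d := hx.2.trans hqd.le
    show U y (ψ x) = ψ (x + y)
    rw [hψe x ⟨hx0, hxd⟩, hψe (x + y) ⟨by linarith, by linarith [hx.2]⟩, add_comm x y,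
      hadd y x hy0.le hx0 (by linarith [hx.2])]
    rfl
  have hI : ∀ s t, IntervalIntegrable ψ volume s t := fun s t => hψ.intervalIntegrable _ _
  have h3 : U y f - P a f = (∫ x in q..(q + y), ψ x) - ∫ x in p..(p + y), ψ x := by
    rw [h1, h2, ← hBg, hBψ]
    have e1 := intervalIntegral.integral_add_adjacent_intervals (hI p (p + y)) (hI (p + y) (q + y))
    have e2 := intervalIntegral.integral_add_adjacent_intervals (hI p q) (hI q (q + y))
    rw [← e2] at e1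
    rw [sub_eq_sub_iff_add_eq_add, add_comm, e1, add_comm]
  rw [h3, smul_sub]

theorem g40_Uderiv {a d : ℝ} (U : ℝ → (V →L[ℂ] V)) (ρ : V →L[ℂ] V)
    (hU : ∀ x ∈ Icc (0:ℝ) d, IsMul a (U x))
    (hadd : ∀ x y, 0 ≤ x → 0 ≤ y → x + y ≤ d → U (x + y) = U x * U y)
    (hlim : ∀ f, Tendsto (fun y : ℝ => ((y⁻¹ : ℝ) : ℂ) • (U y f - P a f)) (𝓝[>] 0) (𝓝 (ρ f)))
    (f : V) (x : ℝ) (hx : x ∈ Ico (0:ℝ) d) :
    HasDerivWithinAt (fun x => U x f) (ρ (U x f)) (Ici x) x := by
  rw [← hasDerivWithinAt_Ioi_iff_Ici, hasDerivWithinAt_iff_tendsto_slope' (by simp)]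
  have h1 : Tendsto (fun t : ℝ => t - x) (𝓝[>] x) (𝓝[>] 0) := by
    rw [tendsto_nhdsWithin_iff]
    constructor
    · have h2 : Tendsto (fun t : ℝ => t - x) (𝓝 x) (𝓝 (x - x)) :=
        (continuous_id.sub continuous_const).tendsto x
      rw [sub_self] at h2
      exact h2.mono_left nhdsWithin_le_nhds
    · filter_upwards [self_mem_nhdsWithin] with t ht
      exact sub_pos.mpr (show x < t from ht)
  have h3 := (hlim (U x f)).comp h1
  refine h3.congr' ?_
  filter_upwards [Ioc_mem_nhdsGT hx.2] with t ht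
  have h4 : U t = U (t - x) * U x := by
    rw [← hadd (t - x) x (by linarith [ht.1]) hx.1 (by linarith [ht.2]), sub_add_cancel]
  have h5 : P a (U x f) = U x f := mul_P_left (hU x ⟨hx.1, hx.2.le⟩) f
  rw [slope_def_module]
  simp only [Function.comp_apply]
  rw [h5, h4]
  rfl

theorem g40_exp_inv (ρ : V →L[ℂ] V) (x : ℝ) :
    NormedSpace.exp ((x : ℂ) • ρ) * NormedSpace.exp (x • (-ρ)) = 1 := by
  let _ : NormedAlgebra ℚ (V →L[ℂ] V) := NormedAlgebra.restrictScalars ℚ ℂ (V →L[ℂ] V)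
  have h1 : (x • (-ρ) : V →L[ℂ] V) = (x : ℂ) • (-ρ) := rfl
  have h2 : Commute ((x : ℂ) • ρ) ((x : ℂ) • (-ρ)) := by
    refine Commute.smul_left (Commute.smul_right ?_ _) _
    exact (Commute.refl ρ).neg_right
  rw [h1, ← NormedSpace.exp_add_of_commute h2, smul_neg, add_neg_cancel, NormedSpace.exp_zero]

theorem gen_exp {a d : ℝ} (hd : 0 < d) (U : ℝ → (V →L[ℂ] V)) (ρ : V →L[ℂ] V) (K : ℝ)
    (hU : ∀ x ∈ Icc (0:ℝ) d, IsMul a (U x)) (hK : ∀ x ∈ Icc (0:ℝ) d, ‖U x‖ ≤ K)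
    (hc : ∀ f, ContinuousOn (fun x => U x f) (Icc 0 d)) (h0 : U 0 = P a)
    (hadd : ∀ x y, 0 ≤ x → 0 ≤ y → x + y ≤ d → U (x + y) = U x * U y)
    (hρ : IsMul a ρ)
    (hlim : ∀ f, Tendsto (fun y : ℝ => ((y⁻¹ : ℝ) : ℂ) • (U y f - P a f)) (𝓝[>] 0) (𝓝 (ρ f))) :
    ∀ x ∈ Icc (0:ℝ) d, U x = P a * NormedSpace.exp ((x : ℂ) • ρ) := by
  intro x hx
  have hcomm : Commute (P a) ((x : ℂ) • ρ) := by
    refine Commute.smul_right ?_ _
    show P a * ρ = ρ * P a
    ext1 f
    show P a (ρ f) = ρ (P a f)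
    rw [mul_P_left hρ, mul_P_right hρ]
  rw [(hcomm.exp_right).eq]
  have hEd : ∀ y : ℝ, HasDerivAt (fun y : ℝ => NormedSpace.exp (y • (-ρ)))
      (NormedSpace.exp (y • (-ρ)) * (-ρ)) y := fun y => hasDerivAt_exp_smul_const (-ρ) y
  ext1 f
  have hφc : ContinuousOn (fun y : ℝ => (NormedSpace.exp (y • (-ρ)) : V →L[ℂ] V) (U y f)) (Icc 0 d) := by
    refine ContinuousOn.clm_apply ?_ (hc f)
    exact fun y _ => (hEd y).continuousAt.continuousWithinAt
  have hφd : ∀ y ∈ Ico (0:ℝ) d, HasDerivWithinAt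
      (fun y : ℝ => (NormedSpace.exp (y • (-ρ)) : V →L[ℂ] V) (U y f)) 0 (Ici y) y := by
    intro y hy
    have h1 := g40_Uderiv U ρ hU hadd hlim f y hy
    have h2 : HasDerivWithinAt (fun y : ℝ => ((NormedSpace.exp (y • (-ρ)) : V →L[ℂ] V), U y f))
        (NormedSpace.exp (y • (-ρ)) * (-ρ), ρ (U y f)) (Ici y) y :=
      (hEd y).hasDerivWithinAt.prodMk h1
    have h3 := ((isBoundedBilinearMap_apply (𝕜 := ℂ) (E := V) (F := V)).hasFDerivAt
      ((NormedSpace.exp (y • (-ρ)) : V →L[ℂ] V), U y f)).restrictScalars ℝ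
    have h4 := HasFDerivAt.comp_hasDerivWithinAt y h3 h2
    refine h4.congr_deriv ?_
    show (NormedSpace.exp (y • (-ρ)) : V →L[ℂ] V) (ρ (U y f)) +
      ((NormedSpace.exp (y • (-ρ)) : V →L[ℂ] V) * (-ρ)) (U y f) = 0
    show (NormedSpace.exp (y • (-ρ)) : V →L[ℂ] V) (ρ (U y f)) +
      (NormedSpace.exp (y • (-ρ)) : V →L[ℂ] V) (-(ρ (U y f))) = 0
    rw [map_neg, add_neg_cancel]
  have key := constant_of_has_deriv_right_zero hφc hφd x hx
  have h5 : (NormedSpace.exp ((0 : ℝ) • (-ρ)) : V →L[ℂ] V) (U 0 f) = P a f := by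
    rw [zero_smul, NormedSpace.exp_zero, h0]
    rfl
  rw [h5] at key
  have h6 := congrArg (fun A : V →L[ℂ] V => A (U x f)) (g40_exp_inv ρ x)
  show U x f = (NormedSpace.exp ((x : ℂ) • ρ) : V →L[ℂ] V) (P a f)
  rw [← key]
  exact h6.symm

theorem g41_exp_add {𝔸 : Type*} [NormedRing 𝔸] [NormedAlgebra ℂ 𝔸] [CompleteSpace 𝔸] {x y : 𝔸}
    (h : Commute x y) : NormedSpace.exp (x + y) = NormedSpace.exp x * NormedSpace.exp y :=
  NormedSpace.exp_add_of_commute_of_mem_ball (𝕂 := ℂ) h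
    ((NormedSpace.expSeries_radius_eq_top ℂ 𝔸).symm ▸ edist_lt_top _ _)
    ((NormedSpace.expSeries_radius_eq_top ℂ 𝔸).symm ▸ edist_lt_top _ _)

theorem g41_exp_neg {𝔸 : Type*} [NormedRing 𝔸] [NormedAlgebra ℂ 𝔸] [CompleteSpace 𝔸] (x : 𝔸) :
    NormedSpace.exp (-x) * NormedSpace.exp x = 1 := by
  rw [← g41_exp_add (Commute.refl x).neg_left, neg_add_cancel, NormedSpace.exp_zero]

theorem g41_exp_nil {𝔸 : Type*} [NormedRing 𝔸] [NormedAlgebra ℂ 𝔸] [CompleteSpace 𝔸] {x : 𝔸}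
    (h : x * x = 0) : NormedSpace.exp x = 1 + x := by
  have h1 := NormedSpace.exp_series_hasSum_exp' (𝕂 := ℂ) x
  have h2 : HasSum (fun n : ℕ => ((n.factorial : ℂ)⁻¹) • x ^ n)
      (∑ n ∈ Finset.range 2, ((n.factorial : ℂ)⁻¹) • x ^ n) := by
    refine hasSum_sum_of_ne_finset_zero ?_
    intro n hn
    have hn2 : 2 ≤ n := by
      by_contra hcon
      exact hn (Finset.mem_range.mpr (not_le.mp hcon))
    obtain ⟨k, rfl⟩ := Nat.exists_eq_add_of_le hn2
    rw [pow_add, pow_two, h, zero_mul, smul_zero]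
  rw [h1.unique h2, Finset.sum_range_succ, Finset.sum_range_one]
  simp

theorem g41_norm_exp {𝔸 : Type*} [NormedRing 𝔸] [NormedAlgebra ℂ 𝔸] [CompleteSpace 𝔸]
    (hone : ‖(1 : 𝔸)‖ ≤ 1) (x : 𝔸) : ‖NormedSpace.exp x‖ ≤ Real.exp ‖x‖ := by
  have h1 := NormedSpace.exp_series_hasSum_exp' (𝕂 := ℂ) x
  have h2 := NormedSpace.exp_series_hasSum_exp' (𝕂 := ℝ) ‖x‖
  rw [← Real.exp_eq_exp_ℝ] at h2
  rw [← h1.tsum_eq]
  refine tsum_of_norm_bounded h2 fun n => ?_
  rw [norm_smul, norm_inv, Complex.norm_natCast, smul_eq_mul]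
  refine mul_le_mul_of_nonneg_left ?_ (by positivity)
  rcases Nat.eq_zero_or_pos n with rfl | hn
  · simpa using hone
  · exact norm_pow_le' x hn

theorem g41_half {ρ : ℝ → (V →L[ℂ] V)} (hcomp : ∀ a ∈ Ioo (0:ℝ) 1, ∀ b ∈ Ioo (0:ℝ) 1, a ≤ b →
      P a * ρ b = ρ a) {S1 : V →L[ℂ] V} (hS1 : P (1/2) * S1 = ρ (1/2)) {a : ℝ}
    (ha : a ∈ Ioo (0:ℝ) 1) : P (1/2) * (ρ a - P a * S1) = 0 := by
  have hhalf : (1/2 : ℝ) ∈ Ioo (0:ℝ) 1 := by constructor <;> norm_num
  have hPP : ∀ b c : ℝ, P b * P c = P (min b c) := fun b c => by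
    ext1 f
    exact P_P b c f
  rcases le_total (1/2) a with h | h
  · rw [mul_sub, hcomp _ hhalf _ ha h, ← mul_assoc, hPP, min_eq_left h, hS1, sub_self]
  · have h1 : ρ a = P a * S1 := by
      rw [← hcomp _ ha _ hhalf h, ← hS1, ← mul_assoc, hPP, min_eq_left h]
    rw [h1, sub_self, mul_zero]

theorem g41_bound {a : ℝ} (ha : a ∈ Ioo (0:ℝ) 1) {R S1 : V →L[ℂ] V} {K : ℝ} (hR : IsMul a R)
    (hS1 : IsMul 1 S1) (hD : P (1/2) * (R - P a * S1) = 0)
    (hK : ‖P a * NormedSpace.exp (((1 - a : ℝ) : ℂ) • R)‖ ≤ K) :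
    ‖R‖ ≤ (‖S1‖ + 1 + Real.exp ‖S1‖ * K) / (1 - a) := by
  have ha1 : 0 < 1 - a := by linarith [ha.2]
  have hone : ‖(1 : V →L[ℂ] V)‖ ≤ 1 := ContinuousLinearMap.norm_id_le
  have hPn : ‖P a‖ ≤ 1 := by
    refine ContinuousLinearMap.opNorm_le_bound _ zero_le_one fun f => ?_
    rw [one_mul]
    exact norm_P_le a f
  set T : V →L[ℂ] V := P a * S1 with hT
  have hTm : IsMul a T := mul_restrict ha.2.le hS1
  have hTn : ‖T‖ ≤ ‖S1‖ := by
    refine (norm_mul_le _ _).trans ?_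
    exact mul_le_of_le_one_left (norm_nonneg _) hPn
  set D : V →L[ℂ] V := R - T with hDdef
  have hDm : IsMul a D := by
    have h1 := mul_add hR (mul_smul hTm (-1))
    have h2 : R + (-1 : ℂ) • T = D := by
      rw [neg_one_smul, ← sub_eq_add_neg]
    rw [h2] at h1
    exact h1
  have hDD : D * D = 0 := half_sq ha.2.le hDm hDm hD hD
  have hPT : P a * T = T := by
    ext1 f
    exact mul_P_left hTm f
  have hTP : T * P a = T := by
    ext1 f
    exact mul_P_right hTm f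
  have hPD : P a * D = D := by
    ext1 f
    exact mul_P_left hDm f
  obtain ⟨x, hx⟩ : ∃ x : ℂ, x = ((1 - a : ℝ) : ℂ) := ⟨_, rfl⟩
  have hxn : ‖x‖ = 1 - a := by
    rw [hx, Complex.norm_real, Real.norm_eq_abs, abs_of_pos ha1]
  rw [← hx] at hK
  have hcomm : Commute (x • T) (x • D) := by
    have h1 : Commute T D := mul_comm' hTm hDm
    exact (h1.smul_left x).smul_right x
  have hsum : x • R = x • T + x • D := by
    rw [← smul_add, hDdef, add_sub_cancel]
  have hexp : NormedSpace.exp (x • R) = NormedSpace.exp (x • T) * NormedSpace.exp (x • D) := by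
    rw [hsum, g41_exp_add hcomm]
  have hexpD : NormedSpace.exp (x • D) = 1 + x • D := by
    apply g41_exp_nil
    rw [smul_mul_smul_comm, hDD, smul_zero]
  have hcP : Commute (P a) (NormedSpace.exp (-(x • T))) := by
    apply Commute.exp_right
    have h1 : Commute (P a) T := by
      show P a * T = T * P a
      rw [hPT, hTP]
    exact (h1.smul_right x).neg_right
  have hkey : P a + x • D = NormedSpace.exp (-(x • T)) * (P a * NormedSpace.exp (x • R)) := by
    rw [← mul_assoc, ← hcP.eq, mul_assoc, hexp, ← mul_assoc (NormedSpace.exp (-(x • T))),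
      g41_exp_neg, one_mul, hexpD, _root_.mul_add, mul_one, mul_smul_comm, hPD]
  have hn : ‖P a + x • D‖ ≤ Real.exp ‖S1‖ * K := by
    rw [hkey]
    refine (norm_mul_le _ _).trans ?_
    refine mul_le_mul ?_ hK (norm_nonneg _) (Real.exp_pos _).le
    refine (g41_norm_exp hone _).trans ?_
    rw [norm_neg, norm_smul, hxn]
    apply Real.exp_le_exp.mpr
    refine le_trans ?_ hTn
    exact mul_le_of_le_one_left (norm_nonneg _) (by linarith [ha.1])
  have hDn : (1 - a) * ‖D‖ ≤ 1 + Real.exp ‖S1‖ * K := by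
    rw [← hxn, ← norm_smul]
    have h1 : x • D = (P a + x • D) - P a := by rw [add_sub_cancel_left]
    rw [h1]
    refine (norm_sub_le _ _).trans ?_
    linarith
  have hRn : ‖R‖ ≤ ‖T‖ + ‖D‖ := by
    have h1 : R = T + D := by rw [hDdef, add_sub_cancel]
    rw [h1]
    exact norm_add_le _ _
  rw [le_div_iff₀ ha1]
  have h2 : ‖T‖ * (1 - a) ≤ ‖S1‖ := by
    refine le_trans ?_ hTn
    exact mul_le_of_le_one_right (norm_nonneg _) (by linarith [ha.1])
  have h3 : ‖R‖ * (1 - a) ≤ (‖T‖ + ‖D‖) * (1 - a) := mul_le_mul_of_nonneg_right hRn ha1.le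
  linarith

theorem growth (ρ : ℝ → (V →L[ℂ] V)) (K : ℝ) (hm : ∀ a ∈ Ioo (0:ℝ) 1, IsMul a (ρ a))
    (hcomp : ∀ a ∈ Ioo (0:ℝ) 1, ∀ b ∈ Ioo (0:ℝ) 1, a ≤ b → P a * ρ b = ρ a)
    (hK : ∀ a ∈ Ioo (0:ℝ) 1, ‖P a * NormedSpace.exp (((1 - a : ℝ) : ℂ) • ρ a)‖ ≤ K) :
    ∃ C, Fam ρ C := by
  have hhalf : (1/2 : ℝ) ∈ Ioo (0:ℝ) 1 := by constructor <;> norm_num
  obtain ⟨S1, hS1, hS1'⟩ := mul_ext_one (c := 1/2) (by norm_num) (by norm_num) (hm _ hhalf)
  refine ⟨‖S1‖ + 1 + Real.exp ‖S1‖ * K, fun a ha => ⟨hm a ha, ?_, fun b hb hab => hcomp a ha b hb hab⟩⟩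
  exact g41_bound ha (hm a ha) hS1 (g41_half hcomp hS1' ha) (hK a ha)

theorem g42_sub_left (f g h : V) : conv (f - g) h = conv f h - conv g h := by
  have : cL (f - g) h = cL f h - cL g h := by
    rw [map_sub]; rfl
  exact this

theorem g42_sub_right (f g h : V) : conv h (f - g) = conv h f - conv h g := by
  rw [conv_comm, g42_sub_left, conv_comm f, conv_comm g]

theorem g42_Ptau {a y : ℝ} (hy : 0 ≤ y) (g : V) : P a (tau y g) = P a (tau y (P a g)) := by
  rw [P_tau hy, P_tau hy, P_P, min_eq_left (by linarith)]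

theorem g42_ident (T : V ≃L[ℂ] V) (hT : Hom T) {a : ℝ} (ha : a ∈ Ioo (0:ℝ) 1) {y : ℝ}
    (hy : y ∈ Ioc (0:ℝ) (1 - a)) :
    P a (conv (T (e y)) u) = P a (((y⁻¹ : ℝ) : ℂ) • (conv (T u) u - tau y (conv (T u) u))) -
      P a (tau y (((y⁻¹ : ℝ) : ℂ) • ((P a * W T y) (conv (T u) u) - P a (conv (T u) u)))) := by
  set c := ((y⁻¹ : ℝ) : ℂ) with hc
  set ψ := conv (T u) u with hψ
  have hy0 : 0 ≤ y := hy.1.le
  have h1 : T (tau y u) = tau y (W T y (T u)) := by
    rw [← kap_eq T hT ⟨hy0, by linarith [hy.2, ha.1]⟩]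
    show _ = T (tau y (T.symm (T u)))
    rw [T.symm_apply_apply]
  have h2 : T (e y) = c • (T u - tau y (W T y (T u))) := by
    unfold e
    rw [map_smul, map_sub, h1]
  have h3 : conv (T (e y)) u = c • (ψ - tau y (conv (W T y (T u)) u)) := by
    rw [h2, conv_smul_left, g42_sub_left, tau_conv hy0]
  have h4 : P a (conv (W T y (T u)) u) = (P a * W T y) ψ := by
    have := W_mul T hT (a := a) (x := y) ⟨hy0, hy.2⟩ ha.1.le (T u) u
    rw [hψ, this]
    rw [P_conv]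
    rfl
  rw [h3, map_smul, map_sub, g42_Ptau hy0 (conv (W T y (T u)) u), h4, map_smul, map_sub,
    map_smul, map_smul, map_sub, map_sub, ← g42_Ptau hy0 ψ, ← smul_sub]
  congr 1
  abel

theorem gamma_eq (T : V ≃L[ℂ] V) (hT : Hom T) {a : ℝ} (ha : a ∈ Ioo (0:ℝ) 1) (ρ : V →L[ℂ] V)
    (hρ : IsMul a ρ)
    (hlim : ∀ f, Tendsto (fun y : ℝ => ((y⁻¹ : ℝ) : ℂ) • ((P a * W T y) f - P a f)) (𝓝[>] 0)
      (𝓝 (ρ f))) :
    P a (T u) = P a (u + conv u (ρ (T u))) := by
  set ψ := conv (T u) u with hψ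
  -- the left hand side
  have h1 : Tendsto (fun y => P a (conv (T (e y)) u)) (𝓝[>] 0) (𝓝 (P a u)) := by
    have h2 := conv_e_tendsto (T.symm u)
    have h3 : Tendsto (fun y => P a (T (conv (e y) (T.symm u)))) (𝓝[>] 0)
        (𝓝 (P a (T (T.symm u)))) := by
      have hcont : Continuous (fun f : V => P a (T f)) := by fun_prop
      exact (hcont.tendsto _).comp h2
    rw [T.apply_symm_apply] at h3
    refine h3.congr ?_
    intro y
    rw [hT, T.apply_symm_apply]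
  have h2 : Tendsto (fun y : ℝ => tau y (((y⁻¹ : ℝ) : ℂ) • ((P a * W T y) ψ - P a ψ))) (𝓝[>] 0)
      (𝓝 (ρ ψ)) := by
    have h3 := hlim ψ
    have h4 : Tendsto (fun y : ℝ => tau y (ρ ψ)) (𝓝[>] 0) (𝓝 (ρ ψ)) := by
      have h5 := (tau_cont (ρ ψ)) 0 (by simp : (0:ℝ) ∈ Ici (0:ℝ))
      have h6 : Tendsto (fun y : ℝ => tau y (ρ ψ)) (𝓝[Ici 0] 0) (𝓝 (tau 0 (ρ ψ))) := h5
      rw [tau_zero] at h6
      exact h6.mono_left (nhdsWithin_mono _ Ioi_subset_Ici_self)
    have h7 : Tendsto (fun y : ℝ => tau y (((y⁻¹ : ℝ) : ℂ) • ((P a * W T y) ψ - P a ψ) - ρ ψ))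
        (𝓝[>] 0) (𝓝 0) := by
      have h8 : Tendsto (fun y : ℝ => ‖((y⁻¹ : ℝ) : ℂ) • ((P a * W T y) ψ - P a ψ) - ρ ψ‖)
          (𝓝[>] 0) (𝓝 0) := by
        have h9 := (h3.sub (tendsto_const_nhds (x := ρ ψ))).norm
        rw [sub_self, norm_zero] at h9
        exact h9
      refine squeeze_zero_norm' ?_ h8
      filter_upwards [self_mem_nhdsWithin] with y hy
      exact norm_tau_le (le_of_lt hy) _
    have h10 := h7.add h4
    rw [zero_add] at h10
    refine h10.congr ?_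
    intro y
    rw [map_sub, sub_add_cancel]
  have h3 : Tendsto (fun y : ℝ => P a (((y⁻¹ : ℝ) : ℂ) • (ψ - tau y ψ))) (𝓝[>] 0)
      (𝓝 (P a u + P a (ρ ψ))) := by
    have h4 := h1.add (((P a).continuous.tendsto _).comp h2)
    refine h4.congr' ?_
    have hpos : (0:ℝ) < 1 - a := by linarith [ha.2]
    filter_upwards [Ioc_mem_nhdsGT hpos] with y hy
    rw [g42_ident T hT ha hy]
    simp only [Function.comp]
    abel
  have h4 : Tendsto (fun y : ℝ => P a (conv u (P a (((y⁻¹ : ℝ) : ℂ) • (ψ - tau y ψ))))) (𝓝[>] 0)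
      (𝓝 (P a (conv u (P a u + P a (ρ ψ))))) := by
    have hcont : Continuous (fun f : V => P a (cL u f)) := by fun_prop
    exact (hcont.tendsto _).comp h3
  have h5 : Tendsto (fun y : ℝ => P a (conv u (P a (((y⁻¹ : ℝ) : ℂ) • (ψ - tau y ψ))))) (𝓝[>] 0)
      (𝓝 (P a ψ)) := by
    have h6 := ((P a).continuous.tendsto _).comp (conv_e_tendsto ψ)
    refine h6.congr' ?_
    filter_upwards [self_mem_nhdsWithin] with y hy
    have hy0 : (0:ℝ) ≤ y := le_of_lt hy
    simp only [Function.comp]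
    rw [conv_comm u, ← P_conv, conv_comm _ u, conv_smul_right, g42_sub_right]
    unfold e
    rw [conv_smul_left, g42_sub_left, ← tau_conv hy0, conv_comm u (tau y ψ), ← tau_conv hy0,
      conv_comm ψ u]
  have h6 := tendsto_nhds_unique h5 h4
  have hρψ : ρ ψ = P a (conv (ρ (T u)) u) := hρ (T u) u
  have h7 : P a (conv u (P a u + P a (ρ ψ))) = P a (conv u (u + conv u (ρ (T u)))) := by
    rw [← map_add, conv_comm u, ← P_conv, conv_comm _ u, hρψ, conv_add_right, conv_add_right,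
      map_add, map_add]
    congr 1
    rw [conv_comm u (P a _), ← P_conv, conv_comm (ρ (T u)) u, conv_comm _ u]
  rw [h7] at h6
  have h8 : P a (conv u (T u - (u + conv u (ρ (T u))))) = 0 := by
    rw [g42_sub_right, map_sub, ← h6, hψ, conv_comm (T u) u, sub_self]
  have h9 := inj_u h8
  rw [map_sub] at h9
  exact sub_eq_zero.1 h9

theorem forward (T : V ≃L[ℂ] V) (hT : Hom T) :
    ∃ (ρ : ℝ → (V →L[ℂ] V)) (C : ℝ), Fam ρ C ∧
      ∀ a ∈ Ioo (0:ℝ) 1, P a (T u) = P a (u + conv u (ρ a (T u))) := by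
  set K := ‖(T : V →L[ℂ] V)‖ * ‖(T.symm : V →L[ℂ] V)‖ with hKdef
  have key : ∀ a : ℝ, ∃ ρ : V →L[ℂ] V, a ∈ Ioo (0:ℝ) 1 → IsMul a ρ ∧
      ∀ f, Tendsto (fun y : ℝ => ((y⁻¹ : ℝ) : ℂ) • ((P a * W T y) f - P a f)) (𝓝[>] 0)
        (𝓝 (ρ f)) := by
    intro a
    by_cases ha : a ∈ Ioo (0:ℝ) 1
    · obtain ⟨ρ, h1, h2⟩ := gen_exists (d := 1 - a) ha.1 ha.2.le (by linarith [ha.2])
        (fun x => P a * W T x) K
        (fun x hx => W_mul T hT hx ha.1.le)
        (fun x hx => by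
          refine ContinuousLinearMap.opNorm_le_bound _ (by positivity) (fun f => ?_)
          rw [ContinuousLinearMap.mul_apply]
          refine (norm_P_le _ _).trans ?_
          exact (ContinuousLinearMap.le_opNorm _ _).trans
            (mul_le_mul_of_nonneg_right (W_norm T hx.1) (norm_nonneg _)))
        (fun f => by
          have h3 : Continuous (P a) := (P a).continuous
          exact h3.comp_continuousOn ((W_cont T f).mono (fun x hx => hx.1)))
        (by ext1 f; simp [ContinuousLinearMap.mul_apply, W_zero])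
        (fun x y hx hy hxy => W_add T hT ha.1.le hx hy hxy)
        (fun x hx l hl h0 => by
          have := W_atom T hT ha.1 hx hl
          rw [h0] at this
          simp at this
          linarith)
      exact ⟨ρ, fun _ => ⟨h1, h2⟩⟩
    · exact ⟨0, fun h => absurd h ha⟩
  choose ρ hρ using key
  have hm : ∀ a ∈ Ioo (0:ℝ) 1, IsMul a (ρ a) := fun a ha => (hρ a ha).1
  have hcomp : ∀ a ∈ Ioo (0:ℝ) 1, ∀ b ∈ Ioo (0:ℝ) 1, a ≤ b → P a * ρ b = ρ a := by
    intro a ha b hb hab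
    ext1 f
    have h1 := (hρ b hb).2 f
    have h2 := (hρ a ha).2 f
    have h3 := ((P a).continuous.tendsto _).comp h1
    refine tendsto_nhds_unique (h3.congr (fun y => ?_)) h2
    simp only [Function.comp, ContinuousLinearMap.mul_apply, map_smul, map_sub, P_P,
      min_eq_left hab]
  obtain ⟨C, hC⟩ := growth ρ K hm hcomp (fun a ha => by
    have h := gen_exp (a := a) (d := 1 - a) (by linarith [ha.2]) (fun x => P a * W T x) (ρ a) K
        (fun x hx => W_mul T hT hx ha.1.le)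
        (fun x hx => by
          refine ContinuousLinearMap.opNorm_le_bound _ (by positivity) (fun f => ?_)
          rw [ContinuousLinearMap.mul_apply]
          refine (norm_P_le _ _).trans ?_
          exact (ContinuousLinearMap.le_opNorm _ _).trans
            (mul_le_mul_of_nonneg_right (W_norm T hx.1) (norm_nonneg _)))
        (fun f => by
          have h3 : Continuous (P a) := (P a).continuous
          exact h3.comp_continuousOn ((W_cont T f).mono (fun x hx => hx.1)))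
        (by ext1 f; simp [ContinuousLinearMap.mul_apply, W_zero])
        (fun x y hx hy hxy => W_add T hT ha.1.le hx hy hxy)
        (hρ a ha).1 (hρ a ha).2 (1 - a) ⟨by linarith [ha.2], le_rfl⟩
    rw [← h]
    refine ContinuousLinearMap.opNorm_le_bound _ (by positivity) (fun f => ?_)
    rw [ContinuousLinearMap.mul_apply]
    refine (norm_P_le _ _).trans ?_
    exact (ContinuousLinearMap.le_opNorm _ _).trans
      (mul_le_mul_of_nonneg_right (W_norm T (by linarith [ha.2])) (norm_nonneg _)))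
  exact ⟨ρ, C, hC, fun a ha => gamma_eq T hT ha (ρ a) (hρ a ha).1 (hρ a ha).2⟩

end Volt919
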