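import Mathlib
import Pool.Agent.Helper919.Volt.L3

set_option autoImplicit false

open MeasureTheory Set Filter Topology

namespace Volt919

/-! ### L4: converse direction -/

/-- the exponential type operator `∑ ρⁿ Mⁿ / n!` -/
noncomputable def X (ρ : V →L[ℂ] V) : V →L[ℂ] V :=
  ∑' n : ℕ, ((n.factorial : ℂ)⁻¹) • (ρ ^ n * M ^ n)

theorem g43_pow (A : V →L[ℂ] V) (c : ℝ) (hc : 0 ≤ c) (h : ∀ f, ‖A f‖ ≤ c * ‖f‖) (n : ℕ) (f : V) :
    ‖(A ^ n) f‖ ≤ c ^ n * ‖f‖ := by
  induction n with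
  | zero => simp
  | succ n ih =>
    rw [pow_succ', ContinuousLinearMap.mul_apply]
    calc ‖A ((A ^ n) f)‖ ≤ c * ‖(A ^ n) f‖ := h _
      _ ≤ c * (c ^ n * ‖f‖) := by gcongr
      _ = c ^ (n + 1) * ‖f‖ := by ring

theorem X_summable (ρ : V →L[ℂ] V) :
    Summable (fun n : ℕ => ‖((n.factorial : ℂ)⁻¹) • (ρ ^ n * M ^ n)‖) := by
  refine Summable.of_nonneg_of_le (fun n => norm_nonneg _) (fun n => ?_)
    (Real.summable_pow_div_factorial ‖ρ‖)
  have h1 : ‖ρ ^ n * M ^ n‖ ≤ ‖ρ‖ ^ n := by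
    refine ContinuousLinearMap.opNorm_le_bound _ (by positivity) fun f => ?_
    rw [ContinuousLinearMap.mul_apply]
    have h2 := g43_pow ρ ‖ρ‖ (norm_nonneg _) (fun f => ρ.le_opNorm f) n ((M ^ n) f)
    have h3 := g43_pow M 1 zero_le_one (fun f => by rw [one_mul]; exact norm_M_le f) n f
    rw [one_pow, one_mul] at h3
    exact h2.trans (mul_le_mul_of_nonneg_left h3 (by positivity))
  rw [norm_smul, norm_inv, Complex.norm_natCast, div_eq_inv_mul]
  exact mul_le_mul_of_nonneg_left h1 (by positivity)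

theorem g43_leibniz (f g : V) (n : ℕ) : (M ^ n) (conv f g) =
    ∑ ij ∈ Finset.HasAntidiagonal.antidiagonal n, n.choose ij.1 • conv ((M ^ ij.1) f) ((M ^ ij.2) g) := by
  induction n with
  | zero => simp
  | succ n ih =>
    rw [Finset.sum_antidiagonal_choose_succ_nsmul
      (fun i j => conv ((M ^ i) f) ((M ^ j) g)) n, pow_succ', ContinuousLinearMap.mul_apply, ih,
      map_sum, ← Finset.sum_add_distrib]
    refine Finset.sum_congr rfl fun ij hij => ?_
    have hsum := Finset.HasAntidiagonal.mem_antidiagonal.1 hij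
    have hch : n.choose ij.2 = n.choose ij.1 := by
      rw [← hsum]
      exact Nat.choose_symm_add.symm
    rw [map_nsmul, M_conv, hch, ← nsmul_add]
    congr 1
    rw [pow_succ', pow_succ', ContinuousLinearMap.mul_apply, ContinuousLinearMap.mul_apply,
      add_comm]

theorem g43_powP {a : ℝ} {ρ : V →L[ℂ] V} (hρ : IsMul a ρ) (n : ℕ) (f : V) :
    P a ((ρ ^ n) (P a f)) = P a ((ρ ^ n) f) := by
  cases n with
  | zero => simp [P_P]
  | succ n =>
    rw [pow_succ, ContinuousLinearMap.mul_apply, ContinuousLinearMap.mul_apply, mul_P_right hρ]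

theorem g43_powL {a : ℝ} {ρ : V →L[ℂ] V} (hρ : IsMul a ρ) (n : ℕ) (f g : V) :
    P a ((ρ ^ n) (conv f g)) = P a (conv ((ρ ^ n) f) g) := by
  induction n with
  | zero => simp
  | succ n ih =>
    rw [pow_succ', ContinuousLinearMap.mul_apply, ContinuousLinearMap.mul_apply,
      ← mul_P_right hρ, ih, mul_P_right hρ, hρ, P_P, min_self]

theorem g43_powB {a : ℝ} {ρ : V →L[ℂ] V} (hρ : IsMul a ρ) (i j : ℕ) (f g : V) :
    P a ((ρ ^ (i + j)) (conv f g)) = P a (conv ((ρ ^ i) f) ((ρ ^ j) g)) := by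
  have h1 : P a (conv ((ρ ^ i) f) ((ρ ^ j) g)) = P a ((ρ ^ j) (conv ((ρ ^ i) f) g)) := by
    rw [conv_comm ((ρ ^ i) f) ((ρ ^ j) g), ← g43_powL hρ, conv_comm g]
  rw [h1, ← g43_powP hρ j (conv ((ρ ^ i) f) g), ← g43_powL hρ i f g, g43_powP hρ j,
    add_comm i j, pow_add, ContinuousLinearMap.mul_apply]

theorem g43_term {a : ℝ} {ρ : V →L[ℂ] V} (hρ : IsMul a ρ) (f g : V) (n : ℕ) :
    P a ((((n.factorial : ℂ)⁻¹) • (ρ ^ n * M ^ n)) (conv f g)) =
      ∑ ij ∈ Finset.HasAntidiagonal.antidiagonal n,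
        P a (conv ((((ij.1.factorial : ℂ)⁻¹) • (ρ ^ ij.1 * M ^ ij.1)) f)
          ((((ij.2.factorial : ℂ)⁻¹) • (ρ ^ ij.2 * M ^ ij.2)) g)) := by
  rw [ContinuousLinearMap.smul_apply, ContinuousLinearMap.mul_apply, g43_leibniz, map_sum,
    map_smul, map_sum, Finset.smul_sum]
  refine Finset.sum_congr rfl fun ij hij => ?_
  obtain ⟨i, j⟩ := ij
  have hsum : i + j = n := Finset.HasAntidiagonal.mem_antidiagonal.1 hij
  subst hsum
  simp only [ContinuousLinearMap.smul_apply, ContinuousLinearMap.mul_apply]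
  rw [map_nsmul, map_nsmul, g43_powB hρ, conv_smul_left, conv_smul_right, map_smul, map_smul,
    ← Nat.cast_smul_eq_nsmul ℂ, smul_smul, smul_smul]
  congr 1
  have h1 : (i + j).choose i * i.factorial * j.factorial = (i + j).factorial := by
    rw [Nat.choose_symm_add]
    exact Nat.add_choose_mul_factorial_mul_factorial i j
  have h2 : (((i + j).choose i : ℕ) : ℂ) * (i.factorial : ℂ) * (j.factorial : ℂ) =
      ((i + j).factorial : ℂ) := by exact_mod_cast h1
  have hi : (i.factorial : ℂ) ≠ 0 := by exact_mod_cast i.factorial_ne_zero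
  have hj : (j.factorial : ℂ) ≠ 0 := by exact_mod_cast j.factorial_ne_zero
  have hij' : ((i + j).factorial : ℂ) ≠ 0 := by exact_mod_cast (i + j).factorial_ne_zero
  field_simp
  rw [← h2]

theorem X_hom {a : ℝ} {ρ : V →L[ℂ] V} (hρ : IsMul a ρ) (f g : V) :
    P a (X ρ (conv f g)) = P a (conv (X ρ f) (X ρ g)) := by
  set T : ℕ → V →L[ℂ] V := fun n => ((n.factorial : ℂ)⁻¹) • (ρ ^ n * M ^ n) with hT
  have hTn : Summable fun n => ‖T n‖ := X_summable ρ
  have hTs : HasSum T (X ρ) := hTn.of_norm.hasSum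
  have hev : ∀ h : V, HasSum (fun n => T n h) (X ρ h) := fun h =>
    hTs.mapL (ContinuousLinearMap.apply ℂ V h)
  have hnorm : ∀ h : V, Summable fun n => ‖T n h‖ := fun h =>
    Summable.of_nonneg_of_le (fun n => norm_nonneg _) (fun n => (T n).le_opNorm h)
      (hTn.mul_right ‖h‖)
  set F : ℕ × ℕ → V := fun p => conv (T p.1 f) (T p.2 g) with hF
  have hFs : Summable F := by
    refine Summable.of_norm_bounded
      ((hnorm f).mul_of_nonneg (hnorm g) (fun _ => norm_nonneg _) (fun _ => norm_nonneg _)) ?_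
    intro p
    exact norm_conv_le _ _
  have hin : ∀ i, HasSum (fun j => F (i, j)) (conv (T i f) (X ρ g)) := fun i =>
    (hev g).mapL (cL (T i f))
  have hout : HasSum (fun i => conv (T i f) (X ρ g)) (conv (X ρ f) (X ρ g)) :=
    (hev f).mapL (cL.flip (X ρ g))
  have h1 : ∑' p, F p = conv (X ρ f) (X ρ g) := by
    rw [hFs.tsum_prod' (fun i => (hin i).summable)]
    rw [← hout.tsum_eq]
    exact tsum_congr fun i => (hin i).tsum_eq
  have hPF : Summable fun p => P a (F p) := (hFs.hasSum.mapL (P a)).summable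
  have h2 : P a (conv (X ρ f) (X ρ g)) = ∑' p, P a (F p) := by
    rw [← h1]
    exact (hFs.hasSum.mapL (P a)).tsum_eq.symm
  have h3 : ∑' p, P a (F p) = ∑' n, ∑ ij ∈ Finset.HasAntidiagonal.antidiagonal n, P a (F ij) := by
    rw [← Finset.HasAntidiagonal.sigmaAntidiagonalEquivProd.tsum_eq (fun p : ℕ × ℕ => P a (F p))]
    have hsig : Summable fun x : (Σ n : ℕ, Finset.HasAntidiagonal.antidiagonal n) =>
        P a (F (Finset.HasAntidiagonal.sigmaAntidiagonalEquivProd x)) :=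
      (Finset.HasAntidiagonal.sigmaAntidiagonalEquivProd.summable_iff (f := fun p : ℕ × ℕ => P a (F p))).2 hPF
    rw [hsig.tsum_sigma' (fun n => (hasSum_fintype _).summable)]
    refine tsum_congr fun n => ?_
    rw [tsum_fintype]
    exact Finset.sum_coe_sort (Finset.HasAntidiagonal.antidiagonal n) (fun ij => P a (F ij))
  rw [h2, h3]
  have h4 : P a (X ρ (conv f g)) = ∑' n, P a (T n (conv f g)) :=
    ((hev (conv f g)).mapL (P a)).tsum_eq.symm
  rw [h4]
  exact tsum_congr fun n => g43_term hρ f g n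

theorem g44_pow_M (n : ℕ) : (M ^ n) u = (n.factorial : ℂ) • cpow u n := by
  induction n with
  | zero => simp [cpow]
  | succ n ih =>
    have h1 : (M ^ (n + 1)) u = M ((M ^ n) u) := by
      rw [pow_succ']; rfl
    rw [h1, ih, map_smul, M_cpow_u, smul_smul, Nat.factorial_succ]
    congr 1
    push_cast
    ring

theorem g44_pow_mul {a : ℝ} {ρ : V →L[ℂ] V} (hρ : IsMul a ρ) (n : ℕ) : IsMul a (ρ ^ (n + 1)) := by
  induction n with
  | zero => simpa using hρ
  | succ n ih =>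
    rw [pow_succ]
    exact mul_mul ih hρ

theorem g44_hasSum (ρ : V →L[ℂ] V) : HasSum (fun n : ℕ => (ρ ^ n) (cpow u n)) (X ρ u) := by
  have h1 : Summable (fun n : ℕ => ((n.factorial : ℂ)⁻¹) • (ρ ^ n * M ^ n)) :=
    (X_summable ρ).of_norm
  have h2 := h1.hasSum
  have h3 : HasSum (fun n : ℕ => (((n.factorial : ℂ)⁻¹) • (ρ ^ n * M ^ n)) u) (X ρ u) := by
    have h4 : Continuous (fun A : V →L[ℂ] V => A u) := by fun_prop
    exact h2.map ({ toFun := fun A => A u, map_zero' := rfl, map_add' := fun _ _ => rfl } :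
      (V →L[ℂ] V) →+ V) h4
  refine h3.congr_fun ?_ 
  intro n
  show (ρ ^ n) (cpow u n) = ((n.factorial : ℂ)⁻¹) • ((ρ ^ n) ((M ^ n) u))
  rw [g44_pow_M, map_smul, smul_smul, inv_mul_cancel₀ (by exact_mod_cast n.factorial_ne_zero),
    one_smul]

theorem X_u {a : ℝ} {ρ : V →L[ℂ] V} (hρ : IsMul a ρ) :
    P a (X ρ u) = P a (u + conv u (ρ (X ρ u))) := by
  have hs := g44_hasSum ρ
  have hs1 : HasSum (fun n : ℕ => P a (cL u (ρ ((ρ ^ n) (cpow u n))))) (P a (cL u (ρ (X ρ u)))) :=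
    ((P a * cL u * ρ : V →L[ℂ] V)).hasSum hs
  have hs2 : HasSum (fun n : ℕ => P a ((ρ ^ n) (cpow u n))) (P a (X ρ u)) := (P a).hasSum hs
  have h1 : ∀ n : ℕ, P a (cL u (ρ ((ρ ^ n) (cpow u n)))) = P a ((ρ ^ (n + 1)) (cpow u (n + 1))) := by
    intro n
    show P a (conv u (ρ ((ρ ^ n) (cpow u n)))) = P a ((ρ ^ (n + 1)) (conv u (cpow u n)))
    rw [conv_comm u (cpow u n), g44_pow_mul hρ n, P_P, min_self, conv_comm _ u, pow_succ']
    rfl
  simp_rw [h1] at hs1
  have hs3 := (hasSum_nat_add_iff (f := fun n : ℕ => P a ((ρ ^ n) (cpow u n))) 1).1 hs1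
  have h2 := hs2.unique hs3
  rw [h2]
  simp only [Finset.range_one, Finset.sum_singleton, pow_zero]
  rw [map_add, add_comm]
  rfl

theorem g44_uniq1 {a : ℝ} (ha : 0 < a) (ha1 : a ≤ 1) {ρ : V →L[ℂ] V} (hρ : IsMul a ρ) {h : V}
    (hh : P a h = P a (conv u (ρ h))) : P a h = 0 := by
  obtain ⟨l, hl⟩ := atom_exists ha ha1 hρ
  have hm1 : IsMul a (P a * cL u * ρ) := mul_mul (mul_cL a u) hρ
  have hat1 : Atom (P a * cL u * ρ) (0 * l) := atom_mul (mul_cL a u) hρ (atom_cL ha u) hl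
  have hm2 : IsMul a ((-1 : ℂ) • (P a * cL u * ρ)) := mul_smul hm1 (-1)
  have hat2 := atom_smul hat1 (-1)
  have hm3 : IsMul a (P a + (-1 : ℂ) • (P a * cL u * ρ)) := mul_add (mul_one' a) hm2
  have hat3 := atom_add (mul_one' a) hm2 (atom_P ha) hat2
  obtain ⟨Q', -, -, hQ⟩ := mul_inv ha hm3 (by simp) hat3
  have h1 : (P a + (-1 : ℂ) • (P a * cL u * ρ)) h = 0 := by
    show P a h + (-1 : ℂ) • P a (conv u (ρ h)) = 0
    rw [← hh]
    simp
  have h2 : (Q' * (P a + (-1 : ℂ) • (P a * cL u * ρ))) h = P a h := by rw [hQ]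
  rw [← h2]
  show Q' ((P a + (-1 : ℂ) • (P a * cL u * ρ)) h) = 0
  rw [h1, map_zero]

theorem g44_uniq2 {a : ℝ} (ha : 0 < a) {ρ : V →L[ℂ] V} (hρ : IsMul a ρ) {h : V}
    (hh : P a h = P a (conv u (ρ h))) : P a h = 0 := by
  by_cases ha1 : a ≤ 1
  · exact g44_uniq1 ha ha1 hρ hh
  · have ha2 : 1 ≤ a := by linarith
    have hP : ∀ f, P a f = P 1 f := fun f => by rw [P_of_one_le ha2, P_of_one_le le_rfl]
    have hρ1 : IsMul 1 ρ := by
      intro f g
      rw [hρ f g, hP]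
    rw [hP]
    rw [hP, hP] at hh
    exact g44_uniq1 one_pos le_rfl hρ1 hh

theorem uniq {a : ℝ} (ha : 0 < a) {ρ : V →L[ℂ] V} (hρ : IsMul a ρ) {g g' : V}
    (h : P a g = P a (u + conv u (ρ g))) (h' : P a g' = P a (u + conv u (ρ g'))) :
    P a g = P a g' := by
  have h1 : P a (g - g') = P a (conv u (ρ (g - g'))) := by
    have e1 : conv u (ρ (g - g')) = conv u (ρ g) - conv u (ρ g') := by
      have : cL u (ρ (g - g')) = cL u (ρ g) - cL u (ρ g') := by rw [map_sub, map_sub]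
      exact this
    rw [e1, map_sub, map_sub, h, h', map_add, map_add]
    abel
  have h2 := g44_uniq2 ha hρ h1
  rw [map_sub] at h2
  exact sub_eq_zero.1 h2

theorem g45_hasSum (ρ : V →L[ℂ] V) :
    HasSum (fun n : ℕ => ((n.factorial : ℂ)⁻¹) • (ρ ^ n * M ^ n)) (X ρ) :=
  (X_summable ρ).of_norm.hasSum

theorem g45_PX (a : ℝ) (ρ : V →L[ℂ] V) (f : V) :
    HasSum (fun n : ℕ => ((n.factorial : ℂ)⁻¹) • P a ((ρ ^ n) ((M ^ n) f))) (P a (X ρ f)) := by
  have h := (((P a).comp (ContinuousLinearMap.apply ℂ V f)).hasSum (g45_hasSum ρ))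
  have e : (fun n : ℕ => ((n.factorial : ℂ)⁻¹) • P a ((ρ ^ n) ((M ^ n) f))) =
      fun n : ℕ => ((P a).comp (ContinuousLinearMap.apply ℂ V f))
        (((n.factorial : ℂ)⁻¹) • (ρ ^ n * M ^ n)) := by
    funext n
    rw [map_smul]
    rfl
  rw [e]
  exact h

theorem g45_pow_causal {a : ℝ} {ρ : V →L[ℂ] V} (hρ : IsMul a ρ) (b : ℝ) (n : ℕ) (g : V) :
    P b ((ρ ^ n) g) = P b ((ρ ^ n) (P b g)) := by
  induction n with
  | zero =>
    show P b g = P b (P b g)
    rw [P_P, min_self]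
  | succ n ih =>
    rw [pow_succ', ContinuousLinearMap.mul_apply, ContinuousLinearMap.mul_apply,
      mul_causal hρ b, ih, ← mul_causal hρ b]

theorem g45_pow_restrict {a b : ℝ} {ρ : V →L[ℂ] V} (hρ : IsMul b ρ) (n : ℕ) (g : V) :
    P a ((ρ ^ n) g) = P a (((P a * ρ) ^ n) g) := by
  induction n with
  | zero => rfl
  | succ n ih =>
    rw [pow_succ', pow_succ', ContinuousLinearMap.mul_apply, ContinuousLinearMap.mul_apply,
      ContinuousLinearMap.mul_apply, P_P, min_self, mul_causal hρ a, ih, ← mul_causal hρ a]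

theorem g45_P_Mpow (b : ℝ) (n : ℕ) (f : V) : P b ((M ^ n) f) = (M ^ n) (P b f) := by
  induction n with
  | zero => rfl
  | succ n ih =>
    rw [pow_succ', ContinuousLinearMap.mul_apply, ContinuousLinearMap.mul_apply, P_M, ih]

theorem X_restrict {a b : ℝ} (hab : a ≤ b) {ρ : V →L[ℂ] V} (hρ : IsMul b ρ) (f : V) :
    P a (X ρ f) = P a (X (P a * ρ) f) := by
  refine (g45_PX a ρ f).unique ?_
  have h := g45_PX a (P a * ρ) f
  have e : (fun n : ℕ => ((n.factorial : ℂ)⁻¹) • P a ((ρ ^ n) ((M ^ n) f))) =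
      fun n : ℕ => ((n.factorial : ℂ)⁻¹) • P a (((P a * ρ) ^ n) ((M ^ n) f)) := by
    funext n
    rw [g45_pow_restrict hρ]
  rw [e]
  exact h

theorem X_causal {a : ℝ} {ρ : V →L[ℂ] V} (hρ : IsMul a ρ) (b : ℝ) (f : V) :
    P b (X ρ f) = P b (X ρ (P b f)) := by
  refine (g45_PX b ρ f).unique ?_
  have h := g45_PX b ρ (P b f)
  have e : (fun n : ℕ => ((n.factorial : ℂ)⁻¹) • P b ((ρ ^ n) ((M ^ n) f))) =
      fun n : ℕ => ((n.factorial : ℂ)⁻¹) • P b ((ρ ^ n) ((M ^ n) (P b f))) := by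
    funext n
    rw [g45_pow_causal hρ b n ((M ^ n) f), g45_P_Mpow]
  rw [e]
  exact h

theorem g45_pow_split {a : ℝ} {ρ₁ ρ₂ : V →L[ℂ] V} (h1 : IsMul a ρ₁) (h2 : IsMul a ρ₂)
    (h : ρ₂ * ρ₂ = 0) (n : ℕ) :
    (ρ₁ + ρ₂) ^ (n + 1) = ρ₁ ^ (n + 1) + ((n : ℂ) + 1) • (ρ₂ * ρ₁ ^ n) := by
  have hc : ρ₁ * ρ₂ = ρ₂ * ρ₁ := mul_comm' h1 h2
  induction n with
  | zero => simp
  | succ n ih =>
    have e1 : ρ₁ * (ρ₂ * ρ₁ ^ n) = ρ₂ * ρ₁ ^ (n + 1) := by
      rw [← mul_assoc, hc, mul_assoc, ← pow_succ']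
    have e2 : ρ₂ * (ρ₂ * ρ₁ ^ n) = 0 := by
      rw [← mul_assoc, h, zero_mul]
    rw [pow_succ' (ρ₁ + ρ₂), ih, add_mul, _root_.mul_add, _root_.mul_add, mul_smul_comm,
      mul_smul_comm, e1, e2, smul_zero, add_zero, ← pow_succ' ρ₁]
    rw [add_assoc]
    congr 1
    rw [Nat.cast_add, Nat.cast_one, add_smul ((n : ℂ) + 1) 1, one_smul]

theorem X_split {a : ℝ} {ρ₁ ρ₂ : V →L[ℂ] V} (h1 : IsMul a ρ₁) (h2 : IsMul a ρ₂)
    (h : ρ₂ * ρ₂ = 0) : P a * X (ρ₁ + ρ₂) = P a * X ρ₁ + ρ₂ * X ρ₁ * M := by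
  have hP : P a * ρ₂ = ρ₂ := by
    ext1 f
    exact mul_P_left h2 f
  have hF := (g45_hasSum ρ₁).mul_left (P a)
  have hG := ((g45_hasSum ρ₁).mul_left ρ₂).mul_right M
  have hH := (g45_hasSum (ρ₁ + ρ₂)).mul_left (P a)
  have hF1 := (hasSum_nat_add_iff' 1).2 hF
  have hH1 := (hasSum_nat_add_iff' 1).2 hH
  have hs := hF1.add hG
  have e : (fun n : ℕ => P a * (((n + 1).factorial : ℂ)⁻¹ • ((ρ₁ + ρ₂) ^ (n + 1) * M ^ (n + 1)))) =
      fun n : ℕ => P a * (((n + 1).factorial : ℂ)⁻¹ • (ρ₁ ^ (n + 1) * M ^ (n + 1))) +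
        ρ₂ * ((n.factorial : ℂ)⁻¹ • (ρ₁ ^ n * M ^ n)) * M := by
    funext n
    have hf : (((n + 1).factorial : ℂ))⁻¹ * ((n : ℂ) + 1) = ((n.factorial : ℂ))⁻¹ := by
      have hn : ((n : ℂ) + 1) ≠ 0 := by exact_mod_cast Nat.succ_ne_zero n
      have hfn : ((n.factorial : ℂ)) ≠ 0 := by exact_mod_cast Nat.factorial_ne_zero n
      rw [Nat.factorial_succ]
      push_cast
      field_simp
    rw [g45_pow_split h1 h2 h n, add_mul, smul_add, _root_.mul_add]
    congr 1
    rw [smul_mul_assoc, smul_smul, hf, mul_smul_comm, mul_smul_comm, smul_mul_assoc]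
    congr 1
    rw [← mul_assoc (P a), ← mul_assoc (P a), hP, pow_succ M]
    simp only [mul_assoc]
  have hu := hH1.unique (by rw [e]; exact hs)
  simp only [Finset.range_one, Finset.sum_singleton, pow_zero] at hu
  have := sub_eq_iff_eq_add.1 hu
  rw [this]
  abel

theorem g46_P_one : P 1 = (1 : V →L[ℂ] V) := by
  ext1 f
  exact P_of_one_le le_rfl f

theorem g46_PP (a : ℝ) : P a * P a = P a := by
  ext1 f
  rw [ContinuousLinearMap.mul_apply, P_P, min_self]

/-- the algebra of causal operators -/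
def g46_C : Subalgebra ℂ (V →L[ℂ] V) where
  carrier := {A | ∀ a, P a * A = P a * A * P a}
  mul_mem' := by
    intro A B hA hB a
    have hA' : P a * A = P a * A * P a := hA a
    have hB' : P a * B = P a * B * P a := hB a
    calc P a * (A * B) = P a * A * B := by rw [mul_assoc]
      _ = P a * A * P a * B := by rw [← hA']
      _ = P a * A * (P a * B) := by rw [mul_assoc]
      _ = P a * A * (P a * B * P a) := by rw [← hB']
      _ = P a * A * P a * B * P a := by simp only [mul_assoc]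
      _ = P a * A * B * P a := by rw [← hA']
      _ = P a * (A * B) * P a := by simp only [mul_assoc]
  add_mem' := by
    intro A B hA hB a
    have hA' : P a * A = P a * A * P a := hA a
    have hB' : P a * B = P a * B * P a := hB a
    calc P a * (A + B) = P a * A + P a * B := by rw [_root_.mul_add]
      _ = P a * A * P a + P a * B * P a := by rw [← hA', ← hB']
      _ = P a * (A + B) * P a := by rw [_root_.mul_add, _root_.add_mul]
  algebraMap_mem' := by
    intro r a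
    rw [Algebra.algebraMap_eq_smul_one, mul_smul_comm, mul_one, smul_mul_assoc, g46_PP]

theorem g46_mem {A : V →L[ℂ] V} : A ∈ g46_C ↔ ∀ a, P a * A = P a * A * P a := Iff.rfl

theorem g46_mem_iff {A : V →L[ℂ] V} : A ∈ g46_C ↔ ∀ a f, P a (A f) = P a (A (P a f)) := by
  rw [g46_mem]
  constructor
  · intro h a f
    have := congrArg (fun B : V →L[ℂ] V => B f) (h a)
    simpa [ContinuousLinearMap.mul_apply] using this
  · intro h a
    ext1 f
    simpa [ContinuousLinearMap.mul_apply] using h a f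

theorem g46_closed : IsClosed (g46_C : Set (V →L[ℂ] V)) := by
  have : (g46_C : Set (V →L[ℂ] V)) = ⋂ a : ℝ, {A | P a * A = P a * A * P a} := by
    ext A
    simp only [SetLike.mem_coe, g46_mem, mem_iInter]
    rfl
  rw [this]
  refine isClosed_iInter fun a => isClosed_eq ?_ ?_
  · exact continuous_const.mul continuous_id
  · exact (continuous_const.mul continuous_id).mul continuous_const

theorem g46_tsum_mem {f : ℕ → (V →L[ℂ] V)} (hs : Summable f) (h : ∀ n, f n ∈ g46_C) :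
    ∑' n, f n ∈ g46_C :=
  g46_closed.mem_of_tendsto hs.hasSum
    (Eventually.of_forall fun s => g46_C.sum_mem fun n _ => h n)

theorem g46_M_mem : M ∈ g46_C := by
  rw [g46_mem_iff]
  intro a f
  rw [P_M, P_M, P_P, min_self]

theorem g46_E_mem (k : ℝ) : E k ∈ g46_C := by
  rw [g46_mem_iff]
  intro a f
  rw [P_E, P_E, P_P, min_self]

theorem g46_X_mem {A : V →L[ℂ] V} (hA : A ∈ g46_C) : X A ∈ g46_C := by
  unfold X
  exact g46_tsum_mem (X_summable A).of_norm (fun n => g46_C.smul_mem (g46_C.mul_mem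
    (g46_C.pow_mem hA n) (g46_C.pow_mem g46_M_mem n)) _)

theorem g46_X_zero : X 0 = 1 := by
  unfold X
  rw [tsum_eq_single 0]
  · simp
  · intro n hn
    rw [zero_pow hn, zero_mul, smul_zero]

theorem g46_X_add (A : V →L[ℂ] V) (c : ℂ) : X (A + c • 1) = X A * X (c • 1) := by
  unfold X
  rw [tsum_mul_tsum_eq_tsum_sum_antidiagonal_of_summable_norm (X_summable A)
    (X_summable (c • 1))]
  refine tsum_congr fun n => ?_
  have hcomm : Commute A (c • (1 : V →L[ℂ] V)) := (Commute.one_right A).smul_right c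
  rw [hcomm.add_pow', Finset.sum_mul, Finset.smul_sum]
  refine Finset.sum_congr rfl fun m hm => ?_
  have hmn : m.1 + m.2 = n := Finset.HasAntidiagonal.mem_antidiagonal.1 hm
  have hM : M ^ n = M ^ m.1 * M ^ m.2 := by rw [← hmn, pow_add]
  have hch : ((n.factorial : ℂ)⁻¹) * (n.choose m.1 : ℂ) =
      ((m.1.factorial : ℂ)⁻¹) * ((m.2.factorial : ℂ)⁻¹) := by
    have h1 : n.choose m.1 * m.1.factorial * m.2.factorial = n.factorial := by
      have h2 := Nat.choose_mul_factorial_mul_factorial (n := n) (k := m.1) (by omega)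
      have h3 : n - m.1 = m.2 := by omega
      rwa [h3] at h2
    have h2 : (n.choose m.1 : ℂ) * (m.1.factorial : ℂ) * (m.2.factorial : ℂ) =
        (n.factorial : ℂ) := by exact_mod_cast h1
    have h3 : (n.factorial : ℂ) ≠ 0 := by exact_mod_cast n.factorial_ne_zero
    have h4 : (m.1.factorial : ℂ) ≠ 0 := by exact_mod_cast m.1.factorial_ne_zero
    have h5 : (m.2.factorial : ℂ) ≠ 0 := by exact_mod_cast m.2.factorial_ne_zero
    field_simp
    linear_combination h2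
  rw [smul_pow, one_pow, hM]
  rw [← Nat.cast_smul_eq_nsmul ℂ]
  simp only [smul_mul_assoc, mul_smul_comm, smul_smul, mul_one, one_mul]
  rw [← mul_assoc (A ^ m.1)]
  congr 1
  rw [← mul_assoc, hch]
  ring

theorem g46_E_mul (k : ℝ) : E (-k) * E k = (1 : V →L[ℂ] V) := by
  ext1 f
  rw [ContinuousLinearMap.mul_apply, E_E, neg_add_cancel, E_zero]
  rfl

theorem g46_E_mul' (k : ℝ) : E k * E (-k) = (1 : V →L[ℂ] V) := by
  ext1 f
  rw [ContinuousLinearMap.mul_apply, E_E, add_neg_cancel, E_zero]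
  rfl

theorem g46_ME (k : ℝ) : Commute M (E k) := by
  ext1 f
  rw [ContinuousLinearMap.mul_apply, ContinuousLinearMap.mul_apply, M_E]

theorem g46_conj_pow (k : ℝ) (N : V →L[ℂ] V) (n : ℕ) :
    E k * N ^ n * E (-k) = (E k * N * E (-k)) ^ n := by
  induction n with
  | zero => rw [pow_zero, pow_zero, mul_one, g46_E_mul']
  | succ n ih =>
    rw [pow_succ, pow_succ, ← ih]
    have h := g46_E_mul k
    calc E k * (N ^ n * N) * E (-k) = E k * N ^ n * 1 * (N * E (-k)) := by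
          rw [mul_one]; simp only [mul_assoc]
      _ = E k * N ^ n * (E (-k) * E k) * (N * E (-k)) := by rw [h]
      _ = E k * N ^ n * E (-k) * (E k * N * E (-k)) := by simp only [mul_assoc]

theorem g46_conj (k : ℝ) (N : V →L[ℂ] V) : E k * X N * E (-k) = X (E k * N * E (-k)) := by
  have hs : Summable (fun n : ℕ => ((n.factorial : ℂ)⁻¹) • (N ^ n * M ^ n)) :=
    (X_summable N).of_norm
  unfold X
  rw [← hs.tsum_mul_left, ← (hs.mul_left (E k)).tsum_mul_right]
  refine tsum_congr fun n => ?_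
  rw [← g46_conj_pow, mul_smul_comm, smul_mul_assoc]
  congr 1
  have h : M ^ n * E (-k) = E (-k) * M ^ n := ((g46_ME (-k)).pow_left n).eq
  calc E k * (N ^ n * M ^ n) * E (-k) = E k * N ^ n * (M ^ n * E (-k)) := by
        simp only [mul_assoc]
    _ = E k * N ^ n * (E (-k) * M ^ n) := by rw [h]
    _ = E k * N ^ n * E (-k) * M ^ n := by simp only [mul_assoc]

theorem g46_norm_M : ‖M‖ ≤ 1 :=
  ContinuousLinearMap.opNorm_le_bound _ zero_le_one fun f => by
    rw [one_mul]; exact norm_M_le f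

theorem g46_norm_X {Z : V →L[ℂ] V} (hZ : ‖Z‖ ≤ 1 / 4) : ‖1 - X Z‖ < 1 := by
  have hs : Summable (fun n : ℕ => ((n.factorial : ℂ)⁻¹) • (Z ^ n * M ^ n)) :=
    (X_summable Z).of_norm
  have h1 : X Z = 1 + ∑' n : ℕ, (((n + 1).factorial : ℂ)⁻¹) • (Z ^ (n + 1) * M ^ (n + 1)) := by
    unfold X
    rw [hs.tsum_eq_zero_add]
    simp
  have h2 : HasSum (fun n : ℕ => (1 / 4 : ℝ) * (1 / 4) ^ n) (1 / 4 * (1 - 1 / 4)⁻¹) :=
    (hasSum_geometric_of_lt_one (by norm_num) (by norm_num)).mul_left _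
  have h3 : ‖∑' n : ℕ, (((n + 1).factorial : ℂ)⁻¹) • (Z ^ (n + 1) * M ^ (n + 1))‖ ≤
      1 / 4 * (1 - 1 / 4)⁻¹ := by
    refine tsum_of_norm_bounded h2 fun n => ?_
    rw [norm_smul, norm_inv, Complex.norm_natCast]
    have h4 : (((n + 1).factorial : ℝ))⁻¹ ≤ 1 := by
      apply inv_le_one_of_one_le₀
      exact_mod_cast Nat.one_le_iff_ne_zero.2 (Nat.factorial_ne_zero _)
    have h5 : ‖Z ^ (n + 1)‖ ≤ (1 / 4) ^ (n + 1) :=
      (norm_pow_le' Z (Nat.succ_pos n)).trans (pow_le_pow_left₀ (norm_nonneg _) hZ _)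
    have h6 : ‖M ^ (n + 1)‖ ≤ 1 :=
      (norm_pow_le' M (Nat.succ_pos n)).trans (pow_le_one₀ (norm_nonneg _) g46_norm_M)
    calc (((n + 1).factorial : ℝ))⁻¹ * ‖Z ^ (n + 1) * M ^ (n + 1)‖
        ≤ 1 * (‖Z ^ (n + 1)‖ * ‖M ^ (n + 1)‖) :=
          mul_le_mul h4 (norm_mul_le _ _) (norm_nonneg _) zero_le_one
      _ ≤ 1 * ((1 / 4) ^ (n + 1) * 1) := by gcongr
      _ = (1 / 4 : ℝ) * (1 / 4) ^ n := by rw [pow_succ]; ring
  have h7 : 1 - X Z = -∑' n : ℕ, (((n + 1).factorial : ℂ)⁻¹) • (Z ^ (n + 1) * M ^ (n + 1)) := by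
    rw [h1]; abel
  rw [h7, norm_neg]
  refine lt_of_le_of_lt h3 ?_
  norm_num

theorem X_bij {ρ : V →L[ℂ] V} (hρ : IsMul 1 ρ) :
    ∃ Y : V →L[ℂ] V, X ρ * Y = 1 ∧ Y * X ρ = 1 ∧ ∀ a f, P a (Y f) = P a (Y (P a f)) := by
  obtain ⟨l, hl⟩ := atom_exists zero_lt_one le_rfl hρ
  have hone : IsMul 1 ((-l) • P 1) := mul_smul (mul_one' 1) (-l)
  set N0 : V →L[ℂ] V := ρ + (-l) • P 1 with hN0
  have hN0mul : IsMul 1 N0 := mul_add hρ hone
  have hN0atom : Atom N0 0 := by
    have h := atom_add hρ hone hl (atom_smul (atom_P zero_lt_one) (-l))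
    have h2 : l + -l * 1 = 0 := by ring
    rwa [h2] at h
  have hρN : ρ = N0 + l • 1 := by
    rw [hN0, g46_P_one, neg_smul]; abel
  have hX : X ρ = X N0 * X (l • 1) := by
    conv_lhs => rw [hρN]
    exact g46_X_add N0 l
  obtain ⟨k, _, hk⟩ := weight hN0mul hN0atom (δ := 1 / 4) (by norm_num)
  set Z : V →L[ℂ] V := E k * N0 * E (-k) with hZ
  have hXZ := g46_norm_X hk
  have hN0mem : N0 ∈ g46_C := g46_mem_iff.2 fun a f => mul_causal hN0mul a f
  have hZmem : Z ∈ g46_C :=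
    g46_C.mul_mem (g46_C.mul_mem (g46_E_mem k) hN0mem) (g46_E_mem (-k))
  have hTmem : 1 - X Z ∈ g46_C := g46_C.sub_mem g46_C.one_mem (g46_X_mem hZmem)
  have hs : Summable (fun n : ℕ => (1 - X Z) ^ n) := summable_geometric_of_norm_lt_one hXZ
  set B : V →L[ℂ] V := ∑' n : ℕ, (1 - X Z) ^ n with hB
  have hBmem : B ∈ g46_C := g46_tsum_mem hs fun n => g46_C.pow_mem hTmem n
  have hB1 : X Z * B = 1 := by
    have h := mul_neg_geom_series (1 - X Z) hXZ
    rwa [sub_sub_cancel] at h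
  have hB2 : B * X Z = 1 := by
    have h := geom_series_mul_neg (1 - X Z) hXZ
    rwa [sub_sub_cancel] at h
  have hc : E k * X N0 * E (-k) = X Z := g46_conj k N0
  have hXN : X N0 = E (-k) * X Z * E k := by
    rw [← hc]
    have h1 := g46_E_mul k
    calc X N0 = 1 * X N0 * 1 := by rw [one_mul, mul_one]
      _ = (E (-k) * E k) * X N0 * (E (-k) * E k) := by rw [h1]
      _ = E (-k) * (E k * X N0 * E (-k)) * E k := by simp only [mul_assoc]
  have hl1 : X (l • 1) * X ((-l) • 1) = 1 := by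
    rw [← g46_X_add, ← add_smul, add_neg_cancel, zero_smul, g46_X_zero]
  have hl2 : X ((-l) • 1) * X (l • 1) = 1 := by
    rw [← g46_X_add, ← add_smul, neg_add_cancel, zero_smul, g46_X_zero]
  have hlmem : X ((-l) • 1) ∈ g46_C := g46_X_mem (g46_C.smul_mem g46_C.one_mem _)
  refine ⟨X ((-l) • 1) * (E (-k) * B * E k), ?_, ?_, ?_⟩
  · rw [hX, hXN]
    calc E (-k) * X Z * E k * X (l • 1) * (X ((-l) • 1) * (E (-k) * B * E k))
        = E (-k) * X Z * E k * (X (l • 1) * X ((-l) • 1)) * (E (-k) * B * E k) := by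
          simp only [mul_assoc]
      _ = E (-k) * X Z * (E k * E (-k)) * (B * E k) := by
          rw [hl1]; simp only [mul_assoc, one_mul, mul_one]
      _ = E (-k) * (X Z * B) * E k := by
          rw [g46_E_mul']; simp only [mul_assoc, one_mul, mul_one]
      _ = 1 := by rw [hB1, mul_one, g46_E_mul]
  · rw [hX, hXN]
    calc X ((-l) • 1) * (E (-k) * B * E k) * (E (-k) * X Z * E k * X (l • 1))
        = X ((-l) • 1) * (E (-k) * B * (E k * E (-k)) * X Z * E k) * X (l • 1) := by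
          simp only [mul_assoc]
      _ = X ((-l) • 1) * (E (-k) * (B * X Z) * E k) * X (l • 1) := by
          rw [g46_E_mul']; simp only [mul_assoc, one_mul, mul_one]
      _ = X ((-l) • 1) * X (l • 1) := by
          rw [hB2, mul_one, g46_E_mul, mul_one]
      _ = 1 := hl2
  · exact g46_mem_iff.1 (g46_C.mul_mem hlmem
      (g46_C.mul_mem (g46_C.mul_mem (g46_E_mem (-k)) hBmem) (g46_E_mem k)))

theorem g47_one {A : ℝ → (V →L[ℂ] V)} {C : ℝ} (hA : Fam A C) (hC : 0 ≤ C) (B : V →L[ℂ] V)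
    (hB : ∀ x f, P x (B f) = P x (B (P x f))) {a : ℝ} (ha : a ∈ Ioo (0:ℝ) 1) {x : ℝ} (hx : 0 < x)
    (f : V) (h1 : P x f = 0) (h2 : P (2 * x) f = f) :
    ‖A a (B (M f))‖ ≤ 2 * C * ‖B‖ * ‖f‖ := by
  have e1 : P x (M f) = 0 := by rw [P_M, h1, map_zero]
  have e2 : ‖M f‖ ≤ 2 * x * ‖f‖ := by
    have := norm_M_P (a := 2 * x) (by linarith) f
    rwa [h2] at this
  have e3 : P x (B (M f)) = 0 := by rw [hB, e1, map_zero, map_zero]
  have e4 : tau x (lam x (B (M f))) = B (M f) := tau_lam hx.le e3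
  have e5 : ‖lam x (B (M f))‖ ≤ ‖B‖ * (2 * x * ‖f‖) :=
    (norm_lam_le hx.le _).trans ((B.le_opNorm _).trans (mul_le_mul_of_nonneg_left e2 (norm_nonneg _)))
  have e6 : A a (B (M f)) = tau x (P (a - x) (A a (lam x (B (M f))))) := by
    conv_lhs => rw [← e4]
    rw [mul_tau (hA a ha).1 hx.le, P_tau hx.le]
  rw [e6]
  rcases le_or_gt a x with hax | hax
  · rw [P_of_nonpos (by linarith), map_zero, norm_zero]
    positivity
  · have hmem : a - x ∈ Ioo (0:ℝ) 1 := ⟨by linarith, by linarith [ha.2]⟩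
    have e7 : P (a - x) (A a (lam x (B (M f)))) = A (a - x) (lam x (B (M f))) := by
      have := (hA (a - x) hmem).2.2 a ha (by linarith)
      rw [← this]; rfl
    rw [e7]
    refine (norm_tau_le hx.le _).trans ((ContinuousLinearMap.le_opNorm _ _).trans ?_)
    have e8 : ‖A (a - x)‖ ≤ C / x := by
      refine (hA (a - x) hmem).2.1.trans ?_
      exact div_le_div_of_nonneg_left hC hx (by linarith [ha.2])
    calc ‖A (a - x)‖ * ‖lam x (B (M f))‖ ≤ (C / x) * (‖B‖ * (2 * x * ‖f‖)) :=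
          mul_le_mul e8 e5 (norm_nonneg _) (by positivity)
      _ = 2 * C * ‖B‖ * ‖f‖ := by field_simp

theorem ks_bound {A : ℝ → (V →L[ℂ] V)} {C : ℝ} (hA : Fam A C) (hC : 0 ≤ C) (B : V →L[ℂ] V)
    (hB : ∀ x f, P x (B f) = P x (B (P x f))) {a : ℝ} (ha : a ∈ Ioo (0:ℝ) 1) :
    ‖A a * B * M‖ ≤ 4 * C * ‖B‖ := by
  refine ContinuousLinearMap.opNorm_le_bound _ (by positivity) (fun f => ?_)
  set r : ℕ → ℝ := fun n => (1 / 2 : ℝ) ^ n with hr
  have hr0 : ∀ n, 0 < r n := fun n => by simp only [hr]; positivity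
  have hrs : ∀ n, r n = 2 * r (n + 1) := fun n => by simp only [hr]; rw [pow_succ]; ring
  have hrle : ∀ n, r (n + 1) ≤ r n := fun n => by
    have := hrs n
    have := hr0 (n + 1)
    linarith
  have hind : ∀ n, ‖A a (B (M (f - P (r n) f)))‖ ≤ 2 * C * ‖B‖ * (‖f‖ - ‖P (r n) f‖) := by
    intro n
    induction n with
    | zero =>
      have h1 : r 0 = 1 := by simp [hr]
      rw [h1, P_of_one_le le_rfl]
      simp
    | succ n ih =>
      have h1 : f - P (r (n + 1)) f = (f - P (r n) f) + (P (r n) f - P (r (n + 1)) f) := by abel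
      have h2 : ‖P (r n) f - P (r (n + 1)) f‖ = ‖P (r n) f‖ - ‖P (r (n + 1)) f‖ := by
        have := norm_split (r (n + 1)) (P (r n) f)
        rw [P_P, min_eq_left (hrle n)] at this
        linarith
      have h3 : ‖A a (B (M (P (r n) f - P (r (n + 1)) f)))‖ ≤
          2 * C * ‖B‖ * ‖P (r n) f - P (r (n + 1)) f‖ := by
        refine g47_one hA hC B hB ha (hr0 (n + 1)) _ ?_ ?_
        · rw [map_sub, P_P, P_P, min_eq_left (hrle n), min_self, sub_self]
        · rw [← hrs n, map_sub, P_P, P_P, min_self, min_eq_right (hrle n)]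
      rw [h1, map_add, map_add, map_add]
      refine (norm_add_le _ _).trans ?_
      rw [h2] at h3
      calc _ ≤ 2 * C * ‖B‖ * (‖f‖ - ‖P (r n) f‖) +
            2 * C * ‖B‖ * (‖P (r n) f‖ - ‖P (r (n + 1)) f‖) := add_le_add ih h3
        _ = _ := by ring
  have hr_lim : Tendsto r atTop (𝓝[>] 0) := by
    rw [tendsto_nhdsWithin_iff]
    refine ⟨tendsto_pow_atTop_nhds_zero_of_lt_one (by norm_num) (by norm_num), ?_⟩
    exact Eventually.of_forall fun n => hr0 n
  have hP : Tendsto (fun n => P (r n) f) atTop (𝓝 0) := (P_tendsto_zero f).comp hr_lim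
  have hlim : Tendsto (fun n => ‖A a (B (M (f - P (r n) f)))‖) atTop (𝓝 ‖A a (B (M f))‖) := by
    have h1 : Tendsto (fun n => f - P (r n) f) atTop (𝓝 (f - 0)) := tendsto_const_nhds.sub hP
    rw [sub_zero] at h1
    have h2 : Continuous (fun v : V => ‖A a (B (M v))‖) := by fun_prop
    exact (h2.tendsto f).comp h1
  have hfin : ‖A a (B (M f))‖ ≤ 2 * C * ‖B‖ * ‖f‖ := by
    refine le_of_tendsto hlim (Eventually.of_forall fun n => (hind n).trans ?_)
    refine mul_le_mul_of_nonneg_left ?_ (by positivity)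
    linarith [norm_nonneg (P (r n) f)]
  have h5 : (A a * B * M) f = A a (B (M f)) := rfl
  rw [h5]
  refine hfin.trans ?_
  have : 0 ≤ C * ‖B‖ * ‖f‖ := by positivity
  nlinarith

theorem g48_cauchy (x : ℕ → V) (K : ℝ) (hK : ∀ n, ‖x n‖ ≤ K)
    (h : ∀ m n, m ≤ n → ‖x n - x m‖ = ‖x n‖ - ‖x m‖) : CauchySeq x := by
  have hmono : Monotone (fun n => ‖x n‖) := by
    intro m n hmn
    have h1 := h m n hmn
    have h2 := norm_nonneg (x n - x m)
    show ‖x m‖ ≤ ‖x n‖
    linarith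
  have hbdd : BddAbove (Set.range (fun n => ‖x n‖)) := ⟨K, by rintro _ ⟨n, rfl⟩; exact hK n⟩
  have hconv := tendsto_atTop_ciSup hmono hbdd
  have hc : CauchySeq (fun n => ‖x n‖) := hconv.cauchySeq
  rw [Metric.cauchySeq_iff] at hc ⊢
  intro ε hε
  obtain ⟨N, hN⟩ := hc ε hε
  refine ⟨N, fun m hm n hn => ?_⟩
  have h1 := hN m hm n hn
  rw [Real.dist_eq] at h1
  rcases le_total m n with h2 | h2
  · rw [dist_comm, dist_eq_norm, h m n h2]
    rw [abs_sub_comm] at h1
    exact (le_abs_self _).trans_lt h1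
  · rw [dist_eq_norm, h n m h2]
    exact (le_abs_self _).trans_lt h1

theorem lim_op (N : ℝ → (V →L[ℂ] V)) (c : ℝ) (hN : ∀ a ∈ Ioo (0:ℝ) 1, ‖N a‖ ≤ c)
    (hcomp : ∀ a ∈ Ioo (0:ℝ) 1, ∀ b ∈ Ioo (0:ℝ) 1, a ≤ b → P a * N b = N a) :
    ∃ N1 : V →L[ℂ] V, ∀ a ∈ Ioo (0:ℝ) 1, P a * N1 = N a := by
  obtain ⟨s, hmono, hs, hlim⟩ : ∃ s : ℕ → ℝ, Monotone s ∧ (∀ n, s n ∈ Ioo (0:ℝ) 1) ∧
      Tendsto s atTop (𝓝 1) := by
    obtain ⟨s, h1, h2, h3⟩ := exists_seq_strictMono_tendsto' (zero_lt_one (α := ℝ))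
    exact ⟨s, h1.monotone, h2, h3⟩
  have happ : ∀ a ∈ Ioo (0:ℝ) 1, ∀ b ∈ Ioo (0:ℝ) 1, a ≤ b → ∀ f, P a (N b f) = N a f := by
    intro a ha b hb hab f
    have h := congrArg (fun T : V →L[ℂ] V => T f) (hcomp a ha b hb hab)
    simpa [ContinuousLinearMap.mul_apply] using h
  have hcau : ∀ f : V, CauchySeq (fun n => N (s n) f) := by
    intro f
    refine g48_cauchy _ (c * ‖f‖) (fun n => ?_) (fun m n hmn => ?_)
    · exact (ContinuousLinearMap.le_opNorm _ _).trans
        (mul_le_mul_of_nonneg_right (hN _ (hs n)) (norm_nonneg _))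
    · have h1 := norm_split (s m) (N (s n) f)
      rw [happ _ (hs m) _ (hs n) (hmono hmn) f] at h1
      linarith
  choose L hL using fun f => cauchySeq_tendsto_of_complete (hcau f)
  let N1 : V →L[ℂ] V := continuousLinearMapOfTendsto (fun n => N (s n)) (tendsto_pi_nhds.2 hL)
  refine ⟨N1, fun a ha => ?_⟩
  ext1 f
  rw [ContinuousLinearMap.mul_apply]
  show P a (L f) = N a f
  have h1 : Tendsto (fun n => P a (N (s n) f)) atTop (𝓝 (P a (L f))) :=
    ((P a).continuous.tendsto _).comp (hL f)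
  refine tendsto_nhds_unique h1 (tendsto_const_nhds.congr' ?_)
  filter_upwards [hlim.eventually (lt_mem_nhds ha.2)] with n hn
  exact (happ a ha _ (hs n) hn.le f).symm

theorem mul_apply_eq_comp' (A B : V →L[ℂ] V) (f : V) : (A * B) f = A (B f) := rfl
theorem zero_apply' (f : V) : (0 : V →L[ℂ] V) f = 0 := rfl
theorem mul_sub' (A B C : V →L[ℂ] V) : A * (B - C) = A * B - A * C := _root_.mul_sub A B C
theorem mul_add' (A B C : V →L[ℂ] V) : A * (B + C) = A * B + A * C := _root_.mul_add A B C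

theorem backward' {ρ : ℝ → (V →L[ℂ] V)} {C : ℝ} (hρ : Fam ρ C) :
    ∃ T : V ≃L[ℂ] V, Hom T ∧ ∀ a ∈ Ioo (0:ℝ) 1, ∀ f, P a (T f) = P a (X (ρ a) f) := by
  have hhalf : (1/2 : ℝ) ∈ Ioo (0:ℝ) 1 := by norm_num
  have hC : 0 ≤ C := by
    have h1 := (hρ _ hhalf).2.1
    have h2 : 0 ≤ C / (1 - 1/2) := (norm_nonneg _).trans h1
    have h3 : C / (1 - 1/2) = 2 * C := by ring
    rw [h3] at h2; linarith
  obtain ⟨S1, hS1, hS1'⟩ := mul_ext_one (c := 1/2) (by norm_num) (by norm_num) (hρ _ hhalf).1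
  set r : ℝ → (V →L[ℂ] V) := fun a => ρ a - P a * S1 with hr
  have hneg : ∀ {a : ℝ} {S : V →L[ℂ] V}, IsMul a S → IsMul a (-S) := by
    intro a S hS
    have := mul_smul hS (-1)
    simpa using this
  have hrm : ∀ a ∈ Ioo (0:ℝ) 1, IsMul a (r a) := by
    intro a ha
    have h1 := mul_add (hρ a ha).1 (hneg (mul_restrict ha.2.le hS1))
    simpa [hr, sub_eq_add_neg] using h1
  have hPS : ∀ a b : ℝ, a ≤ b → ∀ S : V →L[ℂ] V, P a * (P b * S) = P a * S := by
    intro a b hab S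
    ext1 f
    simp only [mul_apply_eq_comp', P_P, min_eq_left hab]
  have hrfam : Fam r (C + ‖S1‖) := by
    intro a ha
    refine ⟨hrm a ha, ?_, ?_⟩
    · have h1 : 0 < 1 - a := by linarith [ha.2]
      calc ‖r a‖ ≤ ‖ρ a‖ + ‖P a * S1‖ := norm_sub_le _ _
        _ ≤ C / (1 - a) + ‖S1‖ / (1 - a) := by
            refine add_le_add (hρ a ha).2.1 ?_
            have h2 : ‖P a * S1‖ ≤ ‖S1‖ := by
              refine ContinuousLinearMap.opNorm_le_bound _ (norm_nonneg _) (fun f => ?_)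
              exact (norm_P_le _ _).trans (ContinuousLinearMap.le_opNorm _ _)
            rw [le_div_iff₀ h1]
            nlinarith [norm_nonneg S1, ha.1]
        _ = (C + ‖S1‖) / (1 - a) := by ring
    · intro b hb hab
      have h1 := (hρ a ha).2.2 b hb hab
      simp only [hr, mul_sub', h1, hPS a b hab]
  have hr0 : ∀ a ∈ Ioo (0:ℝ) 1, P (1/2) * r a = 0 := by
    intro a ha
    rcases le_total (1/2) a with h | h
    · have h1 := (hρ _ hhalf).2.2 a ha h
      simp only [hr, mul_sub', h1, hPS _ _ h, hS1', sub_self]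
    · have h1 := (hρ a ha).2.2 _ hhalf h
      have h2 : r a = 0 := by
        simp only [hr]
        rw [← h1, ← hS1', hPS _ _ h, sub_self]
      rw [h2, mul_zero]
  obtain ⟨Y, hXY, hYX, hYc⟩ := X_bij hS1
  set T1 := X S1 with hT1
  have hT1c : ∀ x f, P x (T1 f) = P x (T1 (P x f)) := fun x f => X_causal hS1 x f
  have hCC : 0 ≤ C + ‖S1‖ := by positivity
  set N' : ℝ → (V →L[ℂ] V) := fun a => r a * T1 * M with hN'
  obtain ⟨N, hN⟩ := lim_op N' (4 * (C + ‖S1‖) * ‖T1‖)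
    (fun a ha => ks_bound hrfam hCC T1 hT1c ha)
    (fun a ha b hb hab => by
      have h1 := (hrfam a ha).2.2 b hb hab
      simp only [hN', ← mul_assoc, h1])
  -- truncations of T
  have hPT : ∀ a ∈ Ioo (0:ℝ) 1, P a * (T1 + N) = P a * X (ρ a) := by
    intro a ha
    have h1 : IsMul a (P a * S1) := mul_restrict ha.2.le hS1
    have h2 : r a * r a = 0 := half_sq ha.2.le (hrm a ha) (hrm a ha) (hr0 a ha) (hr0 a ha)
    have h3 := X_split h1 (hrm a ha) h2
    have h4 : P a * S1 + r a = ρ a := by simp [hr]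
    rw [h4] at h3
    rw [h3, mul_add', hN a ha]
    have h5 : P a * T1 = P a * X (P a * S1) := by
      ext1 f
      exact X_restrict ha.2.le hS1 f
    rw [h5]
    congr 1
    ext1 f
    simp only [hN', mul_apply_eq_comp']
    rw [← mul_P_right (hrm a ha), ← mul_P_right (hrm a ha) (X (P a * S1) (M f))]
    congr 1
    exact X_restrict ha.2.le hS1 (M f)
  have hPT' : ∀ a ∈ Ioo (0:ℝ) 1, ∀ f, P a ((T1 + N) f) = P a (X (ρ a) f) := by
    intro a ha f
    have := congrArg (fun A : V →L[ℂ] V => A f) (hPT a ha)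
    simpa using this
  have hcc : ∀ a f g, P a (conv f g) = P a (conv (P a f) (P a g)) := by
    intro a f g
    rw [P_conv, conv_comm, P_conv, conv_comm]
  have hHom : ∀ f g, (T1 + N) (conv f g) = conv ((T1 + N) f) ((T1 + N) g) := by
    intro f g
    apply P_ext
    intro a ha
    rw [hPT' a ha, X_hom (hρ a ha).1, hcc, ← hPT' a ha, ← hPT' a ha, ← hcc]
  -- invertibility
  have hNhalf : P (1/2) * N = 0 := by
    rw [hN _ hhalf]
    have h1 : r (1/2) = 0 := by
      have h2 := hr0 _ hhalf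
      have h3 : P (1/2) * r (1/2) = r (1/2) := by
        ext1 f
        exact mul_P_left (hrm _ hhalf) f
      rw [← h3, h2]
    show r (1/2) * T1 * M = 0
    rw [h1, zero_mul, zero_mul]
  have hNkill : ∀ f, P (1/2) f = 0 → N f = 0 := by
    intro f hf
    apply P_ext
    intro a ha
    have h1 : P a (N f) = N' a f := by
      have := congrArg (fun A : V →L[ℂ] V => A f) (hN a ha)
      simpa using this
    rw [h1, map_zero]
    have h2 : P (1/2) (T1 (M f)) = 0 := by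
      rw [hT1c, P_M, hf]; simp
    have h3 := tau_lam (x := 1/2) (by norm_num) h2
    simp only [hN', mul_apply_eq_comp']
    rw [← h3, mul_tau (hrm a ha) (by norm_num)]
    have h4 : P (1/2) (r a (lam (1/2) (T1 (M f)))) = 0 := by
      have := congrArg (fun A : V →L[ℂ] V => A (lam (1/2) (T1 (M f)))) (hr0 a ha)
      simpa using this
    rw [← tau_lam (x := 1/2) (by norm_num) h4, tau_tau (by norm_num) (by norm_num),
      tau_eq_zero (by norm_num), map_zero]
  have hNYN : N * Y * N = 0 := by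
    ext1 f
    simp only [mul_apply_eq_comp', zero_apply']
    apply hNkill
    rw [hYc]
    have h1 : P (1/2) (N f) = 0 := by
      have := congrArg (fun A : V →L[ℂ] V => A f) hNhalf
      simpa using this
    rw [h1]; simp
  set S := Y * (1 - N * Y) with hSdef
  have hTS : (T1 + N) * S = 1 := by
    have h1 : (T1 + N) * Y = 1 + N * Y := by rw [add_mul, hXY]
    calc (T1 + N) * S = ((T1 + N) * Y) * (1 - N * Y) := by rw [hSdef, mul_assoc]
      _ = (1 + N * Y) * (1 - N * Y) := by rw [h1]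
      _ = 1 - (N * Y * N) * Y := by noncomm_ring
      _ = 1 := by rw [hNYN]; simp
  have hST : S * (T1 + N) = 1 := by
    have h1 : (1 - N * Y) * (T1 + N) = T1 := by
      calc (1 - N * Y) * (T1 + N) = T1 + N - N * (Y * T1) - N * Y * N := by noncomm_ring
        _ = T1 := by rw [hYX, hNYN]; simp
    rw [hSdef, mul_assoc, h1, hYX]
  refine ⟨ContinuousLinearEquiv.equivOfInverse (T1 + N) S ?_ ?_, ?_, ?_⟩
  · intro f
    have := congrArg (fun A : V →L[ℂ] V => A f) hST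
    simpa using this
  · intro f
    have := congrArg (fun A : V →L[ℂ] V => A f) hTS
    simpa using this
  · intro f g; exact hHom f g
  · exact hPT'


theorem backward {ρ : ℝ → (V →L[ℂ] V)} {C : ℝ} (hρ : Fam ρ C) {γ : V}
    (hγ : ∀ a ∈ Ioo (0:ℝ) 1, P a γ = P a (u + conv u (ρ a γ))) :
    ∃ T : V ≃L[ℂ] V, Hom T ∧ T u = γ := by
  obtain ⟨T, hT, hTX⟩ := backward' hρ
  refine ⟨T, hT, ?_⟩
  apply P_ext
  intro a ha
  rw [hTX a ha]
  exact uniq ha.1 (hρ a ha).1 (X_u (hρ a ha).1) (hγ a ha)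

end Volt919
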