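import Mathlib
import Pool.Agent.Helper919.Volt.L4

set_option autoImplicit false

open MeasureTheory Set Filter Topology

namespace Volt919

/-- class of admissible images of `u` -/
def Good (g : V) : Prop :=
  ∃ G : ℝ → ℂ, InG G ∧ (g : ℝ → ℂ) =ᵐ[mI] fun t => 1 + ∫ s in (0:ℝ)..t, G s

theorem u_ae : (u : ℝ → ℂ) =ᵐ[mI] fun _ => (1:ℂ) := by
  unfold u
  exact Integrable.coeFn_toL1 _

/-- members of `V` agree if they agree a.e. on `[0,a)` for all `a<1`, in terms of `P`. -/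
theorem P_eq_of_ae {a : ℝ} {f g : V} (h : ∀ᵐ t ∂mI, t < a → (f : ℝ → ℂ) t = g t) :
    P a f = P a g := by
  apply Lp.ext
  filter_upwards [h, P_ae a f, P_ae a g] with t ht h1 h2
  rw [h1, h2]
  by_cases hta : t < a
  · rw [ht hta]
  · simp [hta]

theorem ae_of_P_eq {a : ℝ} {f g : V} (h : P a f = P a g) :
    ∀ᵐ t ∂mI, t < a → (f : ℝ → ℂ) t = g t := by
  have h0 : (P a f : ℝ → ℂ) =ᵐ[mI] P a g := by rw [h]
  filter_upwards [h0, P_ae a f, P_ae a g] with t ht h1 h2 hta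
  rw [h1, h2] at ht
  simpa [hta] using ht

/-- a.e. statement on `[0,1]` from the truncated ones -/
theorem ae_of_all_lt {p : ℝ → Prop} (h : ∀ a ∈ Ioo (0:ℝ) 1, ∀ᵐ t ∂mI, t < a → p t) :
    ∀ᵐ t ∂mI, p t := by
  have h1 : ∀ n : ℕ, ∀ᵐ t ∂mI, t < 1 - 1 / ((n:ℝ) + 2) → p t := by
    intro n
    refine h _ ⟨?_, ?_⟩
    · have : 1 / ((n:ℝ) + 2) < 1 := by
        rw [div_lt_one (by positivity)]
        have : (0:ℝ) ≤ n := Nat.cast_nonneg n
        linarith
      linarith
    · have : 0 < 1 / ((n:ℝ) + 2) := by positivity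
      linarith
  have h2 := ae_all_iff.mpr h1
  have h3 : ∀ᵐ t ∂mI, t ≠ 1 := by
    unfold mI
    have : ∀ᵐ t ∂(volume : Measure ℝ), t ≠ 1 := by
      rw [ae_iff]; simp
    exact ae_restrict_of_ae this
  have h4 : ∀ᵐ t ∂mI, t ∈ Icc (0:ℝ) 1 := by
    unfold mI; exact ae_restrict_mem measurableSet_Icc
  filter_upwards [h2, h3, h4] with t ht h1 hm
  have hlt : t < 1 := lt_of_le_of_ne hm.2 h1
  obtain ⟨n, hn⟩ := exists_nat_gt (1 / (1 - t))
  refine ht n ?_
  have hpos : 0 < 1 - t := by linarith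
  have h5 : 1 < ((n:ℝ) + 2) * (1 - t) := by
    rw [div_lt_iff₀ hpos] at hn
    nlinarith
  have h6 : 1 / ((n:ℝ) + 2) < 1 - t := by
    rw [div_lt_iff₀ (by positivity)]
    linarith
  linarith

theorem conv_u_eq_of {a : ℝ} {f : V} {G : ℝ → ℂ} (h : ∀ᵐ t ∂mI, t < a → (f : ℝ → ℂ) t = G t) :
    ∀ᵐ t ∂mI, t < a → (conv u f : ℝ → ℂ) t = ∫ s in (0:ℝ)..t, G s := by
  have h4 : ∀ᵐ t ∂mI, t ∈ Icc (0:ℝ) 1 := by
    unfold mI; exact ae_restrict_mem measurableSet_Icc
  filter_upwards [conv_u_ae f, h4] with t ht hm hta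
  rw [ht]
  apply intervalIntegral.integral_congr_ae
  have h1 : ∀ᵐ s ∂(volume : Measure ℝ), s ∈ Icc (0:ℝ) 1 → (s < a → (f : ℝ → ℂ) s = G s) := by
    have := h
    unfold mI at this
    exact (ae_restrict_iff' measurableSet_Icc).mp this
  filter_upwards [h1] with s hs hs1
  rw [uIoc_of_le hm.1] at hs1
  exact hs ⟨hs1.1.le, hs1.2.trans hm.2⟩ (lt_of_le_of_lt hs1.2 hta)

theorem good_of_fam {ρ : ℝ → (V →L[ℂ] V)} {C : ℝ} (hρ : Fam ρ C) {γ : V}
    (hγ : ∀ a ∈ Ioo (0:ℝ) 1, P a γ = P a (u + conv u (ρ a γ))) : Good γ := by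
  obtain ⟨B, C', hB, hBA⟩ := fam_conv hρ (-1)
  obtain ⟨G, C'', hG, hBG⟩ := fun_of_fam hB
  refine ⟨G, ⟨C'', hG⟩, ?_⟩
  apply ae_of_all_lt
  intro a ha
  have hm := (hB a ha).1
  have h1 : B a u = ρ a γ := by
    have e1 : P a u = P a (γ - conv u (ρ a γ)) := by
      rw [map_sub, hγ a ha, map_add]; abel
    calc B a u = B a (P a u) := (mul_P_right hm u).symm
      _ = B a (γ - conv u (ρ a γ)) := by rw [e1, mul_P_right hm]
      _ = B a γ + (-1 : ℂ) • B a (conv u (ρ a γ)) := by rw [map_sub]; simp [sub_eq_add_neg]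
      _ = ρ a γ := hBA a ha γ
  have h2 : P a γ = P a (u + conv u (B a u)) := by rw [h1]; exact hγ a ha
  have h3 := ae_of_P_eq h2
  have h4 := conv_u_eq_of (hBG a ha)
  filter_upwards [h3, h4, u_ae, Lp.coeFn_add u (conv u (B a u))] with t h3 h4 h5 h6 hta
  rw [h3 hta, h6, Pi.add_apply, h5, h4 hta]

theorem fam_of_good {γ : V} (hγ : Good γ) : ∃ (ρ : ℝ → (V →L[ℂ] V)) (C : ℝ), Fam ρ C ∧
    ∀ a ∈ Ioo (0:ℝ) 1, P a γ = P a (u + conv u (ρ a γ)) := by
  obtain ⟨G, ⟨C, hG⟩, hγG⟩ := hγ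
  obtain ⟨A, C', hA, hAG⟩ := fam_of_fun G C hG
  obtain ⟨B, C'', hB, hBA⟩ := fam_conv hA 1
  refine ⟨B, C'', hB, ?_⟩
  intro a ha
  have hm := (hB a ha).1
  have h2 : P a γ = P a (u + conv u (A a u)) := by
    apply P_eq_of_ae
    filter_upwards [conv_u_eq_of (hAG a ha), u_ae, Lp.coeFn_add u (conv u (A a u)), hγG]
      with t h4 h5 h6 h7 hta
    rw [h7, h6, Pi.add_apply, h5, h4 hta]
  have h1 : B a γ = A a u := by
    calc B a γ = B a (P a γ) := (mul_P_right hm γ).symm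
      _ = B a (u + conv u (A a u)) := by rw [h2, mul_P_right hm]
      _ = B a u + (1 : ℂ) • B a (conv u (A a u)) := by rw [map_add, one_smul]
      _ = A a u := hBA a ha u
  rw [h1]; exact h2

theorem good_of_aut (T : V ≃ₗ[ℂ] V) (hT : IsAut T) : Good (T u) := by
  have hc : Continuous T := aut_continuous T hT
  set T' : V ≃L[ℂ] V := T.toContinuousLinearEquivOfContinuous hc with hT'
  have hT'' : ∀ f, T' f = T f := fun f => rfl
  obtain ⟨ρ, C, h1, h2⟩ := forward T' (fun f g => hT f g)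
  exact good_of_fam h1 h2

theorem aut_of_good {γ : V} (hγ : Good γ) : ∃ T : V ≃L[ℂ] V, IsAut T.toLinearEquiv ∧ T u = γ := by
  obtain ⟨ρ, C, h1, h2⟩ := fam_of_good hγ
  obtain ⟨T, hT, hTu⟩ := backward h1 h2
  exact ⟨T, fun f g => hT f g, hTu⟩

theorem cpow_hom (T : V → V) (hT : ∀ f g, T (conv f g) = conv (T f) (T g)) (f : V) (n : ℕ) :
    T (cpow f n) = cpow (T f) n := by
  induction n with
  | zero => rfl
  | succ n ih => simp only [cpow, hT, ih]

theorem aut_unique {T T' : V ≃ₗ[ℂ] V} (hT : IsAut T) (hT' : IsAut T') (h : T u = T' u) :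
    T = T' := by
  have hc : Continuous T := aut_continuous T hT
  have hc' : Continuous T' := aut_continuous T' hT'
  have h1 : ∀ x ∈ (Submodule.span ℂ (Set.range (cpow u)) : Set V), T x = T' x := by
    intro x hx
    induction hx using Submodule.span_induction with
    | mem x hx =>
      obtain ⟨n, rfl⟩ := hx
      rw [cpow_hom T hT, cpow_hom T' hT', h]
    | zero => simp
    | add x y _ _ hx hy => rw [map_add, map_add, hx, hy]
    | smul c x _ hx => rw [map_smul, map_smul, hx]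
  have h2 : (T : V → V) = T' := Continuous.ext_on dense_cpow hc hc' h1
  exact LinearEquiv.ext (fun x => congrFun h2 x)

/-- the set of pairs (p, p(γ)) -/
noncomputable def pairs (γ : V) : Set (V × V) :=
  Set.range fun c : ℕ →₀ ℂ => (c.sum fun n z => z • cpow u n, c.sum fun n z => z • cpow γ n)

theorem pairs_iff (T : V ≃ₗ[ℂ] V) (hT : IsAut T) (f g : V) :
    T f = g ↔ (f, g) ∈ closure (pairs (T u)) := by
  have hc : Continuous T := aut_continuous T hT
  have hsum : ∀ c : ℕ →₀ ℂ, T (c.sum fun n z => z • cpow u n) = c.sum fun n z => z • cpow (T u) n := by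
    intro c
    simp only [Finsupp.sum, map_sum, map_smul]
    refine Finset.sum_congr rfl (fun n _ => ?_)
    rw [cpow_hom T hT]
  constructor
  · rintro rfl
    have hd : f ∈ closure (Submodule.span ℂ (Set.range (cpow u)) : Set V) := dense_cpow f
    have hcont : Continuous (fun x : V => (x, T x)) := continuous_id.prodMk hc
    have h1 := image_closure_subset_closure_image hcont (mem_image_of_mem _ hd)
    refine closure_mono ?_ h1
    rintro _ ⟨x, hx, rfl⟩
    obtain ⟨c, rfl⟩ := (Finsupp.mem_span_range_iff_exists_finsupp).mp hx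
    refine ⟨c, ?_⟩
    simp only [hsum]
  · intro h
    have hcl : IsClosed {p : V × V | T p.1 = p.2} :=
      isClosed_eq (hc.comp continuous_fst) continuous_snd
    have h1 : closure (pairs (T u)) ⊆ {p : V × V | T p.1 = p.2} := by
      refine closure_minimal ?_ hcl
      rintro _ ⟨c, rfl⟩
      exact hsum c
    exact h1 h

end Volt919
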