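import Mathlib
import Pool.Agent.Helper919.Volt.Main

set_option autoImplicit false

open MeasureTheory Set Filter Topology

namespace Volt919

/-! ### L5: Titchmarsh theorem -/

/-- truncated Laplace transform -/
noncomputable def Lap (b : ℝ) (h : V) (z : ℂ) : ℂ :=
  ∫ x in (0:ℝ)..b, Complex.exp (-(z * (x : ℂ))) * h x

theorem h04_int (h : V) : IntegrableOn (h : ℝ → ℂ) (Icc (0:ℝ) 1) := L1.integrable_coeFn h

theorem h04_ii {b : ℝ} (hb : b ∈ Icc (0:ℝ) 1) (h : V) :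
    IntervalIntegrable (h : ℝ → ℂ) volume 0 b := by
  rw [intervalIntegrable_iff_integrableOn_Icc_of_le hb.1]
  exact (h04_int h).mono_set (Icc_subset_Icc_right hb.2)

theorem h04_mem {b x : ℝ} (hb : b ∈ Icc (0:ℝ) 1) (hx : x ∈ uIoc (0:ℝ) b) : 0 < x ∧ x ≤ 1 := by
  rw [uIoc_of_le hb.1] at hx
  exact ⟨hx.1, hx.2.trans hb.2⟩

theorem h04_cont (z : ℂ) : Continuous (fun x : ℝ => Complex.exp (-(z * (x : ℂ)))) := by
  fun_prop

theorem h04_ie {b : ℝ} (hb : b ∈ Icc (0:ℝ) 1) (h : V) (z : ℂ) :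
    IntervalIntegrable (fun x : ℝ => Complex.exp (-(z * (x : ℂ))) * h x) volume 0 b :=
  (h04_ii hb h).continuousOn_mul (h04_cont z).continuousOn

theorem Lap_diff {b : ℝ} (hb : b ∈ Icc (0:ℝ) 1) (h : V) : Differentiable ℂ (Lap b h) := by
  intro z0
  have hmeas : AEStronglyMeasurable (h : ℝ → ℂ) (volume.restrict (uIoc (0:ℝ) b)) := by
    have := (h04_ii hb h).def'
    exact this.aestronglyMeasurable
  have key := intervalIntegral.hasDerivAt_integral_of_dominated_loc_of_deriv_le (𝕜 := ℂ)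
    (μ := volume) (a := 0) (b := b)
    (F := fun z x => Complex.exp (-(z * (x : ℂ))) * h x)
    (F' := fun z x => (Complex.exp (-(z * (x : ℂ))) * (-(x : ℂ))) * h x)
    (x₀ := z0) (s := Metric.ball z0 1)
    (bound := fun x => Real.exp (‖z0‖ + 1) * ‖h x‖)
    (Metric.ball_mem_nhds z0 one_pos)
    (Filter.Eventually.of_forall fun z => ((h04_cont z).aestronglyMeasurable).mul hmeas)
    (h04_ie hb h z0) ?_ ?_ ?_ ?_
  · exact key.2.differentiableAt
  · refine AEStronglyMeasurable.mul ?_ hmeas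
    have : Continuous (fun x : ℝ => Complex.exp (-(z0 * (x : ℂ))) * (-(x : ℂ))) := by fun_prop
    exact this.aestronglyMeasurable
  · refine Filter.Eventually.of_forall fun x hx z hz => ?_
    obtain ⟨hx0, hx1⟩ := h04_mem hb hx
    rw [norm_mul, norm_mul, norm_neg, Complex.norm_real, Real.norm_eq_abs, abs_of_pos hx0,
      Complex.norm_exp]
    have h1 : (-(z * (x : ℂ))).re ≤ ‖z0‖ + 1 := by
      refine (Complex.re_le_norm _).trans ?_
      rw [norm_neg, norm_mul, Complex.norm_real, Real.norm_eq_abs, abs_of_pos hx0]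
      have h2 : ‖z‖ ≤ ‖z0‖ + 1 := by
        have h3 : ‖z - z0‖ < 1 := by rwa [Metric.mem_ball, dist_eq_norm] at hz
        have h4 : ‖z‖ ≤ ‖z - z0‖ + ‖z0‖ := by
          simpa using norm_add_le (z - z0) z0
        linarith
      calc ‖z‖ * x ≤ ‖z‖ * 1 := mul_le_mul_of_nonneg_left hx1 (norm_nonneg _)
        _ ≤ ‖z0‖ + 1 := by rw [mul_one]; exact h2
    refine mul_le_mul_of_nonneg_right ?_ (norm_nonneg _)
    calc Real.exp (-(z * (x : ℂ))).re * x ≤ Real.exp (-(z * (x : ℂ))).re * 1 :=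
          mul_le_mul_of_nonneg_left hx1 (Real.exp_pos _).le
      _ = Real.exp (-(z * (x : ℂ))).re := mul_one _
      _ ≤ Real.exp (‖z0‖ + 1) := Real.exp_le_exp.2 h1
  · exact ((h04_ii hb h).norm).const_mul _
  · refine Filter.Eventually.of_forall fun x hx z hz => ?_
    have h1 : HasDerivAt (fun z : ℂ => -(z * (x : ℂ))) (-(x : ℂ)) z := by
      have h2 := ((hasDerivAt_id' z).mul_const (x : ℂ)).neg
      rw [one_mul] at h2
      exact h2
    exact (h1.cexp).mul_const _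

theorem h04_norm_exp {z : ℂ} (x : ℝ) :
    ‖Complex.exp (-(z * (x : ℂ)))‖ = Real.exp (-(z.re * x)) := by
  rw [Complex.norm_exp]
  congr 1
  simp

theorem h04_le {b : ℝ} (hb : b ∈ Icc (0:ℝ) 1) (h : V) : ∫ t in (0:ℝ)..b, ‖h t‖ ≤ ‖h‖ := by
  rw [norm_eq]
  refine intervalIntegral.integral_mono_interval le_rfl hb.1 hb.2 ?_ ?_
  · exact Filter.Eventually.of_forall fun x => norm_nonneg _
  · exact (h04_ii ⟨zero_le_one, le_rfl⟩ h).norm

theorem Lap_bound {b : ℝ} (hb : b ∈ Icc (0:ℝ) 1) (h : V) {z : ℂ} (hz : 0 ≤ z.re) :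
    ‖Lap b h z‖ ≤ ‖h‖ := by
  unfold Lap
  refine (intervalIntegral.norm_integral_le_integral_norm hb.1).trans
    (le_trans ?_ (h04_le hb h))
  refine intervalIntegral.integral_mono_on hb.1 (h04_ie hb h z).norm (h04_ii hb h).norm ?_
  intro x hx
  rw [norm_mul, h04_norm_exp]
  refine mul_le_of_le_one_left (norm_nonneg _) ?_
  rw [Real.exp_le_one_iff]
  have := mul_nonneg hz hx.1
  linarith

theorem h04_ind {E : Type} [NormedAddCommGroup E] [NormedSpace ℝ E] {b : ℝ} (hb : 0 ≤ b)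
    (φ : ℝ → E) (hφ : IntervalIntegrable φ volume 0 b) :
    IntegrableOn ((Iio b).indicator φ) (Ioi 0) ∧
      ∫ x in Ioi (0:ℝ), (Iio b).indicator φ x = ∫ x in (0:ℝ)..b, φ x := by
  have hset : Iio b ∩ Ioi (0:ℝ) = Ioo 0 b := by
    ext x; simp only [mem_inter_iff, mem_Iio, mem_Ioi, mem_Ioo]; tauto
  constructor
  · show Integrable ((Iio b).indicator φ) (volume.restrict (Ioi 0))
    rw [integrable_indicator_iff measurableSet_Iio]
    show Integrable φ ((volume.restrict (Ioi 0)).restrict (Iio b))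
    rw [Measure.restrict_restrict measurableSet_Iio, hset]
    exact (hφ.1).mono_set Ioo_subset_Ioc_self
  · rw [integral_indicator measurableSet_Iio, Measure.restrict_restrict measurableSet_Iio, hset,
      intervalIntegral.integral_of_le hb, integral_Ioc_eq_integral_Ioo]

theorem h04_cv_zero {b : ℝ} (hb : b ∈ Icc (0:ℝ) 1) {h k : V} (hc : P b (conv h k) = 0) :
    ∀ᵐ x ∂(volume.restrict (Ioi (0:ℝ))), x < b → cv h k x = 0 := by
  have h1 : P b (conv h k) = P b 0 := by rw [hc, map_zero]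
  have h2 := ae_of_P_eq h1
  have h3 : (conv h k : ℝ → ℂ) =ᵐ[mI] cv h k := Integrable.coeFn_toL1 _
  have h4 : ((0 : V) : ℝ → ℂ) =ᵐ[mI] 0 := Lp.coeFn_zero _ _ _
  have h5 : ∀ᵐ x ∂mI, x < b → cv h k x = 0 := by
    filter_upwards [h2, h3, h4] with x a1 a2 a3 hx
    rw [← a2, a1 hx, a3]; rfl
  unfold mI at h5
  rw [ae_restrict_iff' measurableSet_Icc] at h5
  rw [ae_restrict_iff' measurableSet_Ioi]
  filter_upwards [h5] with x hx hx0 hxb
  exact hx ⟨le_of_lt hx0, (hxb.trans_le hb.2).le⟩ hxb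

theorem Lap_mul {b : ℝ} (hb : b ∈ Icc (0:ℝ) 1) {h k : V} (hc : P b (conv h k) = 0) {z : ℂ}
    (hz : 0 ≤ z.re) : ‖Lap b h z * Lap b k z‖ ≤ ‖h‖ * ‖k‖ * Real.exp (-(b * z.re)) := by
  set F : ℝ → ℂ := (Iio b).indicator (fun x => Complex.exp (-(z * (x : ℂ))) * h x) with hF
  set G : ℝ → ℂ := (Iio b).indicator (fun x => Complex.exp (-(z * (x : ℂ))) * k x) with hG
  set f : ℝ → ℝ := (Iio b).indicator (fun x => ‖h x‖) with hf
  set g : ℝ → ℝ := (Iio b).indicator (fun x => ‖k x‖) with hg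
  obtain ⟨F1, F2⟩ := h04_ind hb.1 _ (h04_ie hb h z)
  obtain ⟨G1, G2⟩ := h04_ind hb.1 _ (h04_ie hb k z)
  obtain ⟨f1, f2⟩ := h04_ind hb.1 _ (h04_ii hb h).norm
  obtain ⟨g1, g2⟩ := h04_ind hb.1 _ (h04_ii hb k).norm
  have e1 := integral_posConvolution F1 G1 (ContinuousLinearMap.mul ℝ ℂ)
  have e2 := integral_posConvolution f1 g1 (ContinuousLinearMap.mul ℝ ℝ)
  have i2 := integrable_posConvolution f1 g1 (ContinuousLinearMap.mul ℝ ℝ)
  rw [F2, G2] at e1
  rw [f2, g2] at e2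
  simp only [ContinuousLinearMap.mul_apply'] at e1 e2
  have hL : Lap b h z * Lap b k z = ∫ x : ℝ in Ioi 0, ∫ t : ℝ in (0:ℝ)..x, F t * G (x - t) :=
    e1.symm
  have i3 : IntegrableOn (fun x : ℝ => ∫ t : ℝ in (0:ℝ)..x, f t * g (x - t)) (Ioi 0) := by
    unfold posConvolution at i2
    rw [integrable_indicator_iff measurableSet_Ioi] at i2
    simpa only [ContinuousLinearMap.mul_apply'] using i2
  have fn : ∀ t, 0 ≤ f t := fun t => by
    rw [hf]; exact indicator_nonneg (fun _ _ => norm_nonneg _) _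
  have gn : ∀ t, 0 ≤ g t := fun t => by
    rw [hg]; exact indicator_nonneg (fun _ _ => norm_nonneg _) _
  have hbound : ∀ᵐ x ∂(volume.restrict (Ioi (0:ℝ))),
      ‖∫ t : ℝ in (0:ℝ)..x, F t * G (x - t)‖ ≤
        Real.exp (-(b * z.re)) * ∫ t : ℝ in (0:ℝ)..x, f t * g (x - t) := by
    filter_upwards [h04_cv_zero hb hc, ae_restrict_mem measurableSet_Ioi] with x hx hx0
    have hx0' : 0 ≤ x := le_of_lt hx0
    have hI : 0 ≤ ∫ t : ℝ in (0:ℝ)..x, f t * g (x - t) :=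
      intervalIntegral.integral_nonneg hx0' fun t _ => mul_nonneg (fn _) (gn _)
    by_cases hxb : x < b
    · have h1 : ∫ t : ℝ in (0:ℝ)..x, F t * G (x - t) =
          ∫ t : ℝ in (0:ℝ)..x, Complex.exp (-(z * (x : ℂ))) * (h t * k (x - t)) := by
        refine intervalIntegral.integral_congr fun t ht => ?_
        rw [uIcc_of_le hx0'] at ht
        have h2 : t ∈ Iio b := lt_of_le_of_lt ht.2 hxb
        have h3 : x - t ∈ Iio b := by
          show x - t < b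
          linarith [ht.1]
        simp only [hF, hG]
        rw [indicator_of_mem h2, indicator_of_mem h3]
        have h4 : Complex.exp (-(z * (x : ℂ))) =
            Complex.exp (-(z * (t : ℂ))) * Complex.exp (-(z * ((x - t : ℝ) : ℂ))) := by
          rw [← Complex.exp_add]
          congr 1
          push_cast
          ring
        rw [h4]
        ring
      rw [h1, intervalIntegral.integral_const_mul]
      have h5 : ∫ t : ℝ in (0:ℝ)..x, h t * k (x - t) = 0 := hx hxb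
      rw [h5, mul_zero, norm_zero]
      exact mul_nonneg (Real.exp_pos _).le hI
    · push Not at hxb
      refine (intervalIntegral.norm_integral_le_integral_norm hx0').trans ?_
      have h1 : ∫ t : ℝ in (0:ℝ)..x, ‖F t * G (x - t)‖ =
          ∫ t : ℝ in (0:ℝ)..x, Real.exp (-(z.re * x)) * (f t * g (x - t)) := by
        refine intervalIntegral.integral_congr fun t ht => ?_
        have nF : ‖F t‖ = Real.exp (-(z.re * t)) * f t := by
          simp only [hF, hf]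
          by_cases ht : t ∈ Iio b
          · rw [indicator_of_mem ht, indicator_of_mem ht, norm_mul, h04_norm_exp]
          · rw [indicator_of_notMem ht, indicator_of_notMem ht, norm_zero, mul_zero]
        have nG : ‖G (x - t)‖ = Real.exp (-(z.re * (x - t))) * g (x - t) := by
          simp only [hG, hg]
          by_cases ht : x - t ∈ Iio b
          · rw [indicator_of_mem ht, indicator_of_mem ht, norm_mul, h04_norm_exp]
          · rw [indicator_of_notMem ht, indicator_of_notMem ht, norm_zero, mul_zero]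
        show ‖F t * G (x - t)‖ = _
        rw [norm_mul, nF, nG]
        have h4 : Real.exp (-(z.re * x)) =
            Real.exp (-(z.re * t)) * Real.exp (-(z.re * (x - t))) := by
          rw [← Real.exp_add]
          congr 1
          ring
        rw [h4]
        ring
      rw [h1, intervalIntegral.integral_const_mul]
      refine mul_le_mul_of_nonneg_right (Real.exp_le_exp.2 ?_) hI
      have := mul_le_mul_of_nonneg_left hxb hz
      linarith
  rw [hL]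
  refine (norm_integral_le_of_norm_le (i3.const_mul _) hbound).trans ?_
  rw [integral_const_mul, e2, mul_comm]
  refine mul_le_mul_of_nonneg_right ?_ (Real.exp_pos _).le
  refine mul_le_mul (h04_le hb h) (h04_le hb k) ?_ (norm_nonneg _)
  exact intervalIntegral.integral_nonneg hb.1 fun _ _ => norm_nonneg _

theorem h05_int (k : V) : IntegrableOn (k : ℝ → ℂ) (Icc 0 1) volume := L1.integrable_coeFn k

theorem h05_fub (c : ℝ) (hc : 0 ≤ c) (w g : ℝ → ℂ) (hw : Continuous w)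
    (hg : IntegrableOn g (Ioc 0 c) volume) :
    ∫ t in (0:ℝ)..c, w t * (∫ s in (0:ℝ)..t, g s) =
      ∫ s in (0:ℝ)..c, (∫ t in s..c, w t) * g s := by
  rw [intervalIntegral.integral_of_le hc, intervalIntegral.integral_of_le hc]
  have hwi : Integrable w (volume.restrict (Ioc 0 c)) :=
    (hw.integrableOn_Icc).mono_set Ioc_subset_Icc_self
  have hprod : Integrable (fun p : ℝ × ℝ => w p.1 * g p.2)
      ((volume.restrict (Ioc 0 c)).prod (volume.restrict (Ioc 0 c))) := hwi.mul_prod hg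
  have hms : MeasurableSet {p : ℝ × ℝ | p.2 ≤ p.1} := measurableSet_le measurable_snd measurable_fst
  have hind : Integrable (Function.uncurry fun t s : ℝ => if s ≤ t then w t * g s else 0)
      ((volume.restrict (Ioc 0 c)).prod (volume.restrict (Ioc 0 c))) := by
    have h1 := hprod.indicator hms
    refine h1.congr (Filter.Eventually.of_forall fun p => ?_)
    simp only [Set.indicator, Set.mem_setOf_eq, Function.uncurry]
  have hswap := integral_integral_swap hind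
  have hL : ∫ t in Ioc 0 c, w t * ∫ s in (0:ℝ)..t, g s =
      ∫ t in Ioc 0 c, ∫ s in Ioc 0 c, if s ≤ t then w t * g s else 0 := by
    refine setIntegral_congr_fun measurableSet_Ioc fun t ht => ?_
    rw [intervalIntegral.integral_of_le ht.1.le, ← integral_const_mul]
    have h1 : ∀ s, (if s ≤ t then w t * g s else 0) =
        (Iic t).indicator (fun s => w t * g s) s := by
      intro s
      simp only [Set.indicator, Set.mem_Iic]
    simp only [h1]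
    rw [setIntegral_indicator measurableSet_Iic, Ioc_inter_Iic, min_eq_right ht.2]
  have hR : ∫ s in Ioc 0 c, (∫ t in s..c, w t) * g s =
      ∫ s in Ioc 0 c, ∫ t in Ioc 0 c, if s ≤ t then w t * g s else 0 := by
    refine setIntegral_congr_fun measurableSet_Ioc fun s hs => ?_
    rw [intervalIntegral.integral_of_le hs.2, ← integral_mul_const]
    have h1 : ∀ t, (if s ≤ t then w t * g s else 0) =
        (Ici s).indicator (fun t => w t * g s) t := by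
      intro t
      simp only [Set.indicator, Set.mem_Ici]
    simp only [h1]
    have h2 : Ioc 0 c ∩ Ici s = Icc s c := by
      ext t
      simp only [Set.mem_inter_iff, Set.mem_Ioc, Set.mem_Ici, Set.mem_Icc]
      constructor
      · rintro ⟨⟨_, h3⟩, h4⟩
        exact ⟨h4, h3⟩
      · rintro ⟨h3, h4⟩
        exact ⟨⟨lt_of_lt_of_le hs.1 h3, h4⟩, h3⟩
    rw [setIntegral_indicator measurableSet_Ici, h2, integral_Icc_eq_integral_Ioc]
  rw [hL, hR, hswap]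

theorem h05_exp (n : ℕ) (s c : ℝ) :
    ∫ t in s..c, ((n : ℂ) * Complex.exp (-((n : ℂ) * (t : ℂ)))) =
      Complex.exp (-((n : ℂ) * (s : ℂ))) - Complex.exp (-((n : ℂ) * (c : ℂ))) := by
  have h1 : ∀ t : ℝ, HasDerivAt (fun t : ℝ => -Complex.exp (-((n : ℂ) * (t : ℂ))))
      ((n : ℂ) * Complex.exp (-((n : ℂ) * (t : ℂ)))) t := by
    intro t
    have h2 : HasDerivAt (fun t : ℝ => (t : ℂ)) 1 t := Complex.ofRealCLM.hasDerivAt
    have h3 := ((h2.const_mul (n : ℂ)).neg.cexp).neg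
    have h4 : (n : ℂ) * Complex.exp (-((n : ℂ) * (t : ℂ))) =
        -(Complex.exp (-((n : ℂ) * (t : ℂ))) * -((n : ℂ) * 1)) := by ring
    rw [h4]
    exact h3
  rw [intervalIntegral.integral_eq_sub_of_hasDerivAt (fun t _ => h1 t)]
  · ring
  · exact Continuous.intervalIntegrable (by fun_prop) _ _

theorem Lap_moment {b c : ℝ} (hc : 0 ≤ c) (hcb : c ≤ b) (hb : b ≤ 1) (k : V) (Q : ℝ)
    (h : ∀ n : ℕ, ‖Lap b k (n : ℂ)‖ ≤ Q * Real.exp (-(c * n))) : P c k = 0 := by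
  rcases hc.eq_or_lt with rfl | hc0
  · exact P_of_nonpos le_rfl k
  have hki := h05_int k
  have hknorm : ∀ a a' : ℝ, 0 ≤ a → a ≤ a' → a' ≤ 1 →
      ∫ t in a..a', ‖k t‖ ≤ ‖k‖ := by
    intro a a' h0 h1 h2
    rw [norm_eq, intervalIntegral.integral_of_le h1, intervalIntegral.integral_of_le zero_le_one]
    refine setIntegral_mono_set ?_ ?_ ?_
    · exact (hki.mono_set Ioc_subset_Icc_self).norm
    · exact Filter.Eventually.of_forall fun t => norm_nonneg _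
    · exact (Ioc_subset_Ioc h0 h2).eventuallyLE
  have hkii : ∀ a a' : ℝ, 0 ≤ a → a ≤ a' → a' ≤ 1 → IntervalIntegrable (k : ℝ → ℂ) volume a a' := by
    intro a a' h0 h1 h2
    rw [intervalIntegrable_iff_integrableOn_Ioc_of_le h1]
    exact hki.mono_set (fun t ht => ⟨h0.trans ht.1.le, ht.2.trans h2⟩)
  have hQ : 0 ≤ Q := by
    have h0 := h 0
    simp only [Nat.cast_zero, mul_zero, neg_zero, Real.exp_zero, mul_one] at h0
    exact (norm_nonneg _).trans h0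
  have hk0 : 0 ≤ ‖k‖ := norm_nonneg k
  set F : ℝ → ℂ := fun t => ∫ s in (0:ℝ)..t, k s with hF
  have hFc : ContinuousOn F (Icc 0 1) := by
    have h1 := intervalIntegral.continuousOn_primitive_interval (f := (k : ℝ → ℂ)) (μ := volume)
      (a := 0) (b := 1) (by rw [uIcc_of_le zero_le_one]; exact hki)
    rwa [uIcc_of_le zero_le_one] at h1
  have hFb : ∀ t ∈ Icc (0:ℝ) 1, ‖F t‖ ≤ ‖k‖ := by
    intro t ht
    calc ‖F t‖ ≤ ∫ s in (0:ℝ)..t, ‖k s‖ := intervalIntegral.norm_integral_le_integral_norm ht.1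
      _ ≤ ‖k‖ := hknorm 0 t le_rfl ht.1 ht.2
  -- the key identity
  have key : ∀ n : ℕ, (n : ℂ) * ∫ t in (0:ℝ)..c, Complex.exp (-((n : ℂ) * (t : ℂ))) * F t =
      (∫ s in (0:ℝ)..c, Complex.exp (-((n : ℂ) * (s : ℂ))) * k s) -
        Complex.exp (-((n : ℂ) * (c : ℂ))) * F c := by
    intro n
    have h1 := h05_fub c hc (fun t => (n : ℂ) * Complex.exp (-((n : ℂ) * (t : ℂ)))) k (by fun_prop)
      (hki.mono_set (fun t ht => ⟨ht.1.le, ht.2.trans (hcb.trans hb)⟩))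
    simp only [h05_exp] at h1
    rw [← intervalIntegral.integral_const_mul]
    have h2 : ∫ t in (0:ℝ)..c, (n : ℂ) * (Complex.exp (-((n : ℂ) * (t : ℂ))) * F t) =
        ∫ t in (0:ℝ)..c, (n : ℂ) * Complex.exp (-((n : ℂ) * (t : ℂ))) * ∫ s in (0:ℝ)..t, k s := by
      congr 1
      ext t
      rw [mul_assoc]
    rw [h2, h1]
    simp only [sub_mul]
    rw [intervalIntegral.integral_sub, intervalIntegral.integral_const_mul]
    · exact (hkii 0 c le_rfl hc (hcb.trans hb)).continuousOn_mul (by fun_prop)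
    · exact (hkii 0 c le_rfl hc (hcb.trans hb)).continuousOn_mul (by fun_prop)
  have hexp : ∀ (n : ℕ) (t : ℝ), ‖Complex.exp (-((n : ℂ) * (t : ℂ)))‖ = Real.exp (-(n * t)) := by
    intro n t
    rw [Complex.norm_exp]
    congr 1
    simp
  have hb1 : ∀ n : ℕ, ‖∫ s in (0:ℝ)..c, Complex.exp (-((n : ℂ) * (s : ℂ))) * k s‖ ≤
      (Q + ‖k‖) * Real.exp (-(n * c)) := by
    intro n
    have h1 : (∫ s in (0:ℝ)..c, Complex.exp (-((n : ℂ) * (s : ℂ))) * k s) =
        Lap b k n - ∫ s in c..b, Complex.exp (-((n : ℂ) * (s : ℂ))) * k s := by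
      unfold Lap
      rw [← intervalIntegral.integral_add_adjacent_intervals (b := c) (a := 0) (c := b)]
      · ring
      · exact (hkii 0 c le_rfl hc (hcb.trans hb)).continuousOn_mul (by fun_prop)
      · exact (hkii c b hc hcb hb).continuousOn_mul (by fun_prop)
    rw [h1]
    have h2 : ‖∫ s in c..b, Complex.exp (-((n : ℂ) * (s : ℂ))) * k s‖ ≤
        ‖k‖ * Real.exp (-(n * c)) := by
      calc ‖∫ s in c..b, Complex.exp (-((n : ℂ) * (s : ℂ))) * k s‖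
          ≤ ∫ s in c..b, Real.exp (-(n * c)) * ‖k s‖ := by
            refine intervalIntegral.norm_integral_le_of_norm_le hcb ?_ ?_
            · refine Filter.Eventually.of_forall fun s hs => ?_
              rw [norm_mul, hexp]
              refine mul_le_mul_of_nonneg_right ?_ (norm_nonneg _)
              apply Real.exp_le_exp.2
              have : (n : ℝ) * c ≤ n * s := mul_le_mul_of_nonneg_left hs.1.le (Nat.cast_nonneg n)
              linarith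
            · exact ((hkii c b hc hcb hb).norm).const_mul _
        _ = Real.exp (-(n * c)) * ∫ s in c..b, ‖k s‖ := intervalIntegral.integral_const_mul _ _
        _ ≤ Real.exp (-(n * c)) * ‖k‖ := by
            refine mul_le_mul_of_nonneg_left (hknorm c b hc hcb hb) (Real.exp_pos _).le
        _ = ‖k‖ * Real.exp (-(n * c)) := mul_comm _ _
    have h3 := h n
    rw [mul_comm c (n : ℝ)] at h3
    calc ‖Lap b k n - ∫ s in c..b, Complex.exp (-((n : ℂ) * (s : ℂ))) * k s‖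
        ≤ ‖Lap b k n‖ + ‖∫ s in c..b, Complex.exp (-((n : ℂ) * (s : ℂ))) * k s‖ := norm_sub_le _ _
      _ ≤ (Q + ‖k‖) * Real.exp (-(n * c)) := by linarith
  have hb2 : ∀ n : ℕ, 1 ≤ n → ‖∫ t in (0:ℝ)..c, Complex.exp (-((n : ℂ) * (t : ℂ))) * F t‖ ≤
      (Q + 2 * ‖k‖) * Real.exp (-(n * c)) := by
    intro n hn
    have h1 := congrArg norm (key n)
    rw [norm_mul, Complex.norm_natCast] at h1
    have h2 : ‖(∫ s in (0:ℝ)..c, Complex.exp (-((n : ℂ) * (s : ℂ))) * k s) -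
        Complex.exp (-((n : ℂ) * (c : ℂ))) * F c‖ ≤ (Q + 2 * ‖k‖) * Real.exp (-(n * c)) := by
      refine (norm_sub_le _ _).trans ?_
      rw [norm_mul, hexp]
      have h3 := hb1 n
      have h4 : Real.exp (-(n * c)) * ‖F c‖ ≤ Real.exp (-(n * c)) * ‖k‖ :=
        mul_le_mul_of_nonneg_left (hFb c ⟨hc, hcb.trans hb⟩) (Real.exp_pos _).le
      linarith
    rw [← h1] at h2
    have h5 : (1 : ℝ) ≤ n := by exact_mod_cast hn
    refine le_trans ?_ h2
    exact le_mul_of_one_le_left (norm_nonneg _) h5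
  have hsub : ∀ n : ℕ, ∫ s in (0:ℝ)..c, (Real.exp (n * s) : ℂ) * F (c - s) =
      Complex.exp ((n : ℂ) * (c : ℂ)) * ∫ t in (0:ℝ)..c, Complex.exp (-((n : ℂ) * (t : ℂ))) * F t := by
    intro n
    have h1 := intervalIntegral.integral_comp_sub_left (a := 0) (b := c)
      (fun t : ℝ => Complex.exp (-((n : ℂ) * (t : ℂ))) * F t) c
    rw [sub_self, sub_zero] at h1
    rw [← h1, ← intervalIntegral.integral_const_mul]
    congr 1
    ext s
    rw [← mul_assoc, ← Complex.exp_add, Complex.ofReal_exp]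
    congr 2
    push_cast
    ring
  have hbound : ∀ n : ℕ, ‖∫ s in (0:ℝ)..c, (Real.exp (n * s) : ℂ) * F (c - s)‖ ≤
      Q + 2 * ‖k‖ := by
    intro n
    rcases Nat.eq_zero_or_pos n with rfl | hn
    · rw [hsub]
      simp only [Nat.cast_zero, zero_mul, neg_zero, Complex.exp_zero, one_mul]
      have h1 := intervalIntegral.norm_integral_le_of_norm_le_const (a := (0 : ℝ)) (b := c)
        (f := F) (C := ‖k‖) (fun t ht => by
          rw [Set.uIoc_of_le hc] at ht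
          exact hFb t ⟨ht.1.le, ht.2.trans (hcb.trans hb)⟩)
      rw [sub_zero, abs_of_nonneg hc] at h1
      have h2 : ‖k‖ * c ≤ ‖k‖ * 1 := mul_le_mul_of_nonneg_left (hcb.trans hb) hk0
      linarith
    · rw [hsub, norm_mul]
      have h1 : ‖Complex.exp ((n : ℂ) * (c : ℂ))‖ = Real.exp (n * c) := by
        rw [Complex.norm_exp]
        congr 1
        simp
      rw [h1]
      calc Real.exp (n * c) * ‖∫ t in (0:ℝ)..c, Complex.exp (-((n : ℂ) * (t : ℂ))) * F t‖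
          ≤ Real.exp (n * c) * ((Q + 2 * ‖k‖) * Real.exp (-(n * c))) :=
            mul_le_mul_of_nonneg_left (hb2 n hn) (Real.exp_pos _).le
        _ = (Q + 2 * ‖k‖) * (Real.exp (n * c) * Real.exp (-(n * c))) := by ring
        _ = Q + 2 * ‖k‖ := by rw [← Real.exp_add, add_neg_cancel, Real.exp_zero, mul_one]
  have hzero := moment_lemma c hc0 (fun s => F (c - s)) (by
    refine hFc.comp (by fun_prop) ?_
    intro s hs
    exact ⟨by linarith [hs.2], by linarith [hs.1]⟩) (Q + 2 * ‖k‖) hbound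
  have hFzero : ∀ t, 0 ≤ t → t ≤ c → F t = 0 := by
    intro t h0 h1
    have h2 := hzero (c - t) ⟨by linarith, by linarith⟩
    simpa using h2
  apply inj_u
  have h1 : P c (conv u k) = P c 0 := by
    apply P_eq_of_ae
    have hI : ∀ᵐ t ∂mI, t ∈ Icc (0:ℝ) 1 := ae_restrict_mem measurableSet_Icc
    filter_upwards [conv_u_ae k, hI, Lp.coeFn_zero ℂ 1 mI] with t h2 h3 h4 h5
    rw [h2, h4]
    exact hFzero t h3.1 h5.le
  rw [h1, map_zero]

theorem h01_normsq (a u : ℂ) (R : ℝ) (hR : 0 < R) :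
    ‖((R : ℂ) ^ 2 - (starRingEnd ℂ) a * u) / (R : ℂ)‖ ^ 2 - ‖u - a‖ ^ 2
      = (R ^ 2 - ‖u‖ ^ 2) * (R ^ 2 - ‖a‖ ^ 2) / R ^ 2 := by
  have hR0 : R ≠ 0 := hR.ne'
  rw [norm_div, div_pow, ← Complex.normSq_eq_norm_sq, ← Complex.normSq_eq_norm_sq,
    ← Complex.normSq_eq_norm_sq, ← Complex.normSq_eq_norm_sq, ← Complex.normSq_eq_norm_sq]
  have h1 : ((R : ℂ) ^ 2) = ((R ^ 2 : ℝ) : ℂ) := by push_cast; rfl
  rw [h1, Complex.normSq_ofReal]
  simp only [Complex.normSq_apply, Complex.sub_re, Complex.sub_im, Complex.mul_re, Complex.mul_im,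
    Complex.conj_re, Complex.conj_im, Complex.ofReal_re, Complex.ofReal_im]
  field_simp
  ring

theorem h01_lin {c w ρ : ℂ} {R : ℝ} (hR : 0 < R) (hρ : ρ ∈ Metric.closedBall c R)
    (hw : w ∈ Metric.ball c R) (hne : w ≠ ρ) :
    Real.log ‖w - ρ‖ ≤ Real.circleAverage
      ((Complex.re ∘ herglotzRieszKernel c w) * (fun z => Real.log ‖z - ρ‖)) c R := by
  rcases eq_or_lt_of_le (Metric.mem_closedBall.1 hρ) with h | h
  · have h' : ρ ∈ Metric.sphere c R := h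
    exact (circleAverage_re_herglotzRieszKernel_mul_log h' hw).ge
  · have ha : ‖ρ - c‖ < R := by rwa [dist_eq_norm] at h
    set q : ℂ → ℂ := fun z => ((R : ℂ) ^ 2 - (starRingEnd ℂ) (ρ - c) * (z - c)) / (R : ℂ) with hq
    have hRC : (R : ℂ) ≠ 0 := by exact_mod_cast hR.ne'
    have hq0 : ∀ z ∈ Metric.closedBall c R, q z ≠ 0 := by
      intro z hz h0
      have hz' : ‖z - c‖ ≤ R := by simpa [dist_eq_norm] using hz
      have h2 : (R : ℂ) ^ 2 - (starRingEnd ℂ) (ρ - c) * (z - c) = 0 := by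
        rcases div_eq_zero_iff.1 h0 with h3 | h3
        · exact h3
        · exact absurd h3 hRC
      have h3 : ‖(R : ℂ) ^ 2‖ = ‖(starRingEnd ℂ) (ρ - c) * (z - c)‖ := by
        rw [sub_eq_zero.1 h2]
      rw [norm_mul, norm_pow, RCLike.norm_conj, Complex.norm_real, Real.norm_eq_abs,
        abs_of_pos hR] at h3
      have h4 : ‖ρ - c‖ * ‖z - c‖ ≤ ‖ρ - c‖ * R := by gcongr
      nlinarith
    have hqa : ∀ z, AnalyticAt ℂ q z := by
      intro z
      apply AnalyticAt.div _ analyticAt_const hRC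
      fun_prop
    have hharm : InnerProductSpace.HarmonicOnNhd (fun z => Real.log ‖q z‖)
        (Metric.closedBall c R) := by
      intro z hz
      exact (hqa z).harmonicAt_log_norm (hq0 z hz)
    have hP := InnerProductSpace.HarmonicOnNhd.circleAverage_re_herglotzRieszKernel_smul hharm hw
    have hsq : Real.circleAverage
        ((Complex.re ∘ herglotzRieszKernel c w) * (fun z => Real.log ‖z - ρ‖)) c R
        = Real.circleAverage
        ((Complex.re ∘ herglotzRieszKernel c w) • (fun z => Real.log ‖q z‖)) c R := by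
      apply Real.circleAverage_congr_sphere
      intro z hz
      rw [abs_of_pos hR, mem_sphere_iff_norm] at hz
      have h5 := h01_normsq (ρ - c) (z - c) R hR
      rw [hz] at h5
      have h6 : ‖q z‖ ^ 2 = ‖z - ρ‖ ^ 2 := by
        have h7 : z - c - (ρ - c) = z - ρ := by ring
        rw [h7] at h5
        simp only [sub_self, zero_mul, zero_div] at h5
        simp only [hq]
        linarith
      have h8 : ‖q z‖ = ‖z - ρ‖ := by
        exact (pow_left_inj₀ (norm_nonneg _) (norm_nonneg _) two_ne_zero).1 h6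
      simp only [Pi.mul_apply, Pi.smul_apply', smul_eq_mul, h8]
    rw [hsq, hP]
    apply Real.log_le_log (norm_pos_iff.2 (sub_ne_zero.2 hne))
    have hw' : ‖w - c‖ < R := by simpa [dist_eq_norm] using hw
    have h5 := h01_normsq (ρ - c) (w - c) R hR
    have h7 : w - c - (ρ - c) = w - ρ := by ring
    rw [h7] at h5
    have h9 : 0 ≤ (R ^ 2 - ‖w - c‖ ^ 2) * (R ^ 2 - ‖ρ - c‖ ^ 2) / R ^ 2 := by
      apply div_nonneg _ (by positivity)
      apply mul_nonneg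
      · have := norm_nonneg (w - c)
        nlinarith
      · have := norm_nonneg (ρ - c)
        nlinarith
    have h10 : ‖w - ρ‖ ^ 2 ≤ ‖q w‖ ^ 2 := by
      simp only [hq]
      linarith
    exact (pow_le_pow_iff_left₀ (norm_nonneg _) (norm_nonneg _) two_ne_zero).1 h10

theorem h01_kcont {c w : ℂ} {R : ℝ} (hw : w ∈ Metric.ball c R) :
    ContinuousOn (Complex.re ∘ herglotzRieszKernel c w) (Metric.sphere c |R|) :=
  Complex.continuous_re.comp_continuousOn (continuousOn_herglotzRieszKernel_sphere hw)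

theorem h01_kint {c w : ℂ} {R : ℝ} (hw : w ∈ Metric.ball c R) {f : ℂ → ℝ}
    (hf : CircleIntegrable f c R) :
    CircleIntegrable ((Complex.re ∘ herglotzRieszKernel c w) * f) c R := by
  have := hf.continuousOn_smul (h01_kcont hw)
  exact this

theorem h01_poisson {c w : ℂ} {R : ℝ} (hR : 0 < R) {f : ℂ → ℂ}
    (hf : AnalyticOnNhd ℂ f (Metric.closedBall c R))
    (hw : w ∈ Metric.ball c R) (hfw : f w ≠ 0) :
    Real.log ‖f w‖ ≤ Real.circleAverage
      ((Complex.re ∘ herglotzRieszKernel c w) * (fun z => Real.log ‖f z‖)) c R := by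
  have hwc : w ∈ Metric.closedBall c R := Metric.ball_subset_closedBall hw
  set U := Metric.closedBall c R with hU
  have hmer : MeromorphicOn f U := hf.meromorphicOn
  -- orders are finite
  have hord : ∀ u : U, meromorphicOrderAt f u ≠ ⊤ := by
    have hpre : IsPreconnected U := (convex_closedBall c R).isPreconnected
    have hw0 : meromorphicOrderAt f w ≠ ⊤ := by
      rw [(hf w hwc).meromorphicOrderAt_eq]
      have : analyticOrderAt f w = 0 := by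
        rw [(hf w hwc).analyticOrderAt_eq_zero]; exact hfw
      rw [this]; simp
    intro u
    exact hmer.meromorphicOrderAt_ne_top_of_isPreconnected hpre hwc u.2 hw0
  have hfin : (MeromorphicOn.divisor f U).support.Finite :=
    (MeromorphicOn.divisor f U).finiteSupport (isCompact_closedBall c R)
  obtain ⟨g, hg, hg0, hfg⟩ := hmer.extract_zeros_poles hord hfin
  have hD0 : ∀ u, 0 ≤ MeromorphicOn.divisor f U u := by
    intro u
    exact MeromorphicOn.AnalyticOnNhd.divisor_nonneg hf u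
  have hDmem : ∀ u, MeromorphicOn.divisor f U u ≠ 0 → u ∈ U := by
    intro u hu
    exact (MeromorphicOn.divisor f U).supportWithinDomain hu
  set D : ℂ → ℤ := fun u => MeromorphicOn.divisor f U u with hD
  set S := hfin.toFinset with hS
  have hSmem : ∀ u, u ∈ S ↔ D u ≠ 0 := by
    intro u
    simp [hS, hD]
  -- factorization with natural powers
  set F : ℂ → ℂ := fun z => (∏ u ∈ S, (z - u) ^ (D u).toNat) * g z with hF
  have hfF : ((∏ᶠ u, (· - u) ^ MeromorphicOn.divisor f U u) • g : ℂ → ℂ) = F := by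
    funext z
    have h1 : (∏ᶠ u, (fun z : ℂ => z - u) ^ MeromorphicOn.divisor f U u : ℂ → ℂ)
        = ∏ u ∈ S, (fun z : ℂ => z - u) ^ MeromorphicOn.divisor f U u := by
      apply finprod_eq_prod_of_mulSupport_subset
      intro u hu
      rw [Finset.mem_coe, hSmem]
      intro h0
      apply hu
      have : MeromorphicOn.divisor f U u = 0 := h0
      simp [this]
    have h2 : ((∏ᶠ u, (fun z : ℂ => z - u) ^ MeromorphicOn.divisor f U u) • g : ℂ → ℂ) z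
        = (∏ᶠ u, (fun z : ℂ => z - u) ^ MeromorphicOn.divisor f U u : ℂ → ℂ) z * g z := rfl
    rw [h2, h1, hF, Finset.prod_apply]
    congr 1
    apply Finset.prod_congr rfl
    intro u _
    have h3 : MeromorphicOn.divisor f U u = ((D u).toNat : ℤ) := (Int.toNat_of_nonneg (hD0 u)).symm
    rw [Pi.pow_apply, h3, zpow_natCast]
  have hwint : U ∈ 𝓝 w := mem_of_superset (Metric.isOpen_ball.mem_nhds hw)
    Metric.ball_subset_closedBall
  have hfFw : f w = F w := by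
    have h1 : ∀ᶠ z in 𝓝[≠] w, f z = F z := by
      rw [hfF] at hfg
      have h2 : {z | f z = F z} ∈ codiscreteWithin U := hfg
      rw [mem_codiscreteWithin] at h2
      have h3 := h2 w hwc
      rw [Filter.disjoint_principal_right] at h3
      filter_upwards [h3, mem_nhdsWithin_of_mem_nhds hwint] with z hz1 hz2
      by_contra h4
      exact hz1 ⟨hz2, h4⟩
    have hc1 : Tendsto f (𝓝[≠] w) (𝓝 (f w)) :=
      (hf w hwc).continuousAt.tendsto.mono_left nhdsWithin_le_nhds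
    have hFc : ContinuousAt F w := by
      apply ContinuousAt.mul
      · fun_prop
      · exact (hg w hwc).continuousAt
    have hc2 : Tendsto F (𝓝[≠] w) (𝓝 (F w)) := hFc.tendsto.mono_left nhdsWithin_le_nhds
    exact tendsto_nhds_unique hc1 (hc2.congr' (h1.mono fun z hz => hz.symm))
  have hne : ∀ u ∈ S, w ≠ u := by
    intro u hu h0
    apply hfw
    rw [hfFw, hF]
    have h1 : (w - u) ^ (D u).toNat = 0 := by
      rw [h0, sub_self]
      apply zero_pow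
      have h2 := (hSmem u).1 hu
      have h3 := hD0 u
      have h4 : 0 < D u := lt_of_le_of_ne h3 (Ne.symm h2)
      have := Int.toNat_of_nonneg h3
      simp only [hD] at *
      omega
    simp only [mul_eq_zero]
    left
    exact Finset.prod_eq_zero hu h1
  have hlogw : Real.log ‖f w‖ = ∑ u ∈ S, (D u : ℝ) * Real.log ‖w - u‖ + Real.log ‖g w‖ := by
    rw [hfFw, hF]
    simp only [norm_mul, norm_prod, norm_pow]
    rw [Real.log_mul, Real.log_prod]
    · congr 1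
      apply Finset.sum_congr rfl
      intro u _
      rw [Real.log_pow]
      congr 1
      have := Int.toNat_of_nonneg (hD0 u)
      exact_mod_cast this
    · intro u hu
      exact pow_ne_zero _ (norm_ne_zero_iff.2 (sub_ne_zero.2 (hne u hu)))
    · apply Finset.prod_ne_zero_iff.2
      intro u hu
      exact pow_ne_zero _ (norm_ne_zero_iff.2 (sub_ne_zero.2 (hne u hu)))
    · exact norm_ne_zero_iff.2 (hg0 ⟨w, hwc⟩)
  -- log identity on the circle
  have hlogc := MeromorphicOn.extract_zeros_poles_log hg0 hfg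
  have hsum : (∑ᶠ u, (MeromorphicOn.divisor f U u * Real.log ‖· - u‖) : ℂ → ℝ)
      = ∑ u ∈ S, (fun z : ℂ => (D u : ℝ) * Real.log ‖z - u‖) := by
    apply finsum_eq_sum_of_support_subset
    intro u hu
    rw [Finset.mem_coe, hSmem]
    intro h0
    apply hu
    have h1 : MeromorphicOn.divisor f U u = 0 := h0
    funext z
    simp [h1]
  rw [hsum] at hlogc
  have hcodS : ((Complex.re ∘ herglotzRieszKernel c w) * (fun z => Real.log ‖f z‖))
      =ᶠ[codiscreteWithin (Metric.sphere c |R|)]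
      (∑ u ∈ S, (fun z : ℂ => (D u : ℝ) • ((Complex.re ∘ herglotzRieszKernel c w) *
        (fun z => Real.log ‖z - u‖)) z))
        + (Complex.re ∘ herglotzRieszKernel c w) * (fun z => Real.log ‖g z‖) := by
    have h1 : codiscreteWithin (Metric.sphere c |R|) ≤ codiscreteWithin U := by
      apply codiscreteWithin_mono
      rw [abs_of_pos hR]
      exact Metric.sphere_subset_closedBall
    filter_upwards [h1 hlogc] with z hz
    have hz' : Real.log ‖f z‖ = (∑ u ∈ S, (fun z : ℂ => (D u : ℝ) * Real.log ‖z - u‖)) z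
      + Real.log ‖g z‖ := hz
    simp only [Pi.mul_apply, Pi.add_apply, Finset.sum_apply, smul_eq_mul] at hz' ⊢
    rw [hz', _root_.mul_add, Finset.mul_sum]
    congr 1
    apply Finset.sum_congr rfl
    intro u _
    ring
  rw [Real.circleAverage_congr_codiscreteWithin hcodS hR.ne']
  have hgint : CircleIntegrable (fun z => Real.log ‖g z‖) c R := by
    apply MeromorphicOn.circleIntegrable_log_norm
    rw [abs_of_pos hR]
    exact (hg.mono Metric.sphere_subset_closedBall).meromorphicOn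
  have huint : ∀ u : ℂ, CircleIntegrable (fun z => Real.log ‖z - u‖) c R := by
    intro u
    apply MeromorphicOn.circleIntegrable_log_norm (f := fun z => z - u)
    intro z _
    fun_prop
  have hSint : ∀ u ∈ S, CircleIntegrable (fun z : ℂ => (D u : ℝ) •
      ((Complex.re ∘ herglotzRieszKernel c w) * (fun z => Real.log ‖z - u‖)) z) c R := by
    intro u _
    exact (h01_kint hw (huint u)).const_smul
  rw [Real.circleAverage_add (CircleIntegrable.sum S hSint) (h01_kint hw hgint),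
    Real.circleAverage_sum hSint, hlogw]
  have hharm : InnerProductSpace.HarmonicOnNhd (fun z => Real.log ‖g z‖)
      (Metric.closedBall c R) := by
    intro z hz
    exact (hg z hz).harmonicAt_log_norm (hg0 ⟨z, hz⟩)
  have hP := InnerProductSpace.HarmonicOnNhd.circleAverage_re_herglotzRieszKernel_smul hharm hw
  have hP' : Real.circleAverage
      ((Complex.re ∘ herglotzRieszKernel c w) * (fun z => Real.log ‖g z‖)) c R
      = Real.log ‖g w‖ := hP
  rw [hP']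
  gcongr with u hu
  rw [Real.circleAverage_fun_smul, smul_eq_mul]
  apply mul_le_mul_of_nonneg_left
  · exact h01_lin hR (hDmem u ((hSmem u).1 hu)) hw (hne u hu)
  · exact_mod_cast hD0 u

theorem harnack_jensen {c w : ℂ} {R : ℝ} (hR : 0 < R) {f : ℂ → ℂ}
    (hf : AnalyticOnNhd ℂ f (Metric.closedBall c R))
    (hb : ∀ z ∈ Metric.closedBall c R, ‖f z‖ ≤ 1) (hw : w ∈ Metric.ball c R) (hfw : f w ≠ 0) :
    Real.log ‖f w‖ ≤ (R - ‖w - c‖) / (R + ‖w - c‖) *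
      Real.circleAverage (fun z => Real.log ‖f z‖) c R := by
  have h1 := h01_poisson hR hf hw hfw
  have hint : CircleIntegrable (fun z => Real.log ‖f z‖) c R := by
    apply MeromorphicOn.circleIntegrable_log_norm
    rw [abs_of_pos hR]
    exact (hf.mono Metric.sphere_subset_closedBall).meromorphicOn
  refine h1.trans ?_
  have h2 : (R - ‖w - c‖) / (R + ‖w - c‖) * Real.circleAverage (fun z => Real.log ‖f z‖) c R
      = Real.circleAverage (fun z => ((R - ‖w - c‖) / (R + ‖w - c‖)) • Real.log ‖f z‖) c R := by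
    rw [Real.circleAverage_fun_smul]
    rfl
  rw [h2]
  apply Real.circleAverage_mono (h01_kint hw hint)
  · exact hint.const_smul
  · intro z hz
    rw [abs_of_pos hR] at hz
    have h3 := le_re_herglotzRieszKernel hz hw
    have h4 : Real.log ‖f z‖ ≤ 0 :=
      Real.log_nonpos (norm_nonneg _) (hb z (Metric.sphere_subset_closedBall hz))
    simp only [Pi.mul_apply, Function.comp_apply, smul_eq_mul]
    exact mul_le_mul_of_nonpos_right h3 h4

theorem jensen_le {c : ℂ} {R : ℝ} (hR : 0 < R) {f : ℂ → ℂ}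
    (hf : AnalyticOnNhd ℂ f (Metric.closedBall c R)) (hfc : f c ≠ 0) :
    Real.log ‖f c‖ ≤ Real.circleAverage (fun z => Real.log ‖f z‖) c R := by
  have habs : |R| = R := abs_of_pos hR
  have hf' : AnalyticOnNhd ℂ f (Metric.closedBall c |R|) := by rw [habs]; exact hf
  have h := AnalyticOnNhd.circleAverage_log_norm hR.ne' hf' hfc
  rw [h]
  have hnn : 0 ≤ ∑ᶠ u, ((MeromorphicOn.divisor f (Metric.closedBall c |R|) u : ℤ) : ℝ) *
      Real.log (R * ‖c - u‖⁻¹) := by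
    apply finsum_nonneg
    intro u
    by_cases hu : u ∈ Metric.closedBall c |R|
    · apply mul_nonneg
      · exact_mod_cast (MeromorphicOn.AnalyticOnNhd.divisor_nonneg hf') u
      · by_cases hcu : c = u
        · rw [hcu, sub_self, norm_zero, inv_zero, mul_zero, Real.log_zero]
        · apply Real.log_nonneg
          have h1 : 0 < ‖c - u‖ := norm_pos_iff.2 (sub_ne_zero.2 hcu)
          rw [← div_eq_mul_inv, one_le_div h1]
          rw [Metric.mem_closedBall, dist_comm, dist_eq_norm, habs] at hu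
          exact hu
    · rw [Function.locallyFinsuppWithin.apply_eq_zero_of_notMem _ hu]
      simp
  linarith

theorem h03_avg (x L b : ℝ) :
    Real.circleAverage (fun z : ℂ => L - b * z.re) (x : ℂ) x = L - b * x := by
  have h1 : ∀ θ : ℝ, L - b * (circleMap (x : ℂ) x θ).re = (L - b * x) - b * x * Real.cos θ := by
    intro θ
    have h2 : (circleMap (x : ℂ) x θ).re = x + x * Real.cos θ := by
      rw [circleMap, Complex.add_re, Complex.ofReal_re, Complex.re_ofReal_mul,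
        Complex.exp_ofReal_mul_I_re]
    rw [h2]
    ring
  rw [Real.circleAverage_def]
  simp only [h1]
  rw [intervalIntegral.integral_sub (by simp) (by
    apply Continuous.intervalIntegrable
    fun_prop)]
  rw [intervalIntegral.integral_const, intervalIntegral.integral_const_mul, integral_cos]
  simp only [Real.sin_two_pi, Real.sin_zero, sub_zero, mul_zero, smul_eq_mul]
  have := Real.pi_pos
  field_simp

theorem h03_codiscrete (c : ℂ) (R : ℝ) (f : ℂ → ℂ) (hf : Differentiable ℂ f) (w : ℂ)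
    (hw : f w ≠ 0) : ∀ᶠ z in codiscreteWithin (Metric.sphere c |R|), f z ≠ 0 := by
  have h1 : AnalyticOnNhd ℂ f Set.univ := fun z _ => hf.analyticAt z
  rcases h1.eqOn_zero_or_eventually_ne_zero_of_preconnected isPreconnected_univ with h2 | h2
  · exact absurd (h2 (Set.mem_univ w)) hw
  · exact codiscreteWithin_mono (Set.subset_univ _) h2

theorem h03_point (H K : ℂ → ℂ) (hH : Differentiable ℂ H) (hK : Differentiable ℂ K)
    (bH : ∀ z : ℂ, 0 ≤ z.re → ‖H z‖ ≤ 1) (bK : ∀ z : ℂ, 0 ≤ z.re → ‖K z‖ ≤ 1) (b Q : ℝ)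
    (hQ : 0 < Q)
    (hHK : ∀ z : ℂ, 0 ≤ z.re → ‖H z * K z‖ ≤ Q * Real.exp (-(b * z.re)))
    (ε : ℝ) (n : ℝ) (hn : 0 < n) (hKn : K (n : ℂ) ≠ 0) (x : ℝ) (hx : n < x)
    (hx2 : Real.exp (-(ε * x)) ≤ ‖H (x : ℂ)‖) :
    Real.log ‖K (n : ℂ)‖ ≤ n / (2 * x - n) * (Real.log Q - b * x + ε * x) := by
  have hx0 : 0 < x := hn.trans hx
  have hball : ∀ z ∈ Metric.closedBall (x : ℂ) x, 0 ≤ z.re := by
    intro z hz
    rw [Metric.mem_closedBall, dist_eq_norm] at hz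
    have h1 := (Complex.abs_re_le_norm (z - x)).trans hz
    rw [Complex.sub_re, Complex.ofReal_re] at h1
    have := (abs_le.1 h1).1
    linarith
  have hHx : H (x : ℂ) ≠ 0 := by
    intro h1
    rw [h1, norm_zero] at hx2
    exact absurd hx2 (not_le.2 (Real.exp_pos _))
  -- Jensen for `H`
  have hL1 : -(ε * x) ≤ Real.circleAverage (fun z => Real.log ‖H z‖) x x := by
    have h1 := jensen_le hx0 (fun z _ => hH.analyticAt z) hHx
    refine le_trans ?_ h1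
    rw [Real.le_log_iff_exp_le (norm_pos_iff.2 hHx)]
    exact hx2
  have iH : CircleIntegrable (fun z => Real.log ‖H z‖) (x : ℂ) x :=
    MeromorphicOn.circleIntegrable_log_norm (fun z _ => (hH.analyticAt z).meromorphicAt)
  have iK : CircleIntegrable (fun z => Real.log ‖K z‖) (x : ℂ) x :=
    MeromorphicOn.circleIntegrable_log_norm (fun z _ => (hK.analyticAt z).meromorphicAt)
  classical
  let G : ℂ → ℝ := fun z => if H z ≠ 0 ∧ K z ≠ 0 then Real.log ‖H z‖ + Real.log ‖K z‖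
    else Real.log Q - b * z.re
  have hG : (fun z => Real.log ‖H z‖ + Real.log ‖K z‖)
      =ᶠ[codiscreteWithin (Metric.sphere (x : ℂ) |x|)] G := by
    filter_upwards [h03_codiscrete x x H hH x hHx, h03_codiscrete x x K hK n hKn] with z h1 h2
    exact (if_pos ⟨h1, h2⟩).symm
  have iHK : CircleIntegrable (fun z => Real.log ‖H z‖ + Real.log ‖K z‖) (x : ℂ) x := iH.add iK
  have iG : CircleIntegrable G (x : ℂ) x := iHK.congr_codiscreteWithin hG
  have hsum : Real.circleAverage (fun z => Real.log ‖H z‖) x x +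
      Real.circleAverage (fun z => Real.log ‖K z‖) x x ≤ Real.log Q - b * x := by
    rw [← Real.circleAverage_fun_add iH iK, Real.circleAverage_congr_codiscreteWithin hG hx0.ne',
      ← h03_avg x (Real.log Q) b]
    refine Real.circleAverage_mono iG ?_ ?_
    · apply ContinuousOn.circleIntegrable'
      fun_prop
    · intro z hz
      show (if H z ≠ 0 ∧ K z ≠ 0 then Real.log ‖H z‖ + Real.log ‖K z‖
        else Real.log Q - b * z.re) ≤ Real.log Q - b * z.re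
      split_ifs with h1
      · have hz' : 0 ≤ z.re := by
          apply hball
          rw [abs_of_pos hx0] at hz
          exact Metric.sphere_subset_closedBall hz
        have h2 := hHK z hz'
        rw [← Real.log_mul (norm_ne_zero_iff.2 h1.1) (norm_ne_zero_iff.2 h1.2), ← norm_mul]
        have h3 : 0 < ‖H z * K z‖ := norm_pos_iff.2 (mul_ne_zero h1.1 h1.2)
        have h4 := Real.log_le_log h3 h2
        rw [Real.log_mul hQ.ne' (Real.exp_pos _).ne', Real.log_exp] at h4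
        linarith
      · exact le_rfl
  have hn1 : ‖(n : ℂ) - (x : ℂ)‖ = x - n := by
    rw [← Complex.ofReal_sub, Complex.norm_real, Real.norm_eq_abs, abs_of_neg (by linarith)]
    ring
  have hk := harnack_jensen (c := (x : ℂ)) (w := (n : ℂ)) (R := x) hx0
    (fun z _ => hK.analyticAt z) (fun z hz => bK z (hball z hz)) (by
      rw [Metric.mem_ball, dist_eq_norm, hn1]
      linarith) hKn
  rw [hn1] at hk
  have e1 : (x - (x - n)) / (x + (x - n)) = n / (2 * x - n) := by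
    congr 1 <;> ring
  rw [e1] at hk
  refine hk.trans ?_
  have h5 : 0 ≤ n / (2 * x - n) := by
    apply div_nonneg hn.le
    linarith
  apply mul_le_mul_of_nonneg_left _ h5
  linarith

theorem h03_lim (n L b ε : ℝ) :
    Tendsto (fun x : ℝ => n / (2 * x - n) * (L - b * x + ε * x)) atTop
      (𝓝 (-((b - ε) * n / 2))) := by
  have h1 : Tendsto (fun x : ℝ => x⁻¹) atTop (𝓝 0) := tendsto_inv_atTop_zero
  have h2 : Tendsto (fun x : ℝ => n / (2 - n * x⁻¹) * (L * x⁻¹ - b + ε)) atTop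
      (𝓝 (n / (2 - n * 0) * (L * 0 - b + ε))) := by
    refine Tendsto.mul (Tendsto.div tendsto_const_nhds
      (tendsto_const_nhds.sub (h1.const_mul n)) (by norm_num)) ?_
    exact ((h1.const_mul L).sub_const b).add_const ε
  have e : n / (2 - n * 0) * (L * 0 - b + ε) = -((b - ε) * n / 2) := by ring
  rw [e] at h2
  refine h2.congr' ?_
  filter_upwards [eventually_gt_atTop (max 0 n)] with x hx
  have hx0 : 0 < x := (le_max_left _ _).trans_lt hx
  have hxn : n < x := (le_max_right _ _).trans_lt hx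
  have h3 : 2 * x - n ≠ 0 := by
    have : 0 < 2 * x - n := by linarith
    exact this.ne'
  have h4 : 2 - n * x⁻¹ = (2 * x - n) / x := by field_simp
  rw [h4]
  field_simp

theorem two_fun (H K : ℂ → ℂ) (hH : Differentiable ℂ H) (hK : Differentiable ℂ K)
    (bH : ∀ z : ℂ, 0 ≤ z.re → ‖H z‖ ≤ 1) (bK : ∀ z : ℂ, 0 ≤ z.re → ‖K z‖ ≤ 1) (b Q : ℝ)
    (hb : 0 < b) (hQ : 0 < Q)
    (hHK : ∀ z : ℂ, 0 ≤ z.re → ‖H z * K z‖ ≤ Q * Real.exp (-(b * z.re)))
    (hlarge : ∀ ε > 0, ∀ A : ℝ, ∃ x : ℝ, A < x ∧ Real.exp (-(ε * x)) ≤ ‖H (x : ℂ)‖)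
    (n : ℝ) (hn : 0 ≤ n) : ‖K (n : ℂ)‖ ≤ Real.exp (-(b * n / 2)) := by
  rcases hn.eq_or_lt with h0 | hn0
  · subst h0
    refine (bK _ (by simp)).trans (le_of_eq ?_)
    simp
  by_cases hKn : K (n : ℂ) = 0
  · rw [hKn, norm_zero]
    exact (Real.exp_pos _).le
  have hpos : 0 < ‖K (n : ℂ)‖ := norm_pos_iff.2 hKn
  rw [← Real.log_le_iff_le_exp hpos]
  have key : ∀ ε : ℝ, 0 < ε → Real.log ‖K (n : ℂ)‖ ≤ -((b - ε) * n / 2) := by
    intro ε hε
    have h1 : ∃ᶠ x : ℝ in atTop, Real.log ‖K (n : ℂ)‖ ≤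
        n / (2 * x - n) * (Real.log Q - b * x + ε * x) := by
      rw [frequently_atTop]
      intro A
      obtain ⟨x, hx1, hx2⟩ := hlarge ε hε (max A n)
      exact ⟨x, (le_max_left A n).trans hx1.le,
        h03_point H K hH hK bH bK b Q hQ hHK ε n hn0 hKn x ((le_max_right A n).trans_lt hx1) hx2⟩
    have h2 := h03_lim n (Real.log Q) b ε
    exact ge_of_tendsto_of_frequently h2 h1
  have h3 : Tendsto (fun ε : ℝ => -((b - ε) * n / 2)) (𝓝[>] 0) (𝓝 (-((b - 0) * n / 2))) := by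
    have h4 : Continuous (fun ε : ℝ => -((b - ε) * n / 2)) := by fun_prop
    exact (h4.tendsto 0).mono_left nhdsWithin_le_nhds
  rw [sub_zero] at h3
  exact ge_of_tendsto h3 (eventually_mem_nhdsWithin.mono fun ε hε => key ε hε)

theorem titch_half {b : ℝ} (hb : 0 < b) (hb1 : b ≤ 1) {h k : V} (hh : ∀ ε > 0, P ε h ≠ 0)
    (hc : P b (conv h k) = 0) : P (b / 2) k = 0 := by
  have hbI : b ∈ Icc (0 : ℝ) 1 := ⟨hb.le, hb1⟩
  have h0 : 0 ≤ ‖h‖ := norm_nonneg h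
  have k0 : 0 ≤ ‖k‖ := norm_nonneg k
  have h1 : 0 < 1 + ‖h‖ := by linarith
  have k1 : 0 < 1 + ‖k‖ := by linarith
  set H : ℂ → ℂ := fun z => Lap b h z / ((1 + ‖h‖ : ℝ) : ℂ) with hH
  set K : ℂ → ℂ := fun z => Lap b k z / ((1 + ‖k‖ : ℝ) : ℂ) with hK
  have nH : ∀ z, ‖H z‖ = ‖Lap b h z‖ / (1 + ‖h‖) := by
    intro z
    simp only [hH]
    rw [norm_div, Complex.norm_real, Real.norm_eq_abs, abs_of_pos h1]
  have nK : ∀ z, ‖K z‖ = ‖Lap b k z‖ / (1 + ‖k‖) := by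
    intro z
    simp only [hK]
    rw [norm_div, Complex.norm_real, Real.norm_eq_abs, abs_of_pos k1]
  have dH : Differentiable ℂ H := (Lap_diff hbI h).div_const _
  have dK : Differentiable ℂ K := (Lap_diff hbI k).div_const _
  have bH : ∀ z : ℂ, 0 ≤ z.re → ‖H z‖ ≤ 1 := by
    intro z hz
    rw [nH, div_le_one h1]
    have := Lap_bound hbI h hz
    linarith
  have bK : ∀ z : ℂ, 0 ≤ z.re → ‖K z‖ ≤ 1 := by
    intro z hz
    rw [nK, div_le_one k1]
    have := Lap_bound hbI k hz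
    linarith
  have hHK : ∀ z : ℂ, 0 ≤ z.re → ‖H z * K z‖ ≤ 1 * Real.exp (-(b * z.re)) := by
    intro z hz
    rw [norm_mul, nH, nK, div_mul_div_comm, ← norm_mul, div_le_iff₀ (by positivity)]
    refine (Lap_mul hbI hc hz).trans ?_
    have he := Real.exp_pos (-(b * z.re))
    have : ‖h‖ * ‖k‖ ≤ (1 + ‖h‖) * (1 + ‖k‖) := by nlinarith
    nlinarith
  have hlarge : ∀ ε > 0, ∀ A : ℝ, ∃ x : ℝ, A < x ∧ Real.exp (-(ε * x)) ≤ ‖H (x : ℂ)‖ := by
    intro ε hε A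
    by_contra hcon
    push Not at hcon
    have hcpos : 0 < min ε b := lt_min hε hb
    set c : ℝ := min ε b with hcdef
    refine hh c hcpos (Lap_moment hcpos.le (min_le_right _ _) hb1 h
      ((1 + ‖h‖) * Real.exp (c * max A 0)) ?_)
    intro n
    have hn0 : (0 : ℝ) ≤ n := Nat.cast_nonneg n
    have hA0 : 0 ≤ max A 0 := le_max_right _ _
    rw [mul_assoc, ← Real.exp_add]
    rcases lt_or_ge A (n : ℝ) with hn | hn
    · have h2 := hcon n hn
      rw [nH, div_lt_iff₀ h1] at h2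
      have h3 : Real.exp (-(ε * n)) ≤ Real.exp (c * max A 0 + -(c * n)) := by
        apply Real.exp_le_exp.2
        have : c * n ≤ ε * n := mul_le_mul_of_nonneg_right (min_le_left _ _) hn0
        have : 0 ≤ c * max A 0 := by positivity
        linarith
      have h4 : ‖Lap b h (n : ℂ)‖ ≤ Real.exp (-(ε * n)) * (1 + ‖h‖) := by
        have := h2.le
        simpa using this
      calc ‖Lap b h (n : ℂ)‖ ≤ Real.exp (-(ε * n)) * (1 + ‖h‖) := h4
        _ ≤ Real.exp (c * max A 0 + -(c * n)) * (1 + ‖h‖) :=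
          mul_le_mul_of_nonneg_right h3 h1.le
        _ = _ := mul_comm _ _
    · have h2 : ‖Lap b h (n : ℂ)‖ ≤ ‖h‖ := Lap_bound hbI h (by simp)
      have h3 : 1 ≤ Real.exp (c * max A 0 + -(c * n)) := by
        apply Real.one_le_exp
        have : c * n ≤ c * max A 0 :=
          mul_le_mul_of_nonneg_left (hn.trans (le_max_left _ _)) hcpos.le
        linarith
      nlinarith
  refine Lap_moment (by linarith) (by linarith) hb1 k (1 + ‖k‖) ?_
  intro n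
  have h2 := two_fun H K dH dK bH bK b 1 hb one_pos hHK hlarge (n : ℝ) (Nat.cast_nonneg n)
  rw [nK, div_le_iff₀ k1] at h2
  have h3 : ((n : ℝ) : ℂ) = (n : ℂ) := by push_cast; rfl
  rw [h3] at h2
  rw [show b / 2 * (n : ℝ) = b * n / 2 by ring, mul_comm]
  exact h2

theorem h07_step {a c : ℝ} (ha1 : a ≤ 1) (hc0 : 0 ≤ c) (hca : c < a) {h k : V}
    (hh : ∀ ε > 0, P ε h ≠ 0) (hc : P a (conv h k) = 0) (hk : P c k = 0) :
    P (c + (a - c) / 2) k = 0 := by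
  have h1 : tau c (lam c k) = k := tau_lam hc0 hk
  obtain ⟨k', hk'⟩ : ∃ k' : V, k' = lam c k := ⟨_, rfl⟩
  rw [← hk'] at h1
  have h2 : conv h k = tau c (conv h k') := by
    rw [conv_comm h k', tau_conv hc0, h1, conv_comm]
  rw [h2, P_tau hc0] at hc
  have h3 := congrArg (lam c) hc
  rw [lam_tau hc0, P_P, map_zero, min_eq_right (by linarith)] at h3
  have h4 := titch_half (b := a - c) (by linarith) (by linarith) hh h3
  rw [← h1, P_tau hc0, show c + (a - c) / 2 - c = (a - c) / 2 by ring, h4, map_zero]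

theorem titch {a : ℝ} (ha1 : a ≤ 1) {h k : V} (hh : ∀ ε > 0, P ε h ≠ 0)
    (hc : P a (conv h k) = 0) : P a k = 0 := by
  rcases le_or_gt a 0 with ha | ha
  · exact P_of_nonpos ha k
  have h1 : ∀ n : ℕ, P (a * (1 - (1 / 2) ^ n)) k = 0 := by
    intro n
    induction n with
    | zero => exact P_of_nonpos (by simp) k
    | succ n ih =>
      have hp : (0:ℝ) < (1 / 2) ^ n := by positivity
      have hp1 : ((1:ℝ) / 2) ^ n ≤ 1 := pow_le_one₀ (by norm_num) (by norm_num)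
      have h2 := h07_step (c := a * (1 - (1 / 2) ^ n)) ha1
        (mul_nonneg ha.le (by linarith)) (by nlinarith) hh hc ih
      have h3 : a * (1 - (1 / 2) ^ (n + 1)) =
          a * (1 - (1 / 2) ^ n) + (a - a * (1 - (1 / 2) ^ n)) / 2 := by
        rw [pow_succ]
        ring
      rw [h3]
      exact h2
  have h2 : ∀ᵐ t ∂mI, ∀ n : ℕ, t < a * (1 - (1 / 2) ^ n) →
      (k : ℝ → ℂ) t = ((0 : V) : ℝ → ℂ) t := by
    rw [ae_all_iff]
    intro n
    exact ae_of_P_eq (by rw [h1 n, map_zero])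
  have h3 : P a k = P a 0 := by
    apply P_eq_of_ae
    filter_upwards [h2] with t ht hta
    obtain ⟨n, hn⟩ := exists_pow_lt_of_lt_one (show (0:ℝ) < (a - t) / a from
      div_pos (by linarith) ha) (show (1 / 2 : ℝ) < 1 by norm_num)
    apply ht n
    rw [lt_div_iff₀ ha] at hn
    nlinarith
  rw [h3, map_zero]

theorem h08_pow_P {a : ℝ} {ρ : V →L[ℂ] V} (hρ : IsMul a ρ) (ε : ℝ) (n : ℕ) (y : V) :
    ‖P ε ((ρ ^ n) y)‖ ≤ ‖ρ‖ ^ n * ‖P ε y‖ := by
  induction n with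
  | zero => simp
  | succ n ih =>
    rw [pow_succ', mul_apply_eq_comp', mul_causal hρ]
    calc ‖P ε (ρ (P ε ((ρ ^ n) y)))‖ ≤ ‖ρ (P ε ((ρ ^ n) y))‖ := norm_P_le _ _
      _ ≤ ‖ρ‖ * ‖P ε ((ρ ^ n) y)‖ := ρ.le_opNorm _
      _ ≤ ‖ρ‖ * (‖ρ‖ ^ n * ‖P ε y‖) := mul_le_mul_of_nonneg_left ih (norm_nonneg _)
      _ = ‖ρ‖ ^ (n + 1) * ‖P ε y‖ := by ring

theorem h08_pow_M {ε : ℝ} (hε : 0 ≤ ε) (n : ℕ) (y : V) :
    ‖P ε ((M ^ n) y)‖ ≤ ε ^ n * ‖P ε y‖ := by
  induction n with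
  | zero => simp
  | succ n ih =>
    rw [pow_succ', mul_apply_eq_comp', P_M]
    calc ‖M (P ε ((M ^ n) y))‖ ≤ ε * ‖P ε ((M ^ n) y)‖ := norm_M_P hε _
      _ ≤ ε * (ε ^ n * ‖P ε y‖) := mul_le_mul_of_nonneg_left ih hε
      _ = ε ^ (n + 1) * ‖P ε y‖ := by ring

theorem h08_M_inj {g : V} (h : M g = 0) : g = 0 := by
  apply Lp.ext
  have h1 := M_ae g
  rw [h] at h1
  have h2 : ∀ᵐ t ∂mI, t ≠ 0 := by
    have h3 : mI {(0:ℝ)} = 0 := by
      unfold mI
      simp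
    have h4 : ({(0:ℝ)}ᶜ : Set ℝ) ∈ ae mI := compl_mem_ae_iff.mpr h3
    filter_upwards [h4] with t ht
    simpa using ht
  filter_upwards [h1, Lp.coeFn_zero ℂ 1 mI, h2] with t h5 h6 h7
  rw [h6] at h5
  rw [h6]
  have h8 : (t:ℂ) * g t = 0 := h5.symm
  rcases mul_eq_zero.mp h8 with h9 | h9
  · exact absurd (Complex.ofReal_eq_zero.mp h9) h7
  · exact h9

theorem h08_conv_zero (g : V) : conv 0 g = 0 := by
  rw [← cL_apply, map_zero]
  rfl

theorem h08_fact_le (n : ℕ) : ‖(((n + 1).factorial : ℂ)⁻¹)‖ ≤ ‖((n.factorial : ℂ)⁻¹)‖ := by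
  rw [norm_inv, norm_inv, Complex.norm_natCast, Complex.norm_natCast]
  apply inv_anti₀
  · exact_mod_cast Nat.factorial_pos n
  · exact_mod_cast Nat.factorial_le (Nat.le_succ n)

theorem h08_summable (ρ : V →L[ℂ] V) (x : V) :
    Summable (fun n : ℕ => (((n + 1).factorial : ℂ)⁻¹) • ((ρ ^ n) ((M ^ n) x))) := by
  refine Summable.of_norm_bounded (g := fun n : ℕ => ‖((n.factorial : ℂ)⁻¹) • (ρ ^ n * M ^ n)‖ * ‖x‖)
    ((X_summable ρ).mul_right _) fun n => ?_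
  calc ‖(((n + 1).factorial : ℂ)⁻¹) • ((ρ ^ n) ((M ^ n) x))‖
      = ‖(((n + 1).factorial : ℂ)⁻¹)‖ * ‖(ρ ^ n) ((M ^ n) x)‖ := norm_smul _ _
    _ ≤ ‖((n.factorial : ℂ)⁻¹)‖ * (‖ρ ^ n * M ^ n‖ * ‖x‖) := by
        refine mul_le_mul (h08_fact_le n) ?_ (norm_nonneg _) (norm_nonneg _)
        rw [← mul_apply_eq_comp']
        exact (ρ ^ n * M ^ n).le_opNorm x
    _ = ‖((n.factorial : ℂ)⁻¹) • (ρ ^ n * M ^ n)‖ * ‖x‖ := by rw [norm_smul]; ring

theorem h08_X_apply (ρ : V →L[ℂ] V) (f : V) :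
    HasSum (fun n : ℕ => ((n.factorial : ℂ)⁻¹) • ((ρ ^ n) ((M ^ n) f))) (X ρ f) := by
  have h1 : HasSum (fun n : ℕ => ((n.factorial : ℂ)⁻¹) • (ρ ^ n * M ^ n)) (X ρ) :=
    (X_summable ρ).of_norm.hasSum
  have h2 := h1.mapL (ContinuousLinearMap.apply ℂ V f)
  exact h2

theorem h08_X_split (ρ : V →L[ℂ] V) (f : V) :
    X ρ f = f + ρ (∑' n : ℕ, (((n + 1).factorial : ℂ)⁻¹) • ((ρ ^ n) ((M ^ n) (M f)))) := by
  have h1 := h08_X_apply ρ f
  have h2 := ((h08_summable ρ (M f)).hasSum).mapL ρ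
  have h3 : HasSum (fun n : ℕ => (((n + 1).factorial : ℂ)⁻¹) • ((ρ ^ (n + 1)) ((M ^ (n + 1)) f)))
      (ρ (∑' n : ℕ, (((n + 1).factorial : ℂ)⁻¹) • ((ρ ^ n) ((M ^ n) (M f))))) := by
    refine h2.congr_fun ?_
    intro n
    rw [map_smul, pow_succ', pow_succ, mul_apply_eq_comp', mul_apply_eq_comp']
  have h4 := h1.summable.tsum_eq_zero_add
  rw [h1.tsum_eq, h3.tsum_eq] at h4
  rw [h4]
  simp

theorem h08_small {a : ℝ} {ρ : V →L[ℂ] V} (hρ : IsMul a ρ) {ε : ℝ} (hε : 0 ≤ ε)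
    (h2 : ‖ρ‖ * ε ≤ 1 / 2) {x : V}
    (h : P ε (∑' n : ℕ, (((n + 1).factorial : ℂ)⁻¹) • ((ρ ^ n) ((M ^ n) x))) = 0) :
    P ε x = 0 := by
  have h1 := ((h08_summable ρ x).hasSum).mapL (P ε)
  have h3 := h1.summable.tsum_eq_zero_add
  rw [h1.tsum_eq, h] at h3
  have h4 : ‖∑' n : ℕ, P ε ((((n + 1 + 1).factorial : ℂ)⁻¹) •
      ((ρ ^ (n + 1)) ((M ^ (n + 1)) x)))‖ ≤ 1 / 2 * ‖P ε x‖ := by
    have hs : HasSum (fun n : ℕ => (1 / 2 : ℝ) / 2 * (1 / 2) ^ n * ‖P ε x‖) (1 / 2 * ‖P ε x‖) := by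
      have h5 := (hasSum_geometric_of_lt_one (r := (1/2 : ℝ)) (by norm_num) (by norm_num)).mul_left
        ((1 / 2 : ℝ) / 2)
      have h6 := h5.mul_right ‖P ε x‖
      have h7 : (1 / 2 : ℝ) / 2 * (1 - 1 / 2)⁻¹ = 1 / 2 := by norm_num
      rw [h7] at h6
      exact h6
    refine tsum_of_norm_bounded hs fun n => ?_
    rw [map_smul, norm_smul]
    have h8 : ‖(((n + 1 + 1).factorial : ℂ)⁻¹)‖ ≤ 1 / 2 := by
      rw [norm_inv, Complex.norm_natCast]
      rw [one_div]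
      apply inv_anti₀ (by norm_num)
      have : (2:ℕ) ≤ (n + 1 + 1).factorial := by
        calc 2 = Nat.factorial 2 := rfl
          _ ≤ _ := Nat.factorial_le (by omega)
      exact_mod_cast this
    have h9 : ‖P ε ((ρ ^ (n + 1)) ((M ^ (n + 1)) x))‖ ≤ (1 / 2) ^ (n + 1) * ‖P ε x‖ := by
      calc ‖P ε ((ρ ^ (n + 1)) ((M ^ (n + 1)) x))‖ ≤ ‖ρ‖ ^ (n + 1) * ‖P ε ((M ^ (n + 1)) x)‖ :=
            h08_pow_P hρ _ _ _
        _ ≤ ‖ρ‖ ^ (n + 1) * (ε ^ (n + 1) * ‖P ε x‖) :=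
            mul_le_mul_of_nonneg_left (h08_pow_M hε _ _) (by positivity)
        _ = (‖ρ‖ * ε) ^ (n + 1) * ‖P ε x‖ := by rw [mul_pow]; ring
        _ ≤ (1 / 2) ^ (n + 1) * ‖P ε x‖ := by
            apply mul_le_mul_of_nonneg_right _ (norm_nonneg _)
            exact pow_le_pow_left₀ (by positivity) h2 _
    calc ‖(((n + 1 + 1).factorial : ℂ)⁻¹)‖ * ‖P ε ((ρ ^ (n + 1)) ((M ^ (n + 1)) x))‖
        ≤ 1 / 2 * ((1 / 2) ^ (n + 1) * ‖P ε x‖) :=
          mul_le_mul h8 h9 (norm_nonneg _) (by norm_num)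
      _ = (1 / 2 : ℝ) / 2 * (1 / 2) ^ n * ‖P ε x‖ := by ring
  have h10 : P ε x = - ∑' n : ℕ, P ε ((((n + 1 + 1).factorial : ℂ)⁻¹) •
      ((ρ ^ (n + 1)) ((M ^ (n + 1)) x))) := by
    have h11 : P ε ((((0 + 1).factorial : ℂ)⁻¹) • ((ρ ^ 0) ((M ^ 0) x))) = P ε x := by simp
    rw [h11] at h3
    exact eq_neg_of_add_eq_zero_left h3.symm
  have h12 : ‖P ε x‖ ≤ 1 / 2 * ‖P ε x‖ := by
    calc ‖P ε x‖ = ‖∑' n : ℕ, P ε ((((n + 1 + 1).factorial : ℂ)⁻¹) •
      ((ρ ^ (n + 1)) ((M ^ (n + 1)) x)))‖ := by conv_lhs => rw [h10, norm_neg]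
      _ ≤ _ := h4
  have h13 : ‖P ε x‖ ≤ 0 := by
    have := norm_nonneg (P ε x)
    linarith
  exact norm_le_zero_iff.mp h13

theorem X_fix {a : ℝ} (ha : 0 < a) (ha1 : a ≤ 1) {ρ : V →L[ℂ] V} (hρ : IsMul a ρ) {f : V}
    (hf : ∀ ε > 0, P ε f ≠ 0) (h : P a (X ρ f) = P a f) : ρ = 0 := by
  set y : V := ∑' n : ℕ, (((n + 1).factorial : ℂ)⁻¹) • ((ρ ^ n) ((M ^ n) (M f))) with hy
  have h1 : ρ y = 0 := by
    have h2 := h08_X_split ρ f
    rw [← hy] at h2
    rw [h2, map_add, mul_P_left hρ] at h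
    simpa using h
  have h3 : P a (conv y (ρ u)) = 0 := by
    have h4 := hρ y u
    rw [h1, h08_conv_zero, map_zero, conv_comm, hρ u y, conv_comm] at h4
    exact h4
  have h5 : ∀ ε > 0, P ε y ≠ 0 := by
    intro ε hε h6
    have hn : (0:ℝ) < 2 * (‖ρ‖ + 1) := by positivity
    set ε' : ℝ := min ε (2 * (‖ρ‖ + 1))⁻¹ with hε'
    have h7 : 0 < ε' := lt_min hε (by positivity)
    have h8 : P ε' y = 0 := by
      have h9 := P_P ε' ε y
      rw [h6, map_zero, min_eq_left (min_le_left _ _)] at h9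
      exact h9.symm
    have h10 : ‖ρ‖ * ε' ≤ 1 / 2 := by
      calc ‖ρ‖ * ε' ≤ (‖ρ‖ + 1) * (2 * (‖ρ‖ + 1))⁻¹ := by
            refine mul_le_mul (by linarith) (min_le_right _ _) h7.le (by positivity)
        _ = 1 / 2 := by
            have : ‖ρ‖ + 1 ≠ 0 := by positivity
            field_simp
    have h11 : P ε' (M f) = 0 := h08_small hρ h7.le h10 h8
    rw [P_M] at h11
    exact hf ε' h7 (h08_M_inj h11)
  have h6 := titch ha1 h5 h3
  rw [mul_P_left hρ] at h6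
  have h0 : IsMul a (0 : V →L[ℂ] V) := by
    intro f g
    simp only [zero_apply']
    rw [h08_conv_zero, map_zero]
  exact mul_ext hρ h0 (by rw [h6]; rfl)

/-! ### L6: commutators with M -/

/-- commutator with `M` -/
noncomputable def br (A : V →L[ℂ] V) : V →L[ℂ] V := M * A - A * M

theorem h09_apply (A : V →L[ℂ] V) (f : V) : br A f = M (A f) - A (M f) := rfl

theorem h09_neg_left (f g : V) : conv (-f) g = -conv f g := by
  have h := conv_smul_left (-1 : ℂ) f g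
  simpa using h

theorem h09_sub_left (f g h : V) : conv (f - g) h = conv f h - conv g h := by
  rw [sub_eq_add_neg, conv_add_left, h09_neg_left, ← sub_eq_add_neg]

theorem br_mul {a : ℝ} {A : V →L[ℂ] V} (hA : IsMul a A) : IsMul a (br A) := by
  intro f g
  rw [h09_apply, h09_apply, hA f g, M_conv, map_add, hA (M f) g, hA f (M g), ← P_M, M_conv,
    h09_sub_left, map_add, map_sub]
  abel

theorem br_norm (A : V →L[ℂ] V) : ‖br A‖ ≤ 2 * ‖A‖ := by
  refine ContinuousLinearMap.opNorm_le_bound _ (by positivity) (fun f => ?_)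
  rw [h09_apply]
  have h1 : ‖M (A f)‖ ≤ ‖A‖ * ‖f‖ := (norm_M_le _).trans (A.le_opNorm f)
  have h2 : ‖A (M f)‖ ≤ ‖A‖ * ‖f‖ :=
    (A.le_opNorm (M f)).trans (mul_le_mul_of_nonneg_left (norm_M_le f) (norm_nonneg _))
  calc ‖M (A f) - A (M f)‖ ≤ ‖M (A f)‖ + ‖A (M f)‖ := norm_sub_le _ _
    _ ≤ 2 * ‖A‖ * ‖f‖ := by linarith

theorem h09_bound {a : ℝ} {A : V →L[ℂ] V} (hA : IsMul a A) (ε : ℝ) (f : V) :
    ‖P ε (A f)‖ ≤ ‖A‖ * ‖P ε f‖ := by
  rw [mul_causal hA ε f]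
  exact (norm_P_le _ _).trans (A.le_opNorm _)

theorem h09_M {ε : ℝ} (hε : 0 ≤ ε) (f : V) : ‖P ε (M f)‖ ≤ ε * ‖P ε f‖ := by
  rw [P_M]
  exact norm_M_P hε f

theorem br_atom {a : ℝ} {A : V →L[ℂ] V} (hA : IsMul a A) : Atom (br A) 0 := by
  intro δ hδ
  have hpos : 0 < 2 * ‖A‖ + 1 := by positivity
  refine ⟨min 1 (δ / (2 * ‖A‖ + 1)), ⟨by positivity, min_le_left _ _⟩, fun f => ?_⟩
  set ε : ℝ := min 1 (δ / (2 * ‖A‖ + 1)) with hε
  have hε0 : 0 < ε := by positivity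
  have hεd : ε * (2 * ‖A‖ + 1) ≤ δ := by
    have h1 : ε ≤ δ / (2 * ‖A‖ + 1) := min_le_right _ _
    calc ε * (2 * ‖A‖ + 1) ≤ δ / (2 * ‖A‖ + 1) * (2 * ‖A‖ + 1) :=
          mul_le_mul_of_nonneg_right h1 hpos.le
      _ = δ := by field_simp
  have h1 : ‖P ε (M (A f))‖ ≤ ε * (‖A‖ * ‖P ε f‖) :=
    (h09_M hε0.le (A f)).trans (mul_le_mul_of_nonneg_left (h09_bound hA ε f) hε0.le)
  have h2 : ‖P ε (A (M f))‖ ≤ ‖A‖ * (ε * ‖P ε f‖) :=
    (h09_bound hA ε (M f)).trans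
      (mul_le_mul_of_nonneg_left (h09_M hε0.le f) (norm_nonneg _))
  have h3 : P ε (br A f - (0:ℂ) • f) = P ε (M (A f)) - P ε (A (M f)) := by
    rw [zero_smul, sub_zero, h09_apply, map_sub]
  rw [h3]
  have hn : 0 ≤ ‖P ε f‖ := norm_nonneg _
  calc ‖P ε (M (A f)) - P ε (A (M f))‖ ≤ ‖P ε (M (A f))‖ + ‖P ε (A (M f))‖ := norm_sub_le _ _
    _ ≤ ε * (2 * ‖A‖ + 1) * ‖P ε f‖ := by nlinarith [mul_nonneg hε0.le hn]
    _ ≤ δ * ‖P ε f‖ := mul_le_mul_of_nonneg_right hεd hn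

theorem P_br (a : ℝ) (A : V →L[ℂ] V) : P a * br A = br (P a * A) := by
  ext1 f
  rw [h09_apply, mul_apply_eq_comp', mul_apply_eq_comp', mul_apply_eq_comp', h09_apply, map_sub,
    P_M]

theorem atom_lim {a : ℝ} {A : ℕ → (V →L[ℂ] V)} {B : V →L[ℂ] V} (hA : ∀ n, IsMul a (A n))
    (hB : IsMul a B) (hl : Tendsto A atTop (𝓝 B)) {l : ℂ} (h0 : ∀ n, Atom (A n) l) :
    Atom B l := by
  intro δ hδ
  obtain ⟨n, hn⟩ : ∃ n, ‖A n - B‖ < δ / 2 := by
    rw [Metric.tendsto_atTop] at hl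
    obtain ⟨N, hN⟩ := hl (δ / 2) (by linarith)
    exact ⟨N, by simpa [dist_eq_norm] using hN N le_rfl⟩
  obtain ⟨ε, hε, h⟩ := h0 n (δ / 2) (by linarith)
  refine ⟨ε, hε, fun f => ?_⟩
  have hS : IsMul a (B + (-1 : ℂ) • A n) := mul_add hB (mul_smul (hA n) (-1))
  have h1 : B f - l • f = (A n f - l • f) + (B + (-1 : ℂ) • A n) f := by
    simp only [ContinuousLinearMap.add_apply, ContinuousLinearMap.smul_apply]
    module
  have h2 : ‖P ε ((B + (-1 : ℂ) • A n) f)‖ ≤ (δ / 2) * ‖P ε f‖ := by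
    rw [mul_causal hS ε f]
    refine (norm_P_le _ _).trans ?_
    refine (ContinuousLinearMap.le_opNorm _ _).trans ?_
    apply mul_le_mul_of_nonneg_right _ (norm_nonneg _)
    have : B + (-1 : ℂ) • A n = -(A n - B) := by module
    rw [this, norm_neg]
    exact hn.le
  rw [h1, map_add]
  refine (norm_add_le _ _).trans ?_
  have h3 := h f
  linarith

theorem h10_M_inj {g : V} (h : M g = 0) : g = 0 := by
  rw [Lp.eq_zero_iff_ae_eq_zero]
  have h1 := M_ae g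
  rw [h] at h1
  have h2 := Lp.coeFn_zero ℂ 1 mI
  have h3 : ∀ᵐ t ∂mI, t ≠ (0:ℝ) := by
    unfold mI
    apply ae_restrict_of_ae
    exact compl_mem_ae_iff.2 (measure_singleton 0)
  filter_upwards [h1, h2, h3] with t h1 h2 h3
  rw [h2] at h1
  have h4 : (t : ℂ) ≠ 0 := by exact_mod_cast h3
  have h5 : (0 : ℂ) = (t : ℂ) * g t := h1
  have h6 := (mul_eq_zero.1 h5.symm).resolve_left h4
  simpa using h6

theorem atom_zero {a : ℝ} (ha : 0 < a) {ψ : V →L[ℂ] V} {l : ℂ} (hψ : IsMul a ψ) (hl : Atom ψ l)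
    {f : V} (hf : ∀ ε > 0, P ε f ≠ 0) (h : P a (M (M f)) = ψ (M f)) : l = 0 := by
  by_contra hne
  have hlp : 0 < ‖l‖ := norm_pos_iff.2 hne
  obtain ⟨ε0, hε0, hε⟩ := atom_mono hψ hl (δ := ‖l‖ / 4) (by linarith)
  obtain ⟨ε, hεdef⟩ : ∃ ε, ε = min ε0 (min a (‖l‖ / 4)) := ⟨_, rfl⟩
  have hεpos : 0 < ε := by
    rw [hεdef]
    exact lt_min hε0.1 (lt_min ha (by linarith))
  have hεle : ε ≤ ε0 := by rw [hεdef]; exact min_le_left _ _
  have hεa : ε ≤ a := by rw [hεdef]; exact (min_le_right _ _).trans (min_le_left _ _)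
  have hεl : ε ≤ ‖l‖ / 4 := by rw [hεdef]; exact (min_le_right _ _).trans (min_le_right _ _)
  have h1 := hε ε ⟨hεpos, hεle⟩ (M f)
  have h2 : P ε (M (M f)) = P ε (ψ (M f)) := by
    rw [← h, P_P, min_eq_left hεa]
  have h3 : ‖P ε (ψ (M f))‖ ≤ ε * ‖P ε (M f)‖ := by
    rw [← h2, P_M ε (M f)]
    exact norm_M_P hεpos.le (M f)
  have h4 : ‖l‖ * ‖P ε (M f)‖ ≤ ‖P ε (ψ (M f) - l • M f)‖ + ‖P ε (ψ (M f))‖ := by
    have : l • P ε (M f) = P ε (ψ (M f)) - P ε (ψ (M f) - l • M f) := by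
      rw [map_sub, map_smul]; abel
    rw [← norm_smul, this]
    refine (norm_sub_le _ _).trans ?_
    linarith
  have h5 : ‖P ε (M f)‖ = 0 := by
    have h6 : 0 ≤ ‖P ε (M f)‖ := norm_nonneg _
    have h7 : ε * ‖P ε (M f)‖ ≤ ‖l‖ / 4 * ‖P ε (M f)‖ := mul_le_mul_of_nonneg_right hεl h6
    have h8 : ‖l‖ * ‖P ε (M f)‖ ≤ ‖l‖ / 2 * ‖P ε (M f)‖ := by linarith
    by_contra hcon
    have h9 : 0 < ‖P ε (M f)‖ := lt_of_le_of_ne h6 (Ne.symm hcon)
    have h10 := le_of_mul_le_mul_right h8 h9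
    linarith
  rw [norm_eq_zero, P_M] at h5
  exact hf ε hεpos (h10_M_inj h5)

/-! ### L7: the operators `pn`, `qn`, `Phi`, `Theta` -/

/-- `M^{n+1} f = pn n (M f)` if `M (M f) = ψ (M f)` -/
noncomputable def pn (ψ : V →L[ℂ] V) : ℕ → (V →L[ℂ] V)
  | 0 => 1
  | n + 1 => br (pn ψ n) + pn ψ n * ψ

/-- correction terms near the right end point -/
noncomputable def qn (ψ ψ' : V →L[ℂ] V) : ℕ → (V →L[ℂ] V)
  | 0 => 0
  | n + 1 => br (qn ψ ψ' n) + qn ψ ψ' n * ψ + ψ' * pn ψ n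

theorem one_isMul : IsMul 1 (1 : V →L[ℂ] V) := by
  intro f g
  rw [P_of_one_le le_rfl]
  rfl

theorem pn_mul {ψ : V →L[ℂ] V} (hψ : IsMul 1 ψ) (n : ℕ) : IsMul 1 (pn ψ n) := by
  induction n with
  | zero => exact one_isMul
  | succ n ih => exact mul_add (br_mul ih) (mul_mul ih hψ)

theorem h11_step (ψ : V →L[ℂ] V) (n : ℕ) : ‖pn ψ (n + 1)‖ ≤ (2 + ‖ψ‖) * ‖pn ψ n‖ := by
  have h1 : pn ψ (n + 1) = br (pn ψ n) + pn ψ n * ψ := rfl
  rw [h1]
  have h2 : ‖br (pn ψ n) + pn ψ n * ψ‖ ≤ ‖br (pn ψ n)‖ + ‖pn ψ n * ψ‖ := norm_add_le _ _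
  have h3 := br_norm (pn ψ n)
  have h4 : ‖pn ψ n * ψ‖ ≤ ‖pn ψ n‖ * ‖ψ‖ := norm_mul_le _ _
  nlinarith

theorem pn_norm (ψ : V →L[ℂ] V) (n : ℕ) : ‖pn ψ n‖ ≤ (2 + ‖ψ‖) ^ n := by
  induction n with
  | zero =>
    rw [pow_zero]
    exact ContinuousLinearMap.norm_id_le
  | succ n ih =>
    have h0 : 0 ≤ 2 + ‖ψ‖ := by positivity
    calc ‖pn ψ (n + 1)‖ ≤ (2 + ‖ψ‖) * ‖pn ψ n‖ := h11_step ψ n
      _ ≤ (2 + ‖ψ‖) * (2 + ‖ψ‖) ^ n := mul_le_mul_of_nonneg_left ih h0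
      _ = (2 + ‖ψ‖) ^ (n + 1) := by ring

theorem h11_one (ψ : V →L[ℂ] V) : pn ψ 1 = ψ := by
  have h1 : pn ψ 1 = br 1 + 1 * ψ := rfl
  rw [h1, one_mul]
  have h2 : br (1 : V →L[ℂ] V) = 0 := by
    unfold br
    rw [mul_one, one_mul, sub_self]
  rw [h2, zero_add]

theorem pn_small (ψ : V →L[ℂ] V) (n : ℕ) : ‖pn ψ (n + 1)‖ ≤ ‖ψ‖ * (2 + ‖ψ‖) ^ n := by
  induction n with
  | zero =>
    rw [pow_zero, mul_one]
    exact le_of_eq (congrArg norm (h11_one ψ))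
  | succ n ih =>
    have h0 : 0 ≤ 2 + ‖ψ‖ := by positivity
    calc ‖pn ψ (n + 1 + 1)‖ ≤ (2 + ‖ψ‖) * ‖pn ψ (n + 1)‖ := h11_step ψ (n + 1)
      _ ≤ (2 + ‖ψ‖) * (‖ψ‖ * (2 + ‖ψ‖) ^ n) := mul_le_mul_of_nonneg_left ih h0
      _ = ‖ψ‖ * (2 + ‖ψ‖) ^ (n + 1) := by ring

theorem pn_atom {ψ : V →L[ℂ] V} (hψ : IsMul 1 ψ) (h0 : Atom ψ 0) (n : ℕ) :
    Atom (pn ψ (n + 1)) 0 := by
  have hn : IsMul 1 (pn ψ n) := pn_mul hψ n
  obtain ⟨l, hl⟩ := atom_exists zero_lt_one le_rfl hn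
  have h1 : Atom (pn ψ n * ψ) (l * 0) := atom_mul hn hψ hl h0
  have h2 : Atom (br (pn ψ n)) 0 := br_atom hn
  have h3 := atom_add (br_mul hn) (mul_mul hn hψ) h2 h1
  rw [mul_zero, add_zero] at h3
  exact h3

theorem h12_mul {a : ℝ} {S S' : V →L[ℂ] V} (hS : IsMul a S) (hS' : IsMul 1 S') :
    IsMul a (S * S') := by
  intro f g
  rw [mul_apply_eq_comp', mul_apply_eq_comp', hS' f g, P_of_one_le (le_refl _), hS]

theorem h12_zero (a : ℝ) : IsMul a (0 : V →L[ℂ] V) := by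
  intro f g
  rw [zero_apply', zero_apply']
  have h : conv (0 : V) g = 0 := by
    have := cL_apply (0 : V) g
    rw [← this, map_zero, ContinuousLinearMap.zero_apply]
  rw [h, map_zero]

theorem h12_br_zero : br (0 : V →L[ℂ] V) = 0 := by
  unfold br
  rw [MulZeroClass.mul_zero, MulZeroClass.zero_mul, sub_zero]

theorem h12_succ (a : ℝ) (ψ ψ' : V →L[ℂ] V) (n : ℕ) :
    P a * qn ψ ψ' (n + 1) = br (P a * qn ψ ψ' n) + (P a * qn ψ ψ' n) * ψ + (P a * ψ') * pn ψ n := by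
  show P a * (br (qn ψ ψ' n) + qn ψ ψ' n * ψ + ψ' * pn ψ n) = _
  rw [mul_add', mul_add', P_br, ← _root_.mul_assoc, ← _root_.mul_assoc]

theorem qn_mul {a : ℝ} (ha : a ≤ 1) {ψ ψ' : V →L[ℂ] V} (hψ : IsMul 1 ψ) (hψ' : IsMul a ψ')
    (n : ℕ) : IsMul a (qn ψ ψ' n) := by
  induction n with
  | zero => exact h12_zero a
  | succ n ih =>
    show IsMul a (br (qn ψ ψ' n) + qn ψ ψ' n * ψ + ψ' * pn ψ n)
    exact mul_add (mul_add (br_mul ih) (h12_mul ih hψ)) (h12_mul hψ' (pn_mul hψ n))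

theorem qn_half {ψ ψ' : V →L[ℂ] V} (h : P (1/2) * ψ' = 0) (n : ℕ) :
    P (1/2) * qn ψ ψ' n = 0 := by
  induction n with
  | zero =>
    show P (1/2) * (0 : V →L[ℂ] V) = 0
    exact MulZeroClass.mul_zero _
  | succ n ih =>
    rw [h12_succ, ih, h, h12_br_zero, MulZeroClass.zero_mul, MulZeroClass.zero_mul, add_zero, add_zero]

theorem qn_norm (ψ ψ' : V →L[ℂ] V) (n : ℕ) : ‖qn ψ ψ' n‖ ≤ (3 + ‖ψ‖) ^ n * ‖ψ'‖ := by
  induction n with
  | zero =>
    show ‖(0 : V →L[ℂ] V)‖ ≤ _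
    rw [norm_zero]
    positivity
  | succ n ih =>
    show ‖br (qn ψ ψ' n) + qn ψ ψ' n * ψ + ψ' * pn ψ n‖ ≤ _
    have h1 : ‖br (qn ψ ψ' n)‖ ≤ 2 * ‖qn ψ ψ' n‖ := br_norm _
    have h2 : ‖qn ψ ψ' n * ψ‖ ≤ ‖qn ψ ψ' n‖ * ‖ψ‖ := norm_mul_le _ _
    have h3 : ‖ψ' * pn ψ n‖ ≤ ‖ψ'‖ * ‖pn ψ n‖ := norm_mul_le _ _
    have h4 : ‖pn ψ n‖ ≤ (2 + ‖ψ‖) ^ n := pn_norm _ _
    have h0 : 0 ≤ ‖ψ‖ := norm_nonneg _
    have h0' : 0 ≤ ‖ψ'‖ := norm_nonneg _
    have h5 : (2 + ‖ψ‖) ^ n ≤ (3 + ‖ψ‖) ^ n :=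
      pow_le_pow_left₀ (by positivity) (by linarith) n
    have h6 : ‖ψ'‖ * ‖pn ψ n‖ ≤ ‖ψ'‖ * (3 + ‖ψ‖) ^ n :=
      mul_le_mul_of_nonneg_left (h4.trans h5) h0'
    have h7 : (2 + ‖ψ‖) * ‖qn ψ ψ' n‖ ≤ (2 + ‖ψ‖) * ((3 + ‖ψ‖) ^ n * ‖ψ'‖) :=
      mul_le_mul_of_nonneg_left ih (by positivity)
    have h8 := norm_add_le (br (qn ψ ψ' n) + qn ψ ψ' n * ψ) (ψ' * pn ψ n)
    have h9 := norm_add_le (br (qn ψ ψ' n)) (qn ψ ψ' n * ψ)
    calc ‖br (qn ψ ψ' n) + qn ψ ψ' n * ψ + ψ' * pn ψ n‖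
        ≤ (2 + ‖ψ‖) * ‖qn ψ ψ' n‖ + ‖ψ'‖ * ‖pn ψ n‖ := by linarith
      _ ≤ (2 + ‖ψ‖) * ((3 + ‖ψ‖) ^ n * ‖ψ'‖) + ‖ψ'‖ * (3 + ‖ψ‖) ^ n := by linarith
      _ = (3 + ‖ψ‖) ^ (n + 1) * ‖ψ'‖ := by ring

theorem qn_restrict (a : ℝ) (ψ ψ' : V →L[ℂ] V) (n : ℕ) :
    P a * qn ψ ψ' n = qn ψ (P a * ψ') n := by
  induction n with
  | zero =>
    show P a * (0 : V →L[ℂ] V) = 0
    exact MulZeroClass.mul_zero _
  | succ n ih =>
    rw [h12_succ, ih]
    rfl

theorem Mpow {a : ℝ} (ha : a ≤ 1) {ψ ψ' : V →L[ℂ] V} (hψ : IsMul 1 ψ) (hψ' : IsMul a ψ')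
    (hh : P (1/2) * ψ' = 0) {f : V} (hf : P a (M (M f)) = P a (ψ (M f)) + ψ' (M f)) (n : ℕ) :
    P a ((M ^ (n + 1)) f) = P a (pn ψ n (M f)) + qn ψ ψ' n (M f) := by
  induction n with
  | zero =>
    rw [pow_one]
    show P a (M f) = P a ((1 : V →L[ℂ] V) (M f)) + (0 : V →L[ℂ] V) (M f)
    rw [zero_apply', add_zero]
    rfl
  | succ n ih =>
    have h1 : (M ^ (n + 1 + 1)) f = M ((M ^ (n + 1)) f) := by
      rw [pow_succ']; rfl
    have hpn := pn_mul hψ n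
    have hqn := qn_mul ha hψ hψ' n
    rw [h1, P_M, ih, map_add]
    have e1 : M (P a (pn ψ n (M f))) = P a (br (pn ψ n) (M f)) + P a (pn ψ n (M (M f))) := by
      rw [← P_M, ← map_add]
      congr 1
      show M (pn ψ n (M f)) = (M (pn ψ n (M f)) - pn ψ n (M (M f))) + pn ψ n (M (M f))
      rw [sub_add_cancel]
    have e2 : P a (pn ψ n (M (M f))) = P a (pn ψ n (ψ (M f))) + ψ' (pn ψ n (M f)) := by
      rw [mul_causal hpn a (M (M f)), hf, map_add, map_add,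
        ← mul_causal hpn a (ψ (M f))]
      congr 1
      have hr := mul_restrict ha hpn
      have hcomm := mul_comm' hr hψ'
      have h3 : P a (pn ψ n (ψ' (M f))) = ψ' (P a (pn ψ n (M f))) :=
        DFunLike.congr_fun hcomm (M f)
      rw [h3, mul_P_right hψ']
    have e3 : M (qn ψ ψ' n (M f)) = br (qn ψ ψ' n) (M f) + qn ψ ψ' n (ψ (M f)) := by
      have h4 : M (qn ψ ψ' n (M f)) = br (qn ψ ψ' n) (M f) + qn ψ ψ' n (M (M f)) := by
        show M (qn ψ ψ' n (M f)) =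
          (M (qn ψ ψ' n (M f)) - qn ψ ψ' n (M (M f))) + qn ψ ψ' n (M (M f))
        rw [sub_add_cancel]
      rw [h4]
      congr 1
      rw [← mul_P_right hqn (M (M f)), hf, map_add, mul_P_right hqn]
      have h5 := half_sq ha hqn hψ' (qn_half hh n) hh
      have h6 : qn ψ ψ' n (ψ' (M f)) = 0 := by
        have := DFunLike.congr_fun h5 (M f)
        exact this
      rw [h6, add_zero]
    rw [e1, e2, e3]
    show _ = P a (br (pn ψ n) (M f) + pn ψ n (ψ (M f))) +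
      (br (qn ψ ψ' n) (M f) + qn ψ ψ' n (ψ (M f)) + ψ' (pn ψ n (M f)))
    rw [map_add]
    abel

/-- `∑ S^{n+1} pn / (n+1)!` -/
noncomputable def Phi (ψ S : V →L[ℂ] V) : V →L[ℂ] V :=
  ∑' n : ℕ, (((n + 1).factorial : ℂ)⁻¹) • (pn ψ n * S ^ (n + 1))

/-- `∑ S^n pn / n!` -/
noncomputable def Theta (ψ S : V →L[ℂ] V) : V →L[ℂ] V :=
  ∑' n : ℕ, ((n.factorial : ℂ)⁻¹) • (pn ψ n * S ^ n)

/-- `∑ S^{n+1} qn / (n+1)!` -/
noncomputable def Phi2 (ψ ψ' S : V →L[ℂ] V) : V →L[ℂ] V :=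
  ∑' n : ℕ, (((n + 1).factorial : ℂ)⁻¹) • (qn ψ ψ' n * S ^ (n + 1))

theorem h14_pow (S : V →L[ℂ] V) (n : ℕ) : ‖S ^ n‖ ≤ ‖S‖ ^ n := by
  induction n with
  | zero =>
    rw [pow_zero, pow_zero]
    exact (ContinuousLinearMap.norm_id_le : ‖ContinuousLinearMap.id ℂ V‖ ≤ 1)
  | succ n ih =>
    rw [pow_succ, pow_succ]
    exact (norm_mul_le _ _).trans (mul_le_mul_of_nonneg_right ih (norm_nonneg _))

theorem h14_pow_isMul {S : V →L[ℂ] V} (hS : IsMul 1 S) (n : ℕ) : IsMul 1 (S ^ n) := by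
  induction n with
  | zero => rw [pow_zero]; exact one_isMul
  | succ n ih => rw [pow_succ]; exact mul_mul ih hS

theorem h14_sum_isMul {F : ℕ → (V →L[ℂ] V)} (hF : ∀ n, IsMul 1 (F n)) (N : ℕ) :
    IsMul 1 (∑ i ∈ Finset.range N, F i) := by
  induction N with
  | zero =>
    have h := mul_smul one_isMul 0
    rw [zero_smul] at h
    simpa using h
  | succ n ih => rw [Finset.sum_range_succ]; exact mul_add ih (hF n)

theorem h14_tsum_isMul {F : ℕ → (V →L[ℂ] V)} (hF : ∀ n, IsMul 1 (F n))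
    (hs : Summable (fun n => ‖F n‖)) : IsMul 1 (∑' n, F n) := by
  have h1 : Tendsto (fun N => ∑ i ∈ Finset.range N, F i) atTop (𝓝 (∑' n, F n)) :=
    hs.of_norm.hasSum.tendsto_sum_nat
  refine mul_lim (S := fun N => ∑ i ∈ Finset.range N, F i) (l := atTop)
    (fun N => h14_sum_isMul hF N) (fun f => ?_)
  exact ((ContinuousLinearMap.apply ℂ V f).continuous.tendsto _).comp h1

theorem h14_bound (A S : V →L[ℂ] V) (m : ℕ) (c : ℝ) (hA : ‖A‖ ≤ c) :
    ‖((m.factorial : ℂ)⁻¹) • (A * S ^ m)‖ ≤ c * ‖S‖ ^ m / m.factorial := by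
  have hfac : (0:ℝ) < m.factorial := by exact_mod_cast m.factorial_pos
  rw [norm_smul, norm_inv, Complex.norm_natCast, inv_mul_eq_div]
  apply div_le_div_of_nonneg_right _ hfac.le
  exact (norm_mul_le _ _).trans (mul_le_mul hA (h14_pow S m) (norm_nonneg _)
    ((norm_nonneg _).trans hA))

theorem Phi_summable (ψ S : V →L[ℂ] V) :
    Summable (fun n : ℕ => ‖(((n + 1).factorial : ℂ)⁻¹) • (pn ψ n * S ^ (n + 1))‖) := by
  have hs : Summable (fun n : ℕ => ((2 + ‖ψ‖) * ‖S‖) ^ (n + 1) / (n + 1).factorial) :=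
    (summable_nat_add_iff 1).2 (Real.summable_pow_div_factorial ((2 + ‖ψ‖) * ‖S‖))
  refine Summable.of_nonneg_of_le (fun n => norm_nonneg _) (fun n => ?_) hs
  have h1 : ‖pn ψ n‖ ≤ (2 + ‖ψ‖) ^ (n + 1) := by
    refine (pn_norm ψ n).trans ?_
    exact pow_le_pow_right₀ (by linarith [norm_nonneg ψ]) (Nat.le_succ n)
  refine (h14_bound (pn ψ n) S (n + 1) _ h1).trans ?_
  rw [mul_pow]

theorem Theta_summable (ψ S : V →L[ℂ] V) :
    Summable (fun n : ℕ => ‖((n.factorial : ℂ)⁻¹) • (pn ψ n * S ^ n)‖) := by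
  have hs : Summable (fun n : ℕ => ((2 + ‖ψ‖) * ‖S‖) ^ n / n.factorial) :=
    Real.summable_pow_div_factorial ((2 + ‖ψ‖) * ‖S‖)
  refine Summable.of_nonneg_of_le (fun n => norm_nonneg _) (fun n => ?_) hs
  refine (h14_bound (pn ψ n) S n _ (pn_norm ψ n)).trans ?_
  rw [mul_pow]

theorem Phi2_summable (ψ ψ' S : V →L[ℂ] V) :
    Summable (fun n : ℕ => ‖(((n + 1).factorial : ℂ)⁻¹) • (qn ψ ψ' n * S ^ (n + 1))‖) := by
  have hs : Summable (fun n : ℕ => ‖ψ'‖ *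
      (((3 + ‖ψ‖) * ‖S‖) ^ (n + 1) / (n + 1).factorial)) :=
    ((summable_nat_add_iff 1).2
      (Real.summable_pow_div_factorial ((3 + ‖ψ‖) * ‖S‖))).mul_left _
  refine Summable.of_nonneg_of_le (fun n => norm_nonneg _) (fun n => ?_) hs
  have h1 : ‖qn ψ ψ' n‖ ≤ (3 + ‖ψ‖) ^ (n + 1) * ‖ψ'‖ := by
    refine (qn_norm ψ ψ' n).trans ?_
    exact mul_le_mul_of_nonneg_right
      (pow_le_pow_right₀ (by linarith [norm_nonneg ψ]) (Nat.le_succ n)) (norm_nonneg _)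
  refine (h14_bound (qn ψ ψ' n) S (n + 1) _ h1).trans (le_of_eq ?_)
  rw [mul_pow]
  ring

theorem Phi_mul {ψ S : V →L[ℂ] V} (hψ : IsMul 1 ψ) (hS : IsMul 1 S) : IsMul 1 (Phi ψ S) := by
  unfold Phi
  exact h14_tsum_isMul
    (F := fun n : ℕ => (((n + 1).factorial : ℂ)⁻¹) • (pn ψ n * S ^ (n + 1)))
    (fun n => mul_smul (mul_mul (pn_mul hψ n) (h14_pow_isMul hS (n + 1))) _) (Phi_summable ψ S)

theorem Theta_mul {ψ S : V →L[ℂ] V} (hψ : IsMul 1 ψ) (hS : IsMul 1 S) :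
    IsMul 1 (Theta ψ S) := by
  unfold Theta
  exact h14_tsum_isMul
    (F := fun n : ℕ => ((n.factorial : ℂ)⁻¹) • (pn ψ n * S ^ n))
    (fun n => mul_smul (mul_mul (pn_mul hψ n) (h14_pow_isMul hS n)) _) (Theta_summable ψ S)

theorem h15_pow {S : V →L[ℂ] V} (hS : IsMul 1 S) (n : ℕ) : IsMul 1 (S ^ n) := by
  induction n with
  | zero => rw [pow_zero]; exact one_isMul
  | succ n ih => rw [pow_succ]; exact mul_mul ih hS

theorem h15_one : Atom (1 : V →L[ℂ] V) 1 := by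
  intro δ hδ
  refine ⟨1, ⟨zero_lt_one, le_rfl⟩, fun f => ?_⟩
  have : (1 : V →L[ℂ] V) f - (1:ℂ) • f = 0 := by
    rw [one_smul]
    exact sub_self f
  rw [this, map_zero, norm_zero]
  positivity

theorem h15_term {ψ S : V →L[ℂ] V} (hψ : IsMul 1 ψ) (hS : IsMul 1 S) (n : ℕ) :
    IsMul 1 (((n.factorial : ℂ)⁻¹) • (pn ψ n * S ^ n)) :=
  mul_smul (mul_mul (pn_mul hψ n) (h15_pow hS n)) _

theorem h15_term_atom {ψ S : V →L[ℂ] V} (hψ : IsMul 1 ψ) (h0 : Atom ψ 0) (hS : IsMul 1 S) (n : ℕ) :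
    Atom ((((n + 1).factorial : ℂ)⁻¹) • (pn ψ (n + 1) * S ^ (n + 1))) 0 := by
  obtain ⟨l, hl⟩ := atom_exists zero_lt_one le_rfl (h15_pow hS (n + 1))
  have h1 := atom_smul (atom_mul (pn_mul hψ (n + 1)) (h15_pow hS (n + 1)) (pn_atom hψ h0 n) hl)
    (((n + 1).factorial : ℂ)⁻¹)
  rwa [zero_mul, mul_zero] at h1

theorem h15_sum {ψ S : V →L[ℂ] V} (hψ : IsMul 1 ψ) (h0 : Atom ψ 0) (hS : IsMul 1 S) (N : ℕ) :
    IsMul 1 (∑ n ∈ Finset.range (N + 1), ((n.factorial : ℂ)⁻¹) • (pn ψ n * S ^ n)) ∧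
      Atom (∑ n ∈ Finset.range (N + 1), ((n.factorial : ℂ)⁻¹) • (pn ψ n * S ^ n)) 1 := by
  induction N with
  | zero =>
    rw [zero_add, Finset.sum_range_one]
    refine ⟨h15_term hψ hS 0, ?_⟩
    have h1 : ((Nat.factorial 0 : ℂ)⁻¹) • (pn ψ 0 * S ^ 0) = 1 := by
      rw [Nat.factorial_zero, Nat.cast_one, inv_one, one_smul, pow_zero, mul_one]
      rfl
    rw [h1]
    exact h15_one
  | succ N ih =>
    rw [Finset.sum_range_succ]
    refine ⟨mul_add ih.1 (h15_term hψ hS (N + 1)), ?_⟩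
    have h1 := atom_add ih.1 (h15_term hψ hS (N + 1)) ih.2 (h15_term_atom hψ h0 hS N)
    rwa [add_zero] at h1

theorem Theta_atom {ψ S : V →L[ℂ] V} (hψ : IsMul 1 ψ) (h0 : Atom ψ 0) (hS : IsMul 1 S) :
    Atom (Theta ψ S) 1 := by
  refine atom_lim (fun N => (h15_sum hψ h0 hS N).1) (Theta_mul hψ hS) ?_ (fun N => (h15_sum hψ h0 hS N).2)
  have h1 := (Theta_summable ψ S).of_norm.hasSum.tendsto_sum_nat
  exact h1.comp (tendsto_add_atTop_nat 1)

theorem h16_conv_zero (g : V) : conv 0 g = 0 := by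
  have h := conv_smul_left 0 (0 : V) g
  rw [zero_smul, zero_smul] at h
  exact h

theorem h16_zero (a : ℝ) : IsMul a (0 : V →L[ℂ] V) := by
  intro f g
  show (0 : V) = P a (conv 0 g)
  rw [h16_conv_zero, map_zero]

theorem h16_mul1 {a : ℝ} {q T : V →L[ℂ] V} (hq : IsMul a q) (hT : IsMul 1 T) :
    IsMul a (q * T) := by
  intro f g
  show q (T (conv f g)) = P a (conv (q (T f)) g)
  rw [hT f g, P_of_one_le le_rfl, hq]

theorem h16_pow {S : V →L[ℂ] V} (hS : IsMul 1 S) (n : ℕ) : IsMul 1 (S ^ n) := by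
  induction n with
  | zero => rw [pow_zero]; exact one_isMul
  | succ n ih => rw [pow_succ]; exact mul_mul ih hS

theorem h16_sum {a : ℝ} (F : ℕ → (V →L[ℂ] V)) (hF : ∀ n, IsMul a (F n)) (N : ℕ) :
    IsMul a (∑ n ∈ Finset.range N, F n) := by
  induction N with
  | zero => rw [Finset.range_zero, Finset.sum_empty]; exact h16_zero a
  | succ N ih => rw [Finset.sum_range_succ]; exact mul_add ih (hF N)

theorem Phi2_mul {a : ℝ} (ha : a ≤ 1) {ψ ψ' S : V →L[ℂ] V} (hψ : IsMul 1 ψ) (hψ' : IsMul a ψ')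
    (hS : IsMul 1 S) : IsMul a (Phi2 ψ ψ' S) := by
  have hs : Summable (fun n : ℕ => (((n + 1).factorial : ℂ)⁻¹) • (qn ψ ψ' n * S ^ (n + 1))) :=
    (Phi2_summable ψ ψ' S).of_norm
  have h1 := hs.hasSum.tendsto_sum_nat
  refine mul_lim (l := atTop)
    (S := fun N : ℕ => ∑ n ∈ Finset.range N, (((n + 1).factorial : ℂ)⁻¹) • (qn ψ ψ' n * S ^ (n + 1)))
    (fun N => h16_sum _ (fun n =>
      mul_smul (h16_mul1 (qn_mul ha hψ hψ' n) (h16_pow hS (n + 1))) _) N) fun f => ?_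
  exact ((ContinuousLinearMap.apply ℂ V f).continuous.tendsto _).comp h1

theorem Phi2_half {ψ ψ' S : V →L[ℂ] V} (h : P (1/2) * ψ' = 0) :
    P (1/2) * Phi2 ψ ψ' S = 0 := by
  have hs : Summable (fun n : ℕ => (((n + 1).factorial : ℂ)⁻¹) • (qn ψ ψ' n * S ^ (n + 1))) :=
    (Phi2_summable ψ ψ' S).of_norm
  unfold Phi2
  rw [← hs.tsum_mul_left]
  have h1 : ∀ n : ℕ, P (1/2) * ((((n + 1).factorial : ℂ)⁻¹) • (qn ψ ψ' n * S ^ (n + 1))) = 0 := by
    intro n
    rw [mul_smul_comm, ← mul_assoc, qn_half h, zero_mul, smul_zero]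
  simp only [h1, tsum_zero]

theorem h16_term (ψ ψ' S : V →L[ℂ] V) (n : ℕ) :
    ‖(((n + 1).factorial : ℂ)⁻¹) • (qn ψ ψ' n * S ^ (n + 1))‖ ≤
      ‖ψ'‖ * (((3 + ‖ψ‖) * ‖S‖) ^ (n + 1) / ((n + 1).factorial : ℝ)) := by
  have h3 : 1 ≤ 3 + ‖ψ‖ := by linarith [norm_nonneg ψ]
  have h4 : (3 + ‖ψ‖) ^ n ≤ (3 + ‖ψ‖) ^ (n + 1) := pow_le_pow_right₀ h3 (Nat.le_succ n)
  rw [norm_smul, norm_inv, Complex.norm_natCast]
  have h5 : ‖qn ψ ψ' n * S ^ (n + 1)‖ ≤ ((3 + ‖ψ‖) ^ (n + 1) * ‖ψ'‖) * ‖S‖ ^ (n + 1) := by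
    refine (norm_mul_le _ _).trans (mul_le_mul ((qn_norm ψ ψ' n).trans ?_)
      (norm_pow_le' S (Nat.succ_pos n)) (norm_nonneg _) (by positivity))
    exact mul_le_mul_of_nonneg_right h4 (norm_nonneg _)
  calc (((n + 1).factorial : ℝ))⁻¹ * ‖qn ψ ψ' n * S ^ (n + 1)‖
      ≤ (((n + 1).factorial : ℝ))⁻¹ * (((3 + ‖ψ‖) ^ (n + 1) * ‖ψ'‖) * ‖S‖ ^ (n + 1)) :=
        mul_le_mul_of_nonneg_left h5 (by positivity)
    _ = _ := by rw [mul_pow]; ring

theorem Phi2_norm (ψ ψ' S : V →L[ℂ] V) :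
    ‖Phi2 ψ ψ' S‖ ≤ Real.exp ((3 + ‖ψ‖) * ‖S‖) * ‖ψ'‖ := by
  set x := (3 + ‖ψ‖) * ‖S‖ with hx
  have h1 : HasSum (fun n : ℕ => x ^ n / (n.factorial : ℝ)) (Real.exp x) := by
    have := NormedSpace.expSeries_div_hasSum_exp (x : ℝ)
    rwa [← Real.exp_eq_exp_ℝ] at this
  have h2 : HasSum (fun n : ℕ => x ^ (n + 1) / ((n + 1).factorial : ℝ)) (Real.exp x - 1) := by
    have := (hasSum_nat_add_iff' 1).2 h1
    simpa using this
  have h3 := h2.mul_left ‖ψ'‖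
  have h4 : ‖Phi2 ψ ψ' S‖ ≤ ‖ψ'‖ * (Real.exp x - 1) :=
    tsum_of_norm_bounded h3 fun n => h16_term ψ ψ' S n
  refine h4.trans ?_
  rw [mul_comm]
  exact mul_le_mul_of_nonneg_right (by linarith) (norm_nonneg _)

theorem Phi2_restrict (a : ℝ) (ψ ψ' S : V →L[ℂ] V) :
    P a * Phi2 ψ ψ' S = Phi2 ψ (P a * ψ') S := by
  have hs : Summable (fun n : ℕ => (((n + 1).factorial : ℂ)⁻¹) • (qn ψ ψ' n * S ^ (n + 1))) :=
    (Phi2_summable ψ ψ' S).of_norm
  unfold Phi2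
  rw [← hs.tsum_mul_left]
  refine tsum_congr fun n => ?_
  rw [mul_smul_comm, ← mul_assoc, qn_restrict]

theorem h17_pow {S : V →L[ℂ] V} (hS : IsMul 1 S) (n : ℕ) : IsMul 1 (S ^ n) := by
  induction n with
  | zero => rw [pow_zero]; exact one_isMul
  | succ n ih => rw [pow_succ]; exact mul_mul ih hS

theorem h17_eval {F : ℕ → (V →L[ℂ] V)} (h : Summable (fun n => ‖F n‖)) (f : V) :
    HasSum (fun n => F n f) ((∑' n, F n) f) := by
  have h1 : HasSum F (∑' n, F n) := h.of_norm.hasSum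
  have h2 := (ContinuousLinearMap.apply ℂ V f).hasSum h1
  exact h2

theorem h17_hasSum_X (S : V →L[ℂ] V) (f : V) :
    HasSum (fun n : ℕ => ((n.factorial : ℂ)⁻¹) • ((S ^ n) ((M ^ n) f))) (X S f) := by
  have h := h17_eval (X_summable S) f
  rw [X]
  exact h

theorem h17_hasSum_Phi (ψ S : V →L[ℂ] V) (f : V) :
    HasSum (fun n : ℕ => (((n + 1).factorial : ℂ)⁻¹) • ((pn ψ n) ((S ^ (n + 1)) f)))
      (Phi ψ S f) := by
  have h := h17_eval (Phi_summable ψ S) f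
  rw [Phi]
  exact h

theorem h17_hasSum_Phi2 (ψ ψ' S : V →L[ℂ] V) (f : V) :
    HasSum (fun n : ℕ => (((n + 1).factorial : ℂ)⁻¹) • ((qn ψ ψ' n) ((S ^ (n + 1)) f)))
      (Phi2 ψ ψ' S f) := by
  have h := h17_eval (Phi2_summable ψ ψ' S) f
  rw [Phi2]
  exact h

theorem h17_hasSum_Theta (ψ S : V →L[ℂ] V) (f : V) :
    HasSum (fun n : ℕ => ((n.factorial : ℂ)⁻¹) • ((pn ψ n) ((S ^ n) f)))
      (Theta ψ S f) := by
  have h := h17_eval (Theta_summable ψ S) f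
  rw [Theta]
  exact h

theorem h17_comm {a : ℝ} {S S' : V →L[ℂ] V} (hS : IsMul a S) (hS' : IsMul a S') (x : V) :
    S (S' x) = S' (S x) := by
  have h := mul_comm' hS hS'
  calc S (S' x) = (S * S') x := rfl
    _ = (S' * S) x := by rw [h]
    _ = S' (S x) := rfl

theorem h17_term {a : ℝ} (ha : a ≤ 1) {p q T : V →L[ℂ] V} (hp : IsMul 1 p) (hq : IsMul a q)
    (hT : IsMul 1 T) {x y : V} (hx : P a x = P a (p y) + q y) :
    P a (T x) = P a (p (T y)) + q (T y) := by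
  rw [mul_causal hT a x, hx, map_add, map_add, ← mul_causal hT a (p y), h17_comm hT hp y]
  congr 1
  have h1 : IsMul a (P a * T) := mul_restrict ha hT
  have h2 := h17_comm h1 hq y
  have h3 : (P a * T) (q y) = P a (T (q y)) := rfl
  have h4 : q ((P a * T) y) = q (T y) := mul_P_right hq (T y)
  rw [← h3, h2, h4]

theorem h17_r {a : ℝ} (ha : a ≤ 1) {p q T r : V →L[ℂ] V} (hp : IsMul 1 p) (hq : IsMul a q)
    (hT : IsMul 1 T) (hr : IsMul a r) (hr0 : P (1/2) * r = 0) (hq0 : P (1/2) * q = 0) {x y : V}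
    (hx : P a x = P a (p y) + q y) :
    r (T x) = r (p (T y)) := by
  rw [← mul_P_right hr (T x), h17_term ha hp hq hT hx, map_add, mul_P_right hr]
  have h1 := half_sq ha hr hq hr0 hq0
  have h2 : r (q (T y)) = (r * q) (T y) := rfl
  rw [h2, h1, zero_apply', add_zero]

theorem X_apply {a : ℝ} (ha : a ≤ 1) {ψ ψ' S : V →L[ℂ] V} (hψ : IsMul 1 ψ) (hψ' : IsMul a ψ')
    (hh : P (1/2) * ψ' = 0) (hS : IsMul 1 S) {f : V}
    (hf : P a (M (M f)) = P a (ψ (M f)) + ψ' (M f)) :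
    P a (X S f) = P a f + P a (Phi ψ S (M f)) + Phi2 ψ ψ' S (M f) := by
  have h1 := (P a).hasSum (h17_hasSum_X S f)
  have h2 := (hasSum_nat_add_iff' 1).mpr h1
  have h3 := (P a).hasSum (h17_hasSum_Phi ψ S (M f))
  have h4 := h17_hasSum_Phi2 ψ ψ' S (M f)
  have h5 := h3.add h4
  have h0 : ∑ i ∈ Finset.range 1,
      P a (((i.factorial : ℂ)⁻¹) • ((S ^ i) ((M ^ i) f))) = P a f := by
    rw [Finset.sum_range_one, Nat.factorial_zero, Nat.cast_one, inv_one, one_smul, pow_zero,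
      pow_zero]
    rfl
  rw [h0] at h2
  have h6 : P a (X S f) - P a f = P a (Phi ψ S (M f)) + Phi2 ψ ψ' S (M f) := by
    refine h2.unique ?_
    convert h5 using 1
    funext n
    simp only [map_smul]
    rw [← smul_add]
    congr 1
    exact h17_term ha (pn_mul hψ n) (qn_mul ha hψ hψ' n) (h17_pow hS (n + 1))
      (Mpow ha hψ hψ' hh hf n)
  rw [add_assoc, ← h6]
  abel

theorem r_X_apply {a : ℝ} (ha : a ≤ 1) {ψ ψ' S r : V →L[ℂ] V} (hψ : IsMul 1 ψ)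
    (hψ' : IsMul a ψ') (hh : P (1/2) * ψ' = 0) (hS : IsMul 1 S) (hr : IsMul a r)
    (hr0 : P (1/2) * r = 0) {f : V} (hf : P a (M (M f)) = P a (ψ (M f)) + ψ' (M f)) :
    r (X S (M f)) = r (Theta ψ S (M f)) := by
  have h1 := r.hasSum (h17_hasSum_X S (M f))
  have h2 := r.hasSum (h17_hasSum_Theta ψ S (M f))
  refine h1.unique ?_
  convert h2 using 1
  funext n
  simp only [map_smul]
  congr 1
  have hx := Mpow ha hψ hψ' hh hf n
  have hM : (M ^ (n + 1)) f = (M ^ n) (M f) := by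
    rw [pow_succ]; rfl
  rw [hM] at hx
  exact h17_r ha (pn_mul hψ n) (qn_mul ha hψ hψ' n) (h17_pow hS n) hr hr0 (qn_half hh n) hx

theorem h18_pow_sub (R0 : ℝ) (hR0 : 0 ≤ R0) (S S' : V →L[ℂ] V) (hS : ‖S‖ ≤ R0) (hS' : ‖S'‖ ≤ R0)
    (n : ℕ) : ‖S ^ (n + 1) - S' ^ (n + 1)‖ ≤ ((n : ℝ) + 1) * R0 ^ n * ‖S - S'‖ := by
  induction n with
  | zero => simp
  | succ n ih =>
    have e : S ^ (n + 1 + 1) - S' ^ (n + 1 + 1) =
        S ^ (n + 1) * (S - S') + (S ^ (n + 1) - S' ^ (n + 1)) * S' := by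
      rw [pow_succ S (n + 1), pow_succ S' (n + 1), mul_sub, sub_mul]
      abel
    rw [e]
    have h1 : ‖S ^ (n + 1) * (S - S')‖ ≤ R0 ^ (n + 1) * ‖S - S'‖ := by
      refine (norm_mul_le _ _).trans (mul_le_mul_of_nonneg_right ?_ (norm_nonneg _))
      exact (norm_pow_le' S (Nat.succ_pos n)).trans (pow_le_pow_left₀ (norm_nonneg _) hS _)
    have h2 : ‖(S ^ (n + 1) - S' ^ (n + 1)) * S'‖ ≤ (((n : ℝ) + 1) * R0 ^ n * ‖S - S'‖) * R0 :=
      (norm_mul_le _ _).trans (mul_le_mul ih hS' (norm_nonneg _) (by positivity))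
    refine (norm_add_le _ _).trans ((add_le_add h1 h2).trans (le_of_eq ?_))
    push_cast
    ring

/-- the terms of `Phi ψ S - S` -/
noncomputable def h18_t (ψ S : V →L[ℂ] V) (n : ℕ) : V →L[ℂ] V :=
  (((n + 1 + 1).factorial : ℂ)⁻¹) • (pn ψ (n + 1) * S ^ (n + 1 + 1))

theorem h18_summable (ψ S : V →L[ℂ] V) : Summable (h18_t ψ S) := by
  have h := (Phi_summable ψ S).of_norm
  exact (summable_nat_add_iff 1).2 h

theorem h18_Phi (ψ S : V →L[ℂ] V) : Phi ψ S = S + ∑' n, h18_t ψ S n := by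
  have h := (Phi_summable ψ S).of_norm
  unfold Phi
  rw [h.tsum_eq_zero_add]
  congr 1
  simp [pn]

theorem h18_exp (x : ℝ) : HasSum (fun n : ℕ => x ^ n / (n.factorial : ℝ)) (Real.exp x) := by
  rw [Real.exp_eq_exp_ℝ]
  exact NormedSpace.expSeries_div_hasSum_exp x

theorem h18_coef (δ : ℝ) (hδ0 : 0 ≤ δ) (hδ1 : δ ≤ 1) (ψ : V →L[ℂ] V) (hψ : ‖ψ‖ ≤ δ) (n : ℕ) :
    ‖pn ψ (n + 1)‖ ≤ δ * 3 ^ n := by
  refine (pn_small ψ n).trans ?_
  have h1 : (2 + ‖ψ‖) ^ n ≤ 3 ^ n := pow_le_pow_left₀ (by positivity) (by linarith) n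
  exact mul_le_mul hψ h1 (by positivity) hδ0

theorem h18_bound (R0 δ : ℝ) (hR0 : 0 ≤ R0) (hδ0 : 0 ≤ δ) (hδ1 : δ ≤ 1) (ψ S : V →L[ℂ] V)
    (hψ : ‖ψ‖ ≤ δ) (hS : ‖S‖ ≤ R0) : ‖∑' n, h18_t ψ S n‖ ≤ δ * Real.exp (3 * R0) := by
  have h1 := (hasSum_nat_add_iff' 2).2 (h18_exp (3 * R0))
  have h2 := h1.mul_left δ
  refine (tsum_of_norm_bounded h2 ?_).trans ?_
  · intro n
    unfold h18_t
    rw [norm_smul, norm_inv, Complex.norm_natCast]
    have h3 : ‖pn ψ (n + 1) * S ^ (n + 1 + 1)‖ ≤ δ * 3 ^ n * R0 ^ (n + 1 + 1) := by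
      refine (norm_mul_le _ _).trans (mul_le_mul (h18_coef δ hδ0 hδ1 ψ hψ n) ?_ (norm_nonneg _)
        (by positivity))
      exact (norm_pow_le' S (Nat.succ_pos _)).trans (pow_le_pow_left₀ (norm_nonneg _) hS _)
    have h4 : δ * 3 ^ n * R0 ^ (n + 1 + 1) ≤ δ * (3 * R0) ^ (n + 2) := by
      have h5 : (3 * R0) ^ (n + 2) = 9 * (3 ^ n * R0 ^ (n + 1 + 1)) := by
        rw [mul_pow]; ring
      rw [h5]
      have h6 : 0 ≤ δ * (3 ^ n * R0 ^ (n + 1 + 1)) := by positivity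
      linarith
    have h7 : (0 : ℝ) < ((n + 1 + 1).factorial : ℝ) := by positivity
    calc ((n + 1 + 1).factorial : ℝ)⁻¹ * ‖pn ψ (n + 1) * S ^ (n + 1 + 1)‖
        ≤ ((n + 1 + 1).factorial : ℝ)⁻¹ * (δ * (3 * R0) ^ (n + 2)) :=
          mul_le_mul_of_nonneg_left (h3.trans h4) (by positivity)
      _ = δ * ((3 * R0) ^ (n + 2) / ((n + 2).factorial : ℝ)) := by
          rw [div_eq_mul_inv]; ring
  · apply mul_le_mul_of_nonneg_left _ hδ0
    have h8 : 0 ≤ ∑ i ∈ Finset.range 2, (3 * R0) ^ i / (i.factorial : ℝ) :=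
      Finset.sum_nonneg fun i _ => by positivity
    linarith

theorem h18_lip (R0 δ : ℝ) (hR0 : 0 ≤ R0) (hδ0 : 0 ≤ δ) (hδ1 : δ ≤ 1) (ψ S S' : V →L[ℂ] V)
    (hψ : ‖ψ‖ ≤ δ) (hS : ‖S‖ ≤ R0) (hS' : ‖S'‖ ≤ R0) :
    ‖(∑' n, h18_t ψ S n) - ∑' n, h18_t ψ S' n‖ ≤ δ * Real.exp (3 * R0) * ‖S - S'‖ := by
  have h1 := (hasSum_nat_add_iff' 1).2 (h18_exp (3 * R0))
  have h2 := (h1.mul_left δ).mul_right ‖S - S'‖
  rw [← (h18_summable ψ S).tsum_sub (h18_summable ψ S')]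
  refine (tsum_of_norm_bounded h2 ?_).trans ?_
  · intro n
    unfold h18_t
    rw [← smul_sub, ← mul_sub, norm_smul, norm_inv, Complex.norm_natCast]
    have h3 : ‖pn ψ (n + 1) * (S ^ (n + 1 + 1) - S' ^ (n + 1 + 1))‖ ≤
        δ * 3 ^ n * ((((n + 1 : ℕ) : ℝ) + 1) * R0 ^ (n + 1) * ‖S - S'‖) := by
      refine (norm_mul_le _ _).trans (mul_le_mul (h18_coef δ hδ0 hδ1 ψ hψ n) ?_ (norm_nonneg _)
        (by positivity))
      exact h18_pow_sub R0 hR0 S S' hS hS' (n + 1)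
    have h4 : δ * 3 ^ n * ((((n + 1 : ℕ) : ℝ) + 1) * R0 ^ (n + 1) * ‖S - S'‖) ≤
        (((n + 1 : ℕ) : ℝ) + 1) * (δ * (3 * R0) ^ (n + 1) * ‖S - S'‖) := by
      have h5 : (3 * R0) ^ (n + 1) = 3 * (3 ^ n * R0 ^ (n + 1)) := by
        rw [mul_pow]; ring
      rw [h5]
      have h6 : 0 ≤ δ * 3 ^ n * ((((n + 1 : ℕ) : ℝ) + 1) * R0 ^ (n + 1) * ‖S - S'‖) := by positivity
      linarith
    have h7 : (0 : ℝ) < ((n + 1).factorial : ℝ) := by positivity
    have h8 : ((n + 1 + 1).factorial : ℝ) = (((n + 1 : ℕ) : ℝ) + 1) * ((n + 1).factorial : ℝ) := by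
      rw [Nat.factorial_succ (n + 1)]
      push_cast
      ring
    have h9 : (0 : ℝ) < ((n + 1 : ℕ) : ℝ) + 1 := by positivity
    calc ((n + 1 + 1).factorial : ℝ)⁻¹ * ‖pn ψ (n + 1) * (S ^ (n + 1 + 1) - S' ^ (n + 1 + 1))‖
        ≤ ((n + 1 + 1).factorial : ℝ)⁻¹ * ((((n + 1 : ℕ) : ℝ) + 1) * (δ * (3 * R0) ^ (n + 1) * ‖S - S'‖)) :=
          mul_le_mul_of_nonneg_left (h3.trans h4) (by positivity)
      _ = δ * ((3 * R0) ^ (n + 1) / ((n + 1).factorial : ℝ)) * ‖S - S'‖ := by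
          rw [h8]
          field_simp
  · apply mul_le_mul_of_nonneg_right _ (norm_nonneg _)
    apply mul_le_mul_of_nonneg_left _ hδ0
    have h8 : 0 ≤ ∑ i ∈ Finset.range 1, (3 * R0) ^ i / (i.factorial : ℝ) :=
      Finset.sum_nonneg fun i _ => by positivity
    linarith

theorem h18_closed : IsClosed {S : V →L[ℂ] V | IsMul 1 S} := by
  have e : {S : V →L[ℂ] V | IsMul 1 S} =
      ⋂ f : V, ⋂ g : V, {S : V →L[ℂ] V | S (conv f g) = P 1 (cL (S f) g)} := by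
    ext S
    simp only [Set.mem_iInter, Set.mem_setOf_eq]
    rfl
  rw [e]
  refine isClosed_iInter fun f => isClosed_iInter fun g => isClosed_eq ?_ ?_
  · fun_prop
  · fun_prop

theorem Phi_solve_small (R : ℝ) (hR : 0 ≤ R) : ∃ δ > 0, ∀ ψ σ : V →L[ℂ] V, IsMul 1 ψ →
    IsMul 1 σ → ‖ψ‖ ≤ δ → ‖σ‖ ≤ R → ∃ S : V →L[ℂ] V, IsMul 1 S ∧ Phi ψ S = σ := by
  have hR0 : 0 ≤ R + 1 := by linarith
  obtain ⟨δ, hδ⟩ : ∃ δ : ℝ, δ = Real.exp (-(3 * (R + 1))) / 4 := ⟨_, rfl⟩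
  have hδ0 : 0 < δ := by rw [hδ]; positivity
  have hexp1 : Real.exp (-(3 * (R + 1))) ≤ 1 := Real.exp_le_one_iff.2 (by linarith)
  have hδ1 : δ ≤ 1 := by rw [hδ]; linarith
  have hδe : δ * Real.exp (3 * (R + 1)) = 1 / 4 := by
    rw [hδ, div_mul_eq_mul_div, ← Real.exp_add, neg_add_cancel, Real.exp_zero]
  refine ⟨δ, hδ0, ?_⟩
  intro ψ σ hψ hσ hψn hσn
  let s : Set (V →L[ℂ] V) := {S | IsMul 1 S} ∩ {S | ‖S‖ ≤ R + 1}
  have hsc : IsComplete s :=
    (h18_closed.inter (isClosed_le continuous_norm continuous_const)).isComplete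
  let F : (V →L[ℂ] V) → (V →L[ℂ] V) := fun S => σ - ∑' n, h18_t ψ S n
  have hF : ∀ S, F S = σ + ((-1 : ℂ) • Phi ψ S + S) := by
    intro S
    show σ - ∑' n, h18_t ψ S n = _
    rw [h18_Phi]
    module
  have hmaps : MapsTo F s s := by
    rintro S ⟨hS1, hS2⟩
    refine ⟨?_, ?_⟩
    · show IsMul 1 (F S)
      rw [hF]
      exact mul_add hσ (mul_add (mul_smul (Phi_mul hψ hS1) _) hS1)
    · show ‖σ - ∑' n, h18_t ψ S n‖ ≤ R + 1
      have h1 := h18_bound (R + 1) δ hR0 hδ0.le hδ1 ψ S hψn hS2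
      rw [hδe] at h1
      have h2 := norm_sub_le σ (∑' n, h18_t ψ S n)
      linarith
  have hcontr : ContractingWith (1 / 4 : NNReal) (hmaps.restrict F s s) := by
    refine ⟨?_, ?_⟩
    · rw [← NNReal.coe_lt_coe]; norm_num
    · apply LipschitzWith.of_dist_le_mul
      rintro ⟨S, hS1, hS2⟩ ⟨S', hS1', hS2'⟩
      rw [Subtype.dist_eq, Subtype.dist_eq]
      show dist (F S) (F S') ≤ ((1 / 4 : NNReal) : ℝ) * dist S S'
      rw [dist_eq_norm, dist_eq_norm]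
      have h1 := h18_lip (R + 1) δ hR0 hδ0.le hδ1 ψ S S' hψn hS2 hS2'
      rw [hδe] at h1
      have h2 : F S - F S' = -((∑' n, h18_t ψ S n) - ∑' n, h18_t ψ S' n) := by
        show (σ - ∑' n, h18_t ψ S n) - (σ - ∑' n, h18_t ψ S' n) = _
        abel
      rw [h2, norm_neg]
      refine h1.trans (le_of_eq ?_)
      norm_num
  have hσs : σ ∈ s := ⟨hσ, by show ‖σ‖ ≤ R + 1; linarith⟩
  obtain ⟨S, hSs, hSfix, -⟩ := hcontr.exists_fixedPoint' hsc hmaps hσs (edist_ne_top _ _)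
  refine ⟨S, hSs.1, ?_⟩
  have h1 : F S = S := hSfix
  rw [h18_Phi]
  have h2 : σ - ∑' n, h18_t ψ S n = S := h1
  rw [← sub_eq_iff_eq_add.1 h2]

theorem E_conj_mul {S : V →L[ℂ] V} (hS : IsMul 1 S) (k : ℝ) : IsMul 1 (E k * S * E (-k)) := by
  intro f g
  have hg : E k (E (-k) g) = g := by rw [E_E, add_neg_cancel, E_zero]
  rw [P_of_one_le le_rfl]
  simp only [mul_apply_eq_comp']
  rw [E_conv, hS, P_of_one_le le_rfl, E_conv, hg]

theorem E_conj_norm {S : V →L[ℂ] V} (hS : IsMul 1 S) {j : ℝ} (hj : 0 ≤ j) :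
    ‖E j * S * E (-j)‖ ≤ ‖S‖ := by
  have hT := E_conj_mul hS j
  set T : V →L[ℂ] V := E j * S * E (-j) with hTdef
  have hTap : ∀ f, T f = E j (S (E (-j) f)) := fun f => rfl
  refine ContinuousLinearMap.opNorm_le_bound _ (norm_nonneg _) fun f => ?_
  have h1 : ∀ h : ℝ, 0 < h → ‖T (conv (e h) f)‖ ≤ ‖S‖ * Real.exp (j * h) * ‖f‖ := by
    intro h hh
    have h2 : T (conv (e h) f) = conv (T (e h)) f := by
      rw [hT, P_of_one_le le_rfl]
    rw [h2]
    refine (norm_conv_le _ _).trans (mul_le_mul_of_nonneg_right ?_ (norm_nonneg _))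
    rw [hTap]
    refine (norm_E_le hj _).trans ((S.le_opNorm _).trans
      (mul_le_mul_of_nonneg_left ?_ (norm_nonneg _)))
    have h3 : ‖E (-j) (e h)‖ ≤ Real.exp (j * h) * ‖e h‖ := by
      have := norm_E_neg (h := h) hj (e h)
      rwa [P_e hh] at this
    refine h3.trans ?_
    have h4 := norm_e_le hh
    have h5 := Real.exp_pos (j * h)
    nlinarith
  have l1 : Tendsto (fun h : ℝ => ‖T (conv (e h) f)‖) (𝓝[>] 0) (𝓝 ‖T f‖) :=
    ((T.continuous.norm).tendsto f).comp (conv_e_tendsto f)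
  have l2 : Tendsto (fun h : ℝ => ‖S‖ * Real.exp (j * h) * ‖f‖) (𝓝[>] 0) (𝓝 (‖S‖ * ‖f‖)) := by
    have h6 : Continuous (fun h : ℝ => ‖S‖ * Real.exp (j * h) * ‖f‖) := by fun_prop
    have h7 := h6.tendsto 0
    simp only [mul_zero, Real.exp_zero, mul_one] at h7
    exact h7.mono_left nhdsWithin_le_nhds
  refine le_of_tendsto_of_tendsto l1 l2 ?_
  filter_upwards [self_mem_nhdsWithin] with h hh
  exact h1 h hh

theorem h19_one (k : ℝ) : E (-k) * E k = (1 : V →L[ℂ] V) := by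
  ext1 f
  show E (-k) (E k f) = f
  rw [E_E, neg_add_cancel, E_zero]

theorem h19_one' (k : ℝ) : E k * E (-k) = (1 : V →L[ℂ] V) := by
  ext1 f
  show E k (E (-k) f) = f
  rw [E_E, add_neg_cancel, E_zero]

theorem h19_M (k : ℝ) : M * E k = E k * M := by
  ext1 f
  exact M_E k f

theorem h19_mul (k : ℝ) (A B : V →L[ℂ] V) :
    E k * (A * B) * E (-k) = (E k * A * E (-k)) * (E k * B * E (-k)) := by
  have : (E k * A * E (-k)) * (E k * B * E (-k)) = E k * A * (E (-k) * E k) * B * E (-k) := by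
    simp only [mul_assoc]
  rw [this, h19_one, mul_one]
  simp only [mul_assoc]

theorem h19_br (k : ℝ) (A : V →L[ℂ] V) :
    E k * br A * E (-k) = br (E k * A * E (-k)) := by
  unfold br
  rw [_root_.mul_sub, _root_.sub_mul]
  have e1 : E k * (M * A) * E (-k) = M * (E k * A * E (-k)) := by
    have : E k * (M * A) * E (-k) = (E k * M) * A * E (-k) := by simp only [mul_assoc]
    rw [this, ← h19_M]
    simp only [mul_assoc]
  have e2 : E k * (A * M) * E (-k) = (E k * A * E (-k)) * M := by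
    have : E k * (A * M) * E (-k) = E k * A * (M * E (-k)) := by simp only [mul_assoc]
    rw [this, h19_M]
    simp only [mul_assoc]
  rw [e1, e2]

theorem h19_pn (k : ℝ) (ψ : V →L[ℂ] V) (n : ℕ) :
    E k * pn ψ n * E (-k) = pn (E k * ψ * E (-k)) n := by
  induction n with
  | zero =>
    show E k * 1 * E (-k) = 1
    rw [mul_one, h19_one']
  | succ n ih =>
    show E k * (br (pn ψ n) + pn ψ n * ψ) * E (-k) =
      br (pn (E k * ψ * E (-k)) n) + pn (E k * ψ * E (-k)) n * (E k * ψ * E (-k))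
    rw [_root_.mul_add, _root_.add_mul, h19_br, h19_mul, ih]

theorem h19_pow (k : ℝ) (S : V →L[ℂ] V) (n : ℕ) :
    E k * S ^ n * E (-k) = (E k * S * E (-k)) ^ n := by
  induction n with
  | zero => rw [pow_zero, pow_zero, mul_one, h19_one']
  | succ n ih => rw [pow_succ, pow_succ, h19_mul, ih]

theorem E_conj_Phi (k : ℝ) (ψ S : V →L[ℂ] V) :
    E k * Phi ψ S * E (-k) = Phi (E k * ψ * E (-k)) (E k * S * E (-k)) := by
  unfold Phi
  have hs : Summable (fun n : ℕ => (((n + 1).factorial : ℂ)⁻¹) • (pn ψ n * S ^ (n + 1))) :=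
    (Phi_summable ψ S).of_norm
  rw [← hs.tsum_mul_left, ← (hs.mul_left (E k)).tsum_mul_right]
  refine tsum_congr fun n => ?_
  rw [mul_smul_comm, smul_mul_assoc, h19_mul, h19_pn, h19_pow]

theorem h20_EE (k : ℝ) : E k * E (-k) = 1 := by
  refine ContinuousLinearMap.ext fun f => ?_
  rw [mul_apply_eq_comp', E_E, add_neg_cancel, E_zero]
  rfl

theorem h20_EE' (k : ℝ) : E (-k) * E k = 1 := by
  refine ContinuousLinearMap.ext fun f => ?_
  rw [mul_apply_eq_comp', E_E, neg_add_cancel, E_zero]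
  rfl

theorem h20_cancel (k : ℝ) {A B : V →L[ℂ] V} (h : E k * A * E (-k) = E k * B * E (-k)) :
    A = B := by
  have h1 : E (-k) * (E k * A * E (-k)) * E k = E (-k) * (E k * B * E (-k)) * E k := by rw [h]
  have h2 : ∀ A : V →L[ℂ] V, E (-k) * (E k * A * E (-k)) * E k = A := by
    intro A
    have h3 : E (-k) * (E k * A * E (-k)) * E k = (E (-k) * E k) * A * (E (-k) * E k) := by
      simp only [_root_.mul_assoc]
    rw [h3, h20_EE', _root_.one_mul, _root_.mul_one]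
  rw [h2, h2] at h1
  exact h1

theorem Phi_solve {ψ σ : V →L[ℂ] V} (hψ : IsMul 1 ψ) (h0 : Atom ψ 0) (hσ : IsMul 1 σ) :
    ∃ S : V →L[ℂ] V, IsMul 1 S ∧ Phi ψ S = σ := by
  obtain ⟨δ, hδ, hsol⟩ := Phi_solve_small ‖σ‖ (norm_nonneg σ)
  obtain ⟨k, hk, hkn⟩ := weight hψ h0 hδ
  obtain ⟨S', hS', hPhi⟩ := hsol (E k * ψ * E (-k)) (E k * σ * E (-k)) (E_conj_mul hψ k)
    (E_conj_mul hσ k) hkn (E_conj_norm hσ hk)
  have hS : IsMul 1 (E (-k) * S' * E k) := by
    have h1 := E_conj_mul hS' (-k)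
    rw [neg_neg] at h1
    exact h1
  refine ⟨E (-k) * S' * E k, hS, ?_⟩
  apply h20_cancel k
  rw [E_conj_Phi]
  have h3 : E k * (E (-k) * S' * E k) * E (-k) = (E k * E (-k)) * S' * (E k * E (-k)) := by
    simp only [_root_.mul_assoc]
  rw [h3, h20_EE, _root_.one_mul, _root_.mul_one, hPhi]

/-! ### L8: families -/

theorem fam_split {A : ℝ → (V →L[ℂ] V)} {C : ℝ} (hA : Fam A C) :
    ∃ (S : V →L[ℂ] V) (r : ℝ → (V →L[ℂ] V)) (C' : ℝ), IsMul 1 S ∧ Fam r C' ∧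
      (∀ a ∈ Ioo (0:ℝ) 1, A a = P a * S + r a) ∧ (∀ a ∈ Ioo (0:ℝ) 1, P (1/2) * r a = 0) := by
  have hhalf : (1/2 : ℝ) ∈ Ioo (0:ℝ) 1 := by norm_num
  obtain ⟨S1, hS1, hS1'⟩ := mul_ext_one (c := 1/2) (by norm_num) (by norm_num) (hA _ hhalf).1
  set r : ℝ → (V →L[ℂ] V) := fun a => A a - P a * S1 with hr
  have hneg : ∀ {a : ℝ} {S : V →L[ℂ] V}, IsMul a S → IsMul a (-S) := by
    intro a S hS
    have := mul_smul hS (-1)
    simpa using this
  have hrm : ∀ a ∈ Ioo (0:ℝ) 1, IsMul a (r a) := by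
    intro a ha
    have h1 := mul_add (hA a ha).1 (hneg (mul_restrict ha.2.le hS1))
    simpa [hr, sub_eq_add_neg] using h1
  have hPS : ∀ a b : ℝ, a ≤ b → ∀ S : V →L[ℂ] V, P a * (P b * S) = P a * S := by
    intro a b hab S
    ext1 f
    simp only [mul_apply_eq_comp', P_P, min_eq_left hab]
  have hrfam : Fam r (C + ‖S1‖) := by
    intro a ha
    refine ⟨hrm a ha, ?_, ?_⟩
    · have h1 : 0 < 1 - a := by linarith [ha.2]
      calc ‖r a‖ ≤ ‖A a‖ + ‖P a * S1‖ := norm_sub_le _ _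
        _ ≤ C / (1 - a) + ‖S1‖ / (1 - a) := by
            refine add_le_add (hA a ha).2.1 ?_
            have h2 : ‖P a * S1‖ ≤ ‖S1‖ := by
              refine ContinuousLinearMap.opNorm_le_bound _ (norm_nonneg _) (fun f => ?_)
              exact (norm_P_le _ _).trans (ContinuousLinearMap.le_opNorm _ _)
            rw [le_div_iff₀ h1]
            nlinarith [norm_nonneg S1, ha.1]
        _ = (C + ‖S1‖) / (1 - a) := by ring
    · intro b hb hab
      have h1 := (hA a ha).2.2 b hb hab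
      simp only [hr, mul_sub', h1, hPS a b hab]
  have hr0 : ∀ a ∈ Ioo (0:ℝ) 1, P (1/2) * r a = 0 := by
    intro a ha
    rcases le_total (1/2) a with h | h
    · have h1 := (hA _ hhalf).2.2 a ha h
      simp only [hr, mul_sub', h1, hPS _ _ h, hS1', sub_self]
    · have h1 := (hA a ha).2.2 _ hhalf h
      have h2 : r a = 0 := by
        simp only [hr]
        rw [← h1, ← hS1', hPS _ _ h, sub_self]
      rw [h2, mul_zero]
  exact ⟨S1, r, C + ‖S1‖, hS1, hrfam, fun a ha => by simp only [hr]; abel, hr0⟩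

theorem h22_mul_apply (A B : V →L[ℂ] V) (f : V) : (A * B) f = A (B f) := rfl

theorem fam_add {A B : ℝ → (V →L[ℂ] V)} {C C' : ℝ} (hA : Fam A C) (hB : Fam B C') :
    Fam (fun a => A a + B a) (C + C') := by
  intro a ha
  obtain ⟨a1, a2, a3⟩ := hA a ha
  obtain ⟨b1, b2, b3⟩ := hB a ha
  refine ⟨mul_add a1 b1, ?_, ?_⟩
  · rw [add_div]
    exact (norm_add_le _ _).trans (add_le_add a2 b2)
  · intro b hb hab
    show P a * (A b + B b) = A a + B a
    rw [mul_add', a3 b hb hab, b3 b hb hab]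

theorem fam_smul {A : ℝ → (V →L[ℂ] V)} {C : ℝ} (hA : Fam A C) (z : ℂ) :
    Fam (fun a => z • A a) (‖z‖ * C) := by
  intro a ha
  obtain ⟨a1, a2, a3⟩ := hA a ha
  refine ⟨mul_smul a1 z, ?_, ?_⟩
  · show ‖z • A a‖ ≤ _
    rw [norm_smul, mul_div_assoc]
    exact mul_le_mul_of_nonneg_left a2 (norm_nonneg _)
  · intro b hb hab
    show P a * (z • A b) = z • A a
    rw [← a3 b hb hab]
    ext1 f
    show P a (z • A b f) = z • P a (A b f)
    rw [map_smul]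

theorem fam_bdd {S : V →L[ℂ] V} (hS : IsMul 1 S) : Fam (fun a => P a * S) ‖S‖ := by
  intro a ha
  refine ⟨mul_restrict ha.2.le hS, ?_, ?_⟩
  · have h1 : ‖P a * S‖ ≤ ‖S‖ := by
      refine ContinuousLinearMap.opNorm_le_bound _ (norm_nonneg _) (fun f => ?_)
      rw [h22_mul_apply]
      exact (norm_P_le a (S f)).trans (S.le_opNorm f)
    refine h1.trans ?_
    have h2 : (0 : ℝ) < 1 - a := by linarith [ha.2]
    rw [le_div_iff₀ h2]
    nlinarith [norm_nonneg S, ha.1]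
  · intro b hb hab
    ext1 f
    show P a (P b (S f)) = P a (S f)
    rw [P_P, min_eq_left hab]

theorem fam_mulS {A : ℝ → (V →L[ℂ] V)} {C : ℝ} (hA : Fam A C) {S : V →L[ℂ] V}
    (hS : IsMul 1 S) : Fam (fun a => A a * S) (C * ‖S‖) := by
  intro a ha
  obtain ⟨a1, a2, a3⟩ := hA a ha
  refine ⟨?_, ?_, ?_⟩
  · intro f g
    show A a (S (conv f g)) = P a (conv (A a (S f)) g)
    rw [hS f g, P_of_one_le le_rfl, a1]
  · show ‖A a * S‖ ≤ _
    refine (norm_mul_le _ _).trans ?_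
    rw [mul_div_right_comm]
    exact mul_le_mul_of_nonneg_right a2 (norm_nonneg _)
  · intro b hb hab
    show P a * (A b * S) = A a * S
    rw [← mul_assoc, a3 b hb hab]

theorem fam_Phi2 {A : ℝ → (V →L[ℂ] V)} {C : ℝ} (hA : Fam A C) {ψ S : V →L[ℂ] V}
    (hψ : IsMul 1 ψ) (hS : IsMul 1 S) :
    Fam (fun a => Phi2 ψ (A a) S) (Real.exp ((3 + ‖ψ‖) * ‖S‖) * C) := by
  intro a ha
  obtain ⟨a1, a2, a3⟩ := hA a ha
  refine ⟨Phi2_mul ha.2.le hψ a1 hS, ?_, ?_⟩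
  · show ‖Phi2 ψ (A a) S‖ ≤ _
    refine (Phi2_norm ψ (A a) S).trans ?_
    rw [mul_div_assoc]
    exact mul_le_mul_of_nonneg_left a2 (Real.exp_pos _).le
  · intro b hb hab
    show P a * Phi2 ψ (A b) S = Phi2 ψ (A a) S
    rw [Phi2_restrict, a3 b hb hab]

theorem atom_fam {A : ℝ → (V →L[ℂ] V)} {C : ℝ} (hA : Fam A C) {S : V →L[ℂ] V} (hS : IsMul 1 S)
    {r : ℝ → (V →L[ℂ] V)} (h1 : ∀ a ∈ Ioo (0:ℝ) 1, A a = P a * S + r a)
    (h2 : ∀ a ∈ Ioo (0:ℝ) 1, P (1/2) * r a = 0) {a : ℝ} (ha : a ∈ Ioo (0:ℝ) 1) {l : ℂ}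
    (hl : Atom (A a) l) : Atom S l := by
  intro δ hδ
  obtain ⟨ε0, hε0, h0⟩ := atom_mono (hA a ha).1 hl hδ
  have hpos : 0 < min ε0 (min a (1/2)) :=
    lt_min hε0.1 (lt_min ha.1 (by norm_num))
  refine ⟨min ε0 (min a (1/2)), ⟨hpos, (min_le_left _ _).trans hε0.2⟩, fun f => ?_⟩
  have h3 := h0 (min ε0 (min a (1/2))) ⟨hpos, min_le_left _ _⟩ f
  have hε1 : min ε0 (min a (1/2)) ≤ a := (min_le_right _ _).trans (min_le_left _ _)
  have hε2 : min ε0 (min a (1/2)) ≤ 1/2 := (min_le_right _ _).trans (min_le_right _ _)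
  generalize min ε0 (min a (1/2)) = ε at *
  have h4 : P ε (A a f) = P ε (S f) := by
    have e1 : A a f = P a (S f) + r a f := by
      rw [h1 a ha]; rfl
    have e2 : P (1/2) (r a f) = 0 := by
      have := congrArg (fun T : V →L[ℂ] V => T f) (h2 a ha)
      exact this
    have e3 : P ε (r a f) = 0 := by
      have : P ε (P (1/2) (r a f)) = P ε (r a f) := by
        rw [P_P, min_eq_left hε2]
      rw [← this, e2, map_zero]
    rw [e1, map_add, e3, add_zero, P_P, min_eq_left hε1]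
  have h5 : P ε (S f - l • f) = P ε (A a f - l • f) := by
    rw [map_sub, map_sub, h4]
  rw [h5]
  exact h3

theorem h23_main {a : ℝ} (ha : a ∈ Ioo (0:ℝ) 1) {ψ ψ' S r : V →L[ℂ] V} (hψ : IsMul 1 ψ)
    (hψ' : IsMul a ψ') (hh : P (1/2) * ψ' = 0) (hS : IsMul 1 S) (hr : IsMul a r)
    (hr0 : P (1/2) * r = 0) {f : V} (hf : P a (M (M f)) = P a (ψ (M f)) + ψ' (M f)) :
    P a (X (P a * S + r) f) = P a f + P a (Phi ψ S (M f)) + Phi2 ψ ψ' S (M f) +
      r (Theta ψ S (M f)) := by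
  have ha1 : a ≤ 1 := ha.2.le
  have h1 := X_split (mul_restrict ha1 hS) hr (half_sq ha1 hr hr hr0 hr0)
  have h2 : P a (X (P a * S + r) f) = P a (X (P a * S) f) + r (X (P a * S) (M f)) :=
    congrArg (fun A : V →L[ℂ] V => A f) h1
  have h3 : r (X (P a * S) (M f)) = r (X S (M f)) := by
    rw [← mul_P_right hr (X (P a * S) (M f)), ← X_restrict ha1 hS (M f), mul_P_right hr]
  rw [h2, ← X_restrict ha1 hS f, X_apply ha1 hψ hψ' hh hS hf, h3,
    r_X_apply ha1 hψ hψ' hh hS hr hr0 hf]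

theorem regular_sub {ρ ψ : ℝ → (V →L[ℂ] V)} {C C' : ℝ} (hρ : Fam ρ C) (hψ : Fam ψ C') {f : V}
    (hf : ∀ a ∈ Ioo (0:ℝ) 1, P a (M (M f)) = ψ a (M f)) :
    ∃ (σ : ℝ → (V →L[ℂ] V)) (C'' : ℝ), Fam σ C'' ∧
      ∀ a ∈ Ioo (0:ℝ) 1, P a (X (ρ a) f) = P a f + σ a (M f) := by
  obtain ⟨ψ1, ψ2, C1, hψ1, hψ2, hψeq, hψh⟩ := fam_split hψ
  obtain ⟨S, r, C2, hS, hr, hρeq, hrh⟩ := fam_split hρ
  refine ⟨fun a => (P a * Phi ψ1 S + Phi2 ψ1 (ψ2 a) S) + r a * Theta ψ1 S, _,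
    fam_add (fam_add (fam_bdd (Phi_mul hψ1 hS)) (fam_Phi2 hψ2 hψ1 hS))
      (fam_mulS hr (Theta_mul hψ1 hS)), ?_⟩
  intro a ha
  have hf' : P a (M (M f)) = P a (ψ1 (M f)) + ψ2 a (M f) := by
    rw [hf a ha, hψeq a ha]
    rfl
  rw [hρeq a ha, h23_main ha hψ1 (hψ2 a ha).1 (hψh a ha) hS (hr a ha).1 (hrh a ha) hf']
  show _ = P a f + ((P a (Phi ψ1 S (M f)) + Phi2 ψ1 (ψ2 a) S (M f)) + r a (Theta ψ1 S (M f)))
  abel

theorem regular_sup {σ ψ : ℝ → (V →L[ℂ] V)} {C C' : ℝ} (hσ : Fam σ C) (hψ : Fam ψ C')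
    (h0 : ∀ a ∈ Ioo (0:ℝ) 1, Atom (ψ a) 0) {f : V}
    (hf : ∀ a ∈ Ioo (0:ℝ) 1, P a (M (M f)) = ψ a (M f)) :
    ∃ (ρ : ℝ → (V →L[ℂ] V)) (C'' : ℝ), Fam ρ C'' ∧
      ∀ a ∈ Ioo (0:ℝ) 1, P a (X (ρ a) f) = P a f + σ a (M f) := by
  obtain ⟨ψ1, ψ2, C1, hψ1, hψ2, hψeq, hψh⟩ := fam_split hψ
  obtain ⟨σ1, σ2, C2, hσ1, hσ2, hσeq, hσh⟩ := fam_split hσ
  have hhalf : (1 / 2 : ℝ) ∈ Ioo (0:ℝ) 1 := ⟨by norm_num, by norm_num⟩
  have hat : Atom ψ1 0 := atom_fam hψ hψ1 hψeq hψh hhalf (h0 _ hhalf)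
  obtain ⟨S, hS, hPhi⟩ := Phi_solve hψ1 hat hσ1
  obtain ⟨Θ', hΘ', -, hΘ⟩ := mul_inv one_pos (Theta_mul hψ1 hS) one_ne_zero
    (Theta_atom hψ1 hat hS)
  have hr : Fam (fun a => (σ2 a + (-1 : ℂ) • Phi2 ψ1 (ψ2 a) S) * Θ') _ :=
    fam_mulS (fam_add hσ2 (fam_smul (fam_Phi2 hψ2 hψ1 hS) (-1 : ℂ))) hΘ'
  refine ⟨fun a => P a * S + (σ2 a + (-1 : ℂ) • Phi2 ψ1 (ψ2 a) S) * Θ', _,
    fam_add (fam_bdd hS) hr, ?_⟩
  intro a ha
  have hf' : P a (M (M f)) = P a (ψ1 (M f)) + ψ2 a (M f) := by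
    rw [hf a ha, hψeq a ha]
    rfl
  have hr0 : P (1/2) * ((σ2 a + (-1 : ℂ) • Phi2 ψ1 (ψ2 a) S) * Θ') = 0 := by
    have e1 : P (1/2) * (σ2 a + (-1 : ℂ) • Phi2 ψ1 (ψ2 a) S) = 0 := by
      rw [mul_add', hσh a ha, mul_smul_comm, Phi2_half (hψh a ha), smul_zero, add_zero]
    rw [← mul_assoc, e1, zero_mul]
  have h1 := h23_main ha hψ1 (hψ2 a ha).1 (hψh a ha) hS (hr a ha).1 hr0 hf'
  have h2 : Θ' (Theta ψ1 S (M f)) = M f := by
    have h3 : Θ' (Theta ψ1 S (M f)) = P 1 (M f) := congrArg (fun A : V →L[ℂ] V => A (M f)) hΘ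
    rw [h3, P_of_one_le le_rfl]
  have h4 : ((σ2 a + (-1 : ℂ) • Phi2 ψ1 (ψ2 a) S) * Θ') (Theta ψ1 S (M f)) =
      σ2 a (M f) + (-1 : ℂ) • Phi2 ψ1 (ψ2 a) S (M f) := by
    show (σ2 a + (-1 : ℂ) • Phi2 ψ1 (ψ2 a) S) (Θ' (Theta ψ1 S (M f))) = _
    rw [h2]
    rfl
  show P a (X (P a * S + (σ2 a + (-1 : ℂ) • Phi2 ψ1 (ψ2 a) S) * Θ') f) = _
  rw [h1, h4, hPhi, hσeq a ha]
  show _ = P a f + (P a (σ1 (M f)) + σ2 a (M f))
  rw [neg_smul, one_smul]
  abel

/-- `k = dG * h` on `[0,1)` in integrated form -/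
def DConv (G : ℝ → ℂ) (h k : V) : Prop :=
  ∀ᵐ t ∂mI, ∫ s in (0:ℝ)..t, k s = ∫ s in (0:ℝ)..t, G (t - s) * h s

theorem h24_cv {F G : ℝ → ℂ} {a : ℝ} (hF : ∀ᵐ t ∂mI, t < a → F t = G t) (h : ℝ → ℂ) :
    ∀ᵐ t ∂mI, t < a → cv F h t = ∫ s in (0:ℝ)..t, G (t - s) * h s := by
  have hmem : ∀ᵐ t ∂mI, t ∈ Icc (0:ℝ) 1 := ae_restrict_mem measurableSet_Icc
  have hF' : ∀ᵐ s ∂(volume : Measure ℝ), s ∈ Icc (0:ℝ) 1 → s < a → F s = G s :=
    (ae_restrict_iff' measurableSet_Icc).1 hF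
  filter_upwards [hmem] with t ht hta
  have h1 : cv F h t = ∫ s in (0:ℝ)..t, G s * h (t - s) := by
    unfold cv
    refine intervalIntegral.integral_congr_ae ?_
    filter_upwards [hF'] with s hs hst
    rw [uIoc_of_le ht.1] at hst
    rw [hs ⟨hst.1.le, hst.2.trans ht.2⟩ (lt_of_le_of_lt hst.2 hta)]
  have h2 : (∫ s in (0:ℝ)..t, G s * h (t - s)) = ∫ s in (0:ℝ)..t, G (t - s) * h s := by
    have h3 := intervalIntegral.integral_comp_sub_left (a := (0:ℝ)) (b := t)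
      (fun x => G (t - x) * h x) t
    simp only [sub_self, sub_zero, sub_sub_cancel] at h3
    exact h3
  rw [h1, h2]

theorem h24_conv_ae (f g : V) : (conv f g : ℝ → ℂ) =ᵐ[mI] cv f g := by
  unfold conv
  exact Integrable.coeFn_toL1 _

theorem h24_comm {a : ℝ} {S : V →L[ℂ] V} (hS : IsMul a S) (h : V) :
    P a (conv u (S h)) = P a (conv (S u) h) := by
  have h1 := hS h u
  have h2 := hS u h
  rw [conv_comm h u] at h1
  rw [conv_comm u (S h), ← h1, h2]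

theorem h24_iff {a : ℝ} {S : V →L[ℂ] V} (hS : IsMul a S) (h y : V) :
    P a y = S h ↔ P a (conv u y) = P a (conv (S u) h) := by
  rw [← h24_comm hS h]
  constructor
  · intro hy
    rw [conv_comm u y, P_conv a y u, hy, conv_comm u (S h)]
  · intro hy
    have h1 : conv u y = conv u (y - S h) + conv u (S h) := by
      rw [← conv_add_right, sub_add_cancel]
    rw [h1, map_add] at hy
    have h2 : P a (conv u (y - S h)) = 0 := by
      have h3 := congrArg (fun v => v - P a (conv u (S h))) hy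
      simpa using h3
    have h4 := inj_u h2
    rw [map_sub, mul_P_left hS, sub_eq_zero] at h4
    exact h4

theorem fam_fun_iff {A : ℝ → (V →L[ℂ] V)} {C : ℝ} (hA : Fam A C) {G : ℝ → ℂ}
    (hAG : ∀ a ∈ Ioo (0:ℝ) 1, ∀ᵐ t ∂mI, t < a → (A a u : ℝ → ℂ) t = G t) (h y : V) :
    (∀ a ∈ Ioo (0:ℝ) 1, P a y = A a h) ↔ DConv G h y := by
  have key : ∀ a ∈ Ioo (0:ℝ) 1, (P a y = A a h ↔
      ∀ᵐ t ∂mI, t < a → ∫ s in (0:ℝ)..t, y s = ∫ s in (0:ℝ)..t, G (t - s) * h s) := by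
    intro a ha
    rw [h24_iff (hA a ha).1 h y]
    have h1 := h24_cv (hAG a ha) (h : ℝ → ℂ)
    have h2 := h24_conv_ae (A a u) h
    have h3 := conv_u_ae y
    constructor
    · intro hP
      filter_upwards [ae_of_P_eq hP, h1, h2, h3] with t e0 e1 e2 e3 hta
      have e4 := e0 hta
      rw [e3, e2, e1 hta] at e4
      exact e4
    · intro hP
      refine P_eq_of_ae ?_
      filter_upwards [hP, h1, h2, h3] with t e0 e1 e2 e3 hta
      rw [e3, e2, e1 hta]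
      exact e0 hta
  constructor
  · intro hy
    exact ae_of_all_lt fun a ha => (key a ha).1 (hy a ha)
  · intro hD a ha
    refine (key a ha).2 ?_
    filter_upwards [hD] with t ht _
    exact ht

/-- on `[0,a)`, `D` is convolution with the measure `dG` -/
def OpConv (a : ℝ) (G : ℝ → ℂ) (D : V →L[ℂ] V) : Prop :=
  ∀ h : V, ∀ᵐ t ∂mI, t < a → ∫ s in (0:ℝ)..t, (D h : ℝ → ℂ) s = ∫ s in (0:ℝ)..t, G (t - s) * h s

theorem h25_conv_ae (f g : V) : (conv f g : ℝ → ℂ) =ᵐ[mI] cv f g := by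
  unfold conv
  exact Integrable.coeFn_toL1 _

theorem opConv_of_mul {a : ℝ} {A : V →L[ℂ] V} (hA : IsMul a A) {G : ℝ → ℂ}
    (hAG : ∀ᵐ t ∂mI, t < a → (A u : ℝ → ℂ) t = G t) : OpConv a G A := by
  intro h
  have e1 : P a (conv u (A h)) = P a (conv (A u) h) := by
    have a1 := hA h u
    have a2 := hA u h
    rw [conv_comm u (A h), ← a1, ← a2, conv_comm]
  have e2 := ae_of_P_eq e1
  have e3 := conv_u_ae (A h)
  have e4 := h25_conv_ae (A u) h
  have hG' : ∀ᵐ s ∂(volume : Measure ℝ), s ∈ Icc (0:ℝ) 1 → s < a → (A u : ℝ → ℂ) s = G s := by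
    have := hAG
    unfold mI at this
    rwa [ae_restrict_iff' measurableSet_Icc] at this
  have hmem : ∀ᵐ t ∂mI, t ∈ Icc (0:ℝ) 1 := by
    unfold mI
    exact ae_restrict_mem measurableSet_Icc
  filter_upwards [e2, e3, e4, hmem] with t h2 h3 h4 ht hta
  rw [← h3, h2 hta, h4]
  unfold cv
  have e5 : ∫ s in (0:ℝ)..t, (A u : ℝ → ℂ) s * (h : ℝ → ℂ) (t - s) =
      ∫ s in (0:ℝ)..t, G s * (h : ℝ → ℂ) (t - s) := by
    apply intervalIntegral.integral_congr_ae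
    filter_upwards [hG'] with s hs hsm
    rw [uIoc_of_le ht.1] at hsm
    rw [hs ⟨hsm.1.le, hsm.2.trans ht.2⟩ (lt_of_le_of_lt hsm.2 hta)]
  rw [e5]
  have e6 := intervalIntegral.integral_comp_sub_left (a := (0:ℝ)) (b := t)
    (fun s => G s * (h : ℝ → ℂ) (t - s)) t
  simp only [sub_self, sub_zero, sub_sub_cancel] at e6
  exact e6.symm

theorem opConv_unique {a : ℝ} {A D : V →L[ℂ] V} (hA : IsMul a A) {G : ℝ → ℂ}
    (hAG : ∀ᵐ t ∂mI, t < a → (A u : ℝ → ℂ) t = G t) (hD : OpConv a G D) : P a * D = A := by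
  have hOA := opConv_of_mul hA hAG
  apply ContinuousLinearMap.ext
  intro h
  have e1 : P a (conv u (D h)) = P a (conv u (A h)) := by
    apply P_eq_of_ae
    filter_upwards [conv_u_ae (D h), conv_u_ae (A h), hD h, hOA h] with t h1 h2 h3 h4 hta
    rw [h1, h2, h3 hta, h4 hta]
  have e2 : P a (conv u (D h - A h)) = 0 := by
    have e3 : D h - A h = D h + (-1 : ℂ) • A h := by
      rw [neg_smul, one_smul, sub_eq_add_neg]
    rw [e3, conv_add_right, conv_smul_right, map_add, map_smul, e1, neg_smul, one_smul,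
      add_neg_cancel]
  have e3 := inj_u e2
  rw [map_sub, mul_P_left hA, sub_eq_zero] at e3
  exact e3

theorem opConv_pow {a : ℝ} {A D : V →L[ℂ] V} (hA : IsMul a A) (hD : P a * D = A) (n : ℕ) (f : V) :
    P a ((D ^ n) f) = P a ((A ^ n) f) := by
  have hDa : ∀ x : V, P a (D x) = A x := by
    intro x
    rw [← hD]
    rfl
  induction n with
  | zero => rfl
  | succ n ih =>
    have e1 : (D ^ (n + 1)) f = D ((D ^ n) f) := by
      rw [pow_succ']
      rfl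
    have e2 : (A ^ (n + 1)) f = A ((A ^ n) f) := by
      rw [pow_succ']
      rfl
    rw [e1, e2, hDa, mul_P_left hA, ← mul_P_right hA, ih, mul_P_right hA]

theorem X_hasSum (a : ℝ) (ρ : V →L[ℂ] V) (f : V) :
    HasSum (fun n : ℕ => ((n.factorial : ℂ)⁻¹) • P a ((ρ ^ n) ((M ^ n) f))) (P a (X ρ f)) := by
  have h1 : HasSum (fun n : ℕ => ((n.factorial : ℂ)⁻¹) • (ρ ^ n * M ^ n)) (X ρ) :=
    (X_summable ρ).of_norm.hasSum
  have h2 := ((P a).comp (ContinuousLinearMap.apply ℂ V f)).hasSum h1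
  have e1 : ((P a).comp (ContinuousLinearMap.apply ℂ V f)) (X ρ) = P a (X ρ f) := rfl
  have e2 : (fun n : ℕ => ((n.factorial : ℂ)⁻¹) • P a ((ρ ^ n) ((M ^ n) f))) =
      fun n : ℕ => ((P a).comp (ContinuousLinearMap.apply ℂ V f))
        (((n.factorial : ℂ)⁻¹) • (ρ ^ n * M ^ n)) := by
    funext n
    rw [map_smul]
    rfl
  rw [e2, ← e1]
  exact h2

theorem h26_mul_rpow {β s : ℝ} (hβ : 0 < β) (hs : 0 ≤ s) : s * s ^ (β - 1) = s ^ β := by
  rcases hs.eq_or_lt with h | h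
  · subst h
    rw [Real.zero_rpow hβ.ne', zero_mul]
  · have h1 : s ^ β = s ^ ((β - 1) + 1) := by congr 1; ring
    rw [h1, Real.rpow_add_one h.ne', mul_comm]

theorem h26_mul_rpow' {β s : ℝ} (hβ : 0 < β) (hs : 0 ≤ s) : s * s ^ β = s ^ (β + 1) := by
  have h1 := h26_mul_rpow (β := β + 1) (by linarith) hs
  rwa [add_sub_cancel_right] at h1

theorem h26_M {β : ℝ} (hβ : 0 < β) {c : ℂ} {f : V}
    (hf : (f : ℝ → ℂ) =ᵐ[mI] fun t => c * ((t ^ (β - 1) : ℝ) : ℂ)) :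
    (M f : ℝ → ℂ) =ᵐ[mI] fun t => c * ((t ^ β : ℝ) : ℂ) := by
  have h0 : ∀ᵐ t ∂mI, t ∈ Icc (0:ℝ) 1 := by
    unfold mI
    exact ae_restrict_mem measurableSet_Icc
  filter_upwards [M_ae f, hf, h0] with t h1 h2 h3
  rw [h1, h2, ← h26_mul_rpow hβ h3.1]
  push_cast
  ring

theorem h26_int1 {β t : ℝ} (hβ : 0 < β) (ht : 0 ≤ t) :
    ∫ s in (0:ℝ)..t, s ^ (β + 1) = t ^ (β + 2) / (β + 2) := by
  rw [integral_rpow (Or.inl (by linarith))]
  have h1 : β + 1 + 1 = β + 2 := by ring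
  rw [h1, Real.zero_rpow (by linarith), sub_zero]

theorem h26_int2 {β t : ℝ} (hβ : 0 < β) (ht : 0 ≤ t) :
    ∫ s in (0:ℝ)..t, ((β + 1) * (t - s)) * s ^ β = t ^ (β + 2) / (β + 2) := by
  have h1 : ∫ s in (0:ℝ)..t, ((β + 1) * (t - s)) * s ^ β =
      ∫ s in (0:ℝ)..t, ((β + 1) * t) * s ^ β - (β + 1) * s ^ (β + 1) := by
    apply intervalIntegral.integral_congr
    intro s hs
    rw [uIcc_of_le ht] at hs
    have h2 := h26_mul_rpow' hβ hs.1
    change ((β + 1) * (t - s)) * s ^ β = ((β + 1) * t) * s ^ β - (β + 1) * s ^ (β + 1)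
    rw [← h2]
    ring
  have i1 : IntervalIntegrable (fun s : ℝ => s ^ β) volume 0 t :=
    intervalIntegral.intervalIntegrable_rpow' (by linarith)
  have i2 : IntervalIntegrable (fun s : ℝ => s ^ (β + 1)) volume 0 t :=
    intervalIntegral.intervalIntegrable_rpow' (by linarith)
  rw [h1, intervalIntegral.integral_sub (i1.const_mul _) (i2.const_mul _),
    intervalIntegral.integral_const_mul, intervalIntegral.integral_const_mul, h26_int1 hβ ht,
    integral_rpow (Or.inl (by linarith)), Real.zero_rpow (by linarith), sub_zero]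
  have h3 : t * t ^ (β + 1) = t ^ (β + 2) := by
    have h4 := h26_mul_rpow' (β := β + 1) (by linarith) ht
    have h5 : β + 1 + 1 = β + 2 := by ring
    rwa [h5] at h4
  have h4 : (β + 1) ≠ 0 := by linarith
  have h5 : (β + 2) ≠ 0 := by linarith
  rw [← h3]
  field_simp
  ring

theorem power_example {β : ℝ} (hβ : 0 < β) {c : ℂ} {f : V}
    (hf : (f : ℝ → ℂ) =ᵐ[mI] fun t => c * ((t ^ (β - 1) : ℝ) : ℂ)) :
    DConv (fun t => ((β + 1) * t : ℝ)) (M f) (M (M f)) := by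
  have hM1 := h26_M hβ hf
  have hM2 : (M (M f) : ℝ → ℂ) =ᵐ[mI] fun t => c * ((t ^ (β + 1) : ℝ) : ℂ) := by
    apply h26_M (β := β + 1) (by linarith)
    rw [add_sub_cancel_right]
    exact hM1
  unfold DConv
  have h0 : ∀ᵐ t ∂mI, t ∈ Icc (0:ℝ) 1 := by
    unfold mI
    exact ae_restrict_mem measurableSet_Icc
  filter_upwards [h0] with t ht
  unfold mI at hM1 hM2
  have e1 := (ae_restrict_iff' measurableSet_Icc).1 hM1
  have e2 := (ae_restrict_iff' measurableSet_Icc).1 hM2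
  have hsub : ∀ x, x ∈ Set.uIoc 0 t → x ∈ Icc (0:ℝ) 1 := by
    intro x hx
    rw [uIoc_of_le ht.1] at hx
    exact ⟨hx.1.le, hx.2.trans ht.2⟩
  have i1 : ∫ s in (0:ℝ)..t, (M (M f) : ℝ → ℂ) s = c * ((t ^ (β + 2) / (β + 2) : ℝ) : ℂ) := by
    have e3 : ∫ s in (0:ℝ)..t, (M (M f) : ℝ → ℂ) s =
        ∫ s in (0:ℝ)..t, c * ((s ^ (β + 1) : ℝ) : ℂ) := by
      apply intervalIntegral.integral_congr_ae
      filter_upwards [e2] with x hx hx'
      exact hx (hsub x hx')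
    rw [e3, intervalIntegral.integral_const_mul, intervalIntegral.integral_ofReal,
      h26_int1 hβ ht.1]
  have i2 : ∫ s in (0:ℝ)..t, (((β + 1) * (t - s) : ℝ) : ℂ) * (M f : ℝ → ℂ) s =
      c * ((t ^ (β + 2) / (β + 2) : ℝ) : ℂ) := by
    have e3 : ∫ s in (0:ℝ)..t, (((β + 1) * (t - s) : ℝ) : ℂ) * (M f : ℝ → ℂ) s =
        ∫ s in (0:ℝ)..t, c * ((((β + 1) * (t - s)) * s ^ β : ℝ) : ℂ) := by
      apply intervalIntegral.integral_congr_ae
      filter_upwards [e1] with x hx hx'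
      have hx2 : (M f : ℝ → ℂ) x = c * ((x ^ β : ℝ) : ℂ) := hx (hsub x hx')
      rw [hx2]
      push_cast
      ring
    rw [e3, intervalIntegral.integral_const_mul, intervalIntegral.integral_ofReal,
      h26_int2 hβ ht.1]
  rw [i1]
  exact i2.symm

theorem h27_conv_ae (x y : V) : (conv x y : ℝ → ℂ) =ᵐ[mI] cv x y := by
  unfold conv
  exact Integrable.coeFn_toL1 _

theorem h27_ae_vol {p : ℝ → Prop} (h : ∀ᵐ s ∂mI, p s) : ∀ᵐ s : ℝ, s ∈ Icc (0:ℝ) 1 → p s := by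
  unfold mI at h
  exact (ae_restrict_iff' measurableSet_Icc).1 h

theorem h27_mem : ∀ᵐ s ∂mI, s ∈ Icc (0:ℝ) 1 := by
  unfold mI
  exact ae_restrict_mem measurableSet_Icc

theorem h27_int_congr {a t : ℝ} (ht : t ∈ Icc (0:ℝ) 1) (hta : t < a) {x y X Y : ℝ → ℂ}
    (hx : ∀ᵐ s ∂mI, s < a → x s = X s) (hy : ∀ᵐ s ∂mI, s < a → y s = Y s) :
    ∫ s in (0:ℝ)..t, x s * y (t - s) = ∫ s in (0:ℝ)..t, X s * Y (t - s) := by
  have h1 := h27_ae_vol hx
  have h2 := h27_ae_vol hy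
  have h3 : ∀ᵐ s : ℝ, (t - s) ∈ Icc (0:ℝ) 1 → t - s < a → y (t - s) = Y (t - s) :=
    (Measure.measurePreserving_sub_left volume t).quasiMeasurePreserving.ae h2
  apply intervalIntegral.integral_congr_ae
  filter_upwards [h1, h3] with s hs1 hs3 hs
  rw [uIoc_of_le ht.1] at hs
  rw [hs1 ⟨hs.1.le, hs.2.trans ht.2⟩ (lt_of_le_of_lt hs.2 hta),
    hs3 ⟨by linarith [hs.2], by linarith [hs.1, ht.2]⟩ (by linarith [hs.1])]

theorem h27_sub_conv (x y : V) : conv u (x - y) = conv u x - conv u y := by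
  rw [← cL_apply, ← cL_apply, ← cL_apply, map_sub]

theorem h27_P_conv_u (a : ℝ) (x : V) : P a (conv u x) = P a (conv u (P a x)) := by
  rw [conv_comm, P_conv, conv_comm]

theorem h27_rpow_int {β : ℝ} (hβ : 0 < β) (t : ℝ) :
    ∫ s in (0:ℝ)..t, ((s ^ (β - 1) : ℝ) : ℂ) = ((t ^ β / β : ℝ) : ℂ) := by
  rw [intervalIntegral.integral_ofReal, integral_rpow (Or.inl (by linarith))]
  rw [sub_add_cancel, Real.zero_rpow hβ.ne', sub_zero]

theorem h27_p_int {β : ℝ} (hβ : 0 < β) :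
    Integrable (fun t : ℝ => ((t ^ (β - 1) : ℝ) : ℂ)) mI := by
  have h1 : IntervalIntegrable (fun x : ℝ => x ^ (β - 1)) volume 0 1 :=
    intervalIntegral.intervalIntegrable_rpow' (by linarith)
  rw [intervalIntegrable_iff_integrableOn_Ioc_of_le zero_le_one,
    ← integrableOn_Icc_iff_integrableOn_Ioc] at h1
  exact h1.ofReal

theorem h27_G {G : ℝ → ℂ} {a : ℝ} (ha : a ∈ Ioo (0:ℝ) 1) (h : IntegrableOn G (Icc 0 a)) :
    ∃ y : V, ∀ᵐ t ∂mI, t < a → (y : ℝ → ℂ) t = G t := by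
  have h1 : Integrable ((Iio a).indicator G) mI := by
    rw [integrable_indicator_iff measurableSet_Iio]
    unfold mI IntegrableOn
    rw [Measure.restrict_restrict measurableSet_Iio]
    exact h.mono_set (fun x hx => ⟨hx.2.1, hx.1.le⟩)
  refine ⟨h1.toL1 _, ?_⟩
  filter_upwards [h1.coeFn_toL1] with t ht hta
  rw [ht, indicator_of_mem (show t ∈ Iio a from hta)]

theorem power_dconv {β : ℝ} (hβ : 0 < β) {c : ℂ} {f g : V} {G : ℝ → ℂ}
    (hG : ∃ C : ℝ, ∀ a ∈ Ico (0:ℝ) 1,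
      ENNReal.ofReal ‖G 0‖ + eVariationOn G (Icc 0 a) ≤ ENNReal.ofReal (C / (1 - a)))
    (hf : (f : ℝ → ℂ) =ᵐ[mI] fun t => c * ((t ^ (β - 1) : ℝ) : ℂ)) :
    DConv G (M f) (g - f) ↔ (g : ℝ → ℂ) =ᵐ[mI] fun t => c * ((t ^ (β - 1) : ℝ) : ℂ) +
      c * β * ∫ s in (0:ℝ)..t, (((t - s) ^ (β - 1) : ℝ) : ℂ) * G s := by
  obtain ⟨C, hC⟩ := hG
  obtain ⟨p, hp⟩ : ∃ p : V, (p : ℝ → ℂ) =ᵐ[mI] fun t => ((t ^ (β - 1) : ℝ) : ℂ) :=
    ⟨(h27_p_int hβ).toL1 _, (h27_p_int hβ).coeFn_toL1⟩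
  have hup : (conv u p : ℝ → ℂ) =ᵐ[mI] fun t => ((t ^ β / β : ℝ) : ℂ) := by
    filter_upwards [conv_u_ae p, h27_mem] with t ht htI
    rw [ht, ← h27_rpow_int hβ t]
    apply intervalIntegral.integral_congr_ae
    filter_upwards [h27_ae_vol hp] with s hs hst
    rw [uIoc_of_le htI.1] at hst
    exact hs ⟨hst.1.le, hst.2.trans htI.2⟩
  have hMf : M f = (c * (β : ℂ)) • conv u p := by
    apply Lp.ext
    filter_upwards [M_ae f, hf, hup, Lp.coeFn_smul (c * (β : ℂ)) (conv u p), h27_mem]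
      with t h1 h2 h3 h4 h5
    rw [h1, h2, h4, Pi.smul_apply, h3, smul_eq_mul]
    have hβ' : (β : ℂ) ≠ 0 := by exact_mod_cast hβ.ne'
    rcases eq_or_lt_of_le h5.1 with h0 | h0
    · rw [← h0]
      simp [Real.zero_rpow hβ.ne']
    · rw [Real.rpow_sub_one h0.ne']
      have h0' : (t : ℂ) ≠ 0 := by exact_mod_cast h0.ne'
      push_cast
      field_simp
  have hGa : ∀ a ∈ Ioo (0:ℝ) 1, ∃ y : V, ∀ᵐ t ∂mI, t < a → (y : ℝ → ℂ) t = G t := by
    intro a ha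
    have h1 := hC a ⟨ha.1.le, ha.2⟩
    have h2 := bv_mod a ha.1 G (max (C / (1 - a)) 0) (le_max_right _ _)
      (h1.trans (ENNReal.ofReal_le_ofReal (le_max_left _ _)))
    exact h27_G ha h2.1
  have key : ∀ a ∈ Ioo (0:ℝ) 1,
      (∀ᵐ t ∂mI, t < a → ∫ s in (0:ℝ)..t, (g - f : V) s =
        ∫ s in (0:ℝ)..t, G (t - s) * (M f : V) s) ↔
      ∀ᵐ t ∂mI, t < a → (g : ℝ → ℂ) t = c * ((t ^ (β - 1) : ℝ) : ℂ) +
        c * β * ∫ s in (0:ℝ)..t, (((t - s) ^ (β - 1) : ℝ) : ℂ) * G s := by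
    intro a ha
    obtain ⟨y, hy⟩ := hGa a ha
    have e0 : ∀ᵐ t ∂mI, t < a → (conv (M f) y : ℝ → ℂ) t =
        ∫ s in (0:ℝ)..t, G (t - s) * (M f : V) s := by
      filter_upwards [h27_conv_ae (M f) y, h27_mem] with t h1 h2 h3
      rw [h1]
      unfold cv
      rw [h27_int_congr (X := (M f : V)) (Y := G) h2 h3
        (Filter.Eventually.of_forall fun _ _ => rfl) hy]
      apply intervalIntegral.integral_congr
      intro s _
      exact mul_comm _ _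
    have e1 : (∀ᵐ t ∂mI, t < a → ∫ s in (0:ℝ)..t, (g - f : V) s =
        ∫ s in (0:ℝ)..t, G (t - s) * (M f : V) s) ↔
        P a (conv u (g - f)) = P a (conv (M f) y) := by
      constructor
      · intro h
        apply P_eq_of_ae
        filter_upwards [h, e0, conv_u_ae (g - f)] with t h1 h2 h3 h4
        rw [h3, h1 h4, h2 h4]
      · intro h
        filter_upwards [ae_of_P_eq h, e0, conv_u_ae (g - f)] with t h1 h2 h3 h4
        rw [← h3, h1 h4, h2 h4]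
    have e2 : P a (conv (M f) y) = P a (conv u ((c * (β : ℂ)) • conv p y)) := by
      rw [hMf, conv_smul_left, conv_assoc, ← conv_smul_right]
    have e3 : P a (conv u (g - f)) = P a (conv u ((c * (β : ℂ)) • conv p y)) ↔
        P a (g - f) = P a ((c * (β : ℂ)) • conv p y) := by
      constructor
      · intro h
        have h1 : P a (conv u ((g - f) - (c * (β : ℂ)) • conv p y)) = 0 := by
          rw [h27_sub_conv, map_sub, h, sub_self]
        have h2 := inj_u h1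
        rw [map_sub, sub_eq_zero] at h2
        exact h2
      · intro h
        rw [h27_P_conv_u, h, ← h27_P_conv_u]
    have e5 : ∀ᵐ t ∂mI, t < a → (((c * (β : ℂ)) • conv p y : V) : ℝ → ℂ) t =
        c * β * ∫ s in (0:ℝ)..t, (((t - s) ^ (β - 1) : ℝ) : ℂ) * G s := by
      filter_upwards [Lp.coeFn_smul (c * (β : ℂ)) (conv p y), h27_conv_ae p y, h27_mem]
        with t h1 h2 h3 h4
      rw [h1, Pi.smul_apply, h2, smul_eq_mul]
      unfold cv
      rw [h27_int_congr (X := fun t => ((t ^ (β - 1) : ℝ) : ℂ)) (Y := G) h3 h4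
        (hp.mono fun _ h _ => h) hy]
      have h5 := intervalIntegral.integral_comp_sub_left (a := (0:ℝ)) (b := t)
        (fun x => (((t - x) ^ (β - 1) : ℝ) : ℂ) * G x) t
      rw [sub_self, sub_zero] at h5
      rw [← h5]
      congr 1
      apply intervalIntegral.integral_congr
      intro s _
      simp only [sub_sub_cancel]
    rw [e1, e2, e3]
    constructor
    · intro h
      filter_upwards [ae_of_P_eq h, e5, Lp.coeFn_sub g f, hf] with t h1 h2 h3 h4 h5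
      have h6 := h1 h5
      rw [h2 h5, h3, Pi.sub_apply, h4] at h6
      rw [← h6]
      ring
    · intro h
      apply P_eq_of_ae
      filter_upwards [h, e5, Lp.coeFn_sub g f, hf] with t h1 h2 h3 h4 h5
      rw [h2 h5, h3, Pi.sub_apply, h4, h1 h5]
      ring
  constructor
  · intro h
    apply ae_of_all_lt
    intro a ha
    exact (key a ha).1 (h.mono fun t ht _ => ht)
  · intro h
    unfold DConv
    apply ae_of_all_lt
    intro a ha
    exact (key a ha).2 (h.mono fun t ht _ => ht)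

/-! ### L9: assembly -/

theorem aut_param (T : V ≃ₗ[ℂ] V) (hT : IsAut T) :
    ∃ (ρ : ℝ → (V →L[ℂ] V)) (C : ℝ), Fam ρ C ∧
      ∀ a ∈ Ioo (0:ℝ) 1, ∀ f, P a (T f) = P a (X (ρ a) f) := by
  have hc : Continuous T := aut_continuous T hT
  set T' : V ≃L[ℂ] V := T.toContinuousLinearEquivOfContinuous hc with hT'
  obtain ⟨ρ, C, h1, h2⟩ := forward T' (fun f g => hT f g)
  obtain ⟨S, hS, hSX⟩ := backward' h1
  refine ⟨ρ, C, h1, ?_⟩
  have hu : S u = T u := by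
    apply P_ext
    intro a ha
    rw [hSX a ha]
    exact uniq ha.1 (h1 a ha).1 (X_u (h1 a ha).1) (h2 a ha)
  have hST : S.toLinearEquiv = T := aut_unique (T := S.toLinearEquiv) (T' := T)
    (fun f g => hS f g) hT hu
  intro a ha f
  rw [← hSX a ha f]
  have : T f = S f := by rw [← hST]; rfl
  rw [this]

theorem X_zero (f : V) : X 0 f = f := by
  have h : X (0 : V →L[ℂ] V) = 1 := by
    unfold X
    rw [tsum_eq_single 0]
    · simp
    · intro n hn
      rw [zero_pow hn, zero_mul, smul_zero]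
  rw [h]; rfl

theorem aut_free {f : V} (hf : ∀ ε > 0, P ε f ≠ 0) {T T' : V ≃ₗ[ℂ] V} (hT : IsAut T)
    (hT' : IsAut T') (h : T f = T' f) : T = T' := by
  set S : V ≃ₗ[ℂ] V := T.trans T'.symm with hS
  have hSa : IsAut S := by
    intro x y
    simp only [hS, LinearEquiv.trans_apply]
    apply T'.injective
    rw [hT', T'.apply_symm_apply, T'.apply_symm_apply, T'.apply_symm_apply, hT]
  obtain ⟨ρ, C, hρ, hX⟩ := aut_param S hSa
  have hSf : S f = f := by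
    simp only [hS, LinearEquiv.trans_apply, h, LinearEquiv.symm_apply_apply]
  have h0 : ∀ a ∈ Ioo (0:ℝ) 1, ρ a = 0 := by
    intro a ha
    refine X_fix ha.1 ha.2.le (hρ a ha).1 hf ?_
    rw [← hX a ha f, hSf]
  have hid : ∀ x, S x = x := by
    intro x
    apply P_ext
    intro a ha
    rw [hX a ha x, h0 a ha, X_zero]
  apply LinearEquiv.ext
  intro x
  have := hid x
  simp only [hS, LinearEquiv.trans_apply] at this
  have h2 := congrArg T' this
  rwa [LinearEquiv.apply_symm_apply] at h2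

theorem regular_orbit {f : V} (hf : ∀ ε > 0, P ε f ≠ 0) {ψ : ℝ → (V →L[ℂ] V)} {C : ℝ}
    (hψ : Fam ψ C) (hψf : ∀ a ∈ Ioo (0:ℝ) 1, P a (M (M f)) = ψ a (M f)) (g : V) :
    (∃ T : V ≃ₗ[ℂ] V, IsAut T ∧ T f = g) ↔
      ∃ (σ : ℝ → (V →L[ℂ] V)) (C' : ℝ), Fam σ C' ∧ ∀ a ∈ Ioo (0:ℝ) 1, P a (g - f) = σ a (M f) := by
  constructor
  · rintro ⟨T, hT, rfl⟩
    obtain ⟨ρ, C1, hρ, hX⟩ := aut_param T hT
    obtain ⟨σ, C2, hσ, hσf⟩ := regular_sub hρ hψ hψf
    refine ⟨σ, C2, hσ, fun a ha => ?_⟩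
    rw [map_sub, hX a ha, hσf a ha]; abel
  · rintro ⟨σ, C1, hσ, hσf⟩
    have h0 : ∀ a ∈ Ioo (0:ℝ) 1, Atom (ψ a) 0 := by
      intro a ha
      obtain ⟨l, hl⟩ := atom_exists ha.1 ha.2.le (hψ a ha).1
      have := atom_zero ha.1 (hψ a ha).1 hl hf (hψf a ha)
      rw [this] at hl
      exact hl
    obtain ⟨ρ, C2, hρ, hρf⟩ := regular_sup hσ hψ h0 hψf
    obtain ⟨T, hT, hTX⟩ := backward' hρ
    refine ⟨T.toLinearEquiv, fun x y => hT x y, ?_⟩
    show T f = g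
    apply P_ext
    intro a ha
    rw [hTX a ha, hρf a ha, ← hσf a ha, map_sub]; abel

theorem regular_orbit_fun {f : V} (hf : ∀ ε > 0, P ε f ≠ 0) {H : ℝ → ℂ} (hH : InG H)
    (hHf : DConv H (M f) (M (M f))) (g : V) :
    (∃ T : V ≃ₗ[ℂ] V, IsAut T ∧ T f = g) ↔ ∃ G : ℝ → ℂ, InG G ∧ DConv G (M f) (g - f) := by
  obtain ⟨CH, hCH⟩ := hH
  obtain ⟨ψ, C, hψ, hψH⟩ := fam_of_fun H CH hCH
  have h1 := (fam_fun_iff hψ hψH (M f) (M (M f))).mpr hHf
  rw [regular_orbit hf hψ h1 g]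
  constructor
  · rintro ⟨σ, C', hσ, h⟩
    obtain ⟨G, C'', hG, hGσ⟩ := fun_of_fam hσ
    exact ⟨G, ⟨C'', hG⟩, (fam_fun_iff hσ hGσ (M f) (g - f)).mp h⟩
  · rintro ⟨G, ⟨CG, hG⟩, h⟩
    obtain ⟨σ, C', hσ, hGσ⟩ := fam_of_fun G CG hG
    exact ⟨σ, C', hσ, (fam_fun_iff hσ hGσ (M f) (g - f)).mpr h⟩

theorem series_iff (f g : V) : (∃ T : V ≃ₗ[ℂ] V, IsAut T ∧ T f = g) ↔
    ∃ G : ℝ → ℂ, InG G ∧ ∀ a ∈ Ioo (0:ℝ) 1, ∃ D : V →L[ℂ] V, OpConv a G D ∧
      HasSum (fun n : ℕ => ((n.factorial : ℂ)⁻¹) • P a ((D ^ n) ((M ^ n) f))) (P a g) := by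
  constructor
  · rintro ⟨T, hT, rfl⟩
    obtain ⟨ρ, C1, hρ, hX⟩ := aut_param T hT
    obtain ⟨G, C2, hG, hGρ⟩ := fun_of_fam hρ
    refine ⟨G, ⟨C2, hG⟩, fun a ha => ⟨ρ a, opConv_of_mul (hρ a ha).1 (hGρ a ha), ?_⟩⟩
    rw [hX a ha]
    exact X_hasSum a (ρ a) f
  · rintro ⟨G, ⟨CG, hG⟩, h⟩
    obtain ⟨A, C', hA, hAG⟩ := fam_of_fun G CG hG
    obtain ⟨T, hT, hTX⟩ := backward' hA
    refine ⟨T.toLinearEquiv, fun x y => hT x y, ?_⟩
    show T f = g
    apply P_ext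
    intro a ha
    obtain ⟨D, hD, hs⟩ := h a ha
    have hDA := opConv_unique (hA a ha).1 (hAG a ha) hD
    rw [hTX a ha]
    have h2 := X_hasSum a (A a) f
    have h3 : (fun n : ℕ => ((n.factorial : ℂ)⁻¹) • P a ((D ^ n) ((M ^ n) f))) =
        fun n : ℕ => ((n.factorial : ℂ)⁻¹) • P a ((A a ^ n) ((M ^ n) f)) := by
      funext n
      rw [opConv_pow (hA a ha).1 hDA n]
    rw [h3] at hs
    exact h2.unique hs

end Volt919
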