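import Mathlib
import Pool.Agent.Helper919.Volt.L5

set_option autoImplicit false

open MeasureTheory Set Filter Topology

namespace Volt919

theorem P_eq_zero_iff (a : ℝ) (f : V) : P a f = 0 ↔ ∀ᵐ t ∂mI, t < a → f t = 0 := by
  constructor
  · intro h
    have h1 : P a f = P a 0 := by rw [h, map_zero]
    have h2 := ae_of_P_eq h1
    filter_upwards [h2, Lp.coeFn_zero ℂ 1 mI] with t ht h0 hta
    rw [ht hta, h0]; rfl
  · intro h
    have h1 : P a f = P a 0 := by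
      apply P_eq_of_ae
      filter_upwards [h, Lp.coeFn_zero ℂ 1 mI] with t ht h0 hta
      rw [ht hta, h0]; rfl
    rw [h1, map_zero]

theorem alpha0_iff (f : V) : Alpha0 f ↔ ∀ ε > 0, P ε f ≠ 0 := by
  unfold Alpha0
  constructor
  · intro h ε hε hP
    exact h ε hε ((P_eq_zero_iff ε f).mp hP)
  · intro h ε hε hP
    exact h ε hε ((P_eq_zero_iff ε f).mpr hP)

theorem mem_mI : ∀ᵐ t ∂mI, t ∈ Icc (0:ℝ) 1 := by
  unfold mI; exact ae_restrict_mem measurableSet_Icc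

theorem int_congr {h h' : ℝ → ℂ} (hh : h =ᵐ[mI] h') {t : ℝ} (ht : t ∈ Icc (0:ℝ) 1) (F : ℝ → ℂ) :
    ∫ s in (0:ℝ)..t, F s * h s = ∫ s in (0:ℝ)..t, F s * h' s := by
  apply intervalIntegral.integral_congr_ae
  have h1 : ∀ᵐ s ∂(volume : Measure ℝ), s ∈ Icc (0:ℝ) 1 → h s = h' s := by
    have := hh
    unfold mI at this
    exact (ae_restrict_iff' measurableSet_Icc).mp this
  filter_upwards [h1] with s hs hs1
  rw [uIoc_of_le ht.1] at hs1
  rw [hs ⟨hs1.1.le, hs1.2.trans ht.2⟩]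

theorem isDConv_congr {G h k h' k' : ℝ → ℂ} (hh : h =ᵐ[mI] h') (hk : k =ᵐ[mI] k') :
    IsDConv G h k ↔ IsDConv G h' k' := by
  have e : ∀ {t : ℝ}, t ∈ Icc (0:ℝ) 1 → ((∫ s in (0:ℝ)..t, k s = ∫ s in (0:ℝ)..t, G (t - s) * h s) ↔
      (∫ s in (0:ℝ)..t, k' s = ∫ s in (0:ℝ)..t, G (t - s) * h' s)) := by
    intro t ht
    have h1 := int_congr hh ht (fun s => G (t - s))
    have h2 := int_congr hk ht (fun _ => 1)
    simp only [one_mul] at h2
    rw [h1, h2]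
  unfold IsDConv
  constructor
  · intro h1
    filter_upwards [h1, mem_mI] with t ht hm
    exact (e hm).mp ht
  · intro h1
    filter_upwards [h1, mem_mI] with t ht hm
    exact (e hm).mpr ht

theorem dconv_iff (G : ℝ → ℂ) (h k : V) : DConv G h k ↔ IsDConv G h k := Iff.rfl

theorem opConv_iff (a : ℝ) (G : ℝ → ℂ) (D : V →L[ℂ] V) : OpConv a G D ↔ IsDOp a G D := Iff.rfl

theorem Mpow_ae (f : V) (n : ℕ) : ((M ^ n) f : ℝ → ℂ) =ᵐ[mI] fun t => (t:ℂ) ^ n * f t := by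
  induction n with
  | zero => simp
  | succ n ih =>
    have h1 : (M ^ (n + 1)) f = M ((M ^ n) f) := by rw [pow_succ']; rfl
    rw [h1]
    filter_upwards [M_ae ((M ^ n) f), ih] with t h1 h2
    rw [h1, h2, pow_succ]; ring

theorem isDConv_MM (G : ℝ → ℂ) (f : V) : DConv G (M f) (M (M f)) ↔
    IsDConv G (fun s => (s:ℂ) * f s) (fun s => (s:ℂ) ^ 2 * f s) := by
  rw [dconv_iff]
  apply isDConv_congr (M_ae f)
  have h := Mpow_ae f 2
  have h1 : (M ^ 2) f = M (M f) := by rw [pow_two]; rfl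
  rwa [h1] at h

theorem isDConv_sub (G : ℝ → ℂ) (f g : V) : DConv G (M f) (g - f) ↔
    IsDConv G (fun s => (s:ℂ) * f s) (fun s => g s - f s) := by
  rw [dconv_iff]
  apply isDConv_congr (M_ae f)
  filter_upwards [Lp.coeFn_sub g f] with t ht
  rw [ht]; rfl

theorem series_iff' (f g : V) : (∃ T : V ≃ₗ[ℂ] V, IsAut T ∧ T f = g) ↔
    ∃ G : ℝ → ℂ, InG G ∧ ∀ a ∈ Ioo (0:ℝ) 1, ∃ D : V →L[ℂ] V, OpConv a G D ∧
      Tendsto (fun N => ∑ n ∈ Finset.range N,
        ((n.factorial : ℂ)⁻¹) • P a ((D ^ n) ((M ^ n) f))) atTop (𝓝 (P a g)) := by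
  constructor
  · intro h
    obtain ⟨G, hG, h⟩ := (series_iff f g).mp h
    refine ⟨G, hG, fun a ha => ?_⟩
    obtain ⟨D, hD, hs⟩ := h a ha
    exact ⟨D, hD, hs.tendsto_sum_nat⟩
  · rintro ⟨G, ⟨CG, hG⟩, h⟩
    obtain ⟨A, C', hA, hAG⟩ := fam_of_fun G CG hG
    obtain ⟨T, hT, hTX⟩ := backward' hA
    refine ⟨T.toLinearEquiv, fun x y => hT x y, ?_⟩
    show T f = g
    apply P_ext
    intro a ha
    obtain ⟨D, hD, hs⟩ := h a ha
    have hDA := opConv_unique (hA a ha).1 (hAG a ha) hD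
    rw [hTX a ha]
    have h2 := (X_hasSum a (A a) f).tendsto_sum_nat
    have h3 : (fun n : ℕ => ((n.factorial : ℂ)⁻¹) • P a ((D ^ n) ((M ^ n) f))) =
        fun n : ℕ => ((n.factorial : ℂ)⁻¹) • P a ((A a ^ n) ((M ^ n) f)) := by
      funext n
      rw [opConv_pow (hA a ha).1 hDA n]
    simp only [h3] at hs
    exact tendsto_nhds_unique h2 hs

theorem norm_P_sum {a : ℝ} (ha : a ∈ Ioo (0:ℝ) 1) (x g : V) :
    ∫ t in (0:ℝ)..a, ‖x t - g t‖ = ‖P a x - P a g‖ := by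
  rw [← map_sub, norm_P a ha.1.le ha.2.le]
  apply intervalIntegral.integral_congr_ae
  have h1 : ∀ᵐ s ∂(volume : Measure ℝ), s ∈ Icc (0:ℝ) 1 → (x - g : V) s = x s - g s := by
    have := Lp.coeFn_sub x g
    unfold mI at this
    exact (ae_restrict_iff' measurableSet_Icc).mp this
  filter_upwards [h1] with s hs hs1
  rw [uIoc_of_le ha.1.le] at hs1
  rw [hs ⟨hs1.1.le, hs1.2.trans ha.2.le⟩]

theorem series_iff'' (f g : V) : (∃ T : V ≃ₗ[ℂ] V, IsAut T ∧ T f = g) ↔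
    ∃ G : ℝ → ℂ, InG G ∧ ∀ a ∈ Ioo (0:ℝ) 1, ∃ (D : V →L[ℂ] V) (v : ℕ → V), IsDOp a G D ∧
      (∀ n, (v n : ℝ → ℂ) =ᵐ[mI] fun t => (t:ℂ) ^ n * f t) ∧
      Tendsto (fun N => ∫ t in (0:ℝ)..a, ‖(∑ n ∈ Finset.range N,
        ((n.factorial : ℂ)⁻¹) • (D ^ n) (v n) : V) t - g t‖) atTop (𝓝 0) := by
  rw [series_iff']
  have key : ∀ a ∈ Ioo (0:ℝ) 1, ∀ D : V →L[ℂ] V,
      (Tendsto (fun N => ∑ n ∈ Finset.range N,
        ((n.factorial : ℂ)⁻¹) • P a ((D ^ n) ((M ^ n) f))) atTop (𝓝 (P a g)) ↔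
      Tendsto (fun N => ∫ t in (0:ℝ)..a, ‖(∑ n ∈ Finset.range N,
        ((n.factorial : ℂ)⁻¹) • (D ^ n) ((M ^ n) f) : V) t - g t‖) atTop (𝓝 0)) := by
    intro a ha D
    rw [tendsto_iff_norm_sub_tendsto_zero]
    have e : (fun N : ℕ => ‖∑ n ∈ Finset.range N,
        ((n.factorial : ℂ)⁻¹) • P a ((D ^ n) ((M ^ n) f)) - P a g‖) =
        fun N : ℕ => ∫ t in (0:ℝ)..a, ‖(∑ n ∈ Finset.range N,
        ((n.factorial : ℂ)⁻¹) • (D ^ n) ((M ^ n) f) : V) t - g t‖ := by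
      funext N
      rw [norm_P_sum ha, map_sum]
      simp only [map_smul]
    rw [e]
  constructor
  · rintro ⟨G, hG, h⟩
    refine ⟨G, hG, fun a ha => ?_⟩
    obtain ⟨D, hD, hs⟩ := h a ha
    exact ⟨D, fun n => (M ^ n) f, hD, Mpow_ae f, (key a ha D).mp hs⟩
  · rintro ⟨G, hG, h⟩
    refine ⟨G, hG, fun a ha => ?_⟩
    obtain ⟨D, v, hD, hv, hs⟩ := h a ha
    have hv' : v = fun n => (M ^ n) f := by
      funext n
      apply Lp.ext
      exact (hv n).trans (Mpow_ae f n).symm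
    subst hv'
    exact ⟨D, hD, (key a ha D).mpr hs⟩

theorem inG_smul {G : ℝ → ℂ} (hG : InG G) (z : ℂ) : InG (fun t => z * G t) := by
  obtain ⟨C, hC⟩ := hG
  refine ⟨‖z‖ * C, fun a ha => ?_⟩
  have h := hC a ha
  have hpos : 0 < 1 - a := by linarith [ha.2]
  have hv : eVariationOn (fun t => z * G t) (Icc 0 a) ≤
      ENNReal.ofReal ‖z‖ * eVariationOn G (Icc 0 a) := by
    have hL : LipschitzWith ‖z‖₊ (fun w : ℂ => z * w) := by
      refine LipschitzWith.of_dist_le_mul (fun x y => ?_)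
      rw [dist_eq_norm, dist_eq_norm, ← _root_.mul_sub, norm_mul]
      rfl
    have h1 := (hL.lipschitzOnWith (s := Set.univ)).comp_eVariationOn_le
      (g := G) (s := Icc 0 a) (fun _ _ => Set.mem_univ _)
    have h2 : ((‖z‖₊ : NNReal) : ENNReal) = ENNReal.ofReal ‖z‖ := by
      rw [ofReal_norm_eq_enorm]; rfl
    rw [← h2]
    exact h1
  calc ENNReal.ofReal ‖z * G 0‖ + eVariationOn (fun t => z * G t) (Icc 0 a)
      ≤ ENNReal.ofReal ‖z‖ * ENNReal.ofReal ‖G 0‖ +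
        ENNReal.ofReal ‖z‖ * eVariationOn G (Icc 0 a) := by
        refine add_le_add (le_of_eq ?_) hv
        rw [norm_mul, ENNReal.ofReal_mul (norm_nonneg _)]
    _ = ENNReal.ofReal ‖z‖ * (ENNReal.ofReal ‖G 0‖ + eVariationOn G (Icc 0 a)) := by
        rw [_root_.mul_add]
    _ ≤ ENNReal.ofReal ‖z‖ * ENNReal.ofReal (C / (1 - a)) := by gcongr
    _ = ENNReal.ofReal (‖z‖ * C / (1 - a)) := by
        rw [← ENNReal.ofReal_mul (norm_nonneg _), mul_div_assoc]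

theorem inG_linear {b : ℝ} (hb : 0 ≤ b) : InG (fun t => ((b * t : ℝ) : ℂ)) := by
  refine ⟨b, fun a ha => ?_⟩
  have hpos : 0 < 1 - a := by linarith [ha.2]
  have hv : eVariationOn (fun t : ℝ => ((b * t : ℝ) : ℂ)) (Icc 0 a) ≤ ENNReal.ofReal (b * a) := by
    have hL : LipschitzWith (Real.toNNReal b) (fun w : ℝ => ((b * w : ℝ) : ℂ)) := by
      refine LipschitzWith.of_dist_le_mul (fun x y => ?_)
      rw [dist_eq_norm, dist_eq_norm, ← Complex.ofReal_sub, Complex.norm_real, ← _root_.mul_sub,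
        norm_mul, Real.norm_eq_abs b, abs_of_nonneg hb, Real.coe_toNNReal b hb]
    have h1 := (hL.lipschitzOnWith (s := Set.univ)).comp_eVariationOn_le
      (g := fun t : ℝ => t) (s := Icc 0 a) (fun _ _ => Set.mem_univ _)
    have h2 : eVariationOn (fun t : ℝ => t) (Icc 0 a) ≤ ENNReal.ofReal (a - 0) := by
      have h3 := (monotone_id.monotoneOn (Icc (0:ℝ) a)).eVariationOn_eq (left_mem_Icc.mpr ha.1)
        (right_mem_Icc.mpr ha.1)
      rw [Set.inter_self] at h3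
      exact h3.le
    refine h1.trans ?_
    calc (Real.toNNReal b : ENNReal) * eVariationOn (fun t : ℝ => t) (Icc 0 a)
        ≤ ENNReal.ofReal b * ENNReal.ofReal (a - 0) := by
          gcongr
          exact le_refl _
      _ = ENNReal.ofReal (b * a) := by rw [ENNReal.ofReal_mul hb, sub_zero]
  simp only [mul_zero, Complex.ofReal_zero, norm_zero, ENNReal.ofReal_zero, zero_add]
  refine hv.trans (ENNReal.ofReal_le_ofReal ?_)
  rw [le_div_iff₀ hpos]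
  nlinarith [ha.1, ha.2, mul_nonneg hb ha.1, mul_nonneg hb hpos.le]

end Volt919
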