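import Mathlib
import Pool.Agent.Helper919.Volt.L6

set_option autoImplicit false

open MeasureTheory Set Filter Topology

namespace Volt919

/-! ### L10: sharpness of the description of regular orbits -/

theorem Ec_ex (c : ℂ) : ∃ A : V →L[ℂ] V, ∀ f : V,
    (A f : ℝ → ℂ) =ᵐ[mI] fun t => Complex.exp (c * (t : ℂ)) * f t := by
  refine mulOp_exists (fun t => Complex.exp (c * (t : ℂ))) (by fun_prop) (Real.exp ‖c‖) ?_
  intro t ht
  rw [Complex.norm_exp]
  apply Real.exp_le_exp.mpr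
  have h1 : (c * (t:ℂ)).re ≤ ‖c * (t:ℂ)‖ := Complex.re_le_norm _
  have h2 : ‖c * (t:ℂ)‖ ≤ ‖c‖ := by
    rw [norm_mul, Complex.norm_real, Real.norm_eq_abs, abs_of_nonneg ht.1]
    exact mul_le_of_le_one_right (norm_nonneg _) ht.2
  linarith

/-- multiplication by `exp (c t)` -/
noncomputable def Ec (c : ℂ) : V →L[ℂ] V := Classical.choose (Ec_ex c)

theorem Ec_ae (c : ℂ) (f : V) :
    (Ec c f : ℝ → ℂ) =ᵐ[mI] fun t => Complex.exp (c * (t : ℂ)) * f t :=
  Classical.choose_spec (Ec_ex c) f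

theorem k01_ae_Icc (c : ℂ) (f : V) :
    ∀ᵐ t : ℝ, t ∈ Icc (0:ℝ) 1 → (Ec c f : ℝ → ℂ) t = Complex.exp (c * (t : ℂ)) * f t := by
  have h := Ec_ae c f
  unfold mI at h
  exact (ae_restrict_iff' measurableSet_Icc).mp h

theorem k01_mem : ∀ᵐ t ∂mI, t ∈ Icc (0:ℝ) 1 := by
  unfold mI
  exact ae_restrict_mem measurableSet_Icc

theorem k01_exp_le (c : ℂ) {t : ℝ} (ht : t ∈ Icc (0:ℝ) 1) :
    ‖Complex.exp (c * (t : ℂ))‖ ≤ Real.exp ‖c‖ := by
  rw [Complex.norm_exp]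
  apply Real.exp_le_exp.mpr
  have h1 : (c * (t:ℂ)).re ≤ ‖c * (t:ℂ)‖ := Complex.re_le_norm _
  have h2 : ‖c * (t:ℂ)‖ ≤ ‖c‖ := by
    rw [norm_mul, Complex.norm_real, Real.norm_eq_abs, abs_of_nonneg ht.1]
    exact mul_le_of_le_one_right (norm_nonneg _) ht.2
  linarith

theorem Ec_conv (c : ℂ) (f g : V) : Ec c (conv f g) = conv (Ec c f) (Ec c g) := by
  apply Lp.ext
  have h1 : (conv f g : ℝ → ℂ) =ᵐ[mI] cv f g := Integrable.coeFn_toL1 _
  have h2 : (conv (Ec c f) (Ec c g) : ℝ → ℂ) =ᵐ[mI] cv (Ec c f) (Ec c g) :=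
    Integrable.coeFn_toL1 _
  filter_upwards [Ec_ae c (conv f g), h1, h2, k01_mem] with t h3 h4 h5 ht
  rw [h3, h4, h5]
  unfold cv
  rw [← intervalIntegral.integral_const_mul]
  apply intervalIntegral.integral_congr_ae
  have hf := k01_ae_Icc c f
  have hg := k01_ae_Icc c g
  have hg' : ∀ᵐ s : ℝ, t - s ∈ Icc (0:ℝ) 1 →
      (Ec c g : ℝ → ℂ) (t - s) = Complex.exp (c * ((t - s : ℝ) : ℂ)) * g (t - s) :=
    (Measure.measurePreserving_sub_left volume t).quasiMeasurePreserving.ae hg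
  filter_upwards [hf, hg'] with s hs1 hs2 hs
  rw [uIoc_of_le ht.1] at hs
  rw [hs1 ⟨hs.1.le, hs.2.trans ht.2⟩, hs2 ⟨by linarith [hs.2], by linarith [hs.1, ht.2]⟩]
  have : Complex.exp (c * (t:ℂ)) = Complex.exp (c * (s:ℂ)) * Complex.exp (c * ((t - s : ℝ) : ℂ)) := by
    rw [← Complex.exp_add]; congr 1; push_cast; ring
  rw [this]; ring

theorem Ec_Ec (c d : ℂ) (f : V) : Ec c (Ec d f) = Ec (c + d) f := by
  apply Lp.ext
  filter_upwards [Ec_ae c (Ec d f), Ec_ae d f, Ec_ae (c + d) f] with t h1 h2 h3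
  rw [h1, h2, h3, ← mul_assoc, ← Complex.exp_add]
  congr 2; ring

theorem Ec_zero (f : V) : Ec 0 f = f := by
  apply Lp.ext
  filter_upwards [Ec_ae 0 f] with t h1
  rw [h1]; simp

theorem P_Ec (a : ℝ) (c : ℂ) (f : V) : P a (Ec c f) = Ec c (P a f) := by
  apply Lp.ext
  filter_upwards [P_ae a (Ec c f), Ec_ae c f, Ec_ae c (P a f), P_ae a f] with t h1 h2 h3 h4
  rw [h1, h2, h3, h4]; ring

theorem M_Ec (c : ℂ) (f : V) : M (Ec c f) = Ec c (M f) := by
  apply Lp.ext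
  filter_upwards [M_ae (Ec c f), Ec_ae c f, Ec_ae c (M f), M_ae f] with t h1 h2 h3 h4
  rw [h1, h2, h3, h4]; ring

theorem k01_norm_le (f g : V) (C : ℝ) (hC : 0 ≤ C) (h : ∀ᵐ t ∂mI, ‖f t‖ ≤ C * ‖g t‖) :
    ‖f‖ ≤ C * ‖g‖ := Lp.norm_le_mul_norm_of_ae_le_mul h

theorem norm_Ec_le (c : ℂ) (f : V) : ‖Ec c f‖ ≤ Real.exp ‖c‖ * ‖f‖ := by
  apply k01_norm_le _ _ _ (Real.exp_pos _).le
  filter_upwards [Ec_ae c f, k01_mem] with t h1 ht
  rw [h1, norm_mul]
  exact mul_le_mul_of_nonneg_right (k01_exp_le c ht) (norm_nonneg _)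

theorem k01_exp_sub (z : ℂ) : ‖Complex.exp z - 1‖ ≤ Real.exp ‖z‖ - 1 := by
  have h := Complex.norm_exp_sub_sum_le_exp_norm_sub_sum z 1
  simpa using h

theorem norm_Ec_sub {ε : ℝ} (hε : 0 ≤ ε) (c : ℂ) (f : V) :
    ‖P ε (Ec c f - f)‖ ≤ (Real.exp (‖c‖ * ε) - 1) * ‖P ε f‖ := by
  have hC : 0 ≤ Real.exp (‖c‖ * ε) - 1 := by
    have := Real.one_le_exp (mul_nonneg (norm_nonneg c) hε); linarith
  apply k01_norm_le _ _ _ hC
  filter_upwards [P_ae ε (Ec c f - f), P_ae ε f, Ec_ae c f, Lp.coeFn_sub (Ec c f) f, k01_mem]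
    with t h1 h2 h3 h4 ht
  rw [h1, h2, h4, Pi.sub_apply, h3]
  split_ifs with hlt
  · rw [one_mul, one_mul]
    have : Complex.exp (c * (t:ℂ)) * f t - f t = (Complex.exp (c * (t:ℂ)) - 1) * f t := by ring
    rw [this, norm_mul]
    apply mul_le_mul_of_nonneg_right _ (norm_nonneg _)
    refine (k01_exp_sub _).trans ?_
    have h5 : ‖c * (t:ℂ)‖ ≤ ‖c‖ * ε := by
      rw [norm_mul, Complex.norm_real, Real.norm_eq_abs, abs_of_nonneg ht.1]
      exact mul_le_mul_of_nonneg_left hlt.le (norm_nonneg _)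
    have := Real.exp_le_exp.mpr h5
    linarith
  · simp

theorem k02_bound {w : ℂ} (hw : ‖w‖ ≤ 1) (g : V) :
    ‖Ec w g - g - w • M g‖ ≤ ‖w‖ ^ 2 * ‖g‖ := by
  apply Lp.norm_le_mul_norm_of_ae_le_mul
  filter_upwards [Lp.coeFn_sub (Ec w g - g) (w • M g), Lp.coeFn_sub (Ec w g) g,
    Lp.coeFn_smul w (M g), Ec_ae w g, M_ae g, ae_restrict_mem (μ := volume) measurableSet_Icc]
    with t h1 h2 h3 h4 h5 h6
  rw [h1, Pi.sub_apply, h2, Pi.sub_apply, h3, Pi.smul_apply, h4, h5, smul_eq_mul]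
  have e : Complex.exp (w * (t : ℂ)) * g t - g t - w * ((t : ℂ) * g t)
      = (Complex.exp (w * (t : ℂ)) - 1 - w * (t : ℂ)) * g t := by ring
  rw [e, norm_mul]
  apply mul_le_mul_of_nonneg_right _ (norm_nonneg _)
  have ht : ‖w * (t : ℂ)‖ ≤ ‖w‖ := by
    rw [norm_mul, Complex.norm_real, Real.norm_eq_abs, abs_of_nonneg h6.1]
    exact mul_le_of_le_one_right (norm_nonneg _) h6.2
  refine (Complex.norm_exp_sub_one_sub_id_le (ht.trans hw)).trans ?_
  exact pow_le_pow_left₀ (norm_nonneg _) ht 2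

theorem Ec_hasDeriv (c : ℂ) (f : V) : HasDerivAt (fun z : ℂ => Ec z f) (Ec c (M f)) c := by
  rw [hasDerivAt_iff_isLittleO_nhds_zero, Asymptotics.isLittleO_iff]
  intro ε hε
  have hpos : 0 < min 1 (ε / (‖Ec c f‖ + 1)) := by positivity
  filter_upwards [Metric.ball_mem_nhds (0 : ℂ) hpos] with w hw
  rw [mem_ball_zero_iff] at hw
  have hw1 : ‖w‖ ≤ 1 := (hw.trans_le (min_le_left _ _)).le
  have hw2 : ‖w‖ ≤ ε / (‖Ec c f‖ + 1) := (hw.trans_le (min_le_right _ _)).le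
  have e1 : Ec (c + w) f = Ec w (Ec c f) := by rw [Ec_Ec, add_comm]
  rw [e1, ← M_Ec]
  refine (k02_bound hw1 (Ec c f)).trans ?_
  have h3 : ‖w‖ * (‖Ec c f‖ + 1) ≤ ε := by
    rwa [le_div_iff₀ (by positivity)] at hw2
  nlinarith [norm_nonneg w, norm_nonneg (Ec c f)]

theorem k03_congr {A B : ℝ → (V →L[ℂ] V)} {C : ℝ} (hA : Fam A C)
    (h : ∀ a ∈ Ioo (0:ℝ) 1, B a = A a) : Fam B C := by
  intro a ha
  obtain ⟨h1, h2, h3⟩ := hA a ha
  refine ⟨?_, ?_, ?_⟩
  · rw [h a ha]; exact h1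
  · rw [h a ha]; exact h2
  · intro b hb hab
    rw [h a ha, h b hb]; exact h3 b hb hab

theorem k03_PSPS {a : ℝ} {S S' : V →L[ℂ] V} (hS : IsMul 1 S) :
    P a * S * (P a * S') = P a * (S * S') := by
  ext1 f
  simp only [ContinuousLinearMap.mul_apply]
  exact (mul_causal hS a (S' f)).symm

theorem k03_rP {a : ℝ} {r S : V →L[ℂ] V} (hr : IsMul a r) :
    r * (P a * S) = r * S := by
  ext1 f
  simp only [ContinuousLinearMap.mul_apply]
  exact mul_P_right hr (S f)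

theorem k03_Pr {a : ℝ} (ha : a ≤ 1) {r S : V →L[ℂ] V} (hr : IsMul a r) (hS : IsMul 1 S) :
    P a * S * r = r * S := by
  rw [mul_comm' (mul_restrict ha hS) hr, k03_rP hr]

theorem fam_mul {A B : ℝ → (V →L[ℂ] V)} {C C' : ℝ} (hA : Fam A C) (hB : Fam B C') :
    ∃ C'', Fam (fun a => A a * B a) C'' := by
  obtain ⟨S, r, C1, hS, hr, hA1, hr0⟩ := fam_split hA
  obtain ⟨S', r', C1', hS', hr', hB1, hr0'⟩ := fam_split hB
  refine ⟨_, k03_congr (fam_add (fam_bdd (mul_mul hS hS'))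
    (fam_add (fam_mulS hr hS') (fam_mulS hr' hS))) ?_⟩
  intro a ha
  have h1 : r a * r' a = 0 := half_sq ha.2.le (hr a ha).1 (hr' a ha).1 (hr0 a ha) (hr0' a ha)
  show A a * B a = P a * (S * S') + (r a * S' + r' a * S)
  rw [hA1 a ha, hB1 a ha, _root_.mul_add, _root_.add_mul, _root_.add_mul, k03_PSPS hS,
    k03_rP (hr a ha).1, k03_Pr ha.2.le (hr' a ha).1 hS, h1, add_zero]
  abel

theorem fam_inv {A : ℝ → (V →L[ℂ] V)} {C : ℝ} (hA : Fam A C) {l : ℂ} (hl : l ≠ 0)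
    (h : ∀ a ∈ Ioo (0:ℝ) 1, Atom (A a) l) : ∃ (B : ℝ → (V →L[ℂ] V)) (C' : ℝ), Fam B C' ∧
      ∀ a ∈ Ioo (0:ℝ) 1, A a * B a = P a ∧ B a * A a = P a := by
  obtain ⟨S, r, C1, hS, hr, hA1, hr0⟩ := fam_split hA
  have hhalf : (1/2 : ℝ) ∈ Ioo (0:ℝ) 1 := by constructor <;> norm_num
  have hSl : Atom S l := atom_fam hA hS hA1 hr0 hhalf (h _ hhalf)
  obtain ⟨S', hS', h1, h2⟩ := mul_inv zero_lt_one hS hl hSl
  have hP1 : P 1 = 1 := by
    ext1 f
    exact P_of_one_le le_rfl f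
  rw [hP1] at h1 h2
  have hB := fam_add (fam_bdd hS') (fam_smul (fam_mulS hr (mul_mul hS' hS')) (-1))
  refine ⟨_, _, hB, ?_⟩
  intro a ha
  have hAB : A a * (P a * S' + (-1 : ℂ) • (r a * (S' * S'))) = P a := by
    have e1 : P a * S * (r a * (S' * S')) = r a * S' := by
      rw [← mul_assoc, k03_Pr ha.2.le (hr a ha).1 hS, mul_assoc, ← mul_assoc S S' S', h1, one_mul]
    have e2 : r a * (r a * (S' * S')) = 0 := by
      rw [← mul_assoc, half_sq ha.2.le (hr a ha).1 (hr a ha).1 (hr0 a ha) (hr0 a ha), zero_mul]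
    rw [hA1 a ha, neg_one_smul, _root_.mul_add, _root_.add_mul, mul_neg, _root_.add_mul, e1, e2,
      k03_PSPS hS, k03_rP (hr a ha).1, h1, mul_one, add_zero]
    abel
  refine ⟨hAB, ?_⟩
  have hc := mul_comm' (hA a ha).1 (hB a ha).1
  exact hc.symm.trans hAB

theorem fam_Ec {A : ℝ → (V →L[ℂ] V)} {C : ℝ} (hA : Fam A C) (c : ℂ) :
    Fam (fun a => Ec c * A a * Ec (-c)) (Real.exp ‖c‖ * Real.exp ‖c‖ * C) := by
  have hn1 : ‖Ec c‖ ≤ Real.exp ‖c‖ :=
    ContinuousLinearMap.opNorm_le_bound _ (Real.exp_pos _).le (fun f => norm_Ec_le c f)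
  have hn2 : ‖Ec (-c)‖ ≤ Real.exp ‖c‖ := by
    refine ContinuousLinearMap.opNorm_le_bound _ (Real.exp_pos _).le (fun f => ?_)
    have := norm_Ec_le (-c) f
    rwa [norm_neg] at this
  intro a ha
  obtain ⟨h1, h2, h3⟩ := hA a ha
  refine ⟨?_, ?_, ?_⟩
  · intro f g
    simp only [ContinuousLinearMap.mul_apply]
    rw [Ec_conv, h1, ← P_Ec, Ec_conv, Ec_Ec c (-c) g, add_neg_cancel, Ec_zero]
  · calc ‖Ec c * A a * Ec (-c)‖ ≤ ‖Ec c * A a‖ * ‖Ec (-c)‖ := norm_mul_le _ _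
      _ ≤ (‖Ec c‖ * ‖A a‖) * ‖Ec (-c)‖ :=
          mul_le_mul_of_nonneg_right (norm_mul_le _ _) (norm_nonneg _)
      _ ≤ (Real.exp ‖c‖ * (C / (1 - a))) * Real.exp ‖c‖ := by
          apply mul_le_mul _ hn2 (norm_nonneg _)
          · exact mul_nonneg (Real.exp_pos _).le ((norm_nonneg _).trans h2)
          · exact mul_le_mul hn1 h2 (norm_nonneg _) (Real.exp_pos _).le
      _ = Real.exp ‖c‖ * Real.exp ‖c‖ * C / (1 - a) := by ring
  · intro b hb hab
    show P a * (Ec c * A b * Ec (-c)) = Ec c * A a * Ec (-c)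
    rw [← h3 b hb hab]
    ext1 f
    simp only [ContinuousLinearMap.mul_apply]
    rw [P_Ec]

theorem k04_hb (S : Submodule ℂ V) (hS : ¬ Dense (S : Set V)) :
    ∃ φ : V →L[ℂ] ℂ, φ ≠ 0 ∧ ∀ x ∈ S, φ x = 0 := by
  have h1 : ∃ x, x ∉ S.topologicalClosure := by
    by_contra hcon
    push Not at hcon
    apply hS
    rw [Submodule.dense_iff_topologicalClosure_eq_top]
    exact (Submodule.eq_top_iff').2 hcon
  obtain ⟨x, hx⟩ := h1
  obtain ⟨f, c, h2, h3⟩ := RCLike.geometric_hahn_banach_closed_point (𝕜 := ℂ)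
    (s := (S.topologicalClosure : Set V)) ((S.topologicalClosure.restrictScalars ℝ).convex)
    S.isClosed_topologicalClosure hx
  have h0 : 0 < c := by
    have := h2 0 S.topologicalClosure.zero_mem
    simpa using this
  have h4 : ∀ a ∈ S.topologicalClosure, (f a).re = 0 := by
    intro a ha
    by_contra hne
    have h5 := h2 (((c / (f a).re : ℝ) : ℂ) • a) (S.topologicalClosure.smul_mem _ ha)
    rw [map_smul, smul_eq_mul] at h5
    have h6 : RCLike.re ((((c / (f a).re : ℝ) : ℂ)) * f a) = c := by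
      change ((((c / (f a).re : ℝ) : ℂ)) * f a).re = c
      rw [Complex.re_ofReal_mul]
      field_simp
    rw [h6] at h5
    exact lt_irrefl _ h5
  refine ⟨f, ?_, fun a ha => ?_⟩
  · rintro rfl
    have : RCLike.re ((0 : V →L[ℂ] ℂ) x) = 0 := by simp
    rw [this] at h3
    exact absurd h0 (not_lt.2 h3.le)
  · have ha' := S.le_topologicalClosure ha
    apply Complex.ext
    · rw [h4 a ha']
      rfl
    · have h7 := h4 (Complex.I • a) (S.topologicalClosure.smul_mem _ ha')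
      rw [map_smul, smul_eq_mul] at h7
      simp at h7
      simpa using h7

theorem k04_fn_cont (φ : V →L[ℂ] ℂ) (y : V) : ContinuousOn (fun r => φ (tau r y)) (Ici 0) :=
  φ.continuous.comp_continuousOn (tau_cont y)

theorem k04_e_tau {h : ℝ} (h0 : 0 < h) (y : V) :
    conv (e h) y = ((h⁻¹ : ℝ) : ℂ) • (conv u y - tau h (conv u y)) := by
  unfold e
  rw [conv_smul_left, tau_conv h0.le, ← cL_apply, map_sub]
  rfl

theorem k04_ftc (φ : V →L[ℂ] ℂ) (y : V) {a b : ℝ} (ha : 0 ≤ a) (hab : a ≤ b) :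
    ∫ r in a..b, φ (tau r y) = φ (tau a (conv u y)) - φ (tau b (conv u y)) := by
  have h1 : ∫ r in a..b, - φ (tau r y) = φ (tau b (conv u y)) - φ (tau a (conv u y)) := by
    refine intervalIntegral.integral_eq_sub_of_hasDeriv_right_of_le
      (f := fun r => φ (tau r (conv u y))) hab ?_ ?_ ?_
    · exact (k04_fn_cont φ (conv u y)).mono (fun x hx => ha.trans hx.1)
    · intro x hx
      rw [hasDerivWithinAt_iff_tendsto_slope' (by simp)]
      have h2 : Tendsto (fun y : ℝ => y - x) (𝓝[>] x) (𝓝[>] 0) := by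
        refine tendsto_nhdsWithin_iff.2 ⟨?_, ?_⟩
        · have : Tendsto (fun y : ℝ => y - x) (𝓝 x) (𝓝 (x - x)) := by
            exact (continuous_id.sub continuous_const).tendsto x
          rw [sub_self] at this
          exact this.mono_left nhdsWithin_le_nhds
        · filter_upwards [self_mem_nhdsWithin] with z hz
          exact sub_pos.2 (show x < z from hz)
      have h3 : Tendsto (fun h => - φ (tau x (conv (e h) y))) (𝓝[>] 0) (𝓝 (- φ (tau x y))) := by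
        have h4 : Continuous (fun v : V => - φ (tau x v)) := by fun_prop
        exact (h4.tendsto _).comp (conv_e_tendsto y)
      refine (h3.comp h2).congr' ?_
      filter_upwards [self_mem_nhdsWithin] with z hz
      have hz' : x < z := hz
      have hx0 : 0 ≤ x := ha.trans hx.1.le
      rw [Function.comp_apply, k04_e_tau (sub_pos.2 hz'), map_smul, map_sub,
        tau_tau hx0 (sub_pos.2 hz').le, slope_def_module, map_smul, map_sub]
      rw [add_sub_cancel]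
      rw [Complex.real_smul, smul_eq_mul]
      ring
    · have h5 : ContinuousOn (fun r => - φ (tau r y)) (uIcc a b) := by
        rw [uIcc_of_le hab]
        exact ((k04_fn_cont φ y).mono (fun x hx => ha.trans hx.1)).neg
      exact h5.intervalIntegrable
  rw [intervalIntegral.integral_neg] at h1
  rw [← neg_sub, ← h1, neg_neg]

theorem k04_int (φ : V →L[ℂ] ℂ) (y : V) : Integrable (fun t => φ (tau (1 - t) y)) mI := by
  have h1 : ContinuousOn (fun t : ℝ => φ (tau (1 - t) y)) (Icc 0 1) := by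
    refine (k04_fn_cont φ y).comp (t := Ici 0) (f := fun t : ℝ => 1 - t)
      (continuous_const.sub continuous_id).continuousOn ?_
    intro t ht
    exact sub_nonneg.2 ht.2
  exact h1.integrableOn_Icc

/-- reflected functional -/
noncomputable def k04_J0 (φ : V →L[ℂ] ℂ) (y : V) : V := (k04_int φ y).toL1 _

theorem k04_J_ae (φ : V →L[ℂ] ℂ) (y : V) :
    (k04_J0 φ y : ℝ → ℂ) =ᵐ[mI] fun t => φ (tau (1 - t) y) := Integrable.coeFn_toL1 _

theorem k04_mem : ∀ᵐ t ∂mI, t ∈ Icc (0:ℝ) 1 := by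
  unfold mI
  exact ae_restrict_mem measurableSet_Icc

theorem k04_J_add (φ : V →L[ℂ] ℂ) (x y : V) : k04_J0 φ (x + y) = k04_J0 φ x + k04_J0 φ y := by
  apply Lp.ext
  filter_upwards [k04_J_ae φ (x + y), k04_J_ae φ x, k04_J_ae φ y,
    Lp.coeFn_add (k04_J0 φ x) (k04_J0 φ y)] with t h1 h2 h3 h4
  rw [h4, Pi.add_apply, h1, h2, h3, map_add, map_add]

theorem k04_J_smul (φ : V →L[ℂ] ℂ) (c : ℂ) (y : V) : k04_J0 φ (c • y) = c • k04_J0 φ y := by
  apply Lp.ext
  filter_upwards [k04_J_ae φ (c • y), k04_J_ae φ y,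
    Lp.coeFn_smul c (k04_J0 φ y)] with t h1 h2 h3
  rw [h3, Pi.smul_apply, h1, h2, map_smul, map_smul]

theorem k04_J_bound (φ : V →L[ℂ] ℂ) (y : V) :
    ‖k04_J0 φ y‖ ≤ ((measureUnivNNReal mI : ℝ) ^ (ENNReal.toReal 1)⁻¹ * ‖φ‖) * ‖y‖ := by
  have h1 : ‖k04_J0 φ y‖ ≤ (measureUnivNNReal mI : ℝ) ^ (ENNReal.toReal 1)⁻¹ * (‖φ‖ * ‖y‖) := by
    refine Lp.norm_le_of_ae_bound (by positivity) ?_
    filter_upwards [k04_J_ae φ y, k04_mem] with t h2 h3
    rw [h2]
    refine (φ.le_opNorm _).trans ?_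
    exact mul_le_mul_of_nonneg_left (norm_tau_le (sub_nonneg.2 h3.2) y) (norm_nonneg _)
  rwa [mul_assoc]

/-- reflected functional as an operator -/
noncomputable def k04_J (φ : V →L[ℂ] ℂ) : V →L[ℂ] V :=
  LinearMap.mkContinuous
    { toFun := k04_J0 φ
      map_add' := k04_J_add φ
      map_smul' := k04_J_smul φ } _ (k04_J_bound φ)

theorem k04_J_apply (φ : V →L[ℂ] ℂ) (y : V) : k04_J φ y = k04_J0 φ y := rfl

theorem k04_comm_u (φ : V →L[ℂ] ℂ) (y : V) : k04_J φ (conv u y) = conv u (k04_J φ y) := by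
  rw [k04_J_apply, k04_J_apply]
  apply Lp.ext
  filter_upwards [k04_J_ae φ (conv u y), conv_u_ae (k04_J0 φ y), k04_mem] with t h1 h2 ht
  rw [h1, h2]
  have h3 : ∫ s in (0:ℝ)..t, (k04_J0 φ y) s = ∫ s in (0:ℝ)..t, φ (tau (1 - s) y) := by
    apply intervalIntegral.integral_congr_ae
    have h4 := k04_J_ae φ y
    unfold mI at h4
    have h5 := (ae_restrict_iff' measurableSet_Icc).1 h4
    filter_upwards [h5] with s hs hs2
    rw [uIoc_of_le ht.1] at hs2
    exact hs ⟨hs2.1.le, hs2.2.trans ht.2⟩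
  rw [h3, intervalIntegral.integral_comp_sub_left (fun r => φ (tau r y)) 1,
    k04_ftc φ y (sub_nonneg.2 ht.2) (by linarith [ht.1]), sub_zero, tau_eq_zero le_rfl, map_zero,
    sub_zero]

theorem k04_comm_cpow (φ : V →L[ℂ] ℂ) (n : ℕ) (y : V) :
    k04_J φ (conv (cpow u n) y) = conv (cpow u n) (k04_J φ y) := by
  induction n generalizing y with
  | zero => exact k04_comm_u φ y
  | succ n ih =>
    change k04_J φ (conv (conv u (cpow u n)) y) = conv (conv u (cpow u n)) (k04_J φ y)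
    rw [conv_assoc, conv_assoc, k04_comm_u, ih]

theorem k04_comm (φ : V →L[ℂ] ℂ) (k y : V) :
    k04_J φ (conv k y) = conv k (k04_J φ y) := by
  have h1 : Continuous (fun k : V => k04_J φ (cL k y)) := by fun_prop
  have h2 : Continuous (fun k : V => cL k (k04_J φ y)) := by fun_prop
  have h3 : Set.EqOn (fun k : V => k04_J φ (cL k y)) (fun k : V => cL k (k04_J φ y))
      (Submodule.span ℂ (Set.range (cpow u)) : Set V) := by
    intro k hk
    induction hk using Submodule.span_induction with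
    | mem z hz =>
      obtain ⟨n, rfl⟩ := hz
      exact k04_comm_cpow φ n y
    | zero =>
      simp only [map_zero, zero_apply']
    | add a b _ _ ha hb =>
      simp only [map_add] at ha hb ⊢
      rw [show (cL a + cL b) y = cL a y + cL b y from rfl, map_add, ha, hb]
      rfl
    | smul c a _ ha =>
      simp only [map_smul] at ha ⊢
      rw [show (c • cL a) y = c • cL a y from rfl, map_smul, ha]
      rfl
  exact congrFun (Continuous.ext_on dense_cpow h1 h2 h3) k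

theorem dense_conv {h : V} (hh : ∀ ε > 0, P ε h ≠ 0) : DenseRange (fun x : V => conv x h) := by
  by_contra hcon
  have h1 : ¬ Dense ((LinearMap.range ((cL.flip h : V →L[ℂ] V) : V →ₗ[ℂ] V)) : Set V) := by
    intro h2
    apply hcon
    exact h2
  obtain ⟨φ, hφ, hφ2⟩ := k04_hb _ h1
  have h2 : ∀ x, φ (conv x h) = 0 := fun x => hφ2 _ ⟨x, rfl⟩
  have h3 : ∀ x, k04_J φ (conv x h) = 0 := by
    intro x
    rw [k04_J_apply]
    apply Lp.ext
    filter_upwards [k04_J_ae φ (conv x h), k04_mem, Lp.coeFn_zero ℂ 1 mI] with t h4 h5 h6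
    rw [h4, h6, tau_conv (sub_nonneg.2 h5.2), h2]
    rfl
  have h4 : ∀ x, k04_J φ x = 0 := by
    intro x
    have h5 : conv h (k04_J φ x) = 0 := by
      rw [← k04_comm, conv_comm, h3]
    have h6 := titch le_rfl hh (k := k04_J φ x) (by rw [h5, map_zero])
    rwa [P_of_one_le le_rfl] at h6
  have h5 : ∀ x, φ (conv u x) = 0 := by
    intro x
    have h6 := k04_ftc φ x (a := 0) (b := 1) le_rfl zero_le_one
    rw [tau_zero, tau_eq_zero le_rfl, map_zero, sub_zero] at h6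
    rw [← h6]
    have h7 : ∫ r in (0:ℝ)..1, φ (tau r x) = ∫ t in (0:ℝ)..1, φ (tau (1 - t) x) := by
      rw [intervalIntegral.integral_comp_sub_left (fun r => φ (tau r x)) 1]
      simp
    rw [h7]
    have h8 := k04_J_ae φ x
    rw [← k04_J_apply, h4 x] at h8
    have h9 : ∀ᵐ t ∂mI, φ (tau (1 - t) x) = 0 := by
      filter_upwards [h8, Lp.coeFn_zero ℂ 1 mI] with t h10 h11
      rw [← h10, h11]
      rfl
    unfold mI at h9
    have h10 := (ae_restrict_iff' measurableSet_Icc).1 h9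
    apply intervalIntegral.integral_zero_ae
    filter_upwards [h10] with s hs hs2
    rw [uIoc_of_le zero_le_one] at hs2
    exact hs ⟨hs2.1.le, hs2.2⟩
  apply hφ
  have h6 : (fun x : V => φ x) = fun _ => 0 := by
    refine dense_conv_u.equalizer φ.continuous continuous_const ?_
    funext x
    exact h5 x
  exact ContinuousLinearMap.ext fun x => congrFun h6 x

/-- domination property -/
def Dom (h : V) (N : ℝ) (y : V) : Prop :=
  ∀ a ∈ Ioo (0:ℝ) 1, ∀ x : V, ‖P a (conv x y)‖ ≤ N / (1 - a) * ‖P a (conv x h)‖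

theorem dom_of_fam {σ : ℝ → (V →L[ℂ] V)} {C : ℝ} (hσ : Fam σ C) {h y : V}
    (hy : ∀ a ∈ Ioo (0:ℝ) 1, P a y = σ a h) : Dom h C y := by
  intro a ha x
  have hmul := (hσ a ha).1
  have hbd := (hσ a ha).2.1
  have e1 : P a (conv x y) = σ a (P a (conv x h)) := by
    rw [conv_comm x y, P_conv, hy a ha, ← hmul, mul_P_right hmul, conv_comm h x]
  rw [e1]
  refine (ContinuousLinearMap.le_opNorm _ _).trans ?_
  exact mul_le_mul_of_nonneg_right hbd (norm_nonneg _)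

/-- the multiplier at level `a` given by domination -/
theorem k05_exists {h : V} (hh : ∀ ε > 0, P ε h ≠ 0) {y : V} {N : ℝ} (hN : 0 ≤ N)
    (hd : Dom h N y) (a : ℝ) (ha : a ∈ Ioo (0:ℝ) 1) :
    ∃ S : V →L[ℂ] V, IsMul a S ∧ ‖S‖ ≤ N / (1 - a) ∧ P a y = S h := by
  have h1a : 0 < 1 - a := by linarith [ha.2]
  have hc : 0 ≤ N / (1 - a) := div_nonneg hN h1a.le
  have hA : DenseRange (cL h) := by
    have h2 := dense_conv hh
    have h3 : (fun x : V => conv x h) = (cL h : V → V) := by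
      funext x
      rw [cL_apply, conv_comm]
    rw [← h3]
    exact h2
  obtain ⟨S, hS, hSn⟩ := op_factor (cL h) (P a * cL y) hA (N / (1 - a)) hc (by
    intro x
    have h4 : (P a * cL y) x = P a (conv x y) := by
      rw [conv_comm x y]; rfl
    have h5 : (cL h) x = conv x h := by
      rw [cL_apply, conv_comm]
    rw [h4, h5]
    refine (hd a ha x).trans ?_
    exact mul_le_mul_of_nonneg_left (norm_P_le _ _) hc)
  have hS' : ∀ x, S (conv h x) = P a (conv y x) := fun x => hS x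
  have hmul : IsMul a S := by
    intro p q
    have hcont1 : Continuous (fun p : V => S (cL p q)) := by fun_prop
    have hcont2 : Continuous (fun p : V => P a (cL (S p) q)) := by fun_prop
    have hcl : IsClosed {p : V | S (cL p q) = P a (cL (S p) q)} := isClosed_eq hcont1 hcont2
    refine hA.induction_on (p := fun p : V => S (cL p q) = P a (cL (S p) q)) p hcl ?_
    intro x
    have e1 : (cL ((cL h) x)) q = conv h (conv x q) := by
      rw [cL_apply, cL_apply, conv_assoc]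
    have e2 : (cL (S ((cL h) x))) q = conv (P a (conv y x)) q := by
      rw [cL_apply, cL_apply, hS']
    rw [e1, e2, hS', ← conv_assoc, P_conv]
  refine ⟨S, hmul, hSn, ?_⟩
  have h6 : P a (conv u (y - S h)) = 0 := by
    have h7 : P a (conv y u) = P a (conv (S h) u) := by
      rw [← hS' u, hmul]
    have h8 : conv u (y - S h) = conv y u - conv (S h) u := by
      have h9 : conv u (y - S h) = cL u (y - S h) := rfl
      rw [h9, map_sub, cL_apply, cL_apply, conv_comm u y, conv_comm u (S h)]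
    rw [h8, map_sub, h7, sub_self]
  have h10 := inj_u h6
  rw [map_sub, mul_P_left hmul, sub_eq_zero] at h10
  exact h10

theorem k05_zero_mul (a : ℝ) : IsMul a (0 : V →L[ℂ] V) := by
  intro f g
  have h9 : conv (0 : V) g = cL 0 g := rfl
  rw [zero_apply', zero_apply', h9, map_zero]
  simp

theorem k05_compat {h : V} (hh : ∀ ε > 0, P ε h ≠ 0) {y : V} {a b : ℝ} (hab : a ≤ b)
    (ha1 : a ≤ 1) {S S' : V →L[ℂ] V} (hS : IsMul a S) (hS' : IsMul b S')
    (e : P a y = S h) (e' : P b y = S' h) : P a * S' = S := by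
  have hD : IsMul a (P a * S' + (-1 : ℂ) • S) := mul_add (mul_restrict hab hS') (mul_smul hS _)
  have hDh : (P a * S' + (-1 : ℂ) • S) h = 0 := by
    have h1 : (P a * S' + (-1 : ℂ) • S) h = P a (S' h) + (-1 : ℂ) • (S h) := rfl
    rw [h1, ← e, ← e', P_P, min_eq_left hab]
    simp
  have hDu : (P a * S' + (-1 : ℂ) • S) u = 0 := by
    have h2 : P a (conv h ((P a * S' + (-1 : ℂ) • S) u)) = 0 := by
      rw [conv_comm, ← hD u h, conv_comm u h, hD h u, hDh]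
      have h9 : conv (0 : V) u = cL 0 u := rfl
      rw [h9, map_zero]
      simp
    have h3 := titch ha1 hh h2
    rw [mul_P_left hD] at h3
    exact h3
  have h4 : (P a * S' + (-1 : ℂ) • S) = 0 := by
    refine mul_ext hD (k05_zero_mul a) ?_
    rw [hDu, zero_apply']
  have h5 : P a * S' - S = 0 := by
    rw [← h4]
    simp [sub_eq_add_neg]
  exact sub_eq_zero.mp h5

theorem fam_of_dom {h : V} (hh : ∀ ε > 0, P ε h ≠ 0) {y : V} {N : ℝ} (hN : 0 ≤ N)
    (hd : Dom h N y) :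
    ∃ σ : ℝ → (V →L[ℂ] V), Fam σ N ∧ ∀ a ∈ Ioo (0:ℝ) 1, P a y = σ a h := by
  classical
  have hex := k05_exists hh hN hd
  choose! σ hσ using hex
  refine ⟨σ, ?_, fun a ha => (hσ a ha).2.2⟩
  intro a ha
  refine ⟨(hσ a ha).1, (hσ a ha).2.1, ?_⟩
  intro b hb hab
  exact k05_compat hh hab ha.2.le (hσ a ha).1 (hσ b hb).1 (hσ a ha).2.2 (hσ b hb).2.2

theorem k06_mono {h : V} {N N' : ℝ} (hN : N ≤ N') {y : V} (hd : Dom h N y) : Dom h N' y := by
  intro a ha x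
  refine (hd a ha x).trans ?_
  have h1 : 0 < 1 - a := by linarith [ha.2]
  gcongr

theorem k06_hasDeriv (a : ℝ) (x f : V) (c : ℂ) :
    HasDerivAt (fun z : ℂ => P a (conv x (Ec z f))) (P a (conv x (Ec c (M f)))) c := by
  have h1 := Ec_hasDeriv c f
  have h2 := ((P a).comp (cL x)).hasFDerivAt.comp_hasDerivAt c h1
  exact h2

theorem k06_hasDeriv' (a : ℝ) (x f : V) (c : ℂ) :
    HasDerivAt (fun z : ℂ => P a (conv x (Ec z f - f))) (P a (conv x (Ec c (M f)))) c := by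
  have h1 := (Ec_hasDeriv c f).sub_const f
  have h2 := ((P a).comp (cL x)).hasFDerivAt.comp_hasDerivAt c h1
  exact h2

theorem k06_cauchy {G G' : ℂ → V} (hG : ∀ c, HasDerivAt G (G' c) c) {c : ℂ} {R C : ℝ}
    (hR : 0 < R) (hC : ∀ z ∈ Metric.closedBall c R, ‖G z‖ ≤ C) : ‖G' c‖ ≤ C / R := by
  rw [← (hG c).deriv]
  refine Complex.norm_deriv_le_of_forall_mem_sphere_norm_le hR ?_ ?_
  · have hd : Differentiable ℂ G := fun z => (hG z).differentiableAt
    exact hd.diffContOnCl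
  · intro z hz
    exact hC z (Metric.sphere_subset_closedBall hz)

theorem baire_cauchy {f h : V} (hb : ∀ c : ℂ, ∃ N : ℝ, 0 ≤ N ∧ Dom h N (Ec c f - f)) :
    ∃ (c0 : ℂ) (N : ℝ), 0 ≤ N ∧ Dom h N (Ec c0 (M f)) ∧ Dom h N (Ec c0 (M (M f))) := by
  let B : ℕ → Set ℂ := fun n => {c | Dom h (n : ℝ) (Ec c f - f)}
  have hclosed : ∀ n, IsClosed (B n) := by
    intro n
    have hB : B n = ⋂ (a : ℝ) (_ : a ∈ Ioo (0:ℝ) 1) (x : V),
        {c : ℂ | ‖P a (conv x (Ec c f - f))‖ ≤ (n : ℝ) / (1 - a) * ‖P a (conv x h)‖} := by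
      ext c
      simp only [B, mem_setOf_eq, mem_iInter, Dom]
    rw [hB]
    refine isClosed_iInter fun a => isClosed_iInter fun _ => isClosed_iInter fun x => ?_
    have hc : Continuous (fun z : ℂ => P a (conv x (Ec z f - f))) :=
      continuous_iff_continuousAt.mpr fun z => (k06_hasDeriv' a x f z).continuousAt
    exact isClosed_le hc.norm continuous_const
  have hU : (⋃ n, B n) = univ := by
    rw [eq_univ_iff_forall]
    intro c
    obtain ⟨N, hN0, hN⟩ := hb c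
    rw [mem_iUnion]
    exact ⟨⌈N⌉₊, k06_mono (Nat.le_ceil N) hN⟩
  obtain ⟨n, c0, hc0⟩ := nonempty_interior_of_iUnion_of_closed hclosed hU
  rw [mem_interior_iff_mem_nhds] at hc0
  obtain ⟨r, hr, hrB⟩ := Metric.nhds_basis_closedBall.mem_iff.mp hc0
  have hr2 : 0 < r / 2 := by linarith
  have key1 : ∀ a ∈ Ioo (0:ℝ) 1, ∀ x : V, ∀ c ∈ Metric.closedBall c0 (r / 2),
      ‖P a (conv x (Ec c (M f)))‖ ≤ (n : ℝ) / (1 - a) * ‖P a (conv x h)‖ / (r / 2) := by
    intro a ha x c hc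
    refine k06_cauchy (G := fun z => P a (conv x (Ec z f - f)))
      (G' := fun z => P a (conv x (Ec z (M f)))) (fun z => k06_hasDeriv' a x f z) hr2 ?_
    intro z hz
    have hz' : z ∈ Metric.closedBall c0 r := by
      rw [Metric.mem_closedBall] at *
      linarith [dist_triangle z c c0]
    exact hrB hz' a ha x
  have key2 : ∀ a ∈ Ioo (0:ℝ) 1, ∀ x : V,
      ‖P a (conv x (Ec c0 (M (M f))))‖ ≤
        (n : ℝ) / (1 - a) * ‖P a (conv x h)‖ / (r / 2) / (r / 2) := by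
    intro a ha x
    exact k06_cauchy (G := fun z => P a (conv x (Ec z (M f))))
      (G' := fun z => P a (conv x (Ec z (M (M f))))) (fun z => k06_hasDeriv a x (M f) z) hr2
      (fun z hz => key1 a ha x z hz)
  have hd1 : Dom h ((n : ℝ) / (r / 2)) (Ec c0 (M f)) := by
    intro a ha x
    refine (key1 a ha x c0 (Metric.mem_closedBall_self hr2.le)).trans (le_of_eq ?_)
    ring
  have hd2 : Dom h ((n : ℝ) / (r / 2) / (r / 2)) (Ec c0 (M (M f))) := by
    intro a ha x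
    refine (key2 a ha x).trans (le_of_eq ?_)
    ring
  have hn0 : (0:ℝ) ≤ (n : ℝ) / (r / 2) := by positivity
  exact ⟨c0, max ((n : ℝ) / (r / 2)) ((n : ℝ) / (r / 2) / (r / 2)), le_max_of_le_left hn0,
    k06_mono (le_max_left _ _) hd1, k06_mono (le_max_right _ _) hd2⟩

theorem atom_theta {a : ℝ} (ha : 0 < a) {θ : V →L[ℂ] V} (hθ : IsMul a θ) {l c : ℂ}
    (hl : Atom θ l) {h : V} (hh : ∀ ε > 0, P ε h ≠ 0) (he : P a (Ec c h) = θ h) : l = 1 := by
  by_contra hne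
  have hd : 0 < ‖l - 1‖ := norm_pos_iff.mpr (sub_ne_zero.mpr hne)
  obtain ⟨ε₁, hε₁, h1⟩ := atom_mono hθ hl (δ := ‖l - 1‖ / 4) (by positivity)
  have hlog : 0 < Real.log (1 + ‖l - 1‖ / 4) := Real.log_pos (by linarith)
  have hε₂ : 0 < Real.log (1 + ‖l - 1‖ / 4) / (‖c‖ + 1) := by positivity
  set ε₂ := Real.log (1 + ‖l - 1‖ / 4) / (‖c‖ + 1) with hε₂'
  set ε := min (min ε₁ a) ε₂ with hε'
  have hε : 0 < ε := lt_min (lt_min hε₁.1 ha) hε₂
  have hεa : ε ≤ a := (min_le_left _ _).trans (min_le_right _ _)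
  have hε1 : ε ≤ ε₁ := (min_le_left _ _).trans (min_le_left _ _)
  have hε2 : ε ≤ ε₂ := min_le_right _ _
  have h2 : Real.exp (‖c‖ * ε) - 1 ≤ ‖l - 1‖ / 4 := by
    have h3 : ‖c‖ * ε ≤ Real.log (1 + ‖l - 1‖ / 4) := by
      calc ‖c‖ * ε ≤ (‖c‖ + 1) * ε₂ :=
            mul_le_mul (by linarith) hε2 hε.le (by positivity)
        _ = Real.log (1 + ‖l - 1‖ / 4) := by
            rw [hε₂']; field_simp
    have h4 := Real.exp_le_exp.mpr h3
    rw [Real.exp_log (by positivity)] at h4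
    linarith
  have h5 := h1 ε ⟨hε, hε1⟩ h
  have h6 := norm_Ec_sub hε.le c h
  have h7 : P ε (θ h) = P ε (Ec c h) := by
    rw [← he, P_P, min_eq_left hεa]
  have h8 : (l - 1) • P ε h = P ε (Ec c h - h) - P ε (θ h - l • h) := by
    rw [map_sub, map_sub, h7, map_smul, sub_smul, one_smul]
    abel
  have h9 : ‖l - 1‖ * ‖P ε h‖ ≤ ‖P ε (Ec c h - h)‖ + ‖P ε (θ h - l • h)‖ := by
    rw [← norm_smul, h8]
    exact norm_sub_le _ _
  have h10 : 0 < ‖P ε h‖ := norm_pos_iff.mpr (hh ε hε)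
  have h11 : (Real.exp (‖c‖ * ε) - 1) * ‖P ε h‖ ≤ ‖l - 1‖ / 4 * ‖P ε h‖ :=
    mul_le_mul_of_nonneg_right h2 h10.le
  have h12 : 0 < ‖l - 1‖ * ‖P ε h‖ := mul_pos hd h10
  linarith

theorem k07_M_inj {g : V} (h : M g = 0) : g = 0 := by
  have h1 := M_ae g
  rw [h] at h1
  have h2 : ((0 : V) : ℝ → ℂ) =ᵐ[mI] 0 := Lp.coeFn_zero _ _ _
  have h3 : ∀ᵐ t ∂mI, t ≠ 0 := by
    unfold mI
    exact compl_mem_ae_iff.mpr (measure_singleton 0)
  apply Lp.ext
  filter_upwards [h1, h2, h3] with t ht1 ht2 ht3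
  rw [ht2] at ht1 ⊢
  have h4 : (t : ℂ) * g t = 0 := ht1.symm
  exact (mul_eq_zero.mp h4).resolve_left (by exact_mod_cast ht3)

theorem k07_hh {f : V} (hf : ∀ ε > 0, P ε f ≠ 0) : ∀ ε > 0, P ε (M f) ≠ 0 := by
  intro ε hε h
  rw [P_M] at h
  exact hf ε hε (k07_M_inj h)

theorem k07_dom_mono {h y : V} {N N' : ℝ} (hN : N ≤ N') (hd : Dom h N y) : Dom h N' y := by
  intro a ha x
  refine (hd a ha x).trans ?_
  have h1 : 0 < 1 - a := by linarith [ha.2]
  exact mul_le_mul_of_nonneg_right (div_le_div_of_nonneg_right hN h1.le) (norm_nonneg _)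

theorem sharp {f : V} (hf : ∀ ε > 0, P ε f ≠ 0)
    (hs : ∀ c : ℂ, ∃ (σ : ℝ → (V →L[ℂ] V)) (C : ℝ), Fam σ C ∧
      ∀ a ∈ Ioo (0:ℝ) 1, P a (Ec c f - f) = σ a (M f)) :
    ∃ (ψ : ℝ → (V →L[ℂ] V)) (C : ℝ), Fam ψ C ∧ ∀ a ∈ Ioo (0:ℝ) 1, P a (M (M f)) = ψ a (M f) := by
  have hh := k07_hh hf
  obtain ⟨c0, N, hN, d1, d2⟩ := baire_cauchy (f := f) (h := M f) (by
    intro c
    obtain ⟨σ, C, hσ, hσ'⟩ := hs c
    exact ⟨max C 0, le_max_right _ _, k07_dom_mono (le_max_left _ _) (dom_of_fam hσ hσ')⟩)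
  obtain ⟨θ1, hθ1, e1⟩ := fam_of_dom hh hN d1
  obtain ⟨θ2, hθ2, e2⟩ := fam_of_dom hh hN d2
  have hat : ∀ a ∈ Ioo (0:ℝ) 1, Atom (θ1 a) 1 := by
    intro a ha
    obtain ⟨l, hl⟩ := atom_exists ha.1 ha.2.le (hθ1 a ha).1
    have h1 := atom_theta ha.1 (hθ1 a ha).1 hl hh (e1 a ha)
    rwa [h1] at hl
  obtain ⟨B, C', hB, hB'⟩ := fam_inv hθ1 one_ne_zero hat
  obtain ⟨C'', hC''⟩ := fam_mul hθ2 hB
  refine ⟨_, _, fam_Ec hC'' (-c0), ?_⟩
  intro a ha
  have h1 : B a (Ec c0 (M f)) = P a (M f) := by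
    rw [← mul_P_right (hB a ha).1, e1 a ha, ← mul_apply_eq_comp', (hB' a ha).2]
  have h2 : P a (M (M f)) = Ec (-c0) (P a (Ec c0 (M (M f)))) := by
    rw [← P_Ec, Ec_Ec, neg_add_cancel, Ec_zero]
  rw [h2, e2 a ha]
  show Ec (-c0) (θ2 a (M f)) = Ec (-c0) (θ2 a (B a (Ec (- -c0) (M f))))
  rw [neg_neg, h1, mul_P_right (hθ2 a ha).1]

/-! ### L11: final statements -/

theorem Ec_aut (c : ℂ) : ∃ T : V ≃ₗ[ℂ] V, IsAut T ∧ ∀ f, T f = Ec c f := by
  refine ⟨LinearEquiv.ofLinear (Ec c : V →L[ℂ] V).toLinearMap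
    (Ec (-c) : V →L[ℂ] V).toLinearMap ?_ ?_, ?_, ?_⟩
  · ext1 f
    show Ec c (Ec (-c) f) = f
    rw [Ec_Ec, add_neg_cancel, Ec_zero]
  · ext1 f
    show Ec (-c) (Ec c f) = f
    rw [Ec_Ec, neg_add_cancel, Ec_zero]
  · intro f g
    exact Ec_conv c f g
  · intro f; rfl

theorem regular_iff {f : V} (hf : ∀ ε > 0, P ε f ≠ 0) :
    (∃ H : ℝ → ℂ, InG H ∧ DConv H (M f) (M (M f))) ↔
    ∀ g : V, ((∃ T : V ≃ₗ[ℂ] V, IsAut T ∧ T f = g) ↔
      ∃ G : ℝ → ℂ, InG G ∧ DConv G (M f) (g - f)) := by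
  constructor
  · rintro ⟨H, hH, hHf⟩ g
    exact regular_orbit_fun hf hH hHf g
  · intro h
    obtain ⟨ψ, C, hψ, hψf⟩ := sharp hf (fun c => by
      obtain ⟨T, hT, hTc⟩ := Ec_aut c
      obtain ⟨G, ⟨CG, hG⟩, hGf⟩ := (h (Ec c f)).mp ⟨T, hT, hTc f⟩
      obtain ⟨σ, C, hσ, hσG⟩ := fam_of_fun G CG hG
      exact ⟨σ, C, hσ, (fam_fun_iff hσ hσG (M f) (Ec c f - f)).mpr hGf⟩)
    obtain ⟨H, C', hH, hHψ⟩ := fun_of_fam hψ
    exact ⟨H, ⟨C', hH⟩, (fam_fun_iff hψ hHψ (M f) (M (M f))).mp hψf⟩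

theorem regular_iff' {f : V} (hf : Alpha0 f) :
    (∃ H : ℝ → ℂ, InG H ∧ IsDConv H (fun s => (s:ℂ) * f s) (fun s => (s:ℂ) ^ 2 * f s)) ↔
    ∀ g : V, ((∃ T : V ≃ₗ[ℂ] V, IsAut T ∧ T f = g) ↔
      ∃ G : ℝ → ℂ, InG G ∧ IsDConv G (fun s => (s:ℂ) * f s) (fun s => g s - f s)) := by
  have h := regular_iff ((alpha0_iff f).mp hf)
  simp only [isDConv_MM, isDConv_sub] at h
  exact h

theorem alpha0_power {β : ℝ} {c : ℂ} (hc : c ≠ 0) {f : V}
    (hf : (f : ℝ → ℂ) =ᵐ[mI] fun t => c * ((t ^ (β - 1) : ℝ) : ℂ)) : Alpha0 f := by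
  intro δ hδ h
  have h1 : ∀ᵐ t ∂mI, t ≤ 0 ∨ δ ≤ t := by
    filter_upwards [h, hf] with t ht h2
    by_contra hcon
    push Not at hcon
    have h3 := ht hcon.2
    rw [h2] at h3
    rcases mul_eq_zero.mp h3 with h4 | h4
    · exact hc h4
    · have h5 : (0:ℝ) < t ^ (β - 1) := Real.rpow_pos_of_pos hcon.1 _
      exact h5.ne' (by exact_mod_cast h4)
  have h2 : mI (Ioo 0 (min δ 1)) = 0 := by
    refine measure_mono_null ?_ h1
    intro t ht
    simp only [mem_compl_iff, mem_setOf_eq, not_or, not_le]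
    exact ⟨ht.1, lt_of_lt_of_le ht.2 (min_le_left _ _)⟩
  unfold mI at h2
  rw [Measure.restrict_apply measurableSet_Ioo] at h2
  have h3 : Ioo 0 (min δ 1) ∩ Icc (0:ℝ) 1 = Ioo 0 (min δ 1) := by
    apply inter_eq_left.mpr
    intro t ht
    exact ⟨ht.1.le, ht.2.le.trans (min_le_right _ _)⟩
  rw [h3, Real.volume_Ioo] at h2
  have h4 : 0 < min δ 1 - 0 := by
    rw [sub_zero]; exact lt_min hδ one_pos
  rw [ENNReal.ofReal_eq_zero] at h2
  linarith

theorem power_orbit {β : ℝ} (hβ : 0 < β) {c : ℂ} (hc : c ≠ 0) {f : V}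
    (hf : (f : ℝ → ℂ) =ᵐ[mI] fun t => c * ((t ^ (β - 1) : ℝ) : ℂ)) (g : V) :
    (∃ T : V ≃ₗ[ℂ] V, IsAut T ∧ T f = g) ↔
      ∃ G : ℝ → ℂ, InG G ∧ (g : ℝ → ℂ) =ᵐ[mI] fun t => c * ((t ^ (β - 1) : ℝ) : ℂ) +
        ∫ s in (0:ℝ)..t, (((t - s) ^ (β - 1) : ℝ) : ℂ) * G s := by
  have ha := (alpha0_iff f).mp (alpha0_power hc hf)
  have hb : (0:ℝ) ≤ β + 1 := by linarith
  rw [regular_orbit_fun ha (inG_linear hb) (power_example hβ hf) g]
  have hcβ : c * (β:ℂ) ≠ 0 := mul_ne_zero hc (by exact_mod_cast hβ.ne')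
  constructor
  · rintro ⟨G, hG, h⟩
    refine ⟨fun t => c * β * G t, inG_smul hG _, ?_⟩
    have h1 := (power_dconv hβ hG hf).mp h
    filter_upwards [h1] with t ht
    rw [ht, ← intervalIntegral.integral_const_mul]
    congr 1
    apply intervalIntegral.integral_congr
    intro s _
    simp only
    ring
  · rintro ⟨G, hG, h⟩
    refine ⟨fun t => (c * β)⁻¹ * G t, inG_smul hG _, ?_⟩
    apply (power_dconv hβ (inG_smul hG _) hf).mpr
    filter_upwards [h] with t ht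
    rw [ht, ← intervalIntegral.integral_const_mul]
    congr 1
    apply intervalIntegral.integral_congr
    intro s _
    have e : ∀ x y : ℂ, x * y = c * β * (x * ((c * β)⁻¹ * y)) := by
      intro x y
      rw [mul_left_comm x, ← mul_assoc (c * β), mul_inv_cancel₀ hcβ, one_mul]
    exact e _ _

end Volt919
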