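import Mathlib
import Pool.Agent.Helper919.Volt.L7

set_option autoImplicit false

open MeasureTheory Set Filter Topology

namespace Volt919

/-- operator form of the representation -/
theorem aut_of_fam_expo {G : ℝ → ℂ} {A : ℝ → (V →L[ℂ] V)} {C : ℝ} (hA : Fam A C)
    (hAG : ∀ a ∈ Ioo (0:ℝ) 1, ∀ᵐ t ∂mI, t < a → (A a u : ℝ → ℂ) t = G t)
    {T : V → V} (hT : ∀ a ∈ Ioo (0:ℝ) 1, ∀ f, P a (T f) = P a (X (A a) f)) (f g : V) :
    Expo G f g ↔ T f = g := by
  have key : ∀ a ∈ Ioo (0:ℝ) 1, ∀ D : V →L[ℂ] V, IsDOp a G D →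
      ((Tendsto (fun N => ∫ t in (0:ℝ)..a, ‖(∑ n ∈ Finset.range N,
        ((n.factorial : ℂ)⁻¹) • (D ^ n) ((M ^ n) f) : V) t - g t‖) atTop (𝓝 0)) ↔
        P a (T f) = P a g) := by
    intro a ha D hD
    have hDA := opConv_unique (hA a ha).1 (hAG a ha) hD
    have e : (fun N : ℕ => ∫ t in (0:ℝ)..a, ‖(∑ n ∈ Finset.range N,
        ((n.factorial : ℂ)⁻¹) • (D ^ n) ((M ^ n) f) : V) t - g t‖) =
        (fun N : ℕ => ‖∑ n ∈ Finset.range N,
        ((n.factorial : ℂ)⁻¹) • P a ((A a ^ n) ((M ^ n) f)) - P a g‖) := by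
      funext N
      rw [norm_P_sum ha, map_sum]
      simp only [map_smul, opConv_pow (hA a ha).1 hDA]
    rw [e, ← tendsto_iff_norm_sub_tendsto_zero]
    have h2 := (X_hasSum a (A a) f).tendsto_sum_nat
    rw [← hT a ha f] at h2
    constructor
    · intro h3; exact tendsto_nhds_unique h2 h3
    · intro h3; rw [h3] at h2; exact h2
  constructor
  · intro h
    apply P_ext
    intro a ha
    obtain ⟨D, v, hD, hv, hs⟩ := h a ha
    have hv' : v = fun n => (M ^ n) f := by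
      funext n
      apply Lp.ext
      exact (hv n).trans (Mpow_ae f n).symm
    subst hv'
    exact (key a ha D hD).mp hs
  · rintro rfl a ha
    exact ⟨A a, fun n => (M ^ n) f, opConv_of_mul (hA a ha).1 (hAG a ha), Mpow_ae f,
      (key a ha (A a) (opConv_of_mul (hA a ha).1 (hAG a ha))).mpr rfl⟩

theorem expo_of_aut (T : V ≃ₗ[ℂ] V) (hT : IsAut T) :
    ∃ G : ℝ → ℂ, InG G ∧ ∀ f g, Expo G f g ↔ T f = g := by
  obtain ⟨ρ, C, hρ, hX⟩ := aut_param T hT
  obtain ⟨G, C', hG, hGρ⟩ := fun_of_fam hρ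
  exact ⟨G, ⟨C', hG⟩, fun f g => aut_of_fam_expo hρ hGρ hX f g⟩

theorem aut_of_inG {G : ℝ → ℂ} (hG : InG G) :
    ∃ T : V ≃ₗ[ℂ] V, IsAut T ∧ ∀ f g, Expo G f g ↔ T f = g := by
  obtain ⟨CG, hG⟩ := hG
  obtain ⟨A, C', hA, hAG⟩ := fam_of_fun G CG hG
  obtain ⟨T, hT, hTX⟩ := backward' hA
  exact ⟨T.toLinearEquiv, fun x y => hT x y,
    fun f g => aut_of_fam_expo (T := fun x => T x) hA hAG hTX f g⟩

theorem u_ne (ε : ℝ) (hε : 0 < ε) : P ε u ≠ 0 := by
  have h1 : Alpha0 u := by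
    have h := alpha0_power (β := 1) (c := 1) one_ne_zero (f := u) (by
      filter_upwards [u_ae] with t ht
      rw [ht]; simp)
    exact h
  exact (alpha0_iff u).mp h1 ε hε

theorem inG_unique {G G' : ℝ → ℂ} (hG : InG G) (hG' : InG G') {f g : V} (hf : Alpha0 f)
    (h : Expo G f g) (h' : Expo G' f g) : G =ᵐ[mI] G' := by
  obtain ⟨CG, hG⟩ := hG
  obtain ⟨CG', hG'⟩ := hG'
  obtain ⟨A, C, hA, hAG⟩ := fam_of_fun G CG hG
  obtain ⟨A', C', hA', hAG'⟩ := fam_of_fun G' CG' hG'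
  obtain ⟨T, hT, hTX⟩ := backward' hA
  obtain ⟨T', hT', hTX'⟩ := backward' hA'
  have e1 : T f = g := (aut_of_fam_expo (T := fun x => T x) hA hAG hTX f g).mp h
  have e2 : T' f = g := (aut_of_fam_expo (T := fun x => T' x) hA' hAG' hTX' f g).mp h'
  have hTT : T.toLinearEquiv = T'.toLinearEquiv :=
    aut_free ((alpha0_iff f).mp hf) (T := T.toLinearEquiv) (T' := T'.toLinearEquiv)
      (fun x y => hT x y) (fun x y => hT' x y) (by
        show T f = T' f
        rw [e1, e2])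
  have hTTu : T u = T' u := by
    have := congrArg (fun S : V ≃ₗ[ℂ] V => S u) hTT
    exact this
  have hγ : ∀ ε > 0, P ε (T u) ≠ 0 := by
    intro ε hε h0
    have hε' : P (min ε 1) (T u) = 0 := by
      have := congrArg (P (min ε 1)) h0
      rw [P_P, map_zero, min_eq_left (min_le_left _ _)] at this
      exact this
    have h1 := aut_causal T.symm (hom_symm T hT)
      (a := min ε 1) ⟨(lt_min hε one_pos).le, min_le_right _ _⟩ hε'
    rw [T.symm_apply_apply] at h1
    exact u_ne _ (lt_min hε one_pos) h1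
  apply ae_of_all_lt
  intro a ha
  have hm := (hA a ha).1
  have hm' := (hA' a ha).1
  have g1 : P a (T u) = P a (u + conv u (A a (T u))) := by
    have h1 := hTX a ha u
    have h2 := X_u hm
    rw [← h1] at h2
    rw [h2]
    have h3 : A a (X (A a) u) = A a (T u) := by
      rw [← mul_P_right hm (X (A a) u), ← h1, mul_P_right hm]
    rw [h3]
  have g2 : P a (T u) = P a (u + conv u (A' a (T u))) := by
    have h1 := hTX' a ha u
    have h2 := X_u hm'
    rw [← h1] at h2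
    have h3 : A' a (X (A' a) u) = A' a (T' u) := by
      rw [← mul_P_right hm' (X (A' a) u), ← h1, mul_P_right hm']
    rw [hTTu, h2, h3]
  have hD : IsMul a (A a + (-1 : ℂ) • A' a) := mul_add hm (mul_smul hm' (-1))
  set D := A a + (-1 : ℂ) • A' a with hDdef
  have hD0 : D (T u) = 0 := by
    have h1 : P a (conv u (D (T u))) = 0 := by
      have h2 : conv u (D (T u)) = conv u (A a (T u)) - conv u (A' a (T u)) := by
        simp only [hDdef, ContinuousLinearMap.add_apply, ContinuousLinearMap.smul_apply,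
          conv_add_right, conv_smul_right]
        simp [sub_eq_add_neg]
      rw [h2, map_sub]
      rw [map_add] at g1 g2
      have h3 : P a (conv u (A a (T u))) = P a (T u) - P a u := by rw [g1]; abel
      have h4 : P a (conv u (A' a (T u))) = P a (T u) - P a u := by rw [g2]; abel
      rw [h3, h4, sub_self]
    have h2 := inj_u h1
    rwa [mul_P_left hD] at h2
  have h5 : P a (conv (T u) (D u)) = 0 := by
    have h6 : D (conv (T u) u) = P a (conv (D (T u)) u) := hD (T u) u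
    have h7 : D (conv u (T u)) = P a (conv (D u) (T u)) := hD u (T u)
    rw [conv_comm (T u) (D u), ← h7, conv_comm u (T u), h6, hD0]
    have : conv (0 : V) u = 0 := by
      have := conv_smul_left 0 (0 : V) u
      simpa using this
    rw [this, map_zero]
  have h8 := titch ha.2.le hγ h5
  rw [mul_P_left hD] at h8
  have h9 : A a u = A' a u := by
    have : A a u + (-1 : ℂ) • A' a u = 0 := h8
    have h10 : A a u - A' a u = 0 := by simpa [sub_eq_add_neg] using this
    exact sub_eq_zero.mp h10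
  filter_upwards [hAG a ha, hAG' a ha] with t ht ht' hta
  rw [← ht hta, ← ht' hta, h9]

theorem power_mem {β : ℝ} (hβ : 0 < β) (c : ℂ) :
    ∃ p : V, (p : ℝ → ℂ) =ᵐ[mI] fun t => c * ((t ^ (β - 1) : ℝ) : ℂ) := by
  have h1 : IntervalIntegrable (fun t : ℝ => t ^ (β - 1)) volume 0 1 :=
    intervalIntegral.intervalIntegrable_rpow' (by linarith)
  have h2 : Integrable (fun t : ℝ => t ^ (β - 1)) mI := by
    unfold mI
    rw [intervalIntegrable_iff_integrableOn_Icc_of_le zero_le_one] at h1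
    exact h1
  have h3 : Integrable (fun t : ℝ => c * ((t ^ (β - 1) : ℝ) : ℂ)) mI := (h2.ofReal).const_mul c
  exact ⟨h3.toL1 _, h3.coeFn_toL1⟩

theorem power_class {β : ℝ} (hβ : 0 < β) {c : ℂ} (hc : c ≠ 0) {f : V}
    (hf : ∃ G : ℝ → ℂ, InG G ∧ (f : ℝ → ℂ) =ᵐ[mI] fun t => c * ((t ^ (β - 1) : ℝ) : ℂ) +
        ∫ s in (0:ℝ)..t, (((t - s) ^ (β - 1) : ℝ) : ℂ) * G s) (g : V) :
    (∃ T : V ≃ₗ[ℂ] V, IsAut T ∧ T f = g) ↔
      ∃ G : ℝ → ℂ, InG G ∧ (g : ℝ → ℂ) =ᵐ[mI] fun t => c * ((t ^ (β - 1) : ℝ) : ℂ) +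
        ∫ s in (0:ℝ)..t, (((t - s) ^ (β - 1) : ℝ) : ℂ) * G s := by
  obtain ⟨p, hp⟩ := power_mem hβ c
  obtain ⟨T0, hT0, hT0p⟩ := (power_orbit hβ hc hp f).mpr hf
  rw [← power_orbit hβ hc hp g]
  constructor
  · rintro ⟨T, hT, rfl⟩
    refine ⟨T0.trans T, fun x y => ?_, ?_⟩
    · simp only [LinearEquiv.trans_apply, hT0 x y, hT _ _]
    · simp only [LinearEquiv.trans_apply, hT0p]
  · rintro ⟨T, hT, rfl⟩
    refine ⟨T0.symm.trans T, fun x y => ?_, ?_⟩
    · simp only [LinearEquiv.trans_apply]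
      rw [← hT]
      congr 1
      apply T0.injective
      rw [hT0, T0.apply_symm_apply, T0.apply_symm_apply, T0.apply_symm_apply]
    · simp only [LinearEquiv.trans_apply, ← hT0p, LinearEquiv.symm_apply_apply]

end Volt919
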